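import Pool.Agent.H861.GL.Cech

/-!
# GL/DB: special linear forms with few stresses

Models: the proofs of `exists_good` and `two_face` in TT.lean (dimension formulas `hdimK`, `hdimS`,
`hdimD` there: `stress_dim`, `cm`, `cm_del`, `hP_star`, `sur_dim`, `sur_low`, `hP_high`, `ds`).

PAPER PROOF of `top_bound`. Take `θ` from `exists_good hK`. With `G = ∅` (`shF ∅ = id`),
`s = d + 1 - j`, `m = 2 s - d = d + 2 - 2 j ≥ 1`: `(op (θ d))^m` is injective on `St θ K d (d+1-j)`;
it maps into `St θ K d (j - 1)`, and both have the same dimension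
`h_{d+1-j} = h_{j-1}` (`stress_dim`, `ds`). So it is bijective, hence (`m ≥ 1`)
`op (θ d) : St θ K d j → St θ K d (j-1)` is surjective, and its kernel is `St θ K (d+1) j`. Thus
`finrank (St θ K (d+1) j) = h_j - h_{j-1} = gco (hP K d) j`. (`j = 0`: `finrank ≤ 1`; assume `1 ≤ j`.)

PAPER PROOF of `dele_bound`. The same `θ`. Let `w` be a vertex of `K`. `sh w : St θ K d (s+1) →
St θ (star K {w}) d s` is surjective (see `Suraux.surj` with `F = {w}`, `shF {w} = sh w`, and
`cm_del`), and `exists_good` with `G = {w}`, `s = d - j`, `m = 2 s - (d-1) = d + 1 - 2 j ≥ 1` says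
that `(op (θ d))^m` is injective on the image `St θ (star K {w}) d (d-j)`; it maps it into
`St θ (star K {w}) d (j-1)`, of the same dimension (`hP_star`, `ds` for the sphere `lk K {w}` of
dimension parameter `d - 1`: `(d - 1) - (d - j) = j - 1`). So it is bijective, so
`op (θ d) : St θ (star K {w}) d j → St θ (star K {w}) d (j-1)` is surjective for every vertex `w`
(as `m ≥ 1`). By `cech` every `z ∈ St θ (dele K {u}) d (j-1)` is a sum of elements
`y w ∈ St θ (star K {w}) d (j-1)` with `w ∈ nonadj K u`; each is `op (θ d) (x w)` with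
`x w ∈ St θ (star K {w}) d j`, and `star K {w} ⊆ dele K {u}` since `{u, w} ∉ K`. So
`op (θ d) : St θ (dele K {u}) d j → St θ (dele K {u}) d (j-1)` is surjective with kernel
`St θ (dele K {u}) (d+1) j`. Its dimension is the difference of
`finrank St θ (dele K {u}) d j = h_j(K) - h_{j-1}(lk u)` and
`finrank St θ (dele K {u}) d (j-1) = h_{j-1}(K) - h_{j-2}(lk u)` (last term `0` if `j = 1`).
-/

set_option autoImplicit false

namespace Pool.Agent.H861.GL

open Finset Pool.Agent.W555.KS Pool.Agent.Y131.KS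

namespace DBaux

variable {n : ℕ}

theorem shF_empty {k : Type} [Field k] (f : Fn n k) : shF ∅ f = f := by
  funext α
  rw [shF_apply, sum_empty, add_zero]

theorem mem_succ {k : Type} [Field k] {θ : ℕ → Fin n → k} {D : Finset (Finset (Fin n))}
    {d r : ℕ} {f : Fn n k} :
    f ∈ St θ D (d + 1) r ↔ f ∈ St θ D d r ∧ op (θ d) f = 0 := by
  constructor
  · intro h
    exact ⟨⟨h.1, fun l hl => h.2 l (by omega)⟩, h.2 d (by omega)⟩
  · rintro ⟨h, h0⟩
    refine ⟨h.1, fun l hl => ?_⟩
    rcases Nat.lt_succ_iff_lt_or_eq.1 hl with h1 | rfl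
    · exact h.2 l h1
    · exact h0

/-- the dimension of the kernel of a surjective contraction -/
theorem ker_dim {k : Type} [Field k] {D : Finset (Finset (Fin n))}
    (hD : ∀ σ ∈ D, ∀ τ ⊆ σ, τ ∈ D) {θ : ℕ → Fin n → k} {d r : ℕ}
    (hs : ∀ x ∈ St θ D d r, ∃ y ∈ St θ D d (r + 1), op (θ d) y = x) :
    Module.finrank k (St θ D (d + 1) (r + 1)) + Module.finrank k (St θ D d r) =
      Module.finrank k (St θ D d (r + 1)) := by
  have := st_finite (K := D) θ d (r + 1)
  have hmem : ∀ f ∈ St θ D d (r + 1), op (θ d) f ∈ St θ D d r :=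
    fun f hf => TTdaux.op_mem hD hf
  have h1 := LinearMap.finrank_range_add_finrank_ker ((op (θ d)).restrict hmem)
  have hsur : Function.Surjective ((op (θ d)).restrict hmem) := by
    rintro ⟨x, hx⟩
    obtain ⟨y, hy, hyx⟩ := hs x hx
    exact ⟨⟨y, hy⟩, Subtype.ext hyx⟩
  rw [LinearMap.range_eq_top.2 hsur, finrank_top] at h1
  have h2 : Submodule.map (St θ D d (r + 1)).subtype
      (LinearMap.ker ((op (θ d)).restrict hmem)) = St θ D (d + 1) (r + 1) := by
    ext f
    rw [Submodule.mem_map, mem_succ]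
    constructor
    · rintro ⟨g, hg, rfl⟩
      rw [LinearMap.mem_ker] at hg
      exact ⟨g.2, congrArg Subtype.val hg⟩
    · rintro ⟨hf, h0⟩
      refine ⟨⟨f, hf⟩, ?_, rfl⟩
      rw [LinearMap.mem_ker]
      exact Subtype.ext h0
  have h3 : Module.finrank k (LinearMap.ker ((op (θ d)).restrict hmem)) =
      Module.finrank k (St θ D (d + 1) (r + 1)) := by
    rw [← h2, Submodule.finrank_map_subtype_eq]
  rw [h3] at h1
  rw [← h1, add_comm]

/-- an injective power of a contraction between spaces of the same dimension -/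
theorem surj_of_inj {k : Type} [Field k] {D : Finset (Finset (Fin n))} (hD : IsCx D)
    {θ : ℕ → Fin n → k} {d r m : ℕ} {c : Fin n → k} (hm : 1 ≤ m)
    (hi : ∀ f ∈ St θ D d (r + m), ((op c) ^ m) f = 0 → f = 0)
    (he : Module.finrank k (St θ D d (r + m)) = Module.finrank k (St θ D d r)) :
    ∀ x ∈ St θ D d r, ∃ y ∈ St θ D d (r + 1), op c y = x := by
  intro x hx
  have := st_finite (K := D) θ d (r + m)
  have := st_finite (K := D) θ d r
  have hmem : ∀ f ∈ St θ D d (r + m), ((op c) ^ m) f ∈ St θ D d r :=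
    fun f hf => DimDaux.pow_mem hD m hf
  have hinj : Function.Injective (((op c) ^ m).restrict hmem) := by
    rw [injective_iff_map_eq_zero]
    intro f hf
    apply Subtype.ext
    exact hi f.1 f.2 (congrArg Subtype.val hf)
  have hsur := (LinearMap.injective_iff_surjective_of_finrank_eq_finrank he).1 hinj
  obtain ⟨z, hz⟩ := hsur ⟨x, hx⟩
  have hz' : ((op c) ^ m) (z : Fn n k) = x := congrArg Subtype.val hz
  obtain ⟨e, rfl⟩ : ∃ e, m = e + 1 := ⟨m - 1, by omega⟩
  refine ⟨((op c) ^ e) (z : Fn n k), ?_, ?_⟩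
  · refine DimDaux.pow_mem hD e ?_
    have h1 : r + 1 + e = r + (e + 1) := by omega
    rw [h1]
    exact z.2
  · rw [← Module.End.mul_apply, ← pow_succ']
    exact hz'

end DBaux

theorem top_bound {n d j : ℕ} {K : Finset (Finset (Fin n))} (hK : HSph K d) (h1 : 1 ≤ j)
    (hj : 2 * j ≤ d + 1) : ∃ θ : ℕ → Fin n → kk,
      (Module.finrank kk (St θ K (d + 1) j) : ℤ) ≤ gco (hP K d) j := by
  classical
  obtain ⟨θ, hg, hθ⟩ := exists_good hK
  refine ⟨θ, ?_⟩
  have hdimK : ∀ r, (Module.finrank kk (St θ K d r) : ℤ) = (hP K d).coeff r := by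
    intro r
    refine stress_dim hK.cx hK.card_le θ ?_ r
    have := cm hK hK.cx.1 hg
    rwa [star_empty] at this
  have hs : ∀ x ∈ St θ K d (j - 1), ∃ y ∈ St θ K d (j - 1 + 1), op (θ d) y = x := by
    refine DBaux.surj_of_inj (m := d + 2 - 2 * j) hK.cx (by omega) ?_ ?_
    · intro f hf h0
      have h2 := hθ ∅ hK.cx.1 (d + 1 - j) (d + 2 - 2 * j) (by rw [card_empty]; omega)
        (by rw [card_empty]; omega) (by rw [card_empty]; omega) f
        (by
          rw [card_empty]
          have e : d + 1 - j + 0 = j - 1 + (d + 2 - 2 * j) := by omega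
          rw [e]
          exact hf)
      rw [DBaux.shF_empty] at h2
      exact h2 h0
    · have h2 : (Module.finrank kk (St θ K d (j - 1 + (d + 2 - 2 * j))) : ℤ) =
          Module.finrank kk (St θ K d (j - 1)) := by
        rw [hdimK, hdimK, ds hK (by omega : j - 1 + (d + 2 - 2 * j) ≤ d)]
        congr 1
        omega
      exact_mod_cast h2
  have h3 := DBaux.ker_dim hK.cx.2 hs
  have e : j - 1 + 1 = j := by omega
  rw [e] at h3
  have h4 : (Module.finrank kk (St θ K (d + 1) j) : ℤ) +
      Module.finrank kk (St θ K d (j - 1)) = Module.finrank kk (St θ K d j) := by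
    exact_mod_cast h3
  rw [hdimK, hdimK] at h4
  unfold gco
  rw [if_neg (by omega : ¬ j = 0)]
  linarith

theorem dele_bound {n d j : ℕ} {K : Finset (Finset (Fin n))} (hK : HSph K d) (hf : Flag K)
    {u : Fin n} (hu : ({u} : Finset (Fin n)) ∈ K) (h1 : 1 ≤ j) (hj : 2 * j ≤ d) :
    ∃ θ : ℕ → Fin n → kk, (Module.finrank kk (St θ (dele K {u}) (d + 1) j) : ℤ) ≤
      gco (hP K d) j - gco (hP (lk K {u}) (d - 1)) (j - 1) := by
  classical
  obtain ⟨θ, hg, hθ⟩ := exists_good hK
  refine ⟨θ, ?_⟩
  have hdimK : ∀ r, (Module.finrank kk (St θ K d r) : ℤ) = (hP K d).coeff r := by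
    intro r
    refine stress_dim hK.cx hK.card_le θ ?_ r
    have := cm hK hK.cx.1 hg
    rwa [star_empty] at this
  have hdimS : ∀ w, ({w} : Finset (Fin n)) ∈ K → ∀ r,
      (Module.finrank kk (St θ (star K {w}) d r) : ℤ) = (hP (lk K {w}) (d - 1)).coeff r := by
    intro w hw r
    have h2 := hP_star hK.cx hK.card_le hw
    rw [card_singleton] at h2
    rw [← h2]
    exact stress_dim (star_cx hK.cx hw) (fun σ hσ => hK.card_le σ (mem_star.1 hσ).1) θ
      (cm hK hw hg) r
  have hdimD : ∀ r, (Module.finrank kk (St θ (dele K {u}) d r) : ℤ) = (hP K d).coeff r -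
      (if r < 1 then 0 else (hP (lk K {u}) (d - 1)).coeff (r - 1)) := by
    intro r
    split_ifs with hr
    · rw [← sur_low {u} θ (by rw [card_singleton]; exact hr), hdimK, sub_zero]
    · obtain ⟨s, rfl⟩ : ∃ s, r = s + 1 := ⟨r - 1, by omega⟩
      have h1 := sur_dim hK.cx {u} θ (cm_del hK hg) s
      rw [card_singleton] at h1
      have h2 : (Module.finrank kk (St θ K d (s + 1)) : ℤ) =
          Module.finrank kk (St θ (dele K {u}) d (s + 1)) +
            Module.finrank kk (St θ (star K {u}) d s) := by exact_mod_cast h1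
      rw [hdimK, hdimS u hu] at h2
      rw [Nat.add_sub_cancel]
      linarith
  have hstar : ∀ w, ({w} : Finset (Fin n)) ∈ K → ∀ x ∈ St θ (star K {w}) d (j - 1),
      ∃ y ∈ St θ (star K {w}) d (j - 1 + 1), op (θ d) y = x := by
    intro w hw
    have hd1 : 1 ≤ d := by
      have := hK.card_le _ hw
      rwa [card_singleton] at this
    refine DBaux.surj_of_inj (m := d + 1 - 2 * j) (star_cx hK.cx hw) (by omega) ?_ ?_
    · intro h hh h0
      have e : j - 1 + (d + 1 - 2 * j) = d - j := by omega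
      rw [e] at hh
      obtain ⟨⟨f, hfm⟩, hfh⟩ := Suraux.surj hK.cx {w} θ (cm_del hK hg) (d - j) ⟨h, hh⟩
      have hfh' : shF {w} f = h := congrArg Subtype.val hfh
      rw [← hfh'] at h0 ⊢
      exact hθ {w} hw (d - j) (d + 1 - 2 * j) (by rw [card_singleton]; omega)
        (by rw [card_singleton]; omega) (by rw [card_singleton]; omega) f hfm h0
    · have h2 : (Module.finrank kk (St θ (star K {w}) d (j - 1 + (d + 1 - 2 * j))) : ℤ) =
          Module.finrank kk (St θ (star K {w}) d (j - 1)) := by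
        have hlk := hsph_lk hK hw
        rw [card_singleton] at hlk
        rw [hdimS w hw, hdimS w hw, ds hlk (by omega : j - 1 + (d + 1 - 2 * j) ≤ d - 1)]
        congr 1
        omega
      exact_mod_cast h2
  have hs : ∀ x ∈ St θ (dele K {u}) d (j - 1), ∃ y ∈ St θ (dele K {u}) d (j - 1 + 1),
      op (θ d) y = x := by
    intro z hz
    obtain ⟨y, hy, hy0, hyz⟩ := cech hK hf hg hu hz
    have hx : ∀ w, ∃ x : Fn n kk, x ∈ St θ (dele K {u}) d (j - 1 + 1) ∧ op (θ d) x = y w := by
      intro w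
      by_cases hw : w ∈ nonadj K u
      · obtain ⟨hwK, hwu⟩ := mem_nonadj.1 hw
        obtain ⟨x, hx, hxy⟩ := hstar w hwK (y w) (hy w)
        refine ⟨x, ⟨fun α hα => ⟨?_, (hx.1 α hα).2⟩, hx.2⟩, hxy⟩
        refine TTdaux.star_sub_dele hK.cx ?_ (hx.1 α hα).1
        intro h
        apply hwu
        have e : ({u, w} : Finset (Fin n)) = {w} ∪ {u} := by
          rw [union_comm]
          rfl
        rw [e]
        exact h
      · refine ⟨0, Submodule.zero_mem _, ?_⟩
        rw [hy0 w hw, map_zero]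
    choose x hx1 hx2 using hx
    refine ⟨∑ w, x w, Submodule.sum_mem _ fun w _ => hx1 w, ?_⟩
    rw [map_sum, ← hyz]
    exact sum_congr rfl fun w _ => hx2 w
  have h3 := DBaux.ker_dim (TTdaux.dele_down hK.cx {u}) hs
  have e : j - 1 + 1 = j := by omega
  rw [e] at h3
  have h4 : (Module.finrank kk (St θ (dele K {u}) (d + 1) j) : ℤ) +
      Module.finrank kk (St θ (dele K {u}) d (j - 1)) =
      Module.finrank kk (St θ (dele K {u}) d j) := by
    exact_mod_cast h3
  rw [hdimD, hdimD, if_neg (by omega : ¬ j < 1)] at h4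
  unfold gco
  rw [if_neg (by omega : ¬ j = 0)]
  by_cases h5 : j - 1 < 1
  · rw [if_pos h5] at h4
    have h6 : j - 1 = 0 := by omega
    rw [if_pos h6]
    rw [h6] at h4 ⊢
    linarith
  · rw [if_neg h5] at h4
    rw [if_neg (by omega : ¬ j - 1 = 0)]
    linarith

end Pool.Agent.H861.GL

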