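import Mathlib

/-!
# GL/Avg: averaging over all orders of the vertices

PAPER PROOF. Fix `v ∈ V`, `D = (N v).card`, `S = insert v (N v)` (`D + 1` elements), and for a
permutation `σ` let `E_v(σ) = {w ∈ N v | σ w < σ v}`.
(1) For `e ≤ D` the number of `σ` with `|E_v(σ)| = e` is `n! / (D + 1)`: for `w ∈ S` let
`r_w(σ) = |{x ∈ S | σ x < σ w}|` (so `r_v(σ) = |E_v(σ)|`). For every `σ` the map `w ↦ r_w(σ)` is a
bijection from `S` to `range (D+1)` (so exactly one `w ∈ S` has `r_w(σ) = e`), and
`#{σ | r_w(σ) = e} = #{σ | r_v(σ) = e}` by `σ ↦ σ * swap v w` (which maps `S` to itself).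
(2) For `E ⊆ N v` the number of `σ` with `E_v(σ) = E` depends only on `|E|`: if `|E| = |E'|`,
both contained in `N v`, there is a permutation `τ` of `Fin n` with `τ v = v`, `τ '' (N v) = N v`,
`τ '' E = E'`, and `σ ↦ σ * τ` works. Hence it is `n! / ((D + 1) * D.choose |E|)`.
(3) `n! * g ≥ ∑ σ, ∑ v ∈ V, Φ v (E_v(σ)) = ∑ v ∈ V, ∑ E ⊆ N v, Φ v E * #{σ | E_v(σ) = E}`.
-/

set_option autoImplicit false

namespace Pool.Agent.H861.GL

open Finset

namespace Avgaux

/-- the number of permutations with a given set of earlier neighbours -/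
def cnt {n : ℕ} (v : Fin n) (N E : Finset (Fin n)) : ℕ :=
  (univ.filter fun σ : Equiv.Perm (Fin n) => (N.filter fun w => σ w < σ v) = E).card

theorem cnt_congr {n : ℕ} (v : Fin n) (N E E' : Finset (Fin n)) (τ : Equiv.Perm (Fin n))
    (hv : τ v = v) (hN : ∀ x, τ x ∈ N ↔ x ∈ N) (hE : ∀ x, τ x ∈ E' ↔ x ∈ E) :
    cnt v N E' = cnt v N E := by
  unfold cnt
  refine Finset.card_equiv (Equiv.mulRight τ) fun σ => ?_
  rw [mem_filter, mem_filter, Finset.ext_iff, Finset.ext_iff, τ.surjective.forall]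
  simp only [mem_univ, true_and, mem_filter, Equiv.coe_mulRight, Equiv.Perm.coe_mul,
    Function.comp_apply, hN, hE, hv]

theorem cnt_swap {n : ℕ} (v : Fin n) (N : Finset (Fin n)) (hv : v ∉ N) (m : ℕ) :
    ∀ E E' : Finset (Fin n), E ⊆ N → E' ⊆ N → E.card = E'.card → (E \ E').card = m →
      cnt v N E' = cnt v N E := by
  induction m with
  | zero =>
    intro E E' _ _ hc h0
    rw [card_eq_zero, sdiff_eq_empty_iff_subset] at h0
    rw [eq_of_subset_of_card_le h0 hc.ge]
  | succ m ih =>
    intro E E' hE hE' hc hm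
    obtain ⟨a, ha⟩ : (E \ E').Nonempty := card_pos.1 (by omega)
    have hm' : (E' \ E).card = m + 1 := by
      have h1 := card_sdiff_add_card_inter E E'
      have h2 := card_sdiff_add_card_inter E' E
      rw [inter_comm] at h2
      omega
    obtain ⟨b, hb⟩ : (E' \ E).Nonempty := card_pos.1 (by omega)
    rw [mem_sdiff] at ha hb
    have hab : a ≠ b := fun h => ha.2 (h ▸ hb.1)
    have haN := hE ha.1
    have hbN := hE' hb.1
    have hva : v ≠ a := fun h => hv (h ▸ haN)
    have hvb : v ≠ b := fun h => hv (h ▸ hbN)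
    -- E'' = E - a + b
    have hE2 : insert b (E.erase a) ⊆ N :=
      insert_subset hbN ((erase_subset _ _).trans hE)
    have hbE : b ∉ E.erase a := fun h => hb.2 (mem_of_mem_erase h)
    have hc2 : (insert b (E.erase a)).card = E.card := by
      rw [card_insert_of_notMem hbE, card_erase_add_one ha.1]
    have hsd : insert b (E.erase a) \ E' = (E \ E').erase a := by
      ext x
      simp only [mem_sdiff, mem_insert, mem_erase]
      constructor
      · rintro ⟨h | h, h'⟩
        · exact absurd (h ▸ hb.1) h'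
        · exact ⟨h.1, h.2, h'⟩
      · rintro ⟨h1, h2, h3⟩
        exact ⟨Or.inr ⟨h1, h2⟩, h3⟩
    have h1 := ih (insert b (E.erase a)) E' hE2 hE' (by omega) (by
      rw [hsd, card_erase_of_mem (mem_sdiff.2 ha)]
      omega)
    rw [h1]
    refine cnt_congr v N E (insert b (E.erase a)) (Equiv.swap a b)
      (Equiv.swap_apply_of_ne_of_ne hva hvb) ?_ ?_
    · intro x
      by_cases hxa : x = a
      · subst hxa
        rw [Equiv.swap_apply_left]
        exact ⟨fun _ => haN, fun _ => hbN⟩
      · by_cases hxb : x = b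
        · subst hxb
          rw [Equiv.swap_apply_right]
          exact ⟨fun _ => hbN, fun _ => haN⟩
        · rw [Equiv.swap_apply_of_ne_of_ne hxa hxb]
    · intro x
      by_cases hxa : x = a
      · subst hxa
        rw [Equiv.swap_apply_left]
        exact ⟨fun _ => ha.1, fun _ => mem_insert_self _ _⟩
      · by_cases hxb : x = b
        · subst hxb
          rw [Equiv.swap_apply_right]
          refine ⟨fun h => ?_, fun h => absurd h hb.2⟩
          rw [mem_insert] at h
          rcases h with h | h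
          · exact absurd h hab
          · exact absurd rfl (ne_of_mem_erase h)
        · rw [Equiv.swap_apply_of_ne_of_ne hxa hxb, mem_insert, mem_erase]
          exact ⟨fun h => h.elim (fun h => absurd h hxb) fun h => h.2, fun h => Or.inr ⟨hxa, h⟩⟩

/-- the rank of `w` in `S` -/
def rk {n : ℕ} (S : Finset (Fin n)) (σ : Equiv.Perm (Fin n)) (w : Fin n) : ℕ :=
  (S.filter fun x => σ x < σ w).card

theorem rk_lt {n : ℕ} (S : Finset (Fin n)) (σ : Equiv.Perm (Fin n)) {w : Fin n} (hw : w ∈ S) :
    rk S σ w < S.card := by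
  refine card_lt_card ⟨filter_subset _ _, fun h => ?_⟩
  exact absurd (mem_filter.1 (h hw)).2 (lt_irrefl _)

theorem rk_strict {n : ℕ} (S : Finset (Fin n)) (σ : Equiv.Perm (Fin n)) {w w' : Fin n}
    (hw : w ∈ S) (h : σ w < σ w') : rk S σ w < rk S σ w' := by
  refine card_lt_card ⟨fun x hx => ?_, fun hs => ?_⟩
  · rw [mem_filter] at hx ⊢
    exact ⟨hx.1, hx.2.trans h⟩
  · have := hs (mem_filter.2 ⟨hw, h⟩)
    exact absurd (mem_filter.1 this).2 (lt_irrefl _)

theorem rk_inj {n : ℕ} (S : Finset (Fin n)) (σ : Equiv.Perm (Fin n)) :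
    Set.InjOn (rk S σ) (S : Set (Fin n)) := by
  intro w hw w' hw' h
  rcases lt_trichotomy (σ w) (σ w') with h1 | h1 | h1
  · exact absurd h (rk_strict S σ hw h1).ne
  · exact σ.injective h1
  · exact absurd h (rk_strict S σ hw' h1).ne'

theorem rk_one {n : ℕ} (S : Finset (Fin n)) (σ : Equiv.Perm (Fin n)) {e : ℕ} (he : e < S.card) :
    (S.filter fun w => rk S σ w = e).card = 1 := by
  have him : S.image (rk S σ) = range S.card := by
    refine eq_of_subset_of_card_le ?_ ?_
    · intro x hx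
      obtain ⟨w, hw, rfl⟩ := mem_image.1 hx
      exact mem_range.2 (rk_lt S σ hw)
    · rw [card_image_of_injOn (rk_inj S σ), card_range]
  obtain ⟨w, hw, hwe⟩ := mem_image.1 (him ▸ mem_range.2 he : e ∈ S.image (rk S σ))
  rw [card_eq_one]
  refine ⟨w, ?_⟩
  ext x
  rw [mem_filter, mem_singleton]
  constructor
  · rintro ⟨h1, h2⟩
    exact rk_inj S σ h1 hw (h2.trans hwe.symm)
  · rintro rfl
    exact ⟨hw, hwe⟩

theorem rk_swap {n : ℕ} (S : Finset (Fin n)) {v w : Fin n} (hv : v ∈ S) (hw : w ∈ S) (e : ℕ) :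
    (univ.filter fun σ : Equiv.Perm (Fin n) => rk S σ w = e).card =
      (univ.filter fun σ : Equiv.Perm (Fin n) => rk S σ v = e).card := by
  refine Finset.card_equiv (Equiv.mulRight (Equiv.swap v w)) fun σ => ?_
  have hS : ∀ x, Equiv.swap v w x ∈ S ↔ x ∈ S := by
    intro x
    by_cases hxa : x = v
    · subst hxa
      rw [Equiv.swap_apply_left]
      exact ⟨fun _ => hv, fun _ => hw⟩
    · by_cases hxb : x = w
      · subst hxb
        rw [Equiv.swap_apply_right]
        exact ⟨fun _ => hw, fun _ => hv⟩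
      · rw [Equiv.swap_apply_of_ne_of_ne hxa hxb]
  have key : rk S (σ * Equiv.swap v w) v = rk S σ w := by
    unfold rk
    refine Finset.card_equiv (Equiv.swap v w) fun x => ?_
    rw [mem_filter, mem_filter, Equiv.Perm.mul_apply, Equiv.Perm.mul_apply,
      Equiv.swap_apply_left, hS]
  rw [mem_filter, mem_filter]
  simp only [mem_univ, true_and, Equiv.coe_mulRight, key]

theorem rk_count {n : ℕ} (S : Finset (Fin n)) {v : Fin n} (hv : v ∈ S) {e : ℕ}
    (he : e < S.card) :
    S.card * (univ.filter fun σ : Equiv.Perm (Fin n) => rk S σ v = e).card = n.factorial := by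
  have h1 : ∑ w ∈ S, (univ.filter fun σ : Equiv.Perm (Fin n) => rk S σ w = e).card =
      S.card * (univ.filter fun σ : Equiv.Perm (Fin n) => rk S σ v = e).card := by
    rw [sum_congr rfl (fun w hw => rk_swap S hv hw e), sum_const, smul_eq_mul]
  have h2 : ∑ w ∈ S, (univ.filter fun σ : Equiv.Perm (Fin n) => rk S σ w = e).card =
      ∑ σ : Equiv.Perm (Fin n), (S.filter fun w => rk S σ w = e).card := by
    simp only [card_filter]
    exact sum_comm
  rw [← h1, h2, sum_congr rfl (fun σ _ => rk_one S σ he), sum_const, smul_eq_mul, mul_one,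
    card_univ, Fintype.card_perm, Fintype.card_fin]

theorem rk_insert {n : ℕ} (N : Finset (Fin n)) {v : Fin n} (σ : Equiv.Perm (Fin n)) :
    rk (insert v N) σ v = (N.filter fun w => σ w < σ v).card := by
  unfold rk
  rw [filter_insert, if_neg (lt_irrefl _)]

theorem cnt_eq {n : ℕ} (v : Fin n) (N : Finset (Fin n)) (hv : v ∉ N) {E : Finset (Fin n)}
    (hE : E ⊆ N) : (N.card + 1) * (N.card.choose E.card * cnt v N E) = n.factorial := by
  have h1 := rk_count (insert v N) (mem_insert_self v N) (e := E.card) (by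
    rw [card_insert_of_notMem hv]
    exact Nat.lt_succ_of_le (card_le_card hE))
  rw [card_insert_of_notMem hv] at h1
  rw [← h1]
  congr 1
  rw [card_eq_sum_card_fiberwise (f := fun σ : Equiv.Perm (Fin n) => N.filter fun w => σ w < σ v)
    (t := N.powersetCard E.card)]
  · rw [← card_powersetCard, ← smul_eq_mul, ← sum_const]
    refine sum_congr rfl fun E' hE' => ?_
    rw [mem_powersetCard] at hE'
    rw [← cnt_swap v N hv _ E E' hE hE'.1 hE'.2.symm rfl]
    unfold cnt
    congr 1
    ext σ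
    simp only [mem_filter, mem_univ, true_and, rk_insert]
    constructor
    · intro h
      exact ⟨by rw [h, hE'.2], h⟩
    · exact fun h => h.2
  · intro σ hσ
    rw [mem_coe, mem_filter, rk_insert] at hσ
    rw [mem_coe, mem_powersetCard]
    exact ⟨filter_subset _ _, hσ.2⟩

theorem sum_eq {n : ℕ} (v : Fin n) (N : Finset (Fin n)) (hv : v ∉ N)
    (Φ : Finset (Fin n) → ℚ) :
    ∑ σ : Equiv.Perm (Fin n), Φ (N.filter fun w => σ w < σ v) =
      (n.factorial : ℚ) * ((∑ E ∈ N.powerset, Φ E / (N.card.choose E.card : ℚ)) /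
        (N.card + 1 : ℚ)) := by
  rw [← sum_fiberwise_of_maps_to (s := univ) (t := N.powerset)
    (g := fun σ : Equiv.Perm (Fin n) => N.filter fun w => σ w < σ v)
    (fun σ _ => mem_powerset.2 (filter_subset _ _))]
  rw [mul_div_assoc', mul_sum, sum_div]
  refine sum_congr rfl fun E hE => ?_
  rw [mem_powerset] at hE
  have h1 : ∑ σ ∈ univ.filter (fun σ : Equiv.Perm (Fin n) => (N.filter fun w => σ w < σ v) = E),
      Φ (N.filter fun w => σ w < σ v) = (cnt v N E : ℚ) * Φ E := by
    rw [sum_congr rfl (g := fun _ => Φ E) (fun σ hσ => by rw [(mem_filter.1 hσ).2]), sum_const,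
      nsmul_eq_mul]
    rfl
  rw [h1, ← cnt_eq v N hv hE]
  have h2 : (N.card.choose E.card : ℚ) ≠ 0 := by
    exact_mod_cast (Nat.choose_pos (card_le_card hE)).ne'
  have h3 : (N.card + 1 : ℚ) ≠ 0 := by positivity
  push_cast
  field_simp

end Avgaux

theorem avg {n : ℕ} (V : Finset (Fin n)) (N : Fin n → Finset (Fin n))
    (hN : ∀ v ∈ V, v ∉ N v) (Φ : Fin n → Finset (Fin n) → ℚ) (g : ℚ)
    (h : ∀ σ : Equiv.Perm (Fin n), ∑ v ∈ V, Φ v ((N v).filter fun w => σ w < σ v) ≤ g) :
    ∑ v ∈ V, (∑ E ∈ (N v).powerset, Φ v E / ((N v).card.choose E.card : ℚ)) /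
      ((N v).card + 1 : ℚ) ≤ g := by
  have h1 : ∑ σ : Equiv.Perm (Fin n), ∑ v ∈ V, Φ v ((N v).filter fun w => σ w < σ v) ≤
      (n.factorial : ℚ) * g := by
    refine (sum_le_sum fun σ _ => h σ).trans (le_of_eq ?_)
    rw [sum_const, card_univ, Fintype.card_perm, Fintype.card_fin, nsmul_eq_mul]
  rw [sum_comm, sum_congr rfl (fun v hv => Avgaux.sum_eq v (N v) (hN v hv) (Φ v)),
    ← mul_sum] at h1
  have hpos : (0 : ℚ) < n.factorial := by exact_mod_cast n.factorial_pos
  exact le_of_mul_le_mul_left h1 hpos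

end Pool.Agent.H861.GL
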