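import Mathlib
import Pool.Graph.R_seed8.W555.KS.Defs

/-!
# GL/CGa: linear forms form regular sequences

`lf c = ∑ v, C (c v) * X v` (`Pool.Graph.R_seed8.W555.KS.Defs`).

PROOF. Let `S` be a set of vectors `Fin n → k` and `b ∉ Submodule.span k S`. Let `π` be a linear
projection of `k^n` with the kernel `span S` and `ψ` the algebra endomorphism of
`R = MvPolynomial (Fin n) k` with `ψ (X v) = lf (π e_v)`. Then `ψ (lf c) = lf (π c)`, the ideal
`I` generated by the `lf s`, `s ∈ S`, is the kernel of `ψ` (as `q - ψ q ∈ I`), and `R` is a domain.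
-/

set_option autoImplicit false

namespace Pool.Agent.H861.GL

open Finset Pool.Agent.W555.KS

namespace CGaaux

theorem lf_add {n : ℕ} {k : Type} [Field k] (c d : Fin n → k) : lf (c + d) = lf c + lf d := by
  unfold lf
  rw [← sum_add_distrib]
  refine sum_congr rfl fun v _ => ?_
  rw [Pi.add_apply, MvPolynomial.C_add, add_mul]

theorem lf_smul {n : ℕ} {k : Type} [Field k] (a : k) (c : Fin n → k) :
    lf (a • c) = MvPolynomial.C a * lf c := by
  unfold lf
  rw [mul_sum]
  refine sum_congr rfl fun v _ => ?_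
  rw [Pi.smul_apply, smul_eq_mul, MvPolynomial.C_mul, mul_assoc]

theorem lf_zero {n : ℕ} {k : Type} [Field k] : lf (0 : Fin n → k) = 0 := by
  unfold lf
  refine sum_eq_zero fun v _ => ?_
  rw [Pi.zero_apply, MvPolynomial.C_0, zero_mul]

theorem lf_coeff {n : ℕ} {k : Type} [Field k] (c : Fin n → k) (v : Fin n) :
    MvPolynomial.coeff (Finsupp.single v 1) (lf c) = c v := by
  unfold lf
  rw [MvPolynomial.coeff_sum, sum_eq_single v]
  · rw [MvPolynomial.coeff_C_mul, MvPolynomial.coeff_X, if_pos rfl, mul_one]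
  · intro w _ hw
    rw [MvPolynomial.coeff_C_mul, MvPolynomial.coeff_X, if_neg, mul_zero]
    intro h
    exact hw ((Finsupp.single_left_inj one_ne_zero).1 h)
  · intro h
    exact absurd (mem_univ v) h

theorem lf_mem {n : ℕ} {k : Type} [Field k] (S : Set (Fin n → k)) (c : Fin n → k)
    (hc : c ∈ Submodule.span k S) : lf c ∈ Ideal.span (lf '' S) := by
  induction hc using Submodule.span_induction with
  | mem x hx => exact Ideal.subset_span ⟨x, hx, rfl⟩
  | zero => rw [lf_zero]; exact Ideal.zero_mem _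
  | add x y _ _ hx hy => rw [lf_add]; exact Ideal.add_mem _ hx hy
  | smul a x _ hx => rw [lf_smul]; exact Ideal.mul_mem_left _ _ hx

end CGaaux

open CGaaux in
theorem lin_regular {n : ℕ} {k : Type} [Field k] (S : Set (Fin n → k)) (b : Fin n → k)
    (hb : b ∉ Submodule.span k S) (q : MvPolynomial (Fin n) k)
    (h : lf b * q ∈ Ideal.span (lf '' S)) : q ∈ Ideal.span (lf '' S) := by
  classical
  obtain ⟨W', hW'⟩ := (Submodule.span k S).exists_isCompl
  -- the projection with kernel `span S`
  obtain ⟨π, hπ⟩ : ∃ π : (Fin n → k) →ₗ[k] (Fin n → k),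
      (∀ c, c - π c ∈ Submodule.span k S) ∧ ∀ c, π c = 0 ↔ c ∈ Submodule.span k S := by
    refine ⟨W'.subtype ∘ₗ Submodule.projectionOnto W' (Submodule.span k S) hW'.symm, ?_, ?_⟩
    · intro c
      obtain ⟨x, hx, y, hy, rfl⟩ : ∃ x ∈ W', ∃ y ∈ Submodule.span k S, x + y = c := by
        have : c ∈ W' ⊔ Submodule.span k S := by
          rw [hW'.symm.sup_eq_top]
          exact Submodule.mem_top
        exact Submodule.mem_sup.1 this
      have e1 : Submodule.projectionOnto W' (Submodule.span k S) hW'.symm x = ⟨x, hx⟩ :=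
        Submodule.projectionOnto_apply_left hW'.symm ⟨x, hx⟩
      have e2 : Submodule.projectionOnto W' (Submodule.span k S) hW'.symm y = 0 :=
        (Submodule.projectionOnto_apply_eq_zero_iff hW'.symm).2 hy
      rw [LinearMap.comp_apply, map_add, e1, e2, add_zero, Submodule.subtype_apply,
        add_sub_cancel_left]
      exact hy
    · intro c
      rw [LinearMap.comp_apply, Submodule.subtype_apply, Submodule.coe_eq_zero]
      exact Submodule.projectionOnto_apply_eq_zero_iff hW'.symm
  obtain ⟨hπ1, hπ2⟩ := hπ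
  obtain ⟨ψ, hψ⟩ : ∃ ψ : MvPolynomial (Fin n) k →ₐ[k] MvPolynomial (Fin n) k,
      ∀ v, ψ (MvPolynomial.X v) = lf (π (Pi.single v 1)) :=
    ⟨MvPolynomial.aeval fun v => lf (π (Pi.single v 1)), fun v => MvPolynomial.aeval_X _ _⟩
  have hlin : ∀ c : Fin n → k, lf (π c) = ∑ v, MvPolynomial.C (c v) * lf (π (Pi.single v 1)) := by
    intro c
    have e1 : c = ∑ v, c v • (Pi.single v 1 : Fin n → k) := by
      funext w
      rw [Finset.sum_apply, sum_eq_single w]
      · rw [Pi.smul_apply, Pi.single_eq_same, smul_eq_mul, mul_one]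
      · intro v _ hv
        rw [Pi.smul_apply, Pi.single_eq_of_ne (Ne.symm hv), smul_zero]
      · intro hw
        exact absurd (mem_univ w) hw
    have e2 : ∀ s : Finset (Fin n), lf (π (∑ v ∈ s, c v • (Pi.single v 1 : Fin n → k))) =
        ∑ v ∈ s, MvPolynomial.C (c v) * lf (π (Pi.single v 1)) := by
      intro s
      induction s using Finset.induction_on with
      | empty => rw [sum_empty, sum_empty, map_zero, lf_zero]
      | insert v s hv ih =>
        rw [sum_insert hv, sum_insert hv, map_add, lf_add, ih, map_smul, lf_smul]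
    have e3 := e2 univ
    rw [← e1] at e3
    exact e3
  have hψlf : ∀ c, ψ (lf c) = lf (π c) := by
    intro c
    rw [hlin c]
    unfold lf
    rw [map_sum]
    refine sum_congr rfl fun v _ => ?_
    rw [map_mul, hψ v, ← MvPolynomial.algebraMap_eq, AlgHom.commutes]
    rfl
  -- `q - ψ q ∈ I`
  have hmk : (Ideal.Quotient.mkₐ k (Ideal.span (lf '' S))).comp ψ =
      Ideal.Quotient.mkₐ k (Ideal.span (lf '' S)) := by
    refine MvPolynomial.algHom_ext fun v => ?_
    rw [AlgHom.comp_apply, hψ v, Ideal.Quotient.mkₐ_eq_mk, Ideal.Quotient.eq]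
    have e1 : (MvPolynomial.X v : MvPolynomial (Fin n) k) = lf (Pi.single v 1) := by
      unfold lf
      rw [sum_eq_single v]
      · rw [Pi.single_eq_same, MvPolynomial.C_1, one_mul]
      · intro w _ hw
        rw [Pi.single_eq_of_ne hw, MvPolynomial.C_0, zero_mul]
      · intro hv
        exact absurd (mem_univ v) hv
    have e2 : lf (π (Pi.single v 1)) - lf (Pi.single v 1) =
        MvPolynomial.C (-1) * lf (Pi.single v 1 - π (Pi.single v 1)) := by
      rw [← lf_smul]
      have e3 : (-1 : k) • ((Pi.single v 1 : Fin n → k) - π (Pi.single v 1)) + Pi.single v 1 =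
          π (Pi.single v 1) := by
        rw [neg_smul, one_smul, neg_sub, sub_add_cancel]
      rw [sub_eq_iff_eq_add, ← lf_add, e3]
    rw [e1, e2]
    exact Ideal.mul_mem_left _ _ (lf_mem S _ (hπ1 _))
  have hker : ∀ r : MvPolynomial (Fin n) k, ψ r = 0 → r ∈ Ideal.span (lf '' S) := by
    intro r hr
    have e1 := DFunLike.congr_fun hmk r
    rw [AlgHom.comp_apply, hr, map_zero, Ideal.Quotient.mkₐ_eq_mk] at e1
    exact Ideal.Quotient.eq_zero_iff_mem.1 e1.symm
  have hI : ∀ r ∈ Ideal.span (lf '' S), ψ r = 0 := by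
    intro r hr
    induction hr using Submodule.span_induction with
    | mem x hx =>
      obtain ⟨s, hs, rfl⟩ := hx
      rw [hψlf, (hπ2 s).2 (Submodule.subset_span hs), lf_zero]
    | zero => exact map_zero ψ
    | add x y _ _ hx hy => rw [map_add, hx, hy, add_zero]
    | smul a x _ hx => rw [smul_eq_mul, map_mul, hx, mul_zero]
  have h1 := hI _ h
  rw [map_mul, hψlf] at h1
  rcases mul_eq_zero.1 h1 with h2 | h2
  · exfalso
    refine hb ((hπ2 b).1 ?_)
    funext v
    rw [← lf_coeff (π b) v, h2, MvPolynomial.coeff_zero, Pi.zero_apply]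
  · exact hker q h2

end Pool.Agent.H861.GL
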