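import Pool.Agent.H861.GL.Defs
import Pool.Agent.H861.GL.CGa

/-!
# GL/CG: contraction with linear forms on one simplex

Notation of `GL/Defs.lean`: `Fn n k = ((Fin n →₀ ℕ) → k)`, `op c f α = ∑ v, c v * f (α + e_v)`,
`DS k G.powerset` = the functions supported on the monomials in the variables `x_v`, `v ∈ G`.

PROOF. Let `R = MvPolynomial (Fin n) k`. To `f : Fn n k` corresponds the functional
`ev f : R →ₗ[k] k` with `ev f (monomial α 1) = f α`. One has
`ev f (lf c * p) = ev (op c f) p` where `lf c = ∑ v, C (c v) * X v` (check on monomials), and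
`f ∈ DS k G.powerset` iff the contractions of `f` with `x_v`, `v ∉ G`, vanish.

(1) `lin_regular` (imported from `GL/CGa.lean`): if `b ∉ Submodule.span k S`
and `lf b * q ∈ Ideal.span (lf '' S)` then `q ∈ Ideal.span (lf '' S)`.

(2) Let `i < G.card`, `f ∈ DS k G.powerset`, `op (θ l) f = 0` for `l < i`. Let `I` be the ideal
generated by the `X v`, `v ∉ G`, and by the `lf (θ l)`, `l < i`. Then `ev f` vanishes on `I`. By
hypothesis `h` the square matrix `(θ l v)`, `l < |G|`, `v ∈ G`, is invertible, so `θ i` is not in the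
span of the vectors `Pi.single v 1` (`v ∉ G`), `θ l`, `l < i`. By (1) multiplication by
`lf (θ i)` is injective on `R / I`. So there is a functional `ψ` on `R / I` with
`ψ (lf (θ i) * q) = ev f q`. Put `y α = ψ (monomial α 1)`.
-/

set_option autoImplicit false

namespace Pool.Agent.H861.GL

open Finset Pool.Agent.W555.KS Pool.Agent.Y131.KS

namespace CGaux

variable {n : ℕ} {k : Type} [Field k]

/-- the functional of a function on the monomials -/
noncomputable def ev (f : Fn n k) : MvPolynomial (Fin n) k →ₗ[k] k :=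
  (MvPolynomial.basisMonomials (Fin n) k).constr k f

theorem ev_monomial (f : Fn n k) (α : Fin n →₀ ℕ) :
    ev f (MvPolynomial.monomial α 1) = f α := by
  have h := (MvPolynomial.basisMonomials (Fin n) k).constr_basis k f α
  rw [MvPolynomial.coe_basisMonomials] at h
  exact h

/-- functionals are equal if they agree on the monomials -/
theorem ext_monomial (φ ψ : MvPolynomial (Fin n) k →ₗ[k] k)
    (h : ∀ α, φ (MvPolynomial.monomial α 1) = ψ (MvPolynomial.monomial α 1)) : φ = ψ := by
  refine (MvPolynomial.basisMonomials (Fin n) k).ext fun α => ?_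
  rw [MvPolynomial.coe_basisMonomials]
  exact h α

theorem lf_mul_monomial (c : Fin n → k) (α : Fin n →₀ ℕ) :
    lf c * MvPolynomial.monomial α 1 =
      ∑ v, c v • MvPolynomial.monomial (α + Finsupp.single v 1) (1 : k) := by
  unfold lf
  rw [sum_mul]
  refine sum_congr rfl fun v _ => ?_
  rw [MvPolynomial.smul_eq_C_mul, mul_assoc, MvPolynomial.X, MvPolynomial.monomial_mul, one_mul,
    add_comm α]

theorem ev_lf (f : Fn n k) (c : Fin n → k) (p : MvPolynomial (Fin n) k) :
    ev f (lf c * p) = ev (op c f) p := by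
  have h : (ev f).comp (LinearMap.mulLeft k (lf c)) = ev (op c f) := by
    apply ext_monomial
    intro α
    rw [LinearMap.comp_apply, LinearMap.mulLeft_apply, ev_monomial, lf_mul_monomial, map_sum,
      op_apply]
    refine sum_congr rfl fun v _ => ?_
    rw [map_smul, ev_monomial, smul_eq_mul]
  exact LinearMap.congr_fun h p

theorem op_single (v : Fin n) (f : Fn n k) : op (Pi.single v 1) f = sh v f := by
  funext α
  rw [op_apply, sh_apply, sum_eq_single_of_mem v (mem_univ v), Pi.single_eq_same, one_mul]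
  intro w _ hw
  rw [Pi.single_eq_of_ne hw, zero_mul]

theorem mem_DS_iff (G : Finset (Fin n)) (f : Fn n k) :
    f ∈ DS k G.powerset ↔ ∀ v, v ∉ G → op (Pi.single v 1) f = 0 := by
  rw [mem_DS]
  constructor
  · intro h v hv
    rw [op_single]
    funext α
    rw [sh_apply]
    by_contra h1
    have h2 := mem_powerset.1 (h _ h1)
    apply hv
    apply h2
    rw [Finsupp.mem_support_iff, Finsupp.add_apply, Finsupp.single_eq_same]
    omega
  · intro h α hα
    rw [mem_powerset]
    intro v hv
    by_contra hvG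
    have h1 := h v hvG
    rw [op_single] at h1
    have h2 := congrFun h1 (α - Finsupp.single v 1)
    rw [sh_apply, tsub_add_cancel_of_le] at h2
    · exact hα h2
    · rw [Finsupp.single_le_iff]
      exact Nat.one_le_iff_ne_zero.2 (Finsupp.mem_support_iff.1 hv)

/-- the vector `θ i` is not in the span of the others -/
theorem not_span (θ : ℕ → Fin n → k) (G : Finset (Fin n))
    (h : ∀ a : Fin n → k, (∀ v, v ∉ G → a v = 0) → (∀ i < G.card, ∑ v, θ i v * a v = 0) → a = 0)
    (i : ℕ) (hi : i < G.card) :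
    θ i ∉ Submodule.span k ({c | ∃ v, v ∉ G ∧ c = Pi.single v 1} ∪ {c | ∃ l < i, c = θ l}) := by
  classical
  -- a vector dual to `θ i`
  obtain ⟨Φ, hΦ⟩ : ∃ Φ : (G → k) →ₗ[k] (Fin G.card → k),
      ∀ a l, Φ a l = ∑ v : G, θ l v * a v := by
    refine ⟨{ toFun := fun a l => ∑ v : G, θ l v * a v, map_add' := ?_, map_smul' := ?_ },
      fun _ _ => rfl⟩
    · intro a b
      funext l
      simp only [Pi.add_apply, mul_add, sum_add_distrib]
    · intro c a
      funext l
      simp only [Pi.smul_apply, smul_eq_mul, RingHom.id_apply, mul_sum]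
      exact sum_congr rfl fun v _ => by ring
  have hext : ∀ (a : G → k) (c : Fin n → k), ∑ v, c v * (if hv : v ∈ G then a ⟨v, hv⟩ else 0) =
      ∑ v : G, c v * a v := by
    intro a c
    rw [← sum_subset (subset_univ G) (fun v _ hv => by rw [dif_neg hv, mul_zero]),
      ← sum_coe_sort G]
    refine sum_congr rfl fun v _ => ?_
    rw [dif_pos v.2]
  have hinj : Function.Injective Φ := by
    rw [← LinearMap.ker_eq_bot, LinearMap.ker_eq_bot']
    intro a ha
    have h1 := h (fun v => if hv : v ∈ G then a ⟨v, hv⟩ else 0) (fun v hv => dif_neg hv) (by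
      intro l hl
      rw [hext a (θ l)]
      have h2 := congrFun ha ⟨l, hl⟩
      rw [hΦ] at h2
      exact h2)
    funext v
    have h2 := congrFun h1 v.1
    rw [dif_pos v.2] at h2
    exact h2
  have hfr : Module.finrank k (G → k) = Module.finrank k (Fin G.card → k) := by
    rw [Module.finrank_fintype_fun_eq_card, Module.finrank_fintype_fun_eq_card, Fintype.card_coe,
      Fintype.card_fin]
  obtain ⟨a, ha⟩ := (LinearMap.injective_iff_surjective_of_finrank_eq_finrank hfr).1 hinj
    (Pi.single ⟨i, hi⟩ 1)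
  obtain ⟨L, hL⟩ : ∃ L : (Fin n → k) →ₗ[k] k,
      ∀ c, L c = ∑ v, c v * (if hv : v ∈ G then a ⟨v, hv⟩ else 0) := by
    refine ⟨{ toFun := fun c => ∑ v, c v * (if hv : v ∈ G then a ⟨v, hv⟩ else 0),
              map_add' := ?_, map_smul' := ?_ }, fun _ => rfl⟩
    · intro b c
      simp only [Pi.add_apply, add_mul, sum_add_distrib]
    · intro r c
      simp only [Pi.smul_apply, smul_eq_mul, RingHom.id_apply, mul_sum]
      exact sum_congr rfl fun v _ => by ring
  have hLθ : ∀ l (hl : l < G.card), L (θ l) = (Pi.single ⟨i, hi⟩ 1 : Fin G.card → k) ⟨l, hl⟩ := by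
    intro l hl
    rw [hL, hext a (θ l), ← ha, hΦ]
  intro hmem
  have h1 : ∀ x ∈ Submodule.span k
      ({c | ∃ v, v ∉ G ∧ c = Pi.single v 1} ∪ {c | ∃ l < i, c = θ l}), L x = 0 := by
    intro x hx
    induction hx using Submodule.span_induction with
    | mem x hx =>
      rcases hx with ⟨v, hv, rfl⟩ | ⟨l, hl, rfl⟩
      · rw [hL, sum_eq_single_of_mem v (mem_univ v), dif_neg hv, mul_zero]
        intro w _ hw
        rw [Pi.single_eq_of_ne hw, zero_mul]
      · rw [hLθ l (hl.trans hi), Pi.single_eq_of_ne]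
        intro h2
        exact hl.ne (congrArg Fin.val h2)
    | zero => exact map_zero L
    | add x y _ _ hx hy => rw [map_add, hx, hy, add_zero]
    | smul r x _ hx => rw [map_smul, hx, smul_zero]
  have h2 := h1 _ hmem
  rw [hLθ i hi, Pi.single_eq_same] at h2
  exact one_ne_zero h2

theorem ev_zero (q : MvPolynomial (Fin n) k) : ev (0 : Fn n k) q = 0 := by
  have h : ev (0 : Fn n k) = 0 := by
    apply ext_monomial
    intro α
    rw [ev_monomial]
    rfl
  rw [h]
  rfl

/-- `ev f` vanishes on the ideal if the contractions vanish -/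
theorem ev_ideal (S : Set (Fin n → k)) (f : Fn n k) (hf : ∀ c ∈ S, op c f = 0)
    (p : MvPolynomial (Fin n) k) (hp : p ∈ Ideal.span (lf '' S)) : ev f p = 0 := by
  have key : ∀ a, ev f (a * p) = 0 := by
    induction hp using Submodule.span_induction with
    | mem p hp =>
      intro a
      obtain ⟨c, hc, rfl⟩ := hp
      rw [mul_comm, ev_lf, hf c hc, ev_zero]
    | zero => intro a; rw [mul_zero, map_zero]
    | add p q _ _ hp hq => intro a; rw [mul_add, map_add, hp a, hq a, add_zero]
    | smul b p _ hp => intro a; rw [smul_eq_mul, ← mul_assoc]; exact hp (a * b)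
  have h := key 1
  rwa [one_mul] at h

/-- extension: a function with given contraction -/
theorem lift (S : Set (Fin n → k)) (b : Fin n → k) (hb : b ∉ Submodule.span k S) (f : Fn n k)
    (hf : ∀ c ∈ S, op c f = 0) : ∃ y : Fn n k, (∀ c ∈ S, op c y = 0) ∧ op b y = f := by
  obtain ⟨I, hI⟩ : ∃ I : Ideal (MvPolynomial (Fin n) k), I = Ideal.span (lf '' S) := ⟨_, rfl⟩
  obtain ⟨mk, hmk⟩ : ∃ mk : MvPolynomial (Fin n) k →ₗ[k] (MvPolynomial (Fin n) k ⧸ I),
      mk = (Ideal.Quotient.mkₐ k I).toLinearMap := ⟨_, rfl⟩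
  have hmk' : ∀ p, mk p = Ideal.Quotient.mk I p := fun p => by rw [hmk]; rfl
  have hmk0 : ∀ p, mk p = 0 ↔ p ∈ Ideal.span (lf '' S) := fun p => by
    rw [hmk' p, ← hI]; exact Ideal.Quotient.eq_zero_iff_mem
  have hsurj : Function.Surjective mk := fun x => by
    obtain ⟨p, rfl⟩ := Ideal.Quotient.mk_surjective x
    exact ⟨p, hmk' p⟩
  obtain ⟨M, hM⟩ : ∃ M : (MvPolynomial (Fin n) k ⧸ I) →ₗ[k] (MvPolynomial (Fin n) k ⧸ I),
      M = LinearMap.mulLeft k (mk (lf b)) := ⟨_, rfl⟩
  have hMm : ∀ p, M (mk p) = mk (lf b * p) := by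
    intro p
    rw [hM, LinearMap.mulLeft_apply, hmk', hmk', hmk', map_mul]
  have hMi : LinearMap.ker M = ⊥ := by
    rw [LinearMap.ker_eq_bot']
    intro x hx
    obtain ⟨p, rfl⟩ := hsurj x
    rw [hMm, hmk0] at hx
    rw [hmk0]
    exact lin_regular S b hb p hx
  obtain ⟨g, hg⟩ := M.exists_leftInverse_of_injective hMi
  obtain ⟨s, hs⟩ := mk.exists_rightInverse_of_surjective (LinearMap.range_eq_top.2 hsurj)
  have hsm : ∀ p, ev f (s (mk p)) = ev f p := by
    intro p
    have h1 : mk (s (mk p) - p) = 0 := by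
      rw [map_sub, sub_eq_zero]
      exact LinearMap.congr_fun hs (mk p)
    rw [hmk0] at h1
    have h2 := ev_ideal S f hf _ h1
    rwa [map_sub, sub_eq_zero] at h2
  obtain ⟨ψ, hψ⟩ : ∃ ψ : MvPolynomial (Fin n) k →ₗ[k] k, ψ = (ev f).comp (s.comp (g.comp mk)) :=
    ⟨_, rfl⟩
  obtain ⟨y, hy⟩ : ∃ y : Fn n k, ev y = ψ := by
    refine ⟨fun α => ψ (MvPolynomial.monomial α 1), ?_⟩
    apply ext_monomial
    intro α
    rw [ev_monomial]
  refine ⟨y, fun c hc => ?_, ?_⟩
  · funext α
    have h1 : mk (lf c * MvPolynomial.monomial α 1) = 0 := by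
      rw [hmk0]
      exact Ideal.mul_mem_right _ _ (Ideal.subset_span ⟨c, hc, rfl⟩)
    rw [← ev_monomial (op c y) α, ← ev_lf, hy, hψ, LinearMap.comp_apply, LinearMap.comp_apply,
      LinearMap.comp_apply, h1, map_zero, map_zero, map_zero]
    rfl
  · funext α
    rw [← ev_monomial (op b y) α, ← ev_lf, hy, hψ, LinearMap.comp_apply, LinearMap.comp_apply,
      LinearMap.comp_apply, ← hMm]
    have h2 : g (M (mk (MvPolynomial.monomial α 1))) = mk (MvPolynomial.monomial α 1) :=
      LinearMap.congr_fun hg _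
    rw [h2, hsm, ev_monomial]

end CGaux

theorem coreg_simplex {n : ℕ} {k : Type} [Field k] (θ : ℕ → Fin n → k) (G : Finset (Fin n))
    (h : ∀ a : Fin n → k, (∀ v, v ∉ G → a v = 0) → (∀ i < G.card, ∑ v, θ i v * a v = 0) → a = 0) :
    Coreg (DS k G.powerset) (fun l => op (θ l)) G.card := by
  intro i hi f hf hfl
  have h1 := CGaux.not_span θ G h i hi
  rw [CGaux.mem_DS_iff] at hf
  obtain ⟨y, hy, hy2⟩ := CGaux.lift _ (θ i) h1 f (by
    rintro c (⟨v, hv, rfl⟩ | ⟨l, hl, rfl⟩)
    · exact hf v hv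
    · exact hfl l hl)
  refine ⟨y, ?_, fun l hl => hy _ (Or.inr ⟨l, hl, rfl⟩), hy2⟩
  rw [CGaux.mem_DS_iff]
  exact fun v hv => hy _ (Or.inl ⟨v, hv, rfl⟩)

end Pool.Agent.H861.GL
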