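import Pool.Agent.H861.GL.Defs

/-!
# GL/ExA (this file: only dl_mem, dl_dl, sm_dl): exactness of the complex of the modules `PP k K E j`

Notation of
`GL/Defs.lean`. `hsph_lk` says that links of faces of homology spheres are homology spheres.

PROOFS.
`dl_mem`: if `dl K Λ G α ≠ 0` then `G ∈ K` and `Λ (G.erase v) α ≠ 0` for some `v ∈ G`.
`dl_dl`: `(dl (dl Λ)) G = ∑ v ∈ G, ∑ w ∈ G.erase v, Λ ((G.erase v).erase w)` for `G ∈ K` (faces of
faces are faces) and each term occurs twice (characteristic `2`).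
`sm_dl` (`j + 1 = d`): `sm (dl K M) = ∑ G ∈ K, ∑ v ∈ G, M (G.erase v) = ∑ ρ, #{v ∉ ρ : ρ ∪ v ∈ K} •
M ρ`; if `M ρ ≠ 0` then `ρ.card = j = d - 1` and the number of `v` is even by `facets_cycle hK ρ`.

EXACTNESS. Fix a monomial `α` with support `σ`, let `σ' = σ ∪ E`. All conditions and maps can be
checked for each `α` separately, since `dl` and `sm` act on the values at `α`: if `Λ G α ≠ 0` then
`σ' ⊆ G`. If `σ' ∉ K` then `Λ G α = 0` for all `G` and there is nothing to do. Let `σ' ∈ K`,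
`L = lk K σ'`, a homology sphere for `d' = d - σ'.card`. Let `f τ = Λ (τ ∪ σ') α`. For `τ ∈ L`
with `τ.card = j'` where `j' + σ'.card = j + 1`. Then `dl K Λ = 0` gives the hypothesis of
`coh_low` (for `σ ∈ L`, `(σ ∪ σ').erase v = (σ.erase v) ∪ σ'` if `v ∈ σ`, and for `v ∈ σ'` the set
`(σ ∪ σ').erase v` does not contain `σ'`, so `Λ` vanishes there), `sm Λ = 0` gives the hypothesis
of `coh_top` (for `j + 1 = d`). (If `σ'.card > j + 1`, then all `Λ G α` vanish.) With the `g`
obtained put `M ρ α = g (ρ \ σ')` if `σ' ⊆ ρ`, `ρ ∈ K`, `ρ.card = j`, and `0` otherwise. Then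
`dl K M = Λ` at `α`.

`map_sm`: if `sm Λ α ≠ 0` for `Λ ∈ PP k K E d` then some `Λ G α ≠ 0`, so `α.support ∪ E ⊆ G ∈ K`.
Conversely for `f ∈ DS k (star K E)` choose for every `σ` with `σ ∪ E ∈ K` a facet `G σ ∈ K` with
`d` vertices containing `σ ∪ E` (it exists: `hK.top (σ ∪ E)` gives a nonzero chain of the link
supported on faces with `d - |σ ∪ E|` vertices) and put `Λ G α = f α` if `G = G (α.support)` and
`f α ≠ 0`, and `0` otherwise.
-/

set_option autoImplicit false

namespace Pool.Agent.H861.GL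

open Finset Pool.Agent.W555.KS Pool.Agent.Y131.KS

variable {n d : ℕ} {K : Finset (Finset (Fin n))} {k : Type} [Field k] {E : Finset (Fin n)}

namespace ExAaux

theorem two [CharP k 2] (f : Fn n k) : f + f = 0 := funext fun _ => CharTwo.add_self_eq_zero _

theorem even_zero [CharP k 2] (hK : HSph K d) (ρ : Finset (Fin n)) (hρ : ρ.card + 1 = d) :
    ∑ v ∈ ρᶜ, (if insert v ρ ∈ K then (1 : k) else 0) = 0 := by
  have h := facets_cycle hK ρ
  unfold bdr at h
  have h1 : ∑ v ∈ ρᶜ, (if insert v ρ ∈ K then (1 : ZMod 2) else 0) = 0 := by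
    refine Eq.trans (sum_congr rfl fun v hv => ?_) h
    rw [mem_compl] at hv
    have hc : (insert v ρ).card = d := by rw [card_insert_of_notMem hv, hρ]
    show (if insert v ρ ∈ K then (1 : ZMod 2) else 0) =
      if insert v ρ ∈ K ∧ (insert v ρ).card = d then 1 else 0
    by_cases h2 : insert v ρ ∈ K
    · rw [if_pos h2, if_pos ⟨h2, hc⟩]
    · rw [if_neg h2, if_neg fun h3 => h2 h3.1]
  have h2 := congrArg (ZMod.castHom (dvd_refl 2) k) h1
  rw [map_sum, map_zero] at h2
  refine Eq.trans (sum_congr rfl fun v _ => ?_) h2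
  split_ifs
  · rw [map_one]
  · rw [map_zero]

end ExAaux

theorem dl_mem {j : ℕ} {Λ : Finset (Fin n) → Fn n k} (hΛ : Λ ∈ PP k K E j) :
    dl K Λ ∈ PP k K E (j + 1) := by
  rw [mem_PP] at hΛ ⊢
  intro G α h
  rw [dl_apply] at h
  split_ifs at h with hG
  · rw [Finset.sum_apply] at h
    obtain ⟨v, hv, hv2⟩ := Finset.exists_ne_zero_of_sum_ne_zero h
    obtain ⟨-, h2, h3, h4⟩ := hΛ _ _ hv2
    refine ⟨hG, h2.trans (erase_subset _ _), ?_, h4.trans (erase_subset _ _)⟩
    rw [← h3, card_erase_add_one hv]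
  · exact absurd rfl h

theorem dl_dl [CharP k 2] (hK : IsCx K) (Λ : Finset (Fin n) → Fn n k) :
    dl K (dl K Λ) = 0 := by
  funext G
  rw [dl_apply]
  split_ifs with hG
  · have h1 : ∀ v ∈ G, dl K Λ (G.erase v) = ∑ w ∈ G.erase v, Λ ((G.erase v).erase w) := by
      intro v _
      rw [dl_apply, if_pos (hK.2 G hG _ (erase_subset _ _))]
    rw [sum_congr rfl h1, sum_sigma']
    refine sum_involution (fun x _ => ⟨x.2, x.1⟩) ?_ ?_ ?_ ?_
    · intro x _
      have : (G.erase x.2).erase x.1 = (G.erase x.1).erase x.2 := erase_right_comm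
      show Λ ((G.erase x.1).erase x.2) + Λ ((G.erase x.2).erase x.1) = 0
      rw [this]
      exact ExAaux.two _
    · intro x hx _ h2
      rw [mem_sigma] at hx
      have h3 : x.2 = x.1 := congrArg Sigma.fst h2
      exact (mem_erase.1 hx.2).1 h3
    · intro x hx
      rw [mem_sigma] at hx ⊢
      have h3 := mem_erase.1 hx.2
      exact ⟨h3.2, mem_erase.2 ⟨fun h => h3.1 h.symm, hx.1⟩⟩
    · intro x _
      rfl
  · rfl

theorem sm_dl [CharP k 2] (hK : HSph K d) {j : ℕ} (hj : j + 1 = d)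
    {Λ : Finset (Fin n) → Fn n k} (hΛ : Λ ∈ PP k K E j) : sm (dl K Λ) = 0 := by
  have h1 : sm (dl K Λ) = ∑ G : Finset (Fin n), ∑ v ∈ G, if G ∈ K then Λ (G.erase v) else 0 := by
    rw [sm_apply]
    refine sum_congr rfl fun G _ => ?_
    rw [dl_apply]
    split_ifs with hG
    · rfl
    · rw [sum_const_zero]
  have h2 : ∑ G : Finset (Fin n), ∑ v ∈ G, (if G ∈ K then Λ (G.erase v) else 0) =
      ∑ ρ : Finset (Fin n), ∑ v ∈ ρᶜ, if insert v ρ ∈ K then Λ ρ else 0 := by
    rw [sum_sigma', sum_sigma']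
    refine sum_nbij' (fun x => ⟨x.1.erase x.2, x.2⟩) (fun y => ⟨insert y.2 y.1, y.2⟩) ?_ ?_ ?_ ?_ ?_
    · intro x hx
      rw [mem_sigma] at hx ⊢
      exact ⟨mem_univ _, mem_compl.2 (notMem_erase _ _)⟩
    · intro y hy
      rw [mem_sigma] at hy ⊢
      exact ⟨mem_univ _, mem_insert_self _ _⟩
    · rintro ⟨G, v⟩ hx
      rw [mem_sigma] at hx
      show (⟨insert v (G.erase v), v⟩ : (_ : Finset (Fin n)) × Fin n) = ⟨G, v⟩
      rw [insert_erase hx.2]
    · rintro ⟨ρ, v⟩ hy
      rw [mem_sigma] at hy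
      show (⟨(insert v ρ).erase v, v⟩ : (_ : Finset (Fin n)) × Fin n) = ⟨ρ, v⟩
      rw [erase_insert (mem_compl.1 hy.2)]
    · rintro ⟨G, v⟩ hx
      rw [mem_sigma] at hx
      show (if G ∈ K then Λ (G.erase v) else 0) =
        if insert v (G.erase v) ∈ K then Λ (G.erase v) else 0
      rw [insert_erase hx.2]
  rw [h1, h2]
  refine sum_eq_zero fun ρ _ => ?_
  by_cases hρ : Λ ρ = 0
  · refine sum_eq_zero fun v _ => ?_
    rw [hρ, ite_self]
  · have hc : ρ.card + 1 = d := by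
      obtain ⟨α, hα⟩ : ∃ α, Λ ρ α ≠ 0 := by
        by_contra hcon
        push Not at hcon
        exact hρ (funext hcon)
      rw [((mem_PP.1 hΛ) ρ α hα).2.2.1, hj]
    funext α
    rw [Finset.sum_apply]
    have h3 : ∀ v ∈ ρᶜ, (if insert v ρ ∈ K then Λ ρ else 0) α =
        (if insert v ρ ∈ K then (1 : k) else 0) * Λ ρ α := by
      intro v _
      split_ifs
      · rw [one_mul]
      · rw [zero_mul]
        rfl
    rw [sum_congr rfl h3, ← sum_mul, ExAaux.even_zero hK ρ hc, zero_mul]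
    rfl

end Pool.Agent.H861.GL
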