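import Pool.Agent.H861.GL.Coh
import Pool.Agent.H861.GL.ExA

/-!
# GL/ExB (this file: only map_dl_low, map_dl_top): exactness of the complex of the modules `PP k K E j`

Imports `coh_low`, `coh_top` of `GL/Coh.lean` and `dl_mem`, `dl_dl`, `sm_dl` of `GL/ExA.lean` (proved elsewhere). Notation of
`GL/Defs.lean`. `hsph_lk` says that links of faces of homology spheres are homology spheres.

PROOFS.
`dl_mem`: if `dl K Λ G α ≠ 0` then `G ∈ K` and `Λ (G.erase v) α ≠ 0` for some `v ∈ G`.
`dl_dl`: `(dl (dl Λ)) G = ∑ v ∈ G, ∑ w ∈ G.erase v, Λ ((G.erase v).erase w)` for `G ∈ K` (faces of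
faces are faces) and each term occurs twice (characteristic `2`).
`sm_dl` (`j + 1 = d`): `sm (dl K M) = ∑ G ∈ K, ∑ v ∈ G, M (G.erase v) = ∑ ρ, #{v ∉ ρ : ρ ∪ v ∈ K} •
M ρ`; if `M ρ ≠ 0` then `ρ.card = j = d - 1` and the number of `v` is even by `facets_cycle hK ρ`.

EXACTNESS. Fix a monomial `α` with support `σ`, let `σ' = σ ∪ E`. All conditions and maps can be
checked for each `α` separately, since `dl` and `sm` act on the values at `α`: if `Λ G α ≠ 0` then
`σ' ⊆ G`. If `σ' ∉ K` then `Λ G α = 0` for all `G` and there is nothing to do. Let `σ' ∈ K`,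
`L = lk K σ'`, a homology sphere for `d' = d - σ'.card`. Let `f τ = Λ (τ ∪ σ') α`. For `τ ∈ L`
with `τ.card = j'` where `j' + σ'.card = j + 1`. Then `dl K Λ = 0` gives the hypothesis of
`coh_low` (for `σ ∈ L`, `(σ ∪ σ').erase v = (σ.erase v) ∪ σ'` if `v ∈ σ`, and for `v ∈ σ'` the set
`(σ ∪ σ').erase v` does not contain `σ'`, so `Λ` vanishes there), `sm Λ = 0` gives the hypothesis
of `coh_top` (for `j + 1 = d`). (If `σ'.card > j + 1`, then all `Λ G α` vanish.) With the `g`
obtained put `M ρ α = g (ρ \ σ')` if `σ' ⊆ ρ`, `ρ ∈ K`, `ρ.card = j`, and `0` otherwise. Then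
`dl K M = Λ` at `α`.

`map_sm`: if `sm Λ α ≠ 0` for `Λ ∈ PP k K E d` then some `Λ G α ≠ 0`, so `α.support ∪ E ⊆ G ∈ K`.
Conversely for `f ∈ DS k (star K E)` choose for every `σ` with `σ ∪ E ∈ K` a facet `G σ ∈ K` with
`d` vertices containing `σ ∪ E` (it exists: `hK.top (σ ∪ E)` gives a nonzero chain of the link
supported on faces with `d - |σ ∪ E|` vertices) and put `Λ G α = f α` if `G = G (α.support)` and
`f α ≠ 0`, and `0` otherwise.
-/

set_option autoImplicit false

namespace Pool.Agent.H861.GL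

open Finset Pool.Agent.W555.KS Pool.Agent.Y131.KS

variable {n d : ℕ} {K : Finset (Finset (Fin n))} {k : Type} [Field k] {E : Finset (Fin n)}

namespace ExBaux

/-- The statement for one monomial. -/
theorem point (hK : HSph K d) {s' : Finset (Fin n)} (hs : s' ∈ K) {j : ℕ}
    (F : Finset (Fin n) → k) (hF : ∀ G, F G ≠ 0 → G ∈ K ∧ s' ⊆ G ∧ G.card = j + 1)
    (hcoh : s'.card ≤ j + 1 → ∃ g : Finset (Fin n) → k,
      ∀ τ ∈ lk K s', τ.card = j + 1 - s'.card → F (τ ∪ s') = ∑ v ∈ τ, g (τ.erase v)) :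
    ∃ m : Finset (Fin n) → k, (∀ ρ, m ρ ≠ 0 → ρ ∈ K ∧ s' ⊆ ρ ∧ ρ.card = j) ∧
      ∀ G, F G = if G ∈ K then ∑ v ∈ G, m (G.erase v) else 0 := by
  classical
  by_cases hsj : s'.card ≤ j + 1
  · obtain ⟨g, hg⟩ := hcoh hsj
    let m : Finset (Fin n) → k := fun ρ => if ρ ∈ K ∧ s' ⊆ ρ ∧ ρ.card = j then g (ρ \ s') else 0
    refine ⟨m, ?_, ?_⟩
    · intro ρ hρ
      by_contra hcon
      exact hρ (if_neg hcon)
    · intro G
      by_cases hG : G ∈ K
      · rw [if_pos hG]
        by_cases hsG : s' ⊆ G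
        · have hun : G \ s' ∪ s' = G := sdiff_union_of_subset hsG
          have hdis : Disjoint (G \ s') s' := sdiff_disjoint
          have hcard : (G \ s').card + s'.card = G.card := by
            rw [← card_union_of_disjoint hdis, hun]
          have hlk : G \ s' ∈ lk K s' := by
            rw [mem_lk, hun]
            exact ⟨hdis, hG⟩
          have hsplit : ∑ v ∈ G, m (G.erase v) = ∑ v ∈ G \ s', m (G.erase v) := by
            symm
            refine sum_subset sdiff_subset (fun v hv hv' => ?_)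
            rw [mem_sdiff, not_and, not_not] at hv'
            refine if_neg (fun h => ?_)
            exact notMem_erase v G (h.2.1 (hv' hv))
          rw [hsplit]
          by_cases hc : G.card = j + 1
          · have h1 := hg (G \ s') hlk (by omega)
            rw [hun] at h1
            rw [h1]
            refine sum_congr rfl (fun v hv => ?_)
            rw [mem_sdiff] at hv
            have h2 : G.erase v ∈ K ∧ s' ⊆ G.erase v ∧ (G.erase v).card = j := by
              refine ⟨hK.cx.2 _ hG _ (erase_subset _ _), ?_, ?_⟩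
              · rw [subset_erase]
                exact ⟨hsG, hv.2⟩
              · rw [card_erase_of_mem hv.1, hc, Nat.add_sub_cancel]
            simp only [m]
            rw [if_pos h2]
            congr 1
            ext x
            simp only [mem_erase, mem_sdiff]
            tauto
          · have h0 : F G = 0 := by
              by_contra h
              exact hc (hF G h).2.2
            rw [h0]
            symm
            refine sum_eq_zero (fun v hv => ?_)
            rw [mem_sdiff] at hv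
            refine if_neg (fun h => hc ?_)
            have h3 := h.2.2
            rw [card_erase_of_mem hv.1] at h3
            have : 0 < G.card := card_pos.2 ⟨v, hv.1⟩
            omega
        · have h0 : F G = 0 := by
            by_contra h
            exact hsG (hF G h).2.1
          rw [h0]
          symm
          refine sum_eq_zero (fun v _ => if_neg (fun h => hsG ?_))
          exact h.2.1.trans (erase_subset _ _)
      · rw [if_neg hG]
        by_contra h
        exact hG (hF G h).1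
  · refine ⟨fun _ => 0, fun ρ h => absurd rfl h, fun G => ?_⟩
    have h0 : F G = 0 := by
      by_contra h
      obtain ⟨_, h2, h3⟩ := hF G h
      have := card_le_card h2
      omega
    rw [h0]
    simp

/-- Assembly over the monomials. -/
theorem assemble (hK : HSph K d) {j : ℕ} {Λ : Finset (Fin n) → Fn n k}
    (hΛ : Λ ∈ PP k K E (j + 1))
    (hcoh : ∀ α : Fin n →₀ ℕ, α.support ∪ E ∈ K → (α.support ∪ E).card ≤ j + 1 →
      ∃ g : Finset (Fin n) → k, ∀ τ ∈ lk K (α.support ∪ E), τ.card = j + 1 - (α.support ∪ E).card →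
        Λ (τ ∪ (α.support ∪ E)) α = ∑ v ∈ τ, g (τ.erase v)) :
    ∃ M ∈ PP k K E j, dl K M = Λ := by
  classical
  have hF : ∀ α G, Λ G α ≠ 0 → G ∈ K ∧ α.support ∪ E ⊆ G ∧ G.card = j + 1 := by
    intro α G h
    obtain ⟨h1, h2, h3, h4⟩ := mem_PP.1 hΛ G α h
    exact ⟨h1, union_subset h4 h2, h3⟩
  have key : ∀ α : Fin n →₀ ℕ, ∃ m : Finset (Fin n) → k,
      (∀ ρ, m ρ ≠ 0 → ρ ∈ K ∧ α.support ∪ E ⊆ ρ ∧ ρ.card = j) ∧
      ∀ G, Λ G α = if G ∈ K then ∑ v ∈ G, m (G.erase v) else 0 := by
    intro α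
    by_cases hα : α.support ∪ E ∈ K
    · exact point hK hα (fun G => Λ G α) (hF α) (hcoh α hα)
    · refine ⟨fun _ => 0, fun ρ h => absurd rfl h, fun G => ?_⟩
      have h0 : Λ G α = 0 := by
        by_contra h
        obtain ⟨h1, h2, _⟩ := hF α G h
        exact hα (hK.cx.2 _ h1 _ h2)
      rw [h0]
      simp
  choose m hm1 hm2 using key
  refine ⟨fun G α => m α G, ?_, ?_⟩
  · rw [mem_PP]
    intro G α h
    obtain ⟨h1, h2, h3⟩ := hm1 α G h
    exact ⟨h1, subset_union_right.trans h2, h3, subset_union_left.trans h2⟩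
  · funext G α
    rw [dl_apply, hm2 α G]
    split_ifs
    · rw [Finset.sum_apply]
    · rfl

theorem low [CharP k 2] (hK : HSph K d) {j : ℕ} (hj : j + 1 < d) {Λ : Finset (Fin n) → Fn n k}
    (hΛ : Λ ∈ PP k K E (j + 1)) (hker : dl K Λ = 0) : ∃ M ∈ PP k K E j, dl K M = Λ := by
  classical
  refine assemble hK hΛ (fun α hα hc => ?_)
  set s' := α.support ∪ E with hs'
  have hL := hsph_lk hK hα
  suffices hcl : ∀ σ ∈ lk K s', σ.card = j + 1 - s'.card + 1 →
      ∑ v ∈ σ, (fun τ => Λ (τ ∪ s') α) (σ.erase v) = 0 by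
    obtain ⟨g, _, hg⟩ := coh_low (k := k) hL (j := j + 1 - s'.card) (by omega) (fun τ => Λ (τ ∪ s') α) hcl
    exact ⟨g, hg⟩
  · intro σ hσ hσc
    rw [mem_lk] at hσ
    have h1 := congrFun (congrFun hker (σ ∪ s')) α
    rw [dl_apply, if_pos hσ.2, Finset.sum_apply, sum_union hσ.1] at h1
    have h2 : ∑ v ∈ s', Λ ((σ ∪ s').erase v) α = 0 := by
      refine sum_eq_zero (fun v hv => ?_)
      by_contra h
      obtain ⟨_, h4, _, h6⟩ := mem_PP.1 hΛ _ _ h
      have : s' ⊆ (σ ∪ s').erase v := union_subset h6 h4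
      exact notMem_erase v _ (this hv)
    rw [h2, add_zero] at h1
    rw [← show (0 : Finset (Fin n) → Fn n k) (σ ∪ s') α = 0 from rfl, ← h1]
    refine sum_congr rfl (fun v hv => ?_)
    have hv' : v ∉ s' := fun h => (Finset.disjoint_left.1 hσ.1) hv h
    have e : σ.erase v ∪ s' = (σ ∪ s').erase v := by
      rw [erase_union_distrib, erase_eq_of_notMem hv']
    show Λ (σ.erase v ∪ s') α = Λ ((σ ∪ s').erase v) α
    rw [e]

theorem top [CharP k 2] (hK : HSph K d) {j : ℕ} (hj : j + 1 = d) {Λ : Finset (Fin n) → Fn n k}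
    (hΛ : Λ ∈ PP k K E (j + 1)) (hker : sm Λ = 0) : ∃ M ∈ PP k K E j, dl K M = Λ := by
  classical
  refine assemble hK hΛ (fun α hα hc => ?_)
  set s' := α.support ∪ E with hs'
  have hL := hsph_lk hK hα
  have hdj : j + 1 - s'.card = d - s'.card := by rw [hj]
  suffices hcl : ∑ τ ∈ (lk K s').filter (fun τ => τ.card = d - s'.card),
      (fun τ => Λ (τ ∪ s') α) τ = 0 by
    obtain ⟨g, _, hg⟩ := coh_top (k := k) hL (fun τ => Λ (τ ∪ s') α) hcl
    rw [hdj]
    exact ⟨g, hg⟩
  · have h1 := congrFun hker α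
    rw [sm_apply, Finset.sum_apply] at h1
    rw [← show (0 : Fn n k) α = 0 from rfl, ← h1]
    have hF : ∀ G, Λ G α ≠ 0 → G ∈ K ∧ s' ⊆ G ∧ G.card = d := by
      intro G h
      obtain ⟨h1, h2, h3, h4⟩ := mem_PP.1 hΛ G α h
      exact ⟨h1, union_subset h4 h2, h3.trans hj⟩
    have h2 : ∑ G, Λ G α = ∑ G ∈ univ.filter (fun G => G ∈ K ∧ s' ⊆ G ∧ G.card = d), Λ G α := by
      symm
      refine sum_subset (subset_univ _) (fun G _ hG => ?_)
      by_contra h
      exact hG (mem_filter.2 ⟨mem_univ _, hF G h⟩)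
    rw [h2]
    refine Finset.sum_nbij' (fun τ => τ ∪ s') (fun G => G \ s') ?_ ?_ ?_ ?_ ?_
    · intro τ hτ
      rw [mem_filter, mem_lk] at hτ
      rw [mem_filter]
      refine ⟨mem_univ _, hτ.1.2, subset_union_right, ?_⟩
      rw [card_union_of_disjoint hτ.1.1, hτ.2]
      omega
    · intro G hG
      rw [mem_filter] at hG
      obtain ⟨_, g1, g2, g3⟩ := hG
      have hun : G \ s' ∪ s' = G := sdiff_union_of_subset g2
      have hdis : Disjoint (G \ s') s' := sdiff_disjoint
      have hcard : (G \ s').card + s'.card = G.card := by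
        rw [← card_union_of_disjoint hdis, hun]
      rw [mem_filter, mem_lk, hun]
      exact ⟨⟨hdis, g1⟩, by omega⟩
    · intro τ hτ
      rw [mem_filter, mem_lk] at hτ
      exact union_sdiff_cancel_right hτ.1.1
    · intro G hG
      rw [mem_filter] at hG
      exact sdiff_union_of_subset hG.2.2.1
    · intro τ _
      rfl

end ExBaux

theorem map_dl_low [CharP k 2] (hK : HSph K d) (hE : E ∈ K) {j : ℕ} (hj : j + 1 < d) :
    (PP k K E j).map (dl K) = PP k K E (j + 1) ⊓ LinearMap.ker (dl K) := by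
  apply le_antisymm
  · rintro _ ⟨M, hM, rfl⟩
    exact ⟨dl_mem hM, LinearMap.mem_ker.2 (dl_dl hK.cx M)⟩
  · rintro Λ ⟨h1, h2⟩
    obtain ⟨M, hM, hd⟩ := ExBaux.low hK hj h1 (LinearMap.mem_ker.1 h2)
    exact ⟨M, hM, hd⟩

theorem map_dl_top [CharP k 2] (hK : HSph K d) (hE : E ∈ K) {j : ℕ} (hj : j + 1 = d) :
    (PP k K E j).map (dl K) = PP k K E (j + 1) ⊓ LinearMap.ker sm := by
  apply le_antisymm
  · rintro _ ⟨M, hM, rfl⟩
    exact ⟨dl_mem hM, LinearMap.mem_ker.2 (sm_dl hK hj hM)⟩
  · rintro Λ ⟨h1, h2⟩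
    obtain ⟨M, hM, hd⟩ := ExBaux.top hK hj h1 (LinearMap.mem_ker.1 h2)
    exact ⟨M, hM, hd⟩

end Pool.Agent.H861.GL
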