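import Pool.Agent.H861.GL.Defs

/-!
# GL/ExC (this file: only map_sm): exactness of the complex of the modules `PP k K E j`

Notation of
`GL/Defs.lean`. `hsph_lk` says that links of faces of homology spheres are homology spheres.

PROOFS.
`dl_mem`: if `dl K Λ G α ≠ 0` then `G ∈ K` and `Λ (G.erase v) α ≠ 0` for some `v ∈ G`.
`dl_dl`: `(dl (dl Λ)) G = ∑ v ∈ G, ∑ w ∈ G.erase v, Λ ((G.erase v).erase w)` for `G ∈ K` (faces of
faces are faces) and each term occurs twice (characteristic `2`).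
`sm_dl` (`j + 1 = d`): `sm (dl K M) = ∑ G ∈ K, ∑ v ∈ G, M (G.erase v) = ∑ ρ, #{v ∉ ρ : ρ ∪ v ∈ K} •
M ρ`; if `M ρ ≠ 0` then `ρ.card = j = d - 1` and the number of `v` is even by `facets_cycle hK ρ`.

EXACTNESS. Fix a monomial `α` with support `σ`, let `σ' = σ ∪ E`. All conditions and maps can be
checked for each `α` separately, since `dl` and `sm` act on the values at `α`: if `Λ G α ≠ 0` then
`σ' ⊆ G`. If `σ' ∉ K` then `Λ G α = 0` for all `G` and there is nothing to do. Let `σ' ∈ K`,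
`L = lk K σ'`, a homology sphere for `d' = d - σ'.card`. Let `f τ = Λ (τ ∪ σ') α`. For `τ ∈ L`
with `τ.card = j'` where `j' + σ'.card = j + 1`. Then `dl K Λ = 0` gives the hypothesis of
`coh_low` (for `σ ∈ L`, `(σ ∪ σ').erase v = (σ.erase v) ∪ σ'` if `v ∈ σ`, and for `v ∈ σ'` the set
`(σ ∪ σ').erase v` does not contain `σ'`, so `Λ` vanishes there), `sm Λ = 0` gives the hypothesis
of `coh_top` (for `j + 1 = d`). (If `σ'.card > j + 1`, then all `Λ G α` vanish.) With the `g`
obtained put `M ρ α = g (ρ \ σ')` if `σ' ⊆ ρ`, `ρ ∈ K`, `ρ.card = j`, and `0` otherwise. Then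
`dl K M = Λ` at `α`.

`map_sm`: if `sm Λ α ≠ 0` for `Λ ∈ PP k K E d` then some `Λ G α ≠ 0`, so `α.support ∪ E ⊆ G ∈ K`.
Conversely for `f ∈ DS k (star K E)` choose for every `σ` with `σ ∪ E ∈ K` a facet `G σ ∈ K` with
`d` vertices containing `σ ∪ E` (it exists: `hK.top (σ ∪ E)` gives a nonzero chain of the link
supported on faces with `d - |σ ∪ E|` vertices) and put `Λ G α = f α` if `G = G (α.support)` and
`f α ≠ 0`, and `0` otherwise.
-/

set_option autoImplicit false

namespace Pool.Agent.H861.GL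

open Finset Pool.Agent.W555.KS Pool.Agent.Y131.KS

variable {n d : ℕ} {K : Finset (Finset (Fin n))} {k : Type} [Field k] {E : Finset (Fin n)}

/-- every face of a homology sphere is contained in a facet with `d` vertices -/
theorem ExCaux.ex_facet (hK : HSph K d) {τ : Finset (Fin n)} (hτ : τ ∈ K) :
    ∃ G ∈ K, τ ⊆ G ∧ G.card = d := by
  obtain ⟨z, hz, hsp, _⟩ := hK.top τ hτ
  obtain ⟨ρ, hρ⟩ : ∃ ρ, z ρ ≠ 0 := by
    by_contra h
    push Not at h
    exact hz (funext h)
  obtain ⟨h1, h2⟩ := hsp ρ hρ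
  obtain ⟨h3, h4⟩ := mem_lk.1 h1
  have h5 := hK.card_le τ hτ
  refine ⟨ρ ∪ τ, h4, subset_union_right, ?_⟩
  rw [card_union_of_disjoint h3, h2]
  omega

theorem map_sm [CharP k 2] (hK : HSph K d) (hE : E ∈ K) :
    (PP k K E d).map sm = DS k (star K E) := by
  classical
  ext f
  rw [Submodule.mem_map]
  constructor
  · rintro ⟨Λ, hΛ, rfl⟩
    rw [mem_DS]
    intro α h
    rw [sm_apply, Finset.sum_apply] at h
    obtain ⟨G, _, hG⟩ := exists_ne_zero_of_sum_ne_zero h
    obtain ⟨h1, h2, h3, h4⟩ := mem_PP.1 hΛ G α hG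
    exact mem_star.2 ⟨hK.cx.2 G h1 _ h4, hK.cx.2 G h1 _ (union_subset h4 h2)⟩
  · intro hf
    have key : ∀ σ : Finset (Fin n), ∃ G : Finset (Fin n),
        σ ∪ E ∈ K → G ∈ K ∧ σ ∪ E ⊆ G ∧ G.card = d := by
      intro σ
      by_cases h : σ ∪ E ∈ K
      · obtain ⟨G, h1, h2, h3⟩ := ExCaux.ex_facet hK h
        exact ⟨G, fun _ => ⟨h1, h2, h3⟩⟩
      · exact ⟨∅, fun h' => absurd h' h⟩
    choose g hg using key
    refine ⟨fun G α => if G = g α.support then f α else 0, ?_, ?_⟩
    · rw [mem_PP]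
      intro G α h
      by_cases he : G = g α.support
      · rw [if_pos he] at h
        obtain ⟨h1, h2, h3⟩ := hg α.support (mem_star.1 (mem_DS.1 hf α h)).2
        rw [← he] at h1 h2 h3
        exact ⟨h1, subset_union_right.trans h2, h3, subset_union_left.trans h2⟩
      · exact absurd (if_neg he) h
    · funext α
      rw [sm_apply, Finset.sum_apply, Finset.sum_ite_eq' univ (g α.support) fun _ => f α,
        if_pos (mem_univ _)]

end Pool.Agent.H861.GL
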