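import Pool.Agent.H861.GL.HilbA

/-!
# GL/HilbB: the effect of one coregular contraction on the dimensions

Imports `st_finite` from `GL/HilbA.lean` (proved elsewhere). Notation of `GL/Defs.lean`.

PROOF of `dim_step`. `op (θ i)` maps `St θ K i (r + 1)` to `St θ K i r`: it lowers degrees by one,
`α.support ⊆ (α + single v 1).support` and `K` is closed under subsets, and it commutes with the
`op (θ l)` (`op_op`). Its kernel in `St θ K i (r + 1)` is `St θ K (i + 1) (r + 1)`. It is
surjective onto `St θ K i r`: for `f ∈ St θ K i r` there is by hypothesis `y ∈ DS k K` with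
`op (θ l) y = 0` for `l < i` and `op (θ i) y = f`; let `y'` be the part of `y` in degree `r + 1`
(`y' α = if α.degree = r + 1 then y α else 0`). Then `(op c y') α = if α.degree = r then
(op c y) α else 0`, so `y' ∈ St θ K i (r + 1)` and `op (θ i) y' = f`. Hence
`finrank (St θ K (i + 1) (r + 1)) + finrank (St θ K i r) = finrank (St θ K i (r + 1))`, and
`St θ K (i + 1) 0 = St θ K i 0` since `op (θ i)` kills functions supported in degree `0`. These
are the coefficients of the claimed identity.
-/

set_option autoImplicit false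

namespace Pool.Agent.H861.GL

open Finset Pool.Agent.W555.KS Pool.Agent.Y131.KS

variable {n : ℕ} {K : Finset (Finset (Fin n))} {k : Type} [Field k]

namespace HilbBaux

theorem supp_le (α : Fin n →₀ ℕ) (v : Fin n) : α.support ⊆ (α + Finsupp.single v 1).support := by
  intro w hw
  rw [Finsupp.mem_support_iff] at hw ⊢
  rw [Finsupp.add_apply]
  omega

theorem deg_add (α : Fin n →₀ ℕ) (v : Fin n) :
    (α + Finsupp.single v 1).degree = α.degree + 1 := by
  rw [map_add, Finsupp.degree_single]

theorem op_mem (hK : IsCx K) (θ : ℕ → Fin n → k) (i r : ℕ) (f : Fn n k)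
    (hf : f ∈ St θ K i (r + 1)) : op (θ i) f ∈ St θ K i r := by
  refine ⟨fun α h => ?_, fun l hl => ?_⟩
  · rw [op_apply] at h
    obtain ⟨v, -, hv⟩ := exists_ne_zero_of_sum_ne_zero h
    have h1 : f (α + Finsupp.single v 1) ≠ 0 := right_ne_zero_of_mul hv
    obtain ⟨h2, h3⟩ := hf.1 _ h1
    rw [deg_add] at h3
    exact ⟨hK.2 _ h2 _ (supp_le α v), by omega⟩
  · rw [op_op, hf.2 l hl, map_zero]

/-- the contraction with `θ i` -/
noncomputable def T (hK : IsCx K) (θ : ℕ → Fin n → k) (i r : ℕ) :
    St θ K i (r + 1) →ₗ[k] St θ K i r :=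
  (op (θ i)).restrict (op_mem hK θ i r)

theorem T_coe (hK : IsCx K) (θ : ℕ → Fin n → k) (i r : ℕ) (f : St θ K i (r + 1)) :
    ((T hK θ i r f : St θ K i r) : Fn n k) = op (θ i) (f : Fn n k) := rfl

theorem surj (hK : IsCx K) {d : ℕ} (θ : ℕ → Fin n → k)
    (h : Coreg (DS k K) (fun l => op (θ l)) d) {i : ℕ} (hi : i < d) (r : ℕ) :
    Function.Surjective (T hK θ i r) := by
  rintro ⟨f, hf⟩
  obtain ⟨y, hy, hy1, hy2⟩ := h i hi f (fun α hα => (hf.1 α hα).1) hf.2
  obtain ⟨y', hy'⟩ : ∃ y' : Fn n k, ∀ α, y' α = if α.degree = r + 1 then y α else 0 :=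
    ⟨_, fun _ => rfl⟩
  have key : ∀ (c : Fin n → k) (α : Fin n →₀ ℕ),
      op c y' α = if α.degree = r then op c y α else 0 := by
    intro c α
    rw [op_apply, op_apply]
    by_cases h1 : α.degree = r
    · rw [if_pos h1]
      refine sum_congr rfl fun v _ => ?_
      rw [hy', if_pos (by rw [deg_add, h1])]
    · rw [if_neg h1]
      refine sum_eq_zero fun v _ => ?_
      rw [hy', if_neg (by rw [deg_add]; omega), mul_zero]
  have hm : y' ∈ St θ K i (r + 1) := by
    refine ⟨fun α hα => ?_, fun l hl => ?_⟩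
    · rw [hy'] at hα
      by_cases h1 : α.degree = r + 1
      · rw [if_pos h1] at hα
        exact ⟨hy α hα, h1⟩
      · rw [if_neg h1] at hα
        exact absurd rfl hα
    · funext α
      have h2 : op (θ l) y = 0 := hy1 l hl
      rw [key, h2]
      simp only [Pi.zero_apply, ite_self]
  refine ⟨⟨y', hm⟩, Subtype.ext ?_⟩
  rw [T_coe]
  funext α
  show op (θ i) y' α = f α
  have h2 : op (θ i) y = f := hy2
  rw [key, h2]
  by_cases h1 : α.degree = r
  · rw [if_pos h1]
  · rw [if_neg h1]
    by_contra h3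
    exact h1 (hf.1 α (Ne.symm h3)).2

theorem ker_map (hK : IsCx K) (θ : ℕ → Fin n → k) (i r : ℕ) :
    Submodule.map (St θ K i (r + 1)).subtype (LinearMap.ker (T hK θ i r)) =
      St θ K (i + 1) (r + 1) := by
  ext f
  rw [Submodule.mem_map]
  constructor
  · rintro ⟨g, hg, rfl⟩
    rw [LinearMap.mem_ker] at hg
    have h1 : op (θ i) (g : Fn n k) = 0 := by
      rw [← T_coe hK θ i r g, hg]
      rfl
    refine ⟨g.2.1, fun l hl => ?_⟩
    rcases Nat.lt_succ_iff_lt_or_eq.1 hl with hl | rfl
    · exact g.2.2 l hl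
    · exact h1
  · intro hf
    refine ⟨⟨f, hf.1, fun l hl => hf.2 l (by omega)⟩, ?_, rfl⟩
    rw [LinearMap.mem_ker]
    apply Subtype.ext
    rw [T_coe]
    exact hf.2 i (by omega)

theorem dim_succ (hK : IsCx K) {d : ℕ} (θ : ℕ → Fin n → k)
    (h : Coreg (DS k K) (fun l => op (θ l)) d) {i : ℕ} (hi : i < d) (r : ℕ) :
    Module.finrank k (St θ K i r) + Module.finrank k (St θ K (i + 1) (r + 1)) =
      Module.finrank k (St θ K i (r + 1)) := by
  have := st_finite (K := K) θ i (r + 1)
  have h1 := LinearMap.finrank_range_add_finrank_ker (T hK θ i r)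
  rw [LinearMap.range_eq_top.2 (surj hK θ h hi r), finrank_top] at h1
  have h2 : Module.finrank k (LinearMap.ker (T hK θ i r)) =
      Module.finrank k (St θ K (i + 1) (r + 1)) := by
    rw [← ker_map hK θ i r, Submodule.finrank_map_subtype_eq]
  rw [h2] at h1
  exact h1

theorem dim_null (θ : ℕ → Fin n → k) (i : ℕ) : St θ K (i + 1) 0 = St θ K i 0 := by
  ext f
  constructor
  · intro hf
    exact ⟨hf.1, fun l hl => hf.2 l (by omega)⟩
  · intro hf
    refine ⟨hf.1, fun l _ => ?_⟩
    funext α
    rw [op_apply]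
    refine sum_eq_zero fun v _ => ?_
    by_contra h1
    have h2 := (hf.1 _ (right_ne_zero_of_mul h1)).2
    rw [deg_add] at h2
    omega

end HilbBaux

theorem dim_step (hK : IsCx K) {d : ℕ} (θ : ℕ → Fin n → k)
    (h : Coreg (DS k K) (fun l => op (θ l)) d) {i : ℕ} (hi : i < d) :
    PowerSeries.mk (fun r => (Module.finrank k (St θ K (i + 1) r) : ℤ)) =
      PowerSeries.mk (fun r => (Module.finrank k (St θ K i r) : ℤ)) * (1 - PowerSeries.X) := by
  ext r
  rw [mul_sub, mul_one, map_sub]
  cases r with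
  | zero =>
    rw [PowerSeries.coeff_zero_mul_X, PowerSeries.coeff_mk, PowerSeries.coeff_mk,
      HilbBaux.dim_null, sub_zero]
  | succ r =>
    rw [PowerSeries.coeff_succ_mul_X, PowerSeries.coeff_mk, PowerSeries.coeff_mk,
      PowerSeries.coeff_mk, ← HilbBaux.dim_succ hK θ h hi r]
    push_cast
    ring

end Pool.Agent.H861.GL
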