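import Pool.Agent.H861.GL.CG
import Pool.Agent.H861.GL.ExB
import Pool.Agent.H861.GL.ExC
import Pool.Agent.H861.GL.HilbB

/-!
# GL/CM: stars in homology spheres are Cohen-Macaulay, in dual form
-/

set_option autoImplicit false

namespace Pool.Agent.H861.GL

open Finset Pool.Agent.W555.KS Pool.Agent.Y131.KS

theorem codepth {k V V' : Type} [Field k] [AddCommGroup V] [Module k V] [AddCommGroup V']
    [Module k V'] (T : ℕ → V →ₗ[k] V) (T' : ℕ → V' →ₗ[k] V') (φ : V →ₗ[k] V')
    (hφ : ∀ l x, φ (T l x) = T' l (φ x)) (hT : ∀ l m x, T l (T m x) = T m (T l x))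
    (B : Submodule k V) (hB : ∀ l, ∀ x ∈ B, T l x ∈ B) (m : ℕ)
    (hA : Coreg (B ⊓ LinearMap.ker φ) T m) (hB' : Coreg B T (m + 1)) :
    Coreg (B.map φ) T' (m + 1) := by
  have lift : ∀ i ≤ m, ∀ c ∈ B.map φ, (∀ l < i, T' l c = 0) →
      ∃ b ∈ B, (∀ l < i, T l b = 0) ∧ φ b = c := by
    intro i
    induction i with
    | zero =>
      intro _ c hc _
      obtain ⟨b, hb, rfl⟩ := Submodule.mem_map.1 hc
      exact ⟨b, hb, fun l hl => absurd hl (Nat.not_lt_zero l), rfl⟩
    | succ i ih =>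
      intro hi c hc hcz
      obtain ⟨b, hb, hbz, hbc⟩ := ih (by omega) c hc (fun l hl => hcz l (by omega))
      have h1 : T i b ∈ B ⊓ LinearMap.ker φ := by
        refine Submodule.mem_inf.2 ⟨hB i b hb, ?_⟩
        rw [LinearMap.mem_ker, hφ, hbc]
        exact hcz i (by omega)
      obtain ⟨a, ha, haz, hab⟩ := hA i (by omega) (T i b) h1
        (fun l hl => by rw [hT, hbz l hl, map_zero])
      refine ⟨b - a, B.sub_mem hb (Submodule.mem_inf.1 ha).1, ?_, ?_⟩
      · intro l hl
        rcases Nat.lt_succ_iff_lt_or_eq.1 hl with h | rfl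
        · rw [map_sub, hbz l h, haz l h, sub_zero]
        · rw [map_sub, hab, sub_self]
      · rw [map_sub, hbc, (LinearMap.mem_ker.1 (Submodule.mem_inf.1 ha).2), sub_zero]
  intro i hi c hc hcz
  obtain ⟨b, hb, hbz, rfl⟩ := lift i (by omega) c hc hcz
  obtain ⟨y, hy, hyz, hyb⟩ := hB' i hi b hb hbz
  refine ⟨φ y, Submodule.mem_map_of_mem hy, ?_, ?_⟩
  · intro l hl
    rw [← hφ, hyz l hl, map_zero]
  · rw [← hφ, hyb]

variable {n d : ℕ} {K : Finset (Finset (Fin n))} {k : Type} [Field k] {E : Finset (Fin n)}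

theorem op_ne {c : Fin n → k} {f : Fn n k} {α : Fin n →₀ ℕ} (h : op c f α ≠ 0) :
    ∃ v, f (α + Finsupp.single v 1) ≠ 0 := by
  by_contra hcon
  push Not at hcon
  apply h
  rw [op_apply]
  exact sum_eq_zero fun v _ => by rw [hcon v, mul_zero]

theorem supp_le (α : Fin n →₀ ℕ) (v : Fin n) : α.support ⊆ (α + Finsupp.single v 1).support := by
  intro w hw
  rw [Finsupp.mem_support_iff] at hw ⊢
  rw [Finsupp.add_apply]
  omega

theorem opP_mem (c : Fin n → k) {j : ℕ} {Λ : Finset (Fin n) → Fn n k} (hΛ : Λ ∈ PP k K E j) :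
    opP c Λ ∈ PP k K E j := by
  intro G α h
  rw [opP_apply] at h
  obtain ⟨v, hv⟩ := op_ne h
  obtain ⟨h1, h2, h3, h4⟩ := hΛ G _ hv
  exact ⟨h1, h2, h3, (supp_le α v).trans h4⟩

theorem opP_comm (b c : Fin n → k) (Λ : Finset (Fin n) → Fn n k) :
    opP b (opP c Λ) = opP c (opP b Λ) := by
  funext G
  rw [opP_apply, opP_apply, opP_apply, opP_apply, op_op]

theorem dl_opP (c : Fin n → k) (Λ : Finset (Fin n) → Fn n k) :
    dl K (opP c Λ) = opP c (dl K Λ) := by
  funext G
  rw [dl_apply, opP_apply, dl_apply]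
  split_ifs
  · rw [map_sum]
    rfl
  · rw [map_zero]

theorem sm_opP (c : Fin n → k) (Λ : Finset (Fin n) → Fn n k) :
    sm (opP c Λ) = op c (sm Λ) := by
  rw [sm_apply, sm_apply, map_sum]
  rfl

theorem coreg_PP {θ : ℕ → Fin n → k} (hg : Gen θ K) (j : ℕ) :
    Coreg (PP k K E j) (fun l => opP (θ l)) j := by
  classical
  intro i hi Λ hΛ hz
  have key : ∀ G : Finset (Fin n), ∃ y : Fn n k,
      (∀ α, y α ≠ 0 → G ∈ K ∧ E ⊆ G ∧ G.card = j ∧ α.support ⊆ G) ∧
      (∀ l < i, op (θ l) y = 0) ∧ op (θ i) y = Λ G := by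
    intro G
    by_cases hG : G ∈ K ∧ E ⊆ G ∧ G.card = j
    · obtain ⟨h1, h2, h3⟩ := hG
      have hm : Λ G ∈ DS k G.powerset := by
        intro α hα
        rw [mem_powerset]
        exact (hΛ G α hα).2.2.2
      obtain ⟨y, hy, hyz, hye⟩ := coreg_simplex θ G (hg G h1) i (by omega) (Λ G) hm
        (fun l hl => congrFun (hz l hl) G)
      refine ⟨y, fun α hα => ⟨h1, h2, h3, mem_powerset.1 (hy α hα)⟩, hyz, hye⟩
    · refine ⟨0, fun α hα => absurd rfl hα, fun l _ => map_zero _, ?_⟩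
      rw [map_zero]
      funext α
      by_contra hne
      obtain ⟨h1, h2, h3, -⟩ := hΛ G α (Ne.symm hne)
      exact hG ⟨h1, h2, h3⟩
  choose y hy1 hy2 hy3 using key
  refine ⟨y, hy1, ?_, ?_⟩
  · intro l hl
    funext G
    exact hy2 G l hl
  · funext G
    exact hy3 G

/-- **Cohen-Macaulayness** of stars -/
theorem cm [CharP k 2] (hK : HSph K d) (hE : E ∈ K) {θ : ℕ → Fin n → k} (hg : Gen θ K) :
    Coreg (DS k (star K E)) (fun l => op (θ l)) d := by
  have hlow : ∀ j < d, Coreg (PP k K E j ⊓ LinearMap.ker (dl K)) (fun l => opP (θ l)) (j - 1) := by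
    intro j
    induction j with
    | zero =>
      intro _ i hi
      exact absurd hi (by omega)
    | succ j ih =>
      intro hj
      rw [Nat.add_sub_cancel]
      rcases Nat.eq_zero_or_pos j with rfl | hj0
      · intro i hi
        exact absurd hi (by omega)
      · obtain ⟨m, rfl⟩ : ∃ m, j = m + 1 := ⟨j - 1, by omega⟩
        rw [← map_dl_low hK hE hj]
        exact codepth (fun l => opP (θ l)) (fun l => opP (θ l)) (dl K) (fun l x => dl_opP _ x)
          (fun l m x => opP_comm _ _ x) (PP k K E (m + 1)) (fun l x hx => opP_mem _ hx) m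
          (ih (by omega)) (coreg_PP hg (m + 1))
  rcases Nat.eq_zero_or_pos d with hd | hd
  · intro i hi
    exact absurd hi (by omega)
  · obtain ⟨e, rfl⟩ : ∃ e, d = e + 1 := ⟨d - 1, by omega⟩
    have htop : Coreg (PP k K E (e + 1) ⊓ LinearMap.ker sm) (fun l => opP (θ l)) e := by
      rcases Nat.eq_zero_or_pos e with rfl | he
      · intro i hi
        exact absurd hi (by omega)
      · obtain ⟨m, rfl⟩ : ∃ m, e = m + 1 := ⟨e - 1, by omega⟩
        rw [← map_dl_top hK hE rfl]
        exact codepth (fun l => opP (θ l)) (fun l => opP (θ l)) (dl K) (fun l x => dl_opP _ x)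
          (fun l m x => opP_comm _ _ x) (PP k K E (m + 1)) (fun l x hx => opP_mem _ hx) m
          (hlow (m + 1) (by omega)) (coreg_PP hg (m + 1))
    rw [← map_sm hK hE]
    exact codepth (fun l => opP (θ l)) (fun l => op (θ l)) sm (fun l x => sm_opP _ x)
      (fun l m x => opP_comm _ _ x) (PP k K E (e + 1)) (fun l x hx => opP_mem _ hx) e
      htop (coreg_PP hg (e + 1))

/-- dimensions of the spaces of stresses -/
theorem stress_dim (hK : IsCx K) (hd : ∀ σ ∈ K, σ.card ≤ d) (θ : ℕ → Fin n → k)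
    (h : Coreg (DS k K) (fun l => op (θ l)) d) (r : ℕ) :
    (Module.finrank k (St θ K d r) : ℤ) = (hP K d).coeff r := by
  have h1 : ∀ i ≤ d, PowerSeries.mk (fun r => (Module.finrank k (St θ K i r) : ℤ)) =
      PowerSeries.mk (fun r => (Module.finrank k (St θ K 0 r) : ℤ)) * (1 - PowerSeries.X) ^ i := by
    intro i
    induction i with
    | zero => intro _; rw [pow_zero, mul_one]
    | succ i ih =>
      intro hi
      rw [dim_step hK θ h (by omega), ih (by omega), pow_succ, mul_assoc]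
  have h2 := h1 d le_rfl
  rw [dim_zero hd θ] at h2
  have h3 := congrArg (PowerSeries.coeff r) h2
  rw [PowerSeries.coeff_mk, Polynomial.coeff_coe] at h3
  exact h3

end Pool.Agent.H861.GL
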