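import Pool.Agent.H861.GL.Defs3

/-!
# GL/ZZc: coregularity of the families with sum zero

Model: `coreg_PR` in TT.lean and `coreg_PP` in CM.lean (one face `G` at a time by
`coreg_simplex`).

PAPER PROOF. Let `i < j` and `Λ ∈ ZZ k K W j` with `opW (θ l) Λ = 0` for `l < i`. For a face
`G ∈ K` with `|G| = j` and `G ∩ W` nonempty fix `w₀(G) ∈ G ∩ W`. For `w ∈ G ∩ W`, `w ≠ w₀(G)`,
`coreg_simplex` gives `y w G` supported on the monomials in the variables of `G` with
`op (θ l) (y w G) = 0` for `l < i` and `op (θ i) (y w G) = Λ w G`. Put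
`y (w₀(G)) G = - ∑_{w ∈ G ∩ W, w ≠ w₀(G)} y w G`, and `y w G = 0` in all other cases. Then
`op (θ i) (y (w₀ G) G) = - ∑_{w ≠ w₀} Λ w G = Λ (w₀ G) G` since `∑ w, Λ w G = 0` and `Λ w G = 0`
unless `w ∈ G ∩ W`, `G ∈ K`, `|G| = j`.
-/

set_option autoImplicit false

namespace Pool.Agent.H861.GL

open Finset Pool.Agent.W555.KS Pool.Agent.Y131.KS

/-- one face at a time -/
theorem ZZcaux.face {n : ℕ} {K : Finset (Finset (Fin n))} {k : Type} [Field k]
    {θ : ℕ → Fin n → k} (hg : Gen θ K) (W : Finset (Fin n)) (j i : ℕ) (hi : i < j)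
    (Λ : Fin n → Finset (Fin n) → Fn n k) (hΛ : Λ ∈ ZZ k K W j)
    (hz : ∀ l < i, opW (θ l) Λ = 0) (G : Finset (Fin n)) :
    ∃ y : Fin n → Fn n k,
      (∀ w α, y w α ≠ 0 → G ∈ K ∧ {w} ⊆ G ∧ G.card = j ∧ α.support ⊆ G) ∧
      (∀ w, w ∉ W → y w = 0) ∧ ∑ w, y w = 0 ∧
      (∀ l < i, ∀ w, op (θ l) (y w) = 0) ∧ ∀ w, op (θ i) (y w) = Λ w G := by
  classical
  obtain ⟨hP, hW, hS⟩ := hΛ
  have hsum : ∑ w, Λ w G = 0 := by
    have := congrFun hS G
    rwa [Finset.sum_apply] at this
  by_cases hG : G ∈ K ∧ G.card = j ∧ (G ∩ W).Nonempty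
  · obtain ⟨h1, h3, w0, hw0⟩ := hG
    rw [mem_inter] at hw0
    have hL0 : ∀ w, w ∉ G ∩ W → Λ w G = 0 := by
      intro w hw
      rw [mem_inter, not_and_or] at hw
      rcases hw with hw | hw
      · funext α
        by_contra hne
        obtain ⟨-, h2, -, -⟩ := hP w G α hne
        exact hw (h2 (mem_singleton_self w))
      · rw [hW w hw]
        rfl
    have key : ∀ w : Fin n, ∃ y : Fn n k, (w ∉ G ∩ W → y = 0) ∧
        (∀ α, y α ≠ 0 → α.support ⊆ G) ∧
        (∀ l < i, op (θ l) y = 0) ∧ op (θ i) y = Λ w G := by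
      intro w
      by_cases hw : w ∈ G ∩ W
      · have hm : Λ w G ∈ DS k G.powerset := by
          intro α hα
          rw [mem_powerset]
          exact (hP w G α hα).2.2.2
        obtain ⟨y, hy, hyz, hye⟩ := coreg_simplex θ G (hg G h1) i (by omega) (Λ w G) hm
          (fun l hl => congrFun (congrFun (hz l hl) w) G)
        exact ⟨y, fun h => absurd hw h, fun α hα => mem_powerset.1 (hy α hα), hyz, hye⟩
      · refine ⟨0, fun _ => rfl, fun α hα => absurd rfl hα, fun l _ => map_zero _, ?_⟩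
        rw [map_zero, hL0 w hw]
    choose y hy0 hy1 hy2 hy3 using key
    refine ⟨fun w => if w = w0 then - ∑ v ∈ univ.erase w0, y v else y w, ?_, ?_, ?_, ?_, ?_⟩
    · intro w α hα
      by_cases hw : w = w0
      · subst hw
        simp only [if_true] at hα
        refine ⟨h1, singleton_subset_iff.2 hw0.1, h3, ?_⟩
        rw [Pi.neg_apply, Finset.sum_apply, neg_ne_zero] at hα
        obtain ⟨v, -, hv⟩ := exists_ne_zero_of_sum_ne_zero hα
        exact hy1 v α hv
      · simp only [if_neg hw] at hα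
        have hwG : w ∈ G ∩ W := by
          by_contra hcon
          exact hα (by rw [hy0 w hcon]; rfl)
        exact ⟨h1, singleton_subset_iff.2 (mem_inter.1 hwG).1, h3, hy1 w α hα⟩
    · intro w hw
      have hne : w ≠ w0 := fun h => hw (h ▸ hw0.2)
      simp only [if_neg hne]
      exact hy0 w (fun h => hw (mem_inter.1 h).2)
    · rw [← Finset.add_sum_erase _ _ (mem_univ w0)]
      simp only [if_true]
      rw [neg_add_eq_zero]
      exact sum_congr rfl fun v hv => by rw [if_neg (ne_of_mem_erase hv)]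
    · intro l hl w
      by_cases hw : w = w0
      · simp only [if_pos hw]
        rw [map_neg, map_sum, sum_eq_zero (fun v _ => hy2 v l hl), neg_zero]
      · simp only [if_neg hw]
        exact hy2 w l hl
    · intro w
      by_cases hw : w = w0
      · subst hw
        simp only [if_true]
        rw [map_neg, map_sum, sum_congr rfl (fun v _ => hy3 v)]
        rw [← Finset.add_sum_erase _ _ (mem_univ w)] at hsum
        exact neg_eq_of_add_eq_zero_left hsum
      · simp only [if_neg hw]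
        exact hy3 w
  · refine ⟨fun _ => 0, fun w α hα => absurd rfl hα, fun _ _ => rfl, sum_const_zero,
      fun l _ w => map_zero _, fun w => ?_⟩
    rw [map_zero]
    funext α
    by_contra hne
    obtain ⟨h1, h2, h3, -⟩ := hP w G α (Ne.symm hne)
    refine hG ⟨h1, h3, w, mem_inter.2 ⟨h2 (mem_singleton_self w), ?_⟩⟩
    by_contra hw
    exact hne (by rw [hW w hw]; rfl)

theorem coreg_ZZ {n : ℕ} {K : Finset (Finset (Fin n))} {k : Type} [Field k]
    {θ : ℕ → Fin n → k} (hg : Gen θ K) (W : Finset (Fin n)) (j : ℕ) :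
    Coreg (ZZ k K W j) (fun l => opW (θ l)) j := by
  intro i hi Λ hΛ hz
  choose y hy1 hy2 hy3 hy4 hy5 using ZZcaux.face hg W j i hi Λ hΛ hz
  refine ⟨fun w G => y G w, ⟨fun w G α h => hy1 G w α h, fun w hw => ?_, ?_⟩, ?_, ?_⟩
  · funext G
    exact hy2 G w hw
  · funext G
    rw [Finset.sum_apply]
    exact hy3 G
  · intro l hl
    funext w G
    exact hy4 G l hl w
  · funext w G
    exact hy5 G w

end Pool.Agent.H861.GL
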