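import Pool.Agent.H861.GL.ZZe
import Pool.Agent.H861.GL.ZZc

/-!
# GL/Cech: stresses on the deletion of `u` are sums of stresses on the stars of the vertices not
adjacent to `u`

PAPER PROOF. `W = nonadj K u`.

(1) `Coreg (NN k K W) (fun l => opV (θ l)) d`. Model: the proof of `cm` in CM.lean (chain of
`codepth`). Claim: for `j ≤ d` with `j + 1 < d` or so, `(ZZ k K W j).map (dlW K)` is coregular of
length `j` for `opW (θ l)`: for `j = 0` nothing to show (length 0); step: `codepth` with
`T = T' = opW (θ ·)`, `φ = dlW K`, `B = ZZ k K W (j+1)` (coregular of length `j + 1` by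
`coreg_ZZ`), and `B ⊓ ker φ = (ZZ k K W j).map (dlW K)` by `ZZ_low` (coregular of length `j`).
Last step: `φ = smW`, `B = ZZ k K W d`, `B ⊓ ker smW = (ZZ k K W (d-1)).map (dlW K)` by `ZZ_top`,
`B.map smW = NN` by `ZZ_sm`. (`d = 0`: nothing to show.) The commutation rules `dlW K ∘ opW c =
opW c ∘ dlW K`, `smW ∘ opW c = opV c ∘ smW`, follow from `dl_opP`, `sm_opP` in CM.lean; `opW`
preserves `ZZ` (`opP_mem`, CM.lean; `opP` is linear so the sum stays `0`).

(2) The space `B` of the families `y : Fin n → Fn n k` with `y w ∈ DS k (star K {w})` and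
`y w = 0` for `w ∉ W`; `φ y = ∑ w, y w` (linear, to `Fn n k`). `B ⊓ ker φ = NN k K W`. `B.map φ`
contains `DS k (dele K {u})`: for `f ∈ DS k (dele K {u})`, split `f` by monomials `α`: the
support `σ = α.support` is a face with `u ∉ σ` and there is `w ∈ W` with `σ ∪ {w} ∈ K`: by
`map_sm_rel` (RelC; `F = {u}`) `f = sm P` with `P ∈ PR k K {u} d`; hence if `f α ≠ 0` there is `G ∈ K`
with `G ∪ {u} ∉ K`, `α.support ⊆ G`, and `G` contains some `w ∈ W` by the flag property (`Flag K`,
`{u} ∈ K`). Choose such a `w = w(α)` for every `α` and put `y w α = f α` if `w(α) = w` and `0`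
otherwise.

(3) `lift_mod` (Sur.lean) with `T l = opV (θ l)`, `T' l = op (θ l)`, `m = d` gives for
`f ∈ St θ (dele K {u}) d i` a family `y ∈ B` with `op (θ l) (y w) = 0` for all `l < d` and all
`w`, and `∑ w, y w = f`. Replace `y w` by its component of degree `i`
(`α ↦ if α.degree = i then y w α else 0`): still killed by `op (θ l)`, `l < d` (the contraction
lowers the degree by one), still supported on `star K {w}`, and the sum is still `f` (as `f` is
supported in degree `i`). There is probably such a truncation lemma in HilbB.lean (`surj`) or in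
Sur.lean that can be copied.
-/

set_option autoImplicit false

namespace Pool.Agent.H861.GL

open Finset Pool.Agent.W555.KS Pool.Agent.Y131.KS

namespace Cechaux

section
variable {n d : ℕ} {K : Finset (Finset (Fin n))} {k : Type} [Field k]

theorem opW_comm (b c : Fin n → k) (Λ : Fin n → Finset (Fin n) → Fn n k) :
    opW b (opW c Λ) = opW c (opW b Λ) := by
  funext w
  rw [opW_apply, opW_apply, opW_apply, opW_apply, opP_comm]

theorem opV_comm (b c : Fin n → k) (y : Fin n → Fn n k) :
    opV b (opV c y) = opV c (opV b y) := by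
  funext w
  rw [opV_apply, opV_apply, opV_apply, opV_apply, op_op]

theorem dlW_opW (c : Fin n → k) (Λ : Fin n → Finset (Fin n) → Fn n k) :
    dlW K (opW c Λ) = opW c (dlW K Λ) := by
  funext w
  rw [dlW_apply, opW_apply, opW_apply, dlW_apply, dl_opP]

theorem smW_opW (c : Fin n → k) (Λ : Fin n → Finset (Fin n) → Fn n k) :
    smW (opW c Λ) = opV c (smW Λ) := by
  funext w
  rw [smW_apply, opW_apply, opV_apply, smW_apply, sm_opP]

theorem opW_mem (c : Fin n → k) {W : Finset (Fin n)} {j : ℕ}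
    {Λ : Fin n → Finset (Fin n) → Fn n k} (hΛ : Λ ∈ ZZ k K W j) : opW c Λ ∈ ZZ k K W j := by
  obtain ⟨h1, h2, h3⟩ := mem_ZZ.1 hΛ
  refine mem_ZZ.2 ⟨fun w => ?_, fun w hw => ?_, ?_⟩
  · rw [opW_apply]
    exact opP_mem c (h1 w)
  · rw [opW_apply, h2 w hw, map_zero]
  · have : ∑ w, opW c Λ w = opP c (∑ w, Λ w) := by
      rw [map_sum]
      rfl
    rw [this, h3, map_zero]

theorem cm_NN [CharP k 2] (hK : HSph K d) (hf : Flag K) {θ : ℕ → Fin n → k} (hg : Gen θ K)
    {u : Fin n} (hu : ({u} : Finset (Fin n)) ∈ K) :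
    Coreg (NN k K (nonadj K u)) (fun l => opV (θ l)) d := by
  have hlow : ∀ j < d, Coreg (ZZ k K (nonadj K u) j ⊓ LinearMap.ker (dlW K))
      (fun l => opW (θ l)) (j - 1) := by
    intro j
    induction j with
    | zero =>
      intro _ i hi
      exact absurd hi (by omega)
    | succ j ih =>
      intro hj
      rw [Nat.add_sub_cancel]
      rcases Nat.eq_zero_or_pos j with rfl | hj0
      · intro i hi
        exact absurd hi (by omega)
      · obtain ⟨m, rfl⟩ : ∃ m, j = m + 1 := ⟨j - 1, by omega⟩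
        rw [← ZZ_low hK hf hu hj]
        exact codepth (fun l => opW (θ l)) (fun l => opW (θ l)) (dlW K) (fun l x => dlW_opW _ x)
          (fun l m x => opW_comm _ _ x) (ZZ k K (nonadj K u) (m + 1))
          (fun l x hx => opW_mem _ hx) m (ih (by omega)) (coreg_ZZ hg _ (m + 1))
  rcases Nat.eq_zero_or_pos d with hd | hd
  · intro i hi
    exact absurd hi (by omega)
  · obtain ⟨e, rfl⟩ : ∃ e, d = e + 1 := ⟨d - 1, by omega⟩
    have htop : Coreg (ZZ k K (nonadj K u) (e + 1) ⊓ LinearMap.ker smW)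
        (fun l => opW (θ l)) e := by
      rcases Nat.eq_zero_or_pos e with rfl | he
      · intro i hi
        exact absurd hi (by omega)
      · obtain ⟨m, rfl⟩ : ∃ m, e = m + 1 := ⟨e - 1, by omega⟩
        rw [← ZZ_top hK hf hu rfl]
        exact codepth (fun l => opW (θ l)) (fun l => opW (θ l)) (dlW K) (fun l x => dlW_opW _ x)
          (fun l m x => opW_comm _ _ x) (ZZ k K (nonadj K u) (m + 1))
          (fun l x hx => opW_mem _ hx) m (hlow (m + 1) (by omega)) (coreg_ZZ hg _ (m + 1))
    rw [← ZZ_sm hK hf hu]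
    exact codepth (fun l => opW (θ l)) (fun l => opV (θ l)) smW (fun l x => smW_opW _ x)
      (fun l m x => opW_comm _ _ x) (ZZ k K (nonadj K u) (e + 1))
      (fun l x hx => opW_mem _ hx) e htop (coreg_ZZ hg _ (e + 1))

/-- families `y w`, `w ∈ W`, with `y w` supported on the star of `w` -/
def BB (k : Type) [Field k] (K : Finset (Finset (Fin n))) (W : Finset (Fin n)) :
    Submodule k (Fin n → Fn n k) where
  carrier := {y | (∀ w, y w ∈ DS k (star K {w})) ∧ (∀ w, w ∉ W → y w = 0)}
  add_mem' := by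
    intro f g hf hg
    refine ⟨fun w => (DS k (star K {w})).add_mem (hf.1 w) (hg.1 w), fun w hw => ?_⟩
    rw [Pi.add_apply, hf.2 w hw, hg.2 w hw, add_zero]
  zero_mem' := ⟨fun w => (DS k (star K {w})).zero_mem, fun w _ => rfl⟩
  smul_mem' := by
    intro c f hf
    refine ⟨fun w => (DS k (star K {w})).smul_mem c (hf.1 w), fun w hw => ?_⟩
    rw [Pi.smul_apply, hf.2 w hw, smul_zero]

theorem mem_BB {W : Finset (Fin n)} {y : Fin n → Fn n k} : y ∈ BB k K W ↔
    (∀ w, y w ∈ DS k (star K {w})) ∧ (∀ w, w ∉ W → y w = 0) := Iff.rfl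

/-- the sum -/
def sV : (Fin n → Fn n k) →ₗ[k] Fn n k where
  toFun y := ∑ w, y w
  map_add' y z := by
    simp only [Pi.add_apply, sum_add_distrib]
  map_smul' a y := by
    simp only [Pi.smul_apply, smul_sum, RingHom.id_apply]

theorem sV_apply (y : Fin n → Fn n k) : sV y = ∑ w, y w := rfl

theorem sV_opV (c : Fin n → k) (y : Fin n → Fn n k) : sV (opV c y) = op c (sV y) := by
  rw [sV_apply, sV_apply, map_sum]
  rfl

theorem BB_inf (W : Finset (Fin n)) : BB k K W ⊓ LinearMap.ker sV = NN k K W := by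
  ext y
  rw [Submodule.mem_inf, LinearMap.mem_ker, mem_BB, mem_NN, sV_apply, and_assoc]

theorem opV_mem (hK : IsCx K) (c : Fin n → k) {W : Finset (Fin n)} {y : Fin n → Fn n k}
    (hy : y ∈ BB k K W) : opV c y ∈ BB k K W := by
  obtain ⟨h1, h2⟩ := mem_BB.1 hy
  refine mem_BB.2 ⟨fun w => ?_, fun w hw => ?_⟩
  · rw [opV_apply]
    intro α hα
    obtain ⟨v, hv⟩ := op_ne hα
    obtain ⟨h3, h4⟩ := mem_star.1 (h1 w _ hv)
    refine mem_star.2 ⟨hK.2 _ h3 _ (supp_le α v), hK.2 _ h4 _ ?_⟩
    exact union_subset_union_left (supp_le α v)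
  · rw [opV_apply, h2 w hw, map_zero]

/-- a face `G` with `G ∪ {u} ∉ K` contains a vertex not adjacent to `u` -/
theorem ex_nonadj (hK : IsCx K) (hf : Flag K) {u : Fin n} (hu : ({u} : Finset (Fin n)) ∈ K)
    {G : Finset (Fin n)} (hG : G ∈ K) (hGu : G ∪ {u} ∉ K) : ∃ w ∈ nonadj K u, w ∈ G := by
  classical
  by_contra hcon
  push Not at hcon
  have h1 : ∀ w ∈ G, ({u, w} : Finset (Fin n)) ∈ K := by
    intro w hw
    by_contra h2
    refine hcon w (mem_nonadj.2 ⟨hK.2 _ hG _ (singleton_subset_iff.2 hw), h2⟩) hw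
  apply hGu
  apply hf
  intro a ha b hb
  rw [mem_union, mem_singleton] at ha hb
  rcases ha with ha | rfl <;> rcases hb with hb | rfl
  · refine hK.2 _ hG _ ?_
    intro x hx
    rw [mem_insert, mem_singleton] at hx
    rcases hx with rfl | rfl
    · exact ha
    · exact hb
  · have := h1 a ha
    rwa [pair_comm] at this
  · exact h1 b hb
  · rw [pair_eq_singleton]
    exact hu

theorem split [CharP k 2] (hK : HSph K d) (hf : Flag K) {u : Fin n}
    (hu : ({u} : Finset (Fin n)) ∈ K) {f : Fn n k} (hff : f ∈ DS k (dele K {u})) :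
    f ∈ (BB k K (nonadj K u)).map sV := by
  classical
  have key : ∀ α : Fin n →₀ ℕ, ∃ w : Fin n,
      f α ≠ 0 → w ∈ nonadj K u ∧ α.support ∈ star K {w} := by
    intro α
    by_cases h : f α = 0
    · exact ⟨u, fun h' => absurd h h'⟩
    · have h0 := hff
      rw [← map_sm_rel hK, Submodule.mem_map] at h0
      obtain ⟨Λ, hΛ, rfl⟩ := h0
      have h1 := h
      rw [sm_apply, Finset.sum_apply] at h1
      obtain ⟨G, _, hG⟩ := exists_ne_zero_of_sum_ne_zero h1
      obtain ⟨h2, h3, h4, h5⟩ := mem_PR.1 hΛ G α hG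
      obtain ⟨w, hw1, hw2⟩ := ex_nonadj hK.cx hf hu h2 h3
      refine ⟨w, fun _ => ⟨hw1, mem_star.2 ⟨hK.cx.2 _ h2 _ h5, hK.cx.2 _ h2 _ ?_⟩⟩⟩
      exact union_subset h5 (singleton_subset_iff.2 hw2)
  choose g hg using key
  refine Submodule.mem_map.2 ⟨fun w α => if w = g α then f α else 0, ?_, ?_⟩
  · refine mem_BB.2 ⟨fun w α hα => ?_, fun w hw => ?_⟩
    · by_cases he : w = g α
      · have h1 : f α ≠ 0 := by
          intro h2
          apply hα
          change (if w = g α then f α else 0) = 0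
          rw [h2, ite_self]
        rw [he]
        exact (hg α h1).2
      · exact absurd (if_neg he) hα
    · funext α
      change (if w = g α then f α else 0) = 0
      by_cases he : w = g α
      · by_contra h1
        rw [if_pos he] at h1
        exact hw (he ▸ (hg α h1).1)
      · exact if_neg he
  · funext α
    rw [sV_apply, Finset.sum_apply, Finset.sum_ite_eq' univ (g α) fun _ => f α,
      if_pos (mem_univ _)]

/-- truncation to one degree -/
theorem trunc (c : Fin n → k) (i : ℕ) (y : Fn n k) (α : Fin n →₀ ℕ) :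
    op c (fun β => if β.degree = i then y β else 0) α =
      if α.degree + 1 = i then op c y α else 0 := by
  rw [op_apply, op_apply]
  by_cases h1 : α.degree + 1 = i
  · rw [if_pos h1]
    refine sum_congr rfl fun v _ => ?_
    rw [if_pos (by rw [HilbBaux.deg_add, h1])]
  · rw [if_neg h1]
    refine sum_eq_zero fun v _ => ?_
    rw [if_neg (by rw [HilbBaux.deg_add]; exact h1), mul_zero]

end

end Cechaux

theorem cech {n d : ℕ} {K : Finset (Finset (Fin n))} {k : Type} [Field k] [CharP k 2]
    (hK : HSph K d) (hf : Flag K) {θ : ℕ → Fin n → k} (hg : Gen θ K) {u : Fin n}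
    (hu : ({u} : Finset (Fin n)) ∈ K) {i : ℕ} {f : Fn n k}
    (hff : f ∈ St θ (dele K {u}) d i) :
    ∃ y : Fin n → Fn n k, (∀ w, y w ∈ St θ (star K {w}) d i) ∧
      (∀ w, w ∉ nonadj K u → y w = 0) ∧ ∑ w, y w = f := by
  obtain ⟨y, hy, hy1, hy2⟩ := lift_mod (fun l => opV (θ l)) (fun l => op (θ l)) Cechaux.sV
    (fun l x => Cechaux.sV_opV _ x) (fun l m x => Cechaux.opV_comm _ _ x)
    (Cechaux.BB k K (nonadj K u)) (fun l x hx => Cechaux.opV_mem hK.cx _ hx) d
    (by rw [Cechaux.BB_inf]; exact Cechaux.cm_NN hK hf hg hu) f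
    (Cechaux.split hK hf hu fun α hα => (hff.1 α hα).1) hff.2
  obtain ⟨hyS, hyW⟩ := Cechaux.mem_BB.1 hy
  refine ⟨fun w α => if α.degree = i then y w α else 0, fun w => ⟨fun α hα => ?_, fun l hl => ?_⟩,
    fun w hw => ?_, ?_⟩
  · by_cases h1 : α.degree = i
    · refine ⟨hyS w α fun h2 => hα ?_, h1⟩
      change (if α.degree = i then y w α else 0) = 0
      rw [h2, ite_self]
    · exact absurd (if_neg h1) hα
  · funext α
    rw [Cechaux.trunc]
    have h2 : op (θ l) (y w) = 0 := congrFun (hy1 l hl) w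
    rw [h2]
    simp only [Pi.zero_apply, ite_self]
  · funext α
    change (if α.degree = i then y w α else 0) = 0
    rw [hyW w hw]
    simp only [Pi.zero_apply, ite_self]
  · funext α
    have h3 : (∑ w, y w) α = f α := congrFun hy2 α
    rw [Finset.sum_apply] at h3 ⊢
    by_cases h1 : α.degree = i
    · rw [← h3]
      exact sum_congr rfl fun w _ => if_pos h1
    · have h4 : f α = 0 := by
        by_contra h5
        exact h1 (hff.1 α h5).2
      rw [h4]
      exact sum_eq_zero fun w _ => if_neg h1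

end Pool.Agent.H861.GL
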