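import Pool.Agent.H861.GL.GoodF

/-!
# GL/Cnt: edges

`handshake`: the vertices of `lk K {v}` are the `w ≠ v` with `{v, w} ∈ K` (`mem_lk`: the faces `τ`
with `Disjoint τ {v}` and `τ ∪ {v} ∈ K`). Count the pairs `(v, w)` with `{v, w} ∈ K`, `v ≠ w`:
every face with two vertices is counted twice. (`v ∈ vx K` is automatic for a complex.)

`gco_two`: `hP K d = ∑ σ ∈ K, X ^ σ.card * (1 - X) ^ (d - σ.card)` (Defs.lean), `gco P j = P.coeff j
- P.coeff (j-1)` for `j ≥ 1` (GamA.lean). Coefficient of `X^1`: `-d + nv`; of `X^2`: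
`d(d-1)/2 - (d-1) nv + f₁` where `nv K = (vx K).card` (`nv` in Fac.lean), `f₁` the number of faces with
two vertices (if `d ≥ 2`; for `d - 1` and so on natural subtraction is harmless because `d ≥ 2`).
Only `σ` with at most two vertices contribute. (The proof of `sum_ineq` in Fac.lean, or `hP_high`,
`hP_coeff_zero` may contain useful pieces; a power series or `Polynomial.coeff_one_sub_X_pow`-like
formula: `((1 - X)^m).coeff 1 = -m`, `.coeff 2 = m(m-1)/2` by induction on `m`.)
-/

set_option autoImplicit false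

namespace Pool.Agent.H861.GL

open Finset Pool.Agent.W555.KS Pool.Agent.Y131.KS

theorem Cntaux.lk_card {n : ℕ} {K : Finset (Finset (Fin n))} (v : Fin n) :
    (vx (lk K {v})).card = ((K.filter (fun F => F.card = 2)).filter (fun F => v ∈ F)).card := by
  apply Finset.card_bij (fun w _ => ({w, v} : Finset (Fin n)))
  · intro w hw
    rw [mem_vx, mem_lk] at hw
    obtain ⟨h1, h2⟩ := hw
    rw [disjoint_singleton] at h1
    rw [mem_filter, mem_filter]
    refine ⟨⟨h2, card_pair h1⟩, ?_⟩
    simp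
  · intro w hw w' hw' h
    rw [mem_vx, mem_lk] at hw hw'
    have h1 : w ≠ v := disjoint_singleton.1 hw.1
    have h2 : w ∈ ({w', v} : Finset (Fin n)) := by
      rw [← h]
      simp
    rw [mem_insert, mem_singleton] at h2
    exact h2.resolve_right h1
  · intro F hF
    rw [mem_filter, mem_filter] at hF
    obtain ⟨⟨hFK, hF2⟩, hv⟩ := hF
    have h1 : (F.erase v).card = 1 := by
      rw [card_erase_of_mem hv, hF2]
    obtain ⟨w, hw⟩ := card_eq_one.1 h1
    have hwF : w ∈ F.erase v := by
      rw [hw]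
      exact mem_singleton_self w
    have hwv : w ≠ v := (mem_erase.1 hwF).1
    have hFe : ({w, v} : Finset (Fin n)) = F := by
      rw [← insert_erase hv, hw]
      exact pair_comm w v
    refine ⟨w, ?_, hFe⟩
    rw [mem_vx, mem_lk]
    refine ⟨disjoint_singleton.2 hwv, ?_⟩
    have : ({w} : Finset (Fin n)) ∪ {v} = {w, v} := rfl
    rw [this, hFe]
    exact hFK

theorem handshake {n : ℕ} {K : Finset (Finset (Fin n))} (hK : IsCx K) :
    ∑ v ∈ vx K, (vx (lk K {v})).card = 2 * (K.filter (fun F => F.card = 2)).card := by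
  have h1 := Finset.sum_card_bipartiteAbove_eq_sum_card_bipartiteBelow
    (s := vx K) (t := K.filter (fun F => F.card = 2)) (fun (v : Fin n) (F : Finset (Fin n)) => v ∈ F)
  have h2 : ∑ v ∈ vx K, (vx (lk K {v})).card = ∑ v ∈ vx K,
      ((K.filter (fun F => F.card = 2)).filter (fun F => v ∈ F)).card :=
    sum_congr rfl fun v _ => Cntaux.lk_card v
  rw [h2]
  refine h1.trans ?_
  have h3 : ∀ F ∈ K.filter (fun F => F.card = 2),
      ((vx K).bipartiteBelow (fun (v : Fin n) (F : Finset (Fin n)) => v ∈ F) F).card = 2 := by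
    intro F hF
    rw [mem_filter] at hF
    have e : (vx K).bipartiteBelow (fun (v : Fin n) (F : Finset (Fin n)) => v ∈ F) F = F := by
      ext v
      rw [mem_bipartiteBelow, mem_vx]
      exact ⟨fun h => h.2, fun h => ⟨hK.2 F hF.1 _ (singleton_subset_iff.2 h), h⟩⟩
    rw [e, hF.2]
  rw [sum_congr rfl h3, sum_const, smul_eq_mul, mul_comm]

open Polynomial in
theorem Cntaux.cf0 (m : ℕ) : ((1 - X : Polynomial ℤ) ^ m).coeff 0 = 1 := by
  rw [coeff_zero_eq_eval_zero]
  simp

open Polynomial in
theorem Cntaux.csucc (P : Polynomial ℤ) (j : ℕ) :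
    (P * (1 - X)).coeff (j + 1) = P.coeff (j + 1) - P.coeff j := by
  rw [mul_sub, mul_one, coeff_sub, coeff_mul_X]

open Polynomial in
theorem Cntaux.cf1 (m : ℕ) : ((1 - X : Polynomial ℤ) ^ m).coeff 1 = -(m : ℤ) := by
  induction m with
  | zero => simp [coeff_one]
  | succ m ih =>
    rw [pow_succ, Cntaux.csucc, ih, Cntaux.cf0]
    push_cast
    ring

open Polynomial in
theorem Cntaux.cf2 (m : ℕ) : ((1 - X : Polynomial ℤ) ^ m).coeff 2 = (m.choose 2 : ℤ) := by
  induction m with
  | zero => simp [coeff_one]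
  | succ m ih =>
    rw [pow_succ, Cntaux.csucc, ih, Cntaux.cf1, Nat.choose_succ_succ' m 1, Nat.choose_one_right]
    push_cast
    ring

open Polynomial in
theorem Cntaux.term {d k : ℕ} (hk : k ≤ d) :
    (X ^ k * (1 - X : Polynomial ℤ) ^ (d - k)).coeff 2 -
      (X ^ k * (1 - X : Polynomial ℤ) ^ (d - k)).coeff 1 =
      (if k = 0 then ((d + 1).choose 2 : ℤ) else 0) + (if k = 1 then -(d : ℤ) else 0) +
        (if k = 2 then 1 else 0) := by
  rw [coeff_X_pow_mul', coeff_X_pow_mul']
  rcases Nat.lt_or_ge k 3 with h | h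
  · interval_cases k
    · simp only [if_true, Nat.zero_le, Nat.sub_zero, Cntaux.cf1, Cntaux.cf2]
      rw [Nat.choose_succ_succ' d 1, Nat.choose_one_right]
      push_cast
      simp
      ring
    · simp only [le_refl, if_true, Nat.sub_self, Cntaux.cf0, show (1 : ℕ) ≤ 2 by norm_num,
        show 2 - 1 = 1 from rfl, Cntaux.cf1]
      rw [Nat.cast_sub (by omega)]
      simp
    · simp only [le_refl, if_true, Nat.sub_self, Cntaux.cf0]
      simp
  · rw [if_neg (by omega), if_neg (by omega), if_neg (by omega), if_neg (by omega),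
      if_neg (by omega)]
    ring

theorem gco_two {n d : ℕ} {K : Finset (Finset (Fin n))} (hK : IsCx K)
    (hd : ∀ σ ∈ K, σ.card ≤ d) (h2 : 2 ≤ d) :
    gco (hP K d) 2 = ((K.filter (fun F => F.card = 2)).card : ℤ) - d * (vx K).card +
      (d + 1).choose 2 := by
  unfold gco hP
  rw [if_neg (by norm_num), Polynomial.finsetSum_coeff, Polynomial.finsetSum_coeff,
    ← sum_sub_distrib]
  rw [sum_congr rfl fun σ hσ => Cntaux.term (hd σ hσ)]
  rw [sum_add_distrib, sum_add_distrib, ← sum_filter, ← sum_filter, ← sum_filter]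
  rw [sum_const, sum_const, sum_const, nsmul_eq_mul, nsmul_eq_mul, nsmul_eq_mul]
  have e0 : K.filter (fun σ => σ.card = 0) = {∅} := by
    ext σ
    rw [mem_filter, mem_singleton, card_eq_zero]
    exact ⟨fun h => h.2, fun h => ⟨h ▸ hK.1, h⟩⟩
  have e1 : (K.filter (fun σ => σ.card = 1)).card = (vx K).card := by
    symm
    apply Finset.card_bij (fun v _ => ({v} : Finset (Fin n)))
    · intro v hv
      rw [mem_filter]
      exact ⟨mem_vx.1 hv, card_singleton v⟩
    · intro v _ w _ h
      exact singleton_injective h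
    · intro σ hσ
      rw [mem_filter] at hσ
      obtain ⟨v, hv⟩ := card_eq_one.1 hσ.2
      exact ⟨v, mem_vx.2 (hv ▸ hσ.1), hv.symm⟩
  rw [e0, e1, card_singleton]
  push_cast
  ring

end Pool.Agent.H861.GL
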