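import Pool.Agent.H861.GL.Defs

/-!
# GL/Coh: cohomology of mod 2 homology spheres with coefficients in a field of characteristic 2
-/

set_option autoImplicit false

namespace Pool.Agent.H861.GL

open Finset Pool.Agent.W555.KS Pool.Agent.Y131.KS

namespace Cohaux

/-- factorization of linear maps -/
theorem factor {F V U W : Type} [Field F] [AddCommGroup V] [Module F V] [AddCommGroup U]
    [Module F U] [AddCommGroup W] [Module F W] (D : V →ₗ[F] U) (ψ : V →ₗ[F] W)
    (h : ∀ x, D x = 0 → ψ x = 0) : ∃ φ : U →ₗ[F] W, ∀ x, φ (D x) = ψ x := by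
  obtain ⟨s, hs⟩ := D.rangeRestrict.exists_rightInverse_of_surjective D.range_rangeRestrict
  obtain ⟨φ, hφ⟩ := LinearMap.exists_extend (ψ.comp s)
  refine ⟨φ, fun x => ?_⟩
  have h1 : φ (D x) = ψ (s (D.rangeRestrict x)) := by
    have := LinearMap.congr_fun hφ (D.rangeRestrict x)
    simpa using this
  rw [h1]
  have h2 : D.rangeRestrict (s (D.rangeRestrict x)) = D.rangeRestrict x :=
    LinearMap.congr_fun hs (D.rangeRestrict x)
  have h3 : D (s (D.rangeRestrict x) - x) = 0 := by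
    rw [map_sub, sub_eq_zero]
    have := congrArg Subtype.val h2
    simpa using this
  have h4 := h _ h3
  rw [map_sub, sub_eq_zero] at h4
  exact h4

/-- the boundary as a linear map -/
def bL (n : ℕ) : (Finset (Fin n) → ZMod 2) →ₗ[ZMod 2] (Finset (Fin n) → ZMod 2) where
  toFun := bdr
  map_add' b c := by
    funext ρ
    unfold bdr
    simp only [Pi.add_apply, sum_add_distrib]
  map_smul' a c := by
    funext ρ
    unfold bdr
    simp only [Pi.smul_apply, smul_eq_mul, mul_sum, RingHom.id_apply]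

/-- the chains -/
def Ch {n : ℕ} (K : Finset (Finset (Fin n))) (j : ℕ) :
    Submodule (ZMod 2) (Finset (Fin n) → ZMod 2) where
  carrier := {c | Sp K j c}
  add_mem' := by
    intro a b ha hb σ hσ
    by_cases h1 : a σ = 0
    · refine hb σ fun h2 => hσ ?_
      rw [Pi.add_apply, h1, h2, add_zero]
    · exact ha σ h1
  zero_mem' := fun σ h => absurd rfl h
  smul_mem' := by
    intro x c hc σ hσ
    refine hc σ fun h1 => hσ ?_
    rw [Pi.smul_apply, h1, smul_zero]

theorem bL_single {n : ℕ} (τ : Finset (Fin n)) :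
    bL n (Pi.single τ 1) = ∑ v ∈ τ, Pi.single (τ.erase v) 1 := by
  funext ρ
  have h1 : bL n (Pi.single τ 1) ρ = ∑ v ∈ ρᶜ, if insert v ρ = τ then (1 : ZMod 2) else 0 := by
    change bdr (Pi.single τ 1) ρ = _
    unfold bdr
    refine sum_congr rfl fun v _ => ?_
    rw [Pi.single_apply]
  have h2 : (∑ v ∈ τ, Pi.single (τ.erase v) (1 : ZMod 2) : Finset (Fin n) → ZMod 2) ρ =
      ∑ v ∈ τ, if ρ = τ.erase v then (1 : ZMod 2) else 0 := by
    rw [Finset.sum_apply]
    refine sum_congr rfl fun v _ => ?_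
    rw [Pi.single_apply]
  rw [h1, h2, ← sum_filter, ← sum_filter]
  refine sum_congr ?_ fun _ _ => rfl
  ext v
  rw [mem_filter, mem_filter, mem_compl]
  constructor
  · rintro ⟨h3, rfl⟩
    exact ⟨mem_insert_self v ρ, (erase_insert h3).symm⟩
  · rintro ⟨h3, rfl⟩
    exact ⟨notMem_erase v τ, insert_erase h3⟩

/-- the duality lemma -/
theorem dual {n : ℕ} {K : Finset (Finset (Fin n))} (hK : IsCx K) {k : Type} [Field k]
    [Algebra (ZMod 2) k] {j : ℕ} (f : Finset (Fin n) → k)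
    (hf : ∀ c : Finset (Fin n) → ZMod 2, Sp K j c → (∀ ρ, bdr c ρ = 0) → ∑ τ, c τ • f τ = 0) :
    ∃ g : Finset (Fin n) → k, (∀ ρ, g ρ ≠ 0 → ρ ∈ K ∧ ρ.card + 1 = j) ∧
      ∀ τ ∈ K, τ.card = j → f τ = ∑ v ∈ τ, g (τ.erase v) := by
  classical
  let φ : (Finset (Fin n) → ZMod 2) →ₗ[ZMod 2] k :=
    { toFun := fun c => ∑ τ, c τ • f τ
      map_add' := by
        intro a b
        simp only [Pi.add_apply, add_smul, sum_add_distrib]
      map_smul' := by
        intro a b
        simp only [Pi.smul_apply, smul_assoc, smul_sum, RingHom.id_apply] }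
  have hφ : ∀ c, φ c = ∑ τ, c τ • f τ := fun c => rfl
  obtain ⟨φ', hφ'⟩ := factor ((bL n).comp (Ch K j).subtype) (φ.comp (Ch K j).subtype) (by
    rintro ⟨c, hc⟩ h
    have h1 : bdr c = 0 := h
    exact hf c hc fun ρ => congrFun h1 ρ)
  refine ⟨fun ρ => if ρ ∈ K ∧ ρ.card + 1 = j then φ' (Pi.single ρ 1) else 0, ?_, ?_⟩
  · intro ρ hρ
    by_contra h
    exact hρ (if_neg h)
  · intro τ hτ hτj
    have hs : (Pi.single τ 1 : Finset (Fin n) → ZMod 2) ∈ Ch K j := by
      intro σ hσ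
      by_cases h : σ = τ
      · rw [h]
        exact ⟨hτ, hτj⟩
      · exact absurd (Pi.single_eq_of_ne h _) hσ
    have h1 := hφ' ⟨Pi.single τ 1, hs⟩
    have h2 : φ' (bL n (Pi.single τ 1)) = φ (Pi.single τ 1) := h1
    have h3 : φ (Pi.single τ 1) = f τ := by
      rw [hφ, Finset.sum_eq_single τ]
      · rw [Pi.single_eq_same, one_smul]
      · intro σ _ hσ
        rw [Pi.single_eq_of_ne hσ, zero_smul]
      · intro h
        exact absurd (mem_univ τ) h
    rw [← h3, ← h2, bL_single, map_sum]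
    refine sum_congr rfl fun v hv => ?_
    symm
    refine if_pos ⟨hK.2 _ hτ _ (erase_subset v τ), ?_⟩
    rw [card_erase_of_mem hv, hτj]
    have : 0 < τ.card := card_pos.2 ⟨v, hv⟩
    omega

/-- summation by parts -/
theorem parts {n : ℕ} {k : Type} [AddCommMonoid k] (F : Fin n → Finset (Fin n) → k) :
    ∑ τ : Finset (Fin n), ∑ v ∈ τᶜ, F v τ = ∑ σ : Finset (Fin n), ∑ v ∈ σ, F v (σ.erase v) := by
  rw [Finset.sum_sigma', Finset.sum_sigma']
  refine Finset.sum_bij' (fun x _ => ⟨insert x.2 x.1, x.2⟩) (fun x _ => ⟨x.1.erase x.2, x.2⟩)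
    ?_ ?_ ?_ ?_ ?_
  · rintro ⟨τ, v⟩ h
    rw [mem_sigma] at h ⊢
    exact ⟨mem_univ _, mem_insert_self _ _⟩
  · rintro ⟨σ, v⟩ h
    rw [mem_sigma] at h ⊢
    exact ⟨mem_univ _, mem_compl.2 (notMem_erase _ _)⟩
  · rintro ⟨τ, v⟩ h
    rw [mem_sigma, mem_compl] at h
    simp only [erase_insert h.2]
  · rintro ⟨σ, v⟩ h
    rw [mem_sigma] at h
    simp only [insert_erase h.2]
  · rintro ⟨τ, v⟩ h
    rw [mem_sigma, mem_compl] at h
    simp only [erase_insert h.2]

end Cohaux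

theorem coh_low {n d : ℕ} {K : Finset (Finset (Fin n))} (hK : HSph K d) {k : Type} [Field k]
    [CharP k 2] {j : ℕ} (hj : j ≠ d) (f : Finset (Fin n) → k)
    (hf : ∀ σ ∈ K, σ.card = j + 1 → ∑ v ∈ σ, f (σ.erase v) = 0) :
    ∃ g : Finset (Fin n) → k, (∀ ρ, g ρ ≠ 0 → ρ ∈ K ∧ ρ.card + 1 = j) ∧
      ∀ τ ∈ K, τ.card = j → f τ = ∑ v ∈ τ, g (τ.erase v) := by
  let _ : Algebra (ZMod 2) k := ZMod.algebra k 2
  refine Cohaux.dual hK.cx f fun c hc hcy => ?_
  have hac : AcyclicAt K j := by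
    have := hK.ac ∅ hK.cx.1 j (by rw [card_empty, add_zero]; exact hj)
    rwa [lk_empty] at this
  obtain ⟨b, hb, hbc⟩ := hac c hc hcy
  have h1 : ∑ τ, c τ • f τ = ∑ τ : Finset (Fin n), ∑ v ∈ τᶜ, b (insert v τ) • f τ := by
    refine sum_congr rfl fun τ _ => ?_
    rw [hbc τ]
    unfold bdr
    rw [sum_smul]
  rw [h1, Cohaux.parts (fun v τ => b (insert v τ) • f τ)]
  refine sum_eq_zero fun σ _ => ?_
  have h2 : ∑ v ∈ σ, b (insert v (σ.erase v)) • f (σ.erase v) =
      b σ • ∑ v ∈ σ, f (σ.erase v) := by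
    rw [smul_sum]
    refine sum_congr rfl fun v hv => ?_
    rw [insert_erase hv]
  rw [h2]
  by_cases hbσ : b σ = 0
  · rw [hbσ, zero_smul]
  · obtain ⟨h3, h4⟩ := hb σ hbσ
    rw [hf σ h3 h4, smul_zero]

theorem coh_top {n d : ℕ} {K : Finset (Finset (Fin n))} (hK : HSph K d) {k : Type} [Field k]
    [CharP k 2] (f : Finset (Fin n) → k)
    (hf : ∑ τ ∈ K.filter (fun τ => τ.card = d), f τ = 0) :
    ∃ g : Finset (Fin n) → k, (∀ ρ, g ρ ≠ 0 → ρ ∈ K ∧ ρ.card + 1 = d) ∧
      ∀ τ ∈ K, τ.card = d → f τ = ∑ v ∈ τ, g (τ.erase v) := by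
  let _ : Algebra (ZMod 2) k := ZMod.algebra k 2
  refine Cohaux.dual hK.cx f fun c hc hcy => ?_
  obtain ⟨z, hz0, hzs, hzc, hzu⟩ := hK.top ∅ hK.cx.1
  rw [card_empty, Nat.sub_zero, lk_empty] at hzs hzu
  have hF : Sp K d (fun σ => if σ ∈ K ∧ σ.card = d then 1 else 0) := by
    intro σ hσ
    by_contra h
    exact hσ (if_neg h)
  have hFz : (fun σ => if σ ∈ K ∧ σ.card = d then (1 : ZMod 2) else 0) = z := by
    rcases hzu _ hF (facets_cycle hK) with h | h
    · exfalso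
      apply hz0
      funext σ
      by_contra hσ
      have h1 := congrFun h σ
      simp only [if_pos (hzs σ hσ)] at h1
      exact one_ne_zero h1
    · exact h
  rcases hzu c hc hcy with h | h
  · rw [h]
    exact sum_eq_zero fun τ _ => by rw [Pi.zero_apply, zero_smul]
  · rw [h, ← hFz, ← hf, sum_filter, ← Finset.sum_filter_add_sum_filter_not univ (fun τ => τ ∈ K)]
    have e1 : ∑ τ ∈ univ.filter (fun τ => ¬ τ ∈ K),
        (if τ ∈ K ∧ τ.card = d then (1 : ZMod 2) else 0) • f τ = 0 := by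
      refine sum_eq_zero fun τ hτ => ?_
      rw [if_neg (fun h' => (mem_filter.1 hτ).2 h'.1), zero_smul]
    rw [e1, add_zero]
    have e2 : univ.filter (fun τ => τ ∈ K) = K := by
      ext τ
      simp
    rw [e2]
    refine sum_congr rfl fun τ hτ => ?_
    beta_reduce
    by_cases h' : τ.card = d
    · rw [if_pos (And.intro hτ h'), if_pos h', one_smul]
    · rw [if_neg (fun h'' : τ ∈ K ∧ τ.card = d => h' h''.2), if_neg h', zero_smul]

end Pool.Agent.H861.GL
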