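import Pool.Agent.H861.GL.Coh

/-!
# GL/CohR: relative cohomology of a mod 2 homology sphere and the star of a set

Imports `coh_low`, `coh_top` of `GL/Coh.lean` (already proved).

PROOF (both). Take `g0` from `coh_low` (`coh_top`), `v ∈ A`. Let
`h ρ = g0 (insert v ρ)` if `v ∉ ρ`, `ρ ∪ A ∈ K` and `ρ.card + 2 = j`, and `0` otherwise, and
`g ρ = g0 ρ + ∑ w ∈ ρ, h (ρ.erase w)` if `ρ ∈ K` and `ρ.card + 1 = j`, and `0` otherwise.
(1) `g ρ = 0` if `ρ ∪ A ∈ K`: if `v ∈ ρ` then `h (ρ.erase w) = 0` for `w ≠ v` and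
`h (ρ.erase v) = g0 ρ`, so `g ρ = g0 ρ + g0 ρ = 0` (characteristic 2). If `v ∉ ρ` let
`τ = insert v ρ`; `τ ∪ A = ρ ∪ A ∈ K`, so `τ ∈ K` and
`0 = f τ = ∑ w ∈ τ, g0 (τ.erase w) = g0 ρ + ∑ w ∈ ρ, g0 (insert v (ρ.erase w)) = g ρ`.
(2) `∑ w ∈ τ, g (τ.erase w) = f τ` for `τ ∈ K` with `j` vertices, since
`∑ w ∈ τ, ∑ u ∈ τ.erase w, h ((τ.erase w).erase u) = 0` (each term occurs twice).
-/

set_option autoImplicit false

namespace Pool.Agent.H861.GL

open Finset Pool.Agent.W555.KS Pool.Agent.Y131.KS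

namespace CohRaux

theorem dd_zero {n : ℕ} {k : Type} [Field k] [CharP k 2] (τ : Finset (Fin n))
    (h : Finset (Fin n) → k) : ∑ w ∈ τ, ∑ u ∈ τ.erase w, h ((τ.erase w).erase u) = 0 := by
  rw [Finset.sum_sigma']
  refine Finset.sum_involution (fun p _ => ⟨p.2, p.1⟩) ?_ ?_ ?_ ?_
  · rintro ⟨w, u⟩ hp
    change h ((τ.erase w).erase u) + h ((τ.erase u).erase w) = 0
    rw [Finset.erase_right_comm]
    exact CharTwo.add_self_eq_zero _
  · rintro ⟨w, u⟩ hp _ heq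
    rw [mem_sigma, mem_erase] at hp
    have h1 : u = w := congrArg Sigma.fst heq
    exact hp.2.1 h1
  · rintro ⟨w, u⟩ hp
    rw [mem_sigma, mem_erase] at hp
    rw [mem_sigma, mem_erase]
    exact ⟨hp.2.2, fun h1 => hp.2.1 h1.symm, hp.1⟩
  · rintro ⟨w, u⟩ hp
    rfl

theorem rel {n : ℕ} {K : Finset (Finset (Fin n))} (hcx : IsCx K) {k : Type} [Field k]
    [CharP k 2] {A : Finset (Fin n)} (hA : A.Nonempty) {j : ℕ}
    (f : Finset (Fin n) → k) (hfA : ∀ τ ∈ K, τ ∪ A ∈ K → f τ = 0)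
    (g0 : Finset (Fin n) → k)
    (hf0 : ∀ τ ∈ K, τ.card = j → f τ = ∑ v ∈ τ, g0 (τ.erase v)) :
    ∃ g : Finset (Fin n) → k, (∀ ρ, g ρ ≠ 0 → ρ ∈ K ∧ ρ ∪ A ∉ K ∧ ρ.card + 1 = j) ∧
      ∀ τ ∈ K, τ.card = j → f τ = ∑ v ∈ τ, g (τ.erase v) := by
  classical
  obtain ⟨v, hv⟩ := hA
  let h : Finset (Fin n) → k := fun ρ =>
    if v ∉ ρ ∧ ρ ∪ A ∈ K ∧ ρ.card + 2 = j then g0 (insert v ρ) else 0
  let g : Finset (Fin n) → k := fun ρ =>
    if ρ ∈ K ∧ ρ.card + 1 = j then g0 ρ + ∑ w ∈ ρ, h (ρ.erase w) else 0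
  have hg : ∀ ρ, ρ ∈ K → ρ.card + 1 = j → g ρ = g0 ρ + ∑ w ∈ ρ, h (ρ.erase w) :=
    fun ρ h1 h2 => if_pos ⟨h1, h2⟩
  refine ⟨g, ?_, ?_⟩
  · intro ρ hρ
    have h1 : ρ ∈ K ∧ ρ.card + 1 = j := by
      by_contra hn
      exact hρ (if_neg hn)
    refine ⟨h1.1, fun hρA => hρ ?_, h1.2⟩
    rw [hg ρ h1.1 h1.2]
    by_cases hvρ : v ∈ ρ
    · rw [Finset.sum_eq_single v]
      · have h2 : h (ρ.erase v) = g0 ρ := by
          have h3 : v ∉ ρ.erase v ∧ ρ.erase v ∪ A ∈ K ∧ (ρ.erase v).card + 2 = j := by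
            refine ⟨notMem_erase v ρ, ?_, ?_⟩
            · refine hcx.2 _ hρA _ ?_
              exact union_subset_union (erase_subset v ρ) (subset_refl A)
            · have := card_erase_add_one hvρ
              omega
          change (if v ∉ ρ.erase v ∧ ρ.erase v ∪ A ∈ K ∧ (ρ.erase v).card + 2 = j then
            g0 (insert v (ρ.erase v)) else 0) = g0 ρ
          rw [if_pos h3, insert_erase hvρ]
        rw [h2]
        exact CharTwo.add_self_eq_zero _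
      · intro w _ hwv
        refine if_neg ?_
        rintro ⟨h2, _, _⟩
        exact h2 (mem_erase.mpr ⟨fun h3 => hwv h3.symm, hvρ⟩)
      · intro h2
        exact absurd hvρ h2
    · have hτA : insert v ρ ∪ A = ρ ∪ A := by
        rw [insert_union]
        exact insert_eq_of_mem (mem_union_right ρ hv)
      have hτ : insert v ρ ∈ K := by
        refine hcx.2 _ hρA _ ?_
        rw [← hτA]
        exact subset_union_left
      have hτc : (insert v ρ).card = j := by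
        rw [card_insert_of_notMem hvρ]
        exact h1.2
      have h2 := hf0 (insert v ρ) hτ hτc
      rw [hfA _ hτ (by rw [hτA]; exact hρA), sum_insert hvρ, erase_insert hvρ] at h2
      rw [h2]
      congr 1
      refine sum_congr rfl fun w hw => ?_
      have hwv : w ≠ v := fun h3 => hvρ (h3 ▸ hw)
      have h3 : v ∉ ρ.erase w ∧ ρ.erase w ∪ A ∈ K ∧ (ρ.erase w).card + 2 = j := by
        refine ⟨fun h4 => hvρ (mem_of_mem_erase h4), ?_, ?_⟩
        · refine hcx.2 _ hρA _ ?_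
          exact union_subset_union (erase_subset w ρ) (subset_refl A)
        · have := card_erase_add_one hw
          omega
      change (if v ∉ ρ.erase w ∧ ρ.erase w ∪ A ∈ K ∧ (ρ.erase w).card + 2 = j then
            g0 (insert v (ρ.erase w)) else 0) = g0 ((insert v ρ).erase w)
      rw [if_pos h3, erase_insert_of_ne (fun h4 => hwv h4.symm)]
  · intro τ hτ hτc
    have h1 : ∀ w ∈ τ, g (τ.erase w) =
        g0 (τ.erase w) + ∑ u ∈ τ.erase w, h ((τ.erase w).erase u) := by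
      intro w hw
      refine hg _ (hcx.2 _ hτ _ (erase_subset w τ)) ?_
      rw [card_erase_add_one hw, hτc]
    rw [sum_congr rfl h1, sum_add_distrib, dd_zero, add_zero]
    exact hf0 τ hτ hτc

end CohRaux

theorem coh_low_rel {n d : ℕ} {K : Finset (Finset (Fin n))} (hK : HSph K d) {k : Type} [Field k]
    [CharP k 2] {A : Finset (Fin n)} (hA : A.Nonempty) {j : ℕ} (hj : j ≠ d)
    (f : Finset (Fin n) → k)
    (hf : ∀ σ ∈ K, σ.card = j + 1 → ∑ v ∈ σ, f (σ.erase v) = 0)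
    (hfA : ∀ τ ∈ K, τ ∪ A ∈ K → f τ = 0) :
    ∃ g : Finset (Fin n) → k, (∀ ρ, g ρ ≠ 0 → ρ ∈ K ∧ ρ ∪ A ∉ K ∧ ρ.card + 1 = j) ∧
      ∀ τ ∈ K, τ.card = j → f τ = ∑ v ∈ τ, g (τ.erase v) := by
  obtain ⟨g0, _, h0⟩ := coh_low hK hj f hf
  exact CohRaux.rel hK.cx hA f hfA g0 h0

theorem coh_top_rel {n d : ℕ} {K : Finset (Finset (Fin n))} (hK : HSph K d) {k : Type} [Field k]
    [CharP k 2] {A : Finset (Fin n)} (hA : A.Nonempty) (f : Finset (Fin n) → k)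
    (hf : ∑ τ ∈ K.filter (fun τ => τ.card = d), f τ = 0)
    (hfA : ∀ τ ∈ K, τ ∪ A ∈ K → f τ = 0) :
    ∃ g : Finset (Fin n) → k, (∀ ρ, g ρ ≠ 0 → ρ ∈ K ∧ ρ ∪ A ∉ K ∧ ρ.card + 1 = d) ∧
      ∀ τ ∈ K, τ.card = d → f τ = ∑ v ∈ τ, g (τ.erase v) := by
  obtain ⟨g0, _, h0⟩ := coh_top hK f hf
  exact CohRaux.rel hK.cx hA f hfA g0 h0

end Pool.Agent.H861.GL
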