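import Pool.Agent.H861.GL.Defs

/-!
GL/DSrA (this file: only hP_high, ds_symm): Dehn-Sommerville relations and stars

PROOFS. (`hP K d = ∑ σ ∈ K, X ^ |σ| * (1 - X) ^ (d - |σ|)`.)

`ds_symm`: write `X = (X - 1) + 1`, so `X ^ |σ| = ∑_{ρ ⊆ σ} (X - 1) ^ (|σ| - |ρ|)`
(`Finset.prod_add` or `Finset.sum_pow_mul_eq_add_pow`). Then
`hP K d = ∑_σ ∑_{ρ ⊆ σ} (1 - X) ^ (d - |σ|) (X - 1) ^ (|σ| - |ρ|) =
∑_{ρ ∈ K} (1 - X) ^ (d - |ρ|) ∑_{σ ∈ K, σ ⊇ ρ} (-1) ^ (|σ| - |ρ|) =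
∑_ρ (1 - X) ^ (d - |ρ|) (-1) ^ (d - |ρ|) = ∑_ρ (X - 1) ^ (d - |ρ|)`
by `he` (the `σ ⊇ ρ` correspond to `τ = σ \ ρ ∈ lk K ρ`). The reversal `X ^ d * (hP K d) (1 / X)` of
`hP K d` is `∑_ρ (X - 1) ^ (d - |ρ|)`; compare coefficients: the coefficient of `X ^ (d - r)` in
`X ^ |σ| (1 - X) ^ (d - |σ|)` is the coefficient of `X ^ r` in `(X - 1) ^ (d - |σ|)` for `r ≤ d`.

`hP_high`: every term has degree `≤ d`.

`hP_star`: the faces of `star K F` are the `τ ∪ ρ` with `τ ∈ lk K F`, `ρ ⊆ F`, uniquely. So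
`hP (star K F) d = ∑_τ ∑_ρ X ^ (|τ| + |ρ|) (1 - X) ^ (d - |τ| - |ρ|) =
∑_τ X ^ |τ| (1 - X) ^ (d - |F| - |τ|) ∑_ρ X ^ |ρ| (1 - X) ^ (|F| - |ρ|)` and the inner sum is
`(X + (1 - X)) ^ |F| = 1`.

`hP_sum`: `∑_v ∑_{τ ∈ lk K {v}} X ^ |τ| (1 - X) ^ (d - 1 - |τ|) = ∑_{σ ∈ K} |σ| X ^ (|σ| - 1)
(1 - X) ^ (d - |σ|)` (pairs `v ∈ σ ∈ K`, `τ = σ - v`; for `{v} ∉ K` the link is empty) and this is
`d * hP + (1 - X) * hP'`, term by term: `d X^a (1-X)^b + (1-X) (a X^(a-1) (1-X)^b - b X^a (1-X)^(b-1))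
= X^(a-1) (1-X)^b (d X + a (1 - X) - b X) = a X^(a-1) (1-X)^b` for `a + b = d`.

`hP_sum_coeff`: the coefficients of `hP_sum`.
-/

set_option autoImplicit false

namespace Pool.Agent.H861.GL

open Finset Pool.Agent.W555.KS Pool.Agent.Y131.KS

variable {n : ℕ} {K : Finset (Finset (Fin n))}

namespace DSrAaux

open Polynomial

/-- the coefficients of the powers of `X - 1` -/
theorem coeff_sub_pow (m r : ℕ) :
    (((X : Polynomial ℤ) - 1) ^ m).coeff r = (-1) ^ (m - r) * (m.choose r : ℤ) := by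
  have h := coeff_X_add_C_pow (R := ℤ) (-1) m r
  rw [map_neg, map_one, ← sub_eq_add_neg] at h
  exact h

theorem one_sub_pow (m : ℕ) :
    ((1 : Polynomial ℤ) - X) ^ m = (-1) ^ m * (X - 1) ^ m := by
  rw [← mul_pow]
  congr 1
  ring

theorem neg_one_pow_C (m : ℕ) : ((-1 : Polynomial ℤ)) ^ m = C ((-1 : ℤ) ^ m) := by
  rw [map_pow, map_neg, map_one]

/-- the reversed term -/
theorem coeff_rev {a d r : ℕ} (ha : a ≤ d) (hr : r ≤ d) :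
    ((X : Polynomial ℤ) ^ a * (1 - X) ^ (d - a)).coeff (d - r) =
      (((X : Polynomial ℤ) - 1) ^ (d - a)).coeff r := by
  rw [one_sub_pow, neg_one_pow_C, coeff_sub_pow, coeff_X_pow_mul']
  by_cases h : r ≤ d - a
  · rw [if_pos (by omega), coeff_C_mul, coeff_sub_pow]
    have e1 : d - r - a = (d - a) - r := by omega
    have e2 : (d - a) - ((d - a) - r) = r := by omega
    rw [e1, e2, Nat.choose_symm h]
    have e3 : (-1 : ℤ) ^ (d - a) = (-1) ^ (d - a - r) * (-1) ^ r := by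
      rw [← pow_add]
      congr 1
      omega
    have e4 : (-1 : ℤ) ^ r * (-1) ^ r = 1 := by
      rw [← mul_pow]
      norm_num
    rw [e3]
    calc (-1 : ℤ) ^ (d - a - r) * (-1) ^ r * ((-1) ^ r * ((d - a).choose r : ℤ)) =
        ((-1 : ℤ) ^ r * (-1) ^ r) * ((-1) ^ (d - a - r) * ((d - a).choose r : ℤ)) := by ring
      _ = _ := by rw [e4, one_mul]
  · rw [if_neg (by omega), Nat.choose_eq_zero_of_lt (by omega)]
    simp

/-- the sum over the faces which contain `ρ` -/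
theorem sum_above {d : ℕ} (hd : ∀ σ ∈ K, σ.card ≤ d)
    (he : ∀ σ ∈ K, ∑ τ ∈ lk K σ, (-1 : ℤ) ^ τ.card = (-1) ^ (d - σ.card)) {ρ : Finset (Fin n)}
    (hρ : ρ ∈ K) : ∑ σ ∈ K.filter (fun σ => ρ ⊆ σ), (-1 : ℤ) ^ (d - σ.card) = 1 := by
  have h1 : ∑ σ ∈ K.filter (fun σ => ρ ⊆ σ), (-1 : ℤ) ^ (d - σ.card) =
      ∑ τ ∈ lk K ρ, (-1 : ℤ) ^ (d - ρ.card) * (-1) ^ τ.card := by
    refine sum_nbij' (fun σ => σ \ ρ) (fun τ => τ ∪ ρ) ?_ ?_ ?_ ?_ ?_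
    · intro σ hσ
      obtain ⟨h2, h3⟩ := mem_filter.1 hσ
      refine mem_lk.2 ⟨sdiff_disjoint, ?_⟩
      rw [sdiff_union_of_subset h3]
      exact h2
    · intro τ hτ
      obtain ⟨h2, h3⟩ := mem_lk.1 hτ
      exact mem_filter.2 ⟨h3, subset_union_right⟩
    · intro σ hσ
      exact sdiff_union_of_subset (mem_filter.1 hσ).2
    · intro τ hτ
      exact union_sdiff_cancel_right (mem_lk.1 hτ).1
    · intro σ hσ
      obtain ⟨h2, h3⟩ := mem_filter.1 hσ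
      have h4 := hd σ h2
      have h5 := card_sdiff_add_card_eq_card h3
      have e1 : d - ρ.card = (d - σ.card) + (σ \ ρ).card := by omega
      rw [e1, pow_add, mul_assoc, ← mul_pow]
      norm_num
  rw [h1, ← mul_sum, he ρ hρ, ← mul_pow]
  norm_num

/-- the other form of the polynomial -/
theorem hP_eq (hK : IsCx K) {d : ℕ} (hd : ∀ σ ∈ K, σ.card ≤ d)
    (he : ∀ σ ∈ K, ∑ τ ∈ lk K σ, (-1 : ℤ) ^ τ.card = (-1) ^ (d - σ.card)) :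
    hP K d = ∑ ρ ∈ K, ((X : Polynomial ℤ) - 1) ^ (d - ρ.card) := by
  have h1 : ∀ σ ∈ K, (X : Polynomial ℤ) ^ σ.card * (1 - X) ^ (d - σ.card) =
      ∑ ρ ∈ σ.powerset, C ((-1 : ℤ) ^ (d - σ.card)) * (X - 1) ^ (d - ρ.card) := by
    intro σ hσ
    have h2 := sum_pow_mul_eq_add_pow (1 : Polynomial ℤ) (X - 1) σ
    rw [add_sub_cancel] at h2
    rw [← h2, sum_mul]
    refine sum_congr rfl fun ρ hρ => ?_
    have h3 := card_le_card (mem_powerset.1 hρ)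
    have h4 := hd σ hσ
    have e1 : d - ρ.card = (σ.card - ρ.card) + (d - σ.card) := by omega
    rw [one_pow, one_mul, one_sub_pow, neg_one_pow_C, e1, pow_add]
    ring
  unfold hP
  rw [sum_congr rfl h1]
  have h2 : ∑ σ ∈ K, ∑ ρ ∈ σ.powerset, C ((-1 : ℤ) ^ (d - σ.card)) *
      ((X : Polynomial ℤ) - 1) ^ (d - ρ.card) =
      ∑ ρ ∈ K, ∑ σ ∈ K.filter (fun σ => ρ ⊆ σ), C ((-1 : ℤ) ^ (d - σ.card)) *
        ((X : Polynomial ℤ) - 1) ^ (d - ρ.card) := by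
    refine sum_comm' ?_
    intro σ ρ
    rw [mem_powerset, mem_filter]
    constructor
    · rintro ⟨h3, h4⟩
      exact ⟨⟨h3, h4⟩, hK.2 σ h3 ρ h4⟩
    · rintro ⟨⟨h3, h4⟩, _⟩
      exact ⟨h3, h4⟩
  rw [h2]
  refine sum_congr rfl fun ρ hρ => ?_
  rw [← sum_mul, ← map_sum, sum_above hd he hρ, map_one, one_mul]

end DSrAaux

theorem hP_high {d : ℕ} (hd : ∀ σ ∈ K, σ.card ≤ d) {r : ℕ} (hr : d < r) :
    (hP K d).coeff r = 0 := by
  unfold hP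
  rw [Polynomial.finsetSum_coeff]
  refine sum_eq_zero fun σ hσ => ?_
  rw [DSrAaux.one_sub_pow, DSrAaux.neg_one_pow_C, Polynomial.coeff_X_pow_mul',
    if_pos ((hd σ hσ).trans hr.le), Polynomial.coeff_C_mul, DSrAaux.coeff_sub_pow,
    Nat.choose_eq_zero_of_lt (by have := hd σ hσ; omega)]
  simp

theorem ds_symm (hK : IsCx K) {d : ℕ} (hd : ∀ σ ∈ K, σ.card ≤ d)
    (he : ∀ σ ∈ K, ∑ τ ∈ lk K σ, (-1 : ℤ) ^ τ.card = (-1) ^ (d - σ.card)) {r : ℕ} (hr : r ≤ d) :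
    (hP K d).coeff r = (hP K d).coeff (d - r) := by
  conv_lhs => rw [DSrAaux.hP_eq hK hd he]
  unfold hP
  rw [Polynomial.finsetSum_coeff, Polynomial.finsetSum_coeff]
  refine sum_congr rfl fun σ hσ => ?_
  exact (DSrAaux.coeff_rev (hd σ hσ) hr).symm

end Pool.Agent.H861.GL
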