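import Pool.Agent.H861.GL.Defs

/-!
# GL/DSrB (this file: only hP_star): Dehn-Sommerville relations and stars

PROOFS. (`hP K d = ∑ σ ∈ K, X ^ |σ| * (1 - X) ^ (d - |σ|)`.)

`ds_symm`: write `X = (X - 1) + 1`, so `X ^ |σ| = ∑_{ρ ⊆ σ} (X - 1) ^ (|σ| - |ρ|)`
(`Finset.prod_add` or `Finset.sum_pow_mul_eq_add_pow`). Then
`hP K d = ∑_σ ∑_{ρ ⊆ σ} (1 - X) ^ (d - |σ|) (X - 1) ^ (|σ| - |ρ|) =
∑_{ρ ∈ K} (1 - X) ^ (d - |ρ|) ∑_{σ ∈ K, σ ⊇ ρ} (-1) ^ (|σ| - |ρ|) =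
∑_ρ (1 - X) ^ (d - |ρ|) (-1) ^ (d - |ρ|) = ∑_ρ (X - 1) ^ (d - |ρ|)`
by `he` (the `σ ⊇ ρ` correspond to `τ = σ \ ρ ∈ lk K ρ`). The reversal `X ^ d * (hP K d) (1 / X)` of
`hP K d` is `∑_ρ (X - 1) ^ (d - |ρ|)`; compare coefficients: the coefficient of `X ^ (d - r)` in
`X ^ |σ| (1 - X) ^ (d - |σ|)` is the coefficient of `X ^ r` in `(X - 1) ^ (d - |σ|)` for `r ≤ d`.

`hP_high`: every term has degree `≤ d`.

`hP_star`: the faces of `star K F` are the `τ ∪ ρ` with `τ ∈ lk K F`, `ρ ⊆ F`, uniquely. So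
`hP (star K F) d = ∑_τ ∑_ρ X ^ (|τ| + |ρ|) (1 - X) ^ (d - |τ| - |ρ|) =
∑_τ X ^ |τ| (1 - X) ^ (d - |F| - |τ|) ∑_ρ X ^ |ρ| (1 - X) ^ (|F| - |ρ|)` and the inner sum is
`(X + (1 - X)) ^ |F| = 1`.

`hP_sum`: `∑_v ∑_{τ ∈ lk K {v}} X ^ |τ| (1 - X) ^ (d - 1 - |τ|) = ∑_{σ ∈ K} |σ| X ^ (|σ| - 1)
(1 - X) ^ (d - |σ|)` (pairs `v ∈ σ ∈ K`, `τ = σ - v`; for `{v} ∉ K` the link is empty) and this is
`d * hP + (1 - X) * hP'`, term by term: `d X^a (1-X)^b + (1-X) (a X^(a-1) (1-X)^b - b X^a (1-X)^(b-1))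
= X^(a-1) (1-X)^b (d X + a (1 - X) - b X) = a X^(a-1) (1-X)^b` for `a + b = d`.

`hP_sum_coeff`: the coefficients of `hP_sum`.
-/

set_option autoImplicit false

namespace Pool.Agent.H861.GL

open Finset Pool.Agent.W555.KS Pool.Agent.Y131.KS

variable {n : ℕ} {K : Finset (Finset (Fin n))}

theorem DSrBaux.one_face {F τ : Finset (Fin n)} {d : ℕ} (h : τ.card + F.card ≤ d) :
    ∑ ρ ∈ F.powerset, (Polynomial.X : Polynomial ℤ) ^ (τ.card + ρ.card) *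
      (1 - Polynomial.X) ^ (d - (τ.card + ρ.card)) =
    Polynomial.X ^ τ.card * (1 - Polynomial.X) ^ (d - F.card - τ.card) := by
  have h1 : ∀ ρ ∈ F.powerset, (Polynomial.X : Polynomial ℤ) ^ (τ.card + ρ.card) *
      (1 - Polynomial.X) ^ (d - (τ.card + ρ.card)) =
      Polynomial.X ^ τ.card * (1 - Polynomial.X) ^ (d - F.card - τ.card) *
        (Polynomial.X ^ ρ.card * (1 - Polynomial.X) ^ (F.card - ρ.card)) := by
    intro ρ hρ
    have h2 : ρ.card ≤ F.card := card_le_card (mem_powerset.1 hρ)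
    have h3 : d - (τ.card + ρ.card) = (d - F.card - τ.card) + (F.card - ρ.card) := by omega
    rw [h3, pow_add, pow_add]
    ring
  rw [sum_congr rfl h1, ← mul_sum, sum_pow_mul_eq_add_pow]
  have h4 : (Polynomial.X : Polynomial ℤ) + (1 - Polynomial.X) = 1 := by ring
  rw [h4, one_pow, mul_one]

theorem hP_star (hK : IsCx K) {d : ℕ} (hd : ∀ σ ∈ K, σ.card ≤ d) {F : Finset (Fin n)}
    (hF : F ∈ K) : hP (star K F) d = hP (lk K F) (d - F.card) := by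
  unfold hP
  have h1 : ∑ σ ∈ star K F, (Polynomial.X : Polynomial ℤ) ^ σ.card *
      (1 - Polynomial.X) ^ (d - σ.card) =
      ∑ p ∈ lk K F ×ˢ F.powerset, (Polynomial.X : Polynomial ℤ) ^ (p.1.card + p.2.card) *
        (1 - Polynomial.X) ^ (d - (p.1.card + p.2.card)) := by
    refine sum_nbij' (fun σ => (σ \ F, σ ∩ F)) (fun p => p.1 ∪ p.2) ?_ ?_ ?_ ?_ ?_
    · intro σ hσ
      rw [mem_star] at hσ
      rw [mem_product, mem_lk, mem_powerset]
      refine ⟨⟨disjoint_sdiff_self_left, ?_⟩, inter_subset_right⟩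
      rw [sdiff_union_self_eq_union]
      exact hσ.2
    · intro p hp
      rw [mem_product, mem_lk, mem_powerset] at hp
      obtain ⟨⟨h1, h2⟩, h3⟩ := hp
      rw [mem_star]
      have h4 : p.1 ∪ p.2 ⊆ p.1 ∪ F := union_subset_union_right h3
      refine ⟨hK.2 _ h2 _ h4, ?_⟩
      rw [union_assoc, union_eq_right.2 h3]
      exact h2
    · intro σ hσ
      exact sdiff_union_inter σ F
    · intro p hp
      rw [mem_product, mem_lk, mem_powerset] at hp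
      obtain ⟨⟨h1, h2⟩, h3⟩ := hp
      refine Prod.ext ?_ ?_
      · show (p.1 ∪ p.2) \ F = p.1
        rw [union_sdiff_distrib, sdiff_eq_empty_iff_subset.2 h3, union_empty,
          sdiff_eq_self_of_disjoint h1]
      · show (p.1 ∪ p.2) ∩ F = p.2
        rw [union_inter_distrib_right, disjoint_iff_inter_eq_empty.1 h1, empty_union,
          inter_eq_left.2 h3]
    · intro σ hσ
      show _ = (Polynomial.X : Polynomial ℤ) ^ ((σ \ F).card + (σ ∩ F).card) *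
        (1 - Polynomial.X) ^ (d - ((σ \ F).card + (σ ∩ F).card))
      rw [card_sdiff_add_card_inter]
  rw [h1, sum_product]
  refine sum_congr rfl fun τ hτ => ?_
  rw [mem_lk] at hτ
  apply DSrBaux.one_face
  rw [← card_union_of_disjoint hτ.1]
  exact hd _ hτ.2

end Pool.Agent.H861.GL
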