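import Pool.Agent.H861.GL.Defs

/-!
# GL/DSrC (this file: only hP_sum, hP_sum_coeff): Dehn-Sommerville relations and stars

PROOFS. (`hP K d = ∑ σ ∈ K, X ^ |σ| * (1 - X) ^ (d - |σ|)`.)

`ds_symm`: write `X = (X - 1) + 1`, so `X ^ |σ| = ∑_{ρ ⊆ σ} (X - 1) ^ (|σ| - |ρ|)`
(`Finset.prod_add` or `Finset.sum_pow_mul_eq_add_pow`). Then
`hP K d = ∑_σ ∑_{ρ ⊆ σ} (1 - X) ^ (d - |σ|) (X - 1) ^ (|σ| - |ρ|) =
∑_{ρ ∈ K} (1 - X) ^ (d - |ρ|) ∑_{σ ∈ K, σ ⊇ ρ} (-1) ^ (|σ| - |ρ|) =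
∑_ρ (1 - X) ^ (d - |ρ|) (-1) ^ (d - |ρ|) = ∑_ρ (X - 1) ^ (d - |ρ|)`
by `he` (the `σ ⊇ ρ` correspond to `τ = σ \ ρ ∈ lk K ρ`). The reversal `X ^ d * (hP K d) (1 / X)` of
`hP K d` is `∑_ρ (X - 1) ^ (d - |ρ|)`; compare coefficients: the coefficient of `X ^ (d - r)` in
`X ^ |σ| (1 - X) ^ (d - |σ|)` is the coefficient of `X ^ r` in `(X - 1) ^ (d - |σ|)` for `r ≤ d`.

`hP_high`: every term has degree `≤ d`.

`hP_star`: the faces of `star K F` are the `τ ∪ ρ` with `τ ∈ lk K F`, `ρ ⊆ F`, uniquely. So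
`hP (star K F) d = ∑_τ ∑_ρ X ^ (|τ| + |ρ|) (1 - X) ^ (d - |τ| - |ρ|) =
∑_τ X ^ |τ| (1 - X) ^ (d - |F| - |τ|) ∑_ρ X ^ |ρ| (1 - X) ^ (|F| - |ρ|)` and the inner sum is
`(X + (1 - X)) ^ |F| = 1`.

`hP_sum`: `∑_v ∑_{τ ∈ lk K {v}} X ^ |τ| (1 - X) ^ (d - 1 - |τ|) = ∑_{σ ∈ K} |σ| X ^ (|σ| - 1)
(1 - X) ^ (d - |σ|)` (pairs `v ∈ σ ∈ K`, `τ = σ - v`; for `{v} ∉ K` the link is empty) and this is
`d * hP + (1 - X) * hP'`, term by term: `d X^a (1-X)^b + (1-X) (a X^(a-1) (1-X)^b - b X^a (1-X)^(b-1))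
= X^(a-1) (1-X)^b (d X + a (1 - X) - b X) = a X^(a-1) (1-X)^b` for `a + b = d`.

`hP_sum_coeff`: the coefficients of `hP_sum`.
-/

set_option autoImplicit false

namespace Pool.Agent.H861.GL

open Finset Pool.Agent.W555.KS Pool.Agent.Y131.KS

variable {n : ℕ} {K : Finset (Finset (Fin n))}

namespace DSrCaux

open Polynomial in
theorem term (d a : ℕ) (h : a ≤ d) : (d : ℤ[X]) * (X ^ a * (1 - X) ^ (d - a)) +
    (1 - X) * derivative (X ^ a * (1 - X) ^ (d - a) : ℤ[X]) =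
      (a : ℤ[X]) * (X ^ (a - 1) * (1 - X) ^ (d - a)) := by
  obtain ⟨b, rfl⟩ := Nat.exists_eq_add_of_le h
  rw [Nat.add_sub_cancel_left]
  have h1 : (1 - X) * derivative ((1 - X) ^ b : ℤ[X]) = -((b : ℤ[X]) * (1 - X) ^ b) := by
    rw [derivative_pow, derivative_sub, derivative_one, derivative_X, C_eq_natCast]
    rcases b with _ | b
    · simp
    · rw [Nat.add_sub_cancel, pow_succ]
      ring
  have h2 : X * derivative (X ^ a : ℤ[X]) = (a : ℤ[X]) * X ^ a := by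
    rw [derivative_X_pow, C_eq_natCast]
    rcases a with _ | a
    · simp
    · rw [Nat.add_sub_cancel, pow_succ]
      ring
  have h3 : derivative (X ^ a : ℤ[X]) = (a : ℤ[X]) * X ^ (a - 1) := by
    rw [derivative_X_pow, C_eq_natCast]
  rw [derivative_mul]
  have h4 : (1 - X) * (derivative (X ^ a : ℤ[X]) * (1 - X) ^ b + X ^ a * derivative ((1 - X) ^ b)) =
      (derivative (X ^ a : ℤ[X]) - X * derivative (X ^ a : ℤ[X])) * (1 - X) ^ b +
        X ^ a * ((1 - X) * derivative ((1 - X) ^ b : ℤ[X])) := by ring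
  rw [h4, h1, h2, h3]
  push_cast
  ring

open Polynomial in
theorem lk_sum (K : Finset (Finset (Fin n))) (d : ℕ) (v : Fin n) : hP (lk K {v}) (d - 1) =
    ∑ σ ∈ K.filter (fun σ => v ∈ σ), (X ^ (σ.card - 1) * (1 - X) ^ (d - σ.card) : ℤ[X]) := by
  unfold hP
  refine sum_bij' (fun τ _ => insert v τ) (fun σ _ => σ.erase v) ?_ ?_ ?_ ?_ ?_
  · intro τ hτ
    obtain ⟨h1, h2⟩ := mem_lk.1 hτ
    rw [union_comm, ← insert_eq] at h2
    exact mem_filter.2 ⟨h2, mem_insert_self _ _⟩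
  · intro σ hσ
    obtain ⟨h1, h2⟩ := mem_filter.1 hσ
    refine mem_lk.2 ⟨?_, ?_⟩
    · rw [disjoint_singleton_right]
      exact notMem_erase _ _
    · rw [union_comm, ← insert_eq, insert_erase h2]
      exact h1
  · intro τ hτ
    obtain ⟨h1, h2⟩ := mem_lk.1 hτ
    exact erase_insert (disjoint_singleton_right.1 h1)
  · intro σ hσ
    exact insert_erase (mem_filter.1 hσ).2
  · intro τ hτ
    obtain ⟨h1, h2⟩ := mem_lk.1 hτ
    rw [card_insert_of_notMem (disjoint_singleton_right.1 h1), Nat.add_sub_cancel,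
      show d - 1 - τ.card = d - (τ.card + 1) from by omega]

end DSrCaux

theorem hP_sum (hK : IsCx K) {d : ℕ} (hd : ∀ σ ∈ K, σ.card ≤ d) :
    ∑ v : Fin n, hP (lk K {v}) (d - 1) =
      (d : Polynomial ℤ) * hP K d + (1 - Polynomial.X) * (hP K d).derivative := by
  have h1 : ∑ v : Fin n, hP (lk K {v}) (d - 1) = ∑ σ ∈ K,
      (σ.card : Polynomial ℤ) * (Polynomial.X ^ (σ.card - 1) *
        (1 - Polynomial.X) ^ (d - σ.card)) := by
    rw [sum_congr rfl fun v _ => DSrCaux.lk_sum K d v]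
    simp only [sum_filter]
    rw [sum_comm]
    refine sum_congr rfl fun σ _ => ?_
    rw [← sum_filter, sum_const, filter_mem_eq_inter, univ_inter, nsmul_eq_mul]
  rw [h1]
  unfold hP
  rw [Polynomial.derivative_sum, mul_sum, mul_sum, ← sum_add_distrib]
  exact sum_congr rfl fun σ hσ => (DSrCaux.term d σ.card (hd σ hσ)).symm

theorem hP_sum_coeff (hK : IsCx K) {d : ℕ} (hd : ∀ σ ∈ K, σ.card ≤ d) (j : ℕ) :
    ∑ v : Fin n, (hP (lk K {v}) (d - 1)).coeff j =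
      ((j : ℤ) + 1) * (hP K d).coeff (j + 1) + ((d : ℤ) - j) * (hP K d).coeff j := by
  have h1 := congrArg (fun q => Polynomial.coeff q j) (hP_sum hK hd)
  simp only [Polynomial.finsetSum_coeff] at h1
  rw [h1, sub_mul, one_mul, Polynomial.coeff_add, Polynomial.coeff_sub,
    ← Polynomial.C_eq_natCast, Polynomial.coeff_C_mul, Polynomial.coeff_derivative]
  rcases j with _ | j
  · rw [Polynomial.coeff_X_mul_zero]
    push_cast
    ring
  · rw [Polynomial.coeff_X_mul, Polynomial.coeff_derivative]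
    push_cast
    ring

end Pool.Agent.H861.GL
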