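import Mathlib
import Pool.Graph.R_seed8.Y131.KS.Hom

/-!
Project GL (helper861): relative Lefschetz inequalities for flag homology spheres.

Functions on the monomials in `x_0, ..., x_(n-1)` with the contraction action of linear forms
(the dual of the polynomial ring). Coefficients have characteristic `2`.
-/

set_option autoImplicit false

namespace Pool.Agent.H861.GL

open Finset Pool.Agent.W555.KS Pool.Agent.Y131.KS

/-- functions on the monomials in `n` variables -/
abbrev Fn (n : ℕ) (k : Type) : Type := (Fin n →₀ ℕ) → k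

section
variable {n : ℕ} {k : Type} [Field k]

/-- contraction with the variable `x_v` -/
noncomputable def sh (v : Fin n) : Fn n k →ₗ[k] Fn n k where
  toFun f α := f (α + Finsupp.single v 1)
  map_add' _ _ := rfl
  map_smul' _ _ := rfl

/-- contraction with the linear form `∑ c_v x_v` -/
noncomputable def op (c : Fin n → k) : Fn n k →ₗ[k] Fn n k where
  toFun f α := ∑ v, c v * f (α + Finsupp.single v 1)
  map_add' f g := by
    funext α
    simp only [Pi.add_apply, mul_add, sum_add_distrib]
  map_smul' a f := by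
    funext α
    simp only [Pi.smul_apply, smul_eq_mul, RingHom.id_apply, mul_sum]
    exact sum_congr rfl fun v _ => by ring

theorem sh_apply (v : Fin n) (f : Fn n k) (α : Fin n →₀ ℕ) :
    sh v f α = f (α + Finsupp.single v 1) := rfl

theorem op_apply (c : Fin n → k) (f : Fn n k) (α : Fin n →₀ ℕ) :
    op c f α = ∑ v, c v * f (α + Finsupp.single v 1) := rfl

theorem sh_op (v : Fin n) (c : Fin n → k) (f : Fn n k) : sh v (op c f) = op c (sh v f) := by
  funext α
  simp only [sh_apply, op_apply]
  exact sum_congr rfl fun w _ => by rw [add_right_comm]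

theorem op_op (b c : Fin n → k) (f : Fn n k) : op b (op c f) = op c (op b f) := by
  funext α
  simp only [op_apply, mul_sum]
  rw [sum_comm]
  refine sum_congr rfl fun w _ => sum_congr rfl fun v _ => ?_
  rw [add_right_comm]
  ring

/-- the functions supported on monomials whose support is a face of `K` -/
def DS (k : Type) [Field k] (K : Finset (Finset (Fin n))) : Submodule k (Fn n k) where
  carrier := {f | ∀ α, f α ≠ 0 → α.support ∈ K}
  add_mem' := by
    intro f g hf hg α h
    by_cases h1 : f α = 0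
    · refine hg α fun h2 => h ?_
      rw [Pi.add_apply, h1, h2, add_zero]
    · exact hf α h1
  zero_mem' := fun α h => absurd rfl h
  smul_mem' := by
    intro c f hf α h
    refine hf α fun h1 => h ?_
    rw [Pi.smul_apply, h1, smul_zero]

theorem mem_DS {K : Finset (Finset (Fin n))} {f : Fn n k} :
    f ∈ DS k K ↔ ∀ α, f α ≠ 0 → α.support ∈ K := Iff.rfl

/-- the functions supported on monomials of degree `r` whose support is a face of `K`, killed by
the contraction with the first `i` of the linear forms `θ` -/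
def St (θ : ℕ → Fin n → k) (K : Finset (Finset (Fin n))) (i r : ℕ) : Submodule k (Fn n k) where
  carrier := {f | (∀ α, f α ≠ 0 → α.support ∈ K ∧ α.degree = r) ∧ ∀ l < i, op (θ l) f = 0}
  add_mem' := by
    intro f g hf hg
    refine ⟨fun α h => ?_, fun l hl => ?_⟩
    · by_cases h1 : f α = 0
      · refine hg.1 α fun h2 => h ?_
        rw [Pi.add_apply, h1, h2, add_zero]
      · exact hf.1 α h1
    · rw [map_add, hf.2 l hl, hg.2 l hl, add_zero]
  zero_mem' := ⟨fun α h => absurd rfl h, fun l _ => map_zero _⟩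
  smul_mem' := by
    intro c f hf
    refine ⟨fun α h => ?_, fun l hl => ?_⟩
    · refine hf.1 α fun h1 => h ?_
      rw [Pi.smul_apply, h1, smul_zero]
    · rw [map_smul, hf.2 l hl, smul_zero]

theorem mem_St {θ : ℕ → Fin n → k} {K : Finset (Finset (Fin n))} {i r : ℕ} {f : Fn n k} :
    f ∈ St θ K i r ↔
      (∀ α, f α ≠ 0 → α.support ∈ K ∧ α.degree = r) ∧ ∀ l < i, op (θ l) f = 0 := Iff.rfl

/-- `T 0, ..., T (j - 1)` is a coregular sequence on `M` -/
def Coreg {V : Type} [AddCommGroup V] [Module k V] (M : Submodule k V) (T : ℕ → V →ₗ[k] V)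
    (j : ℕ) : Prop :=
  ∀ i < j, ∀ x ∈ M, (∀ l < i, T l x = 0) → ∃ y ∈ M, (∀ l < i, T l y = 0) ∧ T i y = x

/-- genericity of the linear forms `θ`: for every face `G` the first `|G|` of them are linearly
independent on `G` -/
def Gen (θ : ℕ → Fin n → k) (K : Finset (Finset (Fin n))) : Prop :=
  ∀ G ∈ K, ∀ a : Fin n → k, (∀ v, v ∉ G → a v = 0) →
    (∀ i < G.card, ∑ v, θ i v * a v = 0) → a = 0

/-- families of functions indexed by the faces `G` of `K` with `j` vertices that contain `E`; the
function with index `G` is supported on the monomials in the variables `x_v`, `v ∈ G` -/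
def PP (k : Type) [Field k] (K : Finset (Finset (Fin n))) (E : Finset (Fin n)) (j : ℕ) :
    Submodule k (Finset (Fin n) → Fn n k) where
  carrier := {Λ | ∀ G α, Λ G α ≠ 0 → G ∈ K ∧ E ⊆ G ∧ G.card = j ∧ α.support ⊆ G}
  add_mem' := by
    intro f g hf hg G α h
    by_cases h1 : f G α = 0
    · refine hg G α fun h2 => h ?_
      rw [Pi.add_apply, Pi.add_apply, h1, h2, add_zero]
    · exact hf G α h1
  zero_mem' := fun G α h => absurd rfl h
  smul_mem' := by
    intro c f hf G α h
    refine hf G α fun h1 => h ?_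
    rw [Pi.smul_apply, Pi.smul_apply, h1, smul_zero]

theorem mem_PP {K : Finset (Finset (Fin n))} {E : Finset (Fin n)} {j : ℕ}
    {Λ : Finset (Fin n) → Fn n k} : Λ ∈ PP k K E j ↔
      ∀ G α, Λ G α ≠ 0 → G ∈ K ∧ E ⊆ G ∧ G.card = j ∧ α.support ⊆ G := Iff.rfl

/-- the componentwise contraction -/
noncomputable def opP (c : Fin n → k) : (Finset (Fin n) → Fn n k) →ₗ[k] (Finset (Fin n) → Fn n k) where
  toFun Λ G := op c (Λ G)
  map_add' Λ M := by
    funext G
    rw [Pi.add_apply, map_add, Pi.add_apply]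
  map_smul' a Λ := by
    funext G
    rw [Pi.smul_apply, map_smul, Pi.smul_apply, RingHom.id_apply]

/-- the coboundary -/
def dl (K : Finset (Finset (Fin n))) :
    (Finset (Fin n) → Fn n k) →ₗ[k] (Finset (Fin n) → Fn n k) where
  toFun Λ G := if G ∈ K then ∑ v ∈ G, Λ (G.erase v) else 0
  map_add' Λ M := by
    funext G
    rw [Pi.add_apply]
    split_ifs
    · simp only [Pi.add_apply, sum_add_distrib]
    · rw [add_zero]
  map_smul' a Λ := by
    funext G
    rw [Pi.smul_apply, RingHom.id_apply]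
    split_ifs
    · simp only [Pi.smul_apply, smul_sum]
    · rw [smul_zero]

/-- the sum -/
def sm : (Finset (Fin n) → Fn n k) →ₗ[k] Fn n k where
  toFun Λ := ∑ G, Λ G
  map_add' Λ M := by
    simp only [Pi.add_apply, sum_add_distrib]
  map_smul' a Λ := by
    simp only [Pi.smul_apply, smul_sum, RingHom.id_apply]

theorem opP_apply (c : Fin n → k) (Λ : Finset (Fin n) → Fn n k) (G : Finset (Fin n)) :
    opP c Λ G = op c (Λ G) := rfl

theorem dl_apply (K : Finset (Finset (Fin n))) (Λ : Finset (Fin n) → Fn n k)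
    (G : Finset (Fin n)) : dl K Λ G = if G ∈ K then ∑ v ∈ G, Λ (G.erase v) else 0 := rfl

theorem sm_apply (Λ : Finset (Fin n) → Fn n k) : sm Λ = ∑ G, Λ G := rfl

end

/-- the closed star of `F` -/
def star {n : ℕ} (K : Finset (Finset (Fin n))) (F : Finset (Fin n)) :
    Finset (Finset (Fin n)) :=
  K.filter (fun σ => σ ∪ F ∈ K)

theorem mem_star {n : ℕ} {K : Finset (Finset (Fin n))} {F σ : Finset (Fin n)} :
    σ ∈ star K F ↔ σ ∈ K ∧ σ ∪ F ∈ K := by
  rw [star, mem_filter]

/-- the `h`-polynomial of a complex of dimension (at most) `d - 1` -/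
noncomputable def hP {n : ℕ} (K : Finset (Finset (Fin n))) (d : ℕ) : Polynomial ℤ :=
  ∑ σ ∈ K, Polynomial.X ^ σ.card * (1 - Polynomial.X) ^ (d - σ.card)

theorem lk_union {n : ℕ} (K : Finset (Finset (Fin n))) {σ τ : Finset (Fin n)}
    (hτ : τ ∈ lk K σ) : lk (lk K σ) τ = lk K (τ ∪ σ) := by
  have h0 := (mem_lk.1 hτ).1
  ext ρ
  rw [mem_lk, mem_lk, mem_lk, union_assoc]
  constructor
  · rintro ⟨h1, h2, h3⟩
    exact ⟨disjoint_union_right.2 ⟨h1, (disjoint_union_left.1 h2).1⟩, h3⟩
  · rintro ⟨h1, h3⟩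
    rw [disjoint_union_right] at h1
    exact ⟨h1.1, disjoint_union_left.2 ⟨h1.2, h0⟩, h3⟩

/-- links of faces of homology spheres are homology spheres -/
theorem hsph_lk {n d : ℕ} {K : Finset (Finset (Fin n))} (h : HSph K d) {σ : Finset (Fin n)}
    (hσ : σ ∈ K) : HSph (lk K σ) (d - σ.card) := by
  have hd := h.card_le σ hσ
  have key : ∀ τ ∈ lk K σ, τ ∪ σ ∈ K ∧ (τ ∪ σ).card = τ.card + σ.card := fun τ hτ =>
    ⟨(mem_lk.1 hτ).2, card_union_of_disjoint (mem_lk.1 hτ).1⟩
  refine ⟨lk_cx h.cx hσ, ?_, ?_, ?_⟩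
  · intro τ hτ
    obtain ⟨h1, h2⟩ := key τ hτ
    have := h.card_le _ h1
    omega
  · intro τ hτ j hj
    obtain ⟨h1, h2⟩ := key τ hτ
    rw [lk_union K hτ]
    exact h.ac _ h1 j (by omega)
  · intro τ hτ
    obtain ⟨h1, h2⟩ := key τ hτ
    have e : d - σ.card - τ.card = d - (τ ∪ σ).card := by omega
    rw [lk_union K hτ, e]
    exact h.top _ h1

end Pool.Agent.H861.GL
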