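import Pool.Agent.H861.GL.Defs

/-!
# GL/Defs2: further definitions
-/

set_option autoImplicit false

namespace Pool.Agent.H861.GL

open Finset Pool.Agent.W555.KS Pool.Agent.Y131.KS

section
variable {n : ℕ} {k : Type} [Field k]

/-- contraction with the monomial `∏ v ∈ G, x_v` -/
noncomputable def shF (G : Finset (Fin n)) : Fn n k →ₗ[k] Fn n k where
  toFun f α := f (α + ∑ v ∈ G, Finsupp.single v 1)
  map_add' _ _ := rfl
  map_smul' _ _ := rfl

theorem shF_apply (G : Finset (Fin n)) (f : Fn n k) (α : Fin n →₀ ℕ) :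
    shF G f α = f (α + ∑ v ∈ G, Finsupp.single v 1) := rfl

theorem shF_op (G : Finset (Fin n)) (c : Fin n → k) (f : Fn n k) :
    shF G (op c f) = op c (shF G f) := by
  funext α
  simp only [shF_apply, op_apply]
  exact sum_congr rfl fun w _ => by rw [add_right_comm]

theorem shF_op_pow (G : Finset (Fin n)) (c : Fin n → k) (m : ℕ) (f : Fn n k) :
    shF G (((op c) ^ m) f) = ((op c) ^ m) (shF G f) := by
  induction m generalizing f with
  | zero => rfl
  | succ m ih =>
    rw [pow_succ, Module.End.mul_apply, Module.End.mul_apply, ih, shF_op]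

/-- families of functions indexed by the faces `G` of `K` with `j` vertices such that `G ∪ F` is
not a face; the function with index `G` is supported on the monomials in the `x_v`, `v ∈ G` -/
def PR (k : Type) [Field k] (K : Finset (Finset (Fin n))) (F : Finset (Fin n)) (j : ℕ) :
    Submodule k (Finset (Fin n) → Fn n k) where
  carrier := {Λ | ∀ G α, Λ G α ≠ 0 → G ∈ K ∧ G ∪ F ∉ K ∧ G.card = j ∧ α.support ⊆ G}
  add_mem' := by
    intro f g hf hg G α h
    by_cases h1 : f G α = 0
    · refine hg G α fun h2 => h ?_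
      rw [Pi.add_apply, Pi.add_apply, h1, h2, add_zero]
    · exact hf G α h1
  zero_mem' := fun G α h => absurd rfl h
  smul_mem' := by
    intro c f hf G α h
    refine hf G α fun h1 => h ?_
    rw [Pi.smul_apply, Pi.smul_apply, h1, smul_zero]

theorem mem_PR {K : Finset (Finset (Fin n))} {F : Finset (Fin n)} {j : ℕ}
    {Λ : Finset (Fin n) → Fn n k} : Λ ∈ PR k K F j ↔
      ∀ G α, Λ G α ≠ 0 → G ∈ K ∧ G ∪ F ∉ K ∧ G.card = j ∧ α.support ⊆ G := Iff.rfl

end

/-- the deletion of the face `F`: the faces not containing `F` -/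
def dele {n : ℕ} (K : Finset (Finset (Fin n))) (F : Finset (Fin n)) :
    Finset (Finset (Fin n)) :=
  K.filter (fun σ => ¬ F ⊆ σ)

theorem mem_dele {n : ℕ} {K : Finset (Finset (Fin n))} {F σ : Finset (Fin n)} :
    σ ∈ dele K F ↔ σ ∈ K ∧ ¬ F ⊆ σ := by
  rw [dele, mem_filter]

/-- the missing faces have at most `i + 1` vertices -/
def MF {n : ℕ} (K : Finset (Finset (Fin n))) (i : ℕ) : Prop :=
  ∀ σ : Finset (Fin n), (∀ ρ ⊆ σ, ρ.card ≤ i + 1 → ρ ∈ K) → σ ∈ K

end Pool.Agent.H861.GL
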