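import Pool.Agent.H861.GL.GenEx

/-!
# GL/Gen2: existence of generic coefficients, for all faces

This generalizes `exists_generic` of `GL/GenEx.lean` (already proved, its proof can be adapted).

PROOF. All conditions are of the form `P (x) ≠ 0` for finitely many nonzero polynomials `P` over
the infinite field `k` in unknowns `θ l v` (`l ≤ m`, `v ∈ Fin n`; put `θ l = 0` for `l > m`) and
`a i v` (for each `G`, `r` separately; since `a` may depend on `G`, `r`, one may also use one
polynomial in both `θ` and `a`, and choose one common point for all `G`, `r`).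
A product of nonzero polynomials is nonzero and has a nonzero value.

(1) `Gen θ K`: as in `GenEx` (Vandermonde; here `θ 0` is also unknown, e.g. `θ i v = t_v ^ i`).

(2) Let `G ∈ K`, `g = |G| ≤ m`, columns `u_0 < ... < u_(g-1)` of `G` (`G.orderEmbOfFin rfl`). For
`i ≤ m - g` and `v` let `c i v` be the determinant of the `(g + 1) × (g + 1)` matrix with the rows
`θ 0, ..., θ (g - 1), θ (g + i)` and columns `u_0, ..., u_(g - 1), v`. Expansion along the last
column gives `c i v = δ * θ (g + i) v + ∑ l < g, b l * θ l v` with `δ = det (θ l u_j)_(l, j < g)`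
(nonzero by (1)) and `b l` (depending on `i` but not on `v`), and `c i v = 0` for `v ∈ G` (two equal
columns). (Put `c i = 0` for `i > m - g`.)
The polynomial `F G r` (only the variables `(i, v)` with `i ≤ m - g` occur), after the substitution
of `X (i, v)` by the polynomial `c i v` in the unknowns (`v ∉ G`) and by `a i v` (`v ∈ G`), is not
the zero polynomial: put `θ l u_j = 1` if `l = j` and `0` otherwise for `l < g`; `θ l v = 0` for
`l < g`, `v ∉ G`; then `c i v` becomes `θ (g + i) v` for `v ∉ G` (the matrix is lower triangular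
with diagonal `1, ..., 1, θ (g + i) v`) and we get `F G r` with renamed variables, which is nonzero
modulo 2.
-/

set_option autoImplicit false

namespace Pool.Agent.H861.GL

open Finset Pool.Agent.W555.KS Pool.Agent.Y131.KS

namespace Gen2aux

variable {n : ℕ}

/-- the unknowns -/
abbrev Iy (n : ℕ) : Type := (ℕ × Fin n) ⊕ (ℕ × Fin n)

section
variable {R S : Type} [CommRing R] [CommRing S]

/-- the matrix of a face -/
def Am (th : ℕ → Fin n → R) (G : Finset (Fin n)) : Matrix (Fin G.card) (Fin G.card) R :=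
  Matrix.of fun l j => th l (G.orderEmbOfFin rfl j)

/-- the coefficients of the lower linear forms -/
noncomputable def bb (th : ℕ → Fin n → R) (G : Finset (Fin n)) (i l : ℕ) : R :=
  if h : l < G.card then
    -∑ j : Fin G.card, th (G.card + i) (G.orderEmbOfFin rfl j) * (Am th G).adjugate j ⟨l, h⟩
  else 0

/-- the linear forms that vanish on the face (expansion of the bordered determinant) -/
noncomputable def cc (th : ℕ → Fin n → R) (G : Finset (Fin n)) (i : ℕ) (v : Fin n) : R :=
  (Am th G).det * th (G.card + i) v + ∑ l ∈ range G.card, bb th G i l * th l v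

theorem map_Am (g : R →+* S) (th : ℕ → Fin n → R) (G : Finset (Fin n)) :
    g.mapMatrix (Am th G) = Am (fun l v => g (th l v)) G := rfl

theorem map_bb (g : R →+* S) (th : ℕ → Fin n → R) (G : Finset (Fin n)) (i l : ℕ) :
    g (bb th G i l) = bb (fun l v => g (th l v)) G i l := by
  unfold bb
  split_ifs with h
  · rw [map_neg, map_sum]
    refine congrArg _ (sum_congr rfl fun j _ => ?_)
    rw [map_mul, ← map_Am g th G, ← RingHom.map_adjugate]
    rfl
  · exact map_zero g

theorem map_cc (g : R →+* S) (th : ℕ → Fin n → R) (G : Finset (Fin n)) (i : ℕ) (v : Fin n) :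
    g (cc th G i v) = cc (fun l v => g (th l v)) G i v := by
  unfold cc
  rw [map_add, map_mul, map_sum, RingHom.map_det, map_Am]
  refine congrArg _ (sum_congr rfl fun l _ => ?_)
  rw [map_mul, map_bb]

theorem cc_mem (th : ℕ → Fin n → R) (G : Finset (Fin n)) (i : ℕ) (v : Fin n) (hv : v ∈ G) :
    cc th G i v = 0 := by
  obtain ⟨t, ht⟩ : ∃ t, G.orderEmbOfFin rfl t = v :=
    ⟨(G.orderIsoOfFin rfl).symm ⟨v, hv⟩, by
      rw [← Finset.coe_orderIsoOfFin_apply, OrderIso.apply_symm_apply]⟩
  subst ht
  unfold cc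
  rw [Finset.sum_range]
  have h1 : ∀ l : Fin G.card, bb th G i l * th l (G.orderEmbOfFin rfl t) =
      -∑ j : Fin G.card, th (G.card + i) (G.orderEmbOfFin rfl j) *
        ((Am th G).adjugate j l * Am th G l t) := by
    intro l
    unfold bb
    rw [dif_pos l.2, neg_mul, sum_mul]
    refine congrArg _ (sum_congr rfl fun j _ => ?_)
    rw [mul_assoc]
    rfl
  rw [sum_congr rfl fun l _ => h1 l, sum_neg_distrib, sum_comm]
  have h2 : ∀ j : Fin G.card, ∑ l : Fin G.card, th (G.card + i) (G.orderEmbOfFin rfl j) *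
        ((Am th G).adjugate j l * Am th G l t) =
      if j = t then th (G.card + i) (G.orderEmbOfFin rfl j) * (Am th G).det else 0 := by
    intro j
    rw [← mul_sum, ← Matrix.mul_apply, Matrix.adjugate_mul, Matrix.smul_apply, Matrix.one_apply]
    split_ifs
    · rw [smul_eq_mul, mul_one]
    · rw [smul_zero, mul_zero]
  rw [sum_congr rfl fun j _ => h2 j, sum_ite_eq' univ t, if_pos (mem_univ t)]
  ring

/-- the substitution -/
noncomputable def su (x : Iy n → R) (G : Finset (Fin n)) (p : ℕ × Fin n) : R :=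
  if p.2 ∈ G then x (Sum.inr (p.1, p.2)) else cc (fun l v => x (Sum.inl (l, v))) G p.1 p.2

theorem map_su (g : R →+* S) (x : Iy n → R) (G : Finset (Fin n)) (p : ℕ × Fin n) :
    g (su x G p) = su (fun z => g (x z)) G p := by
  unfold su
  split_ifs
  · rfl
  · rw [map_cc]

end

variable {k : Type} [Field k]

/-- the determinant for a face -/
noncomputable def PG (k : Type) [Field k] (G : Finset (Fin n)) : MvPolynomial (Iy n) k :=
  (Am (fun l v => (MvPolynomial.X (Sum.inl (l, v)) : MvPolynomial (Iy n) k)) G).det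

theorem eval_PG (G : Finset (Fin n)) (x : Iy n → k) :
    MvPolynomial.eval x (PG k G) = (Am (fun l v => x (Sum.inl (l, v))) G).det := by
  unfold PG
  rw [RingHom.map_det, map_Am]
  simp only [MvPolynomial.eval_X]

theorem PG_ne [Infinite k] (G : Finset (Fin n)) : PG k G ≠ 0 := by
  intro h
  let t : Fin n → k := fun v => Infinite.natEmbedding k v
  have ht : Function.Injective t := fun v w hvw =>
    Fin.ext ((Infinite.natEmbedding k).injective hvw)
  let x : Iy n → k := fun y => match y with
    | Sum.inl (i, v) => t v ^ i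
    | Sum.inr _ => 0
  have h1 := eval_PG (k := k) G x
  rw [h, map_zero] at h1
  have h2 : Am (fun l v => x (Sum.inl (l, v))) G =
      (Matrix.vandermonde (fun j : Fin G.card => t (G.orderEmbOfFin rfl j))).transpose := by
    ext i j
    rw [Matrix.transpose_apply, Matrix.vandermonde_apply]
    rfl
  rw [h2, Matrix.det_transpose] at h1
  refine (Matrix.det_vandermonde_ne_zero_iff.2 ?_) h1.symm
  exact ht.comp (G.orderEmbOfFin rfl).injective

theorem gen_of (K : Finset (Finset (Fin n))) (th : ℕ → Fin n → k)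
    (h : ∀ G ∈ K, (Am th G).det ≠ 0) : Gen th K := by
  intro G hG a ha hs
  have h1 := h G hG
  have h2 : (Am th G).mulVec (fun j => a (G.orderEmbOfFin rfl j)) = 0 := by
    funext i
    rw [Pi.zero_apply, ← hs i i.2]
    show ∑ j, th i (G.orderEmbOfFin rfl j) * a (G.orderEmbOfFin rfl j) = _
    have h3 : ∑ v, th i v * a v = ∑ v ∈ G, th i v * a v := by
      symm
      refine Finset.sum_subset (subset_univ G) fun v _ hv => ?_
      rw [ha v hv, mul_zero]
    rw [h3, ← Finset.sum_coe_sort G, ← Equiv.sum_comp (G.orderIsoOfFin rfl).toEquiv]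
    rfl
  have h3 := Matrix.eq_zero_of_mulVec_eq_zero h1 h2
  funext v
  rw [Pi.zero_apply]
  by_cases hv : v ∈ G
  · have h4 := congrFun h3 ((G.orderIsoOfFin rfl).symm ⟨v, hv⟩)
    rw [Pi.zero_apply] at h4
    have h5 : G.orderEmbOfFin rfl ((G.orderIsoOfFin rfl).symm ⟨v, hv⟩) = v := by
      rw [← Finset.coe_orderIsoOfFin_apply, OrderIso.apply_symm_apply]
    rwa [h5] at h4
  · exact ha v hv

/-- the polynomial of the face `G` -/
noncomputable def QF (k : Type) [Field k] (G : Finset (Fin n))
    (f : MvPolynomial (ℕ × Fin n) ℤ) : MvPolynomial (Iy n) k :=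
  MvPolynomial.aeval (su (fun y : Iy n => (MvPolynomial.X y : MvPolynomial (Iy n) k)) G) f

theorem eval_QF (G : Finset (Fin n)) (f : MvPolynomial (ℕ × Fin n) ℤ) (x : Iy n → k) :
    MvPolynomial.eval x (QF k G f) = MvPolynomial.aeval (su x G) f := by
  unfold QF
  rw [GenExaux.hom_aeval]
  congr 2
  funext p
  rw [map_su]
  simp only [MvPolynomial.eval_X]

theorem QF_ne [CharP k 2] (G : Finset (Fin n)) (f : MvPolynomial (ℕ × Fin n) ℤ)
    (hf : MvPolynomial.map (Int.castRingHom (ZMod 2)) f ≠ 0) : QF k G f ≠ 0 := by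
  classical
  intro h
  let y : Iy n → MvPolynomial (ℕ × Fin n) k := fun z => match z with
    | Sum.inl (l, v) => if hl : l < G.card then (if v = G.orderEmbOfFin rfl ⟨l, hl⟩ then 1 else 0)
        else MvPolynomial.X (l - G.card, v)
    | Sum.inr p => MvPolynomial.X p
  have h1 := congrArg (MvPolynomial.aeval (R := k) y).toRingHom h
  rw [map_zero] at h1
  unfold QF at h1
  rw [GenExaux.hom_aeval] at h1
  have h2 : (fun p => (MvPolynomial.aeval (R := k) y).toRingHom
      (su (fun z : Iy n => (MvPolynomial.X z : MvPolynomial (Iy n) k)) G p)) =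
      fun p : ℕ × Fin n => (MvPolynomial.X p : MvPolynomial (ℕ × Fin n) k) := by
    funext p
    rw [map_su]
    have h3 : (fun z => (MvPolynomial.aeval (R := k) y).toRingHom
        (MvPolynomial.X z : MvPolynomial (Iy n) k)) = y := by
      funext z
      exact MvPolynomial.aeval_X _ _
    rw [h3]
    unfold su
    split_ifs with h4
    · rfl
    · have e1 : Am (fun l v => y (Sum.inl (l, v))) G = 1 := by
        ext1 l j
        have e2 : Am (fun l v => y (Sum.inl (l, v))) G l j =
            (if hl : (l : ℕ) < G.card then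
              (if G.orderEmbOfFin rfl j = G.orderEmbOfFin rfl ⟨l, hl⟩ then 1 else 0)
              else MvPolynomial.X ((l : ℕ) - G.card, G.orderEmbOfFin rfl j) :
                MvPolynomial (ℕ × Fin n) k) := rfl
        rw [e2, dif_pos l.2, Matrix.one_apply]
        by_cases hlj : l = j
        · rw [if_pos hlj, if_pos]
          rw [hlj]
        · rw [if_neg hlj, if_neg]
          intro hc
          exact hlj ((G.orderEmbOfFin rfl).injective hc).symm
      have e3 : ∀ l ∈ range G.card, bb (fun l v => y (Sum.inl (l, v))) G p.1 l *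
          y (Sum.inl (l, p.2)) = 0 := by
        intro l hl
        have hl' := mem_range.1 hl
        have e4 : y (Sum.inl (l, p.2)) = (if hl : l < G.card then
              (if p.2 = G.orderEmbOfFin rfl ⟨l, hl⟩ then 1 else 0)
              else MvPolynomial.X (l - G.card, p.2) : MvPolynomial (ℕ × Fin n) k) := rfl
        rw [e4, dif_pos hl', if_neg, mul_zero]
        intro hc
        apply h4
        rw [hc]
        exact Finset.orderEmbOfFin_mem G rfl _
      unfold cc
      rw [e1, Matrix.det_one, one_mul, sum_eq_zero e3, add_zero]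
      have e5 : y (Sum.inl (G.card + p.1, p.2)) = (if hl : G.card + p.1 < G.card then
              (if p.2 = G.orderEmbOfFin rfl ⟨G.card + p.1, hl⟩ then 1 else 0)
              else MvPolynomial.X (G.card + p.1 - G.card, p.2) :
                MvPolynomial (ℕ × Fin n) k) := rfl
      refine e5.trans ?_
      rw [dif_neg (by omega), Nat.add_sub_cancel_left]
  rw [h2] at h1
  have h3 : MvPolynomial.aeval (fun p : ℕ × Fin n =>
      (MvPolynomial.X p : MvPolynomial (ℕ × Fin n) k)) f =
      MvPolynomial.map (ZMod.castHom (dvd_refl 2) k)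
        (MvPolynomial.map (Int.castRingHom (ZMod 2)) f) := by
    rw [MvPolynomial.map_map]
    clear h h1 hf
    induction f using MvPolynomial.induction_on with
    | C a =>
      rw [MvPolynomial.aeval_C, MvPolynomial.map_C, eq_intCast, eq_intCast, map_intCast]
    | add p q hp hq => rw [map_add, map_add, hp, hq]
    | mul_X p v hp => rw [map_mul, map_mul, hp, MvPolynomial.aeval_X, MvPolynomial.map_X]
  rw [h3] at h1
  apply hf
  refine MvPolynomial.map_injective (ZMod.castHom (dvd_refl 2) k)
    (ZMod.castHom (dvd_refl 2) k).injective ?_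
  rw [h1, map_zero]

end Gen2aux

open Gen2aux in
theorem exists_generic2 (n m N : ℕ) (K : Finset (Finset (Fin n))) (hd : ∀ σ ∈ K, σ.card ≤ m)
    (k : Type) [Field k] [Infinite k] [CharP k 2]
    (F : Finset (Fin n) → ℕ → MvPolynomial (ℕ × Fin n) ℤ)
    (hF : ∀ G r, MvPolynomial.map (Int.castRingHom (ZMod 2)) (F G r) ≠ 0)
    (hvar : ∀ G ∈ K, ∀ r, ∀ p ∈ (F G r).vars, p.1 ≤ m - G.card) :
    ∃ θ : ℕ → Fin n → k, Gen θ K ∧ ∀ G ∈ K, ∀ r ≤ N, ∃ (c a : ℕ → Fin n → k),
      (∀ i, ∀ v ∈ G, c i v = 0) ∧
      (∀ i ≤ m - G.card, ∃ δ : k, δ ≠ 0 ∧ ∃ b : ℕ → k, ∀ v,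
        c i v = δ * θ (G.card + i) v + ∑ l ∈ range G.card, b l * θ l v) ∧
      MvPolynomial.aeval (fun p : ℕ × Fin n => if p.2 ∈ G then a p.1 p.2 else c p.1 p.2)
        (F G r) ≠ 0 := by
  classical
  have hP : (∏ G ∈ K, PG k G) * ∏ G ∈ K, ∏ r ∈ range (N + 1), QF k G (F G r) ≠ 0 := by
    refine mul_ne_zero (prod_ne_zero_iff.2 fun G _ => PG_ne G) ?_
    exact prod_ne_zero_iff.2 fun G _ => prod_ne_zero_iff.2 fun r _ => QF_ne G _ (hF G r)
  obtain ⟨x, hx⟩ : ∃ x : Iy n → k, MvPolynomial.eval x
      ((∏ G ∈ K, PG k G) * ∏ G ∈ K, ∏ r ∈ range (N + 1), QF k G (F G r)) ≠ 0 := by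
    by_contra hc
    push Not at hc
    refine hP (MvPolynomial.funext fun x => ?_)
    rw [hc x, map_zero]
  rw [map_mul, map_prod, map_prod] at hx
  have h1 := left_ne_zero_of_mul hx
  have h2 := right_ne_zero_of_mul hx
  rw [prod_ne_zero_iff] at h1 h2
  have h1' : ∀ G ∈ K, (Am (fun l v => x (Sum.inl (l, v))) G).det ≠ 0 := fun G hG => by
    rw [← eval_PG]
    exact h1 G hG
  refine ⟨fun l v => x (Sum.inl (l, v)), gen_of K _ h1', fun G hG r hr =>
    ⟨cc (fun l v => x (Sum.inl (l, v))) G, fun i v => x (Sum.inr (i, v)),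
      fun i v hv => cc_mem _ G i v hv, fun i _ => ⟨_, h1' G hG, _, fun v => rfl⟩, ?_⟩⟩
  have h3 := h2 G hG
  rw [map_prod, prod_ne_zero_iff] at h3
  have h4 := h3 r (mem_range.2 (Nat.lt_succ_of_le hr))
  rw [eval_QF] at h4
  exact h4

end Pool.Agent.H861.GL
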