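import Pool.Agent.H861.GL.LKD
import Pool.Agent.H861.GL.Defs2

/-!
# GL/Lk2: the Lefschetz property of the link of a face, in dual form

This generalizes `lkd` of `GL/LKD.lean` (already proved; its proof, e.g. the annihilator `ann μ`,
can be adapted) from vertices to faces `G`. `shF G f α = f (α + ∑ v ∈ G, e_v)` (`GL/Defs2.lean`).

PROOF. `g = |G|`. Let `μ = shF G f`, `A` the ideal of all polynomials `p` which kill `μ` by
contraction. `A` contains
 (a) `∏ v ∈ σ, X v` for every `σ` with `σ ∪ G ∉ K` (the support of `α + 1_σ + 1_G` contains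
     `σ ∪ G`);
 (b) `lf (θ l)` for `l < d` (`shF_op`), in particular for `l < g` (as `g ≤ d`);
 (c) `(lf (θ d)) ^ m` by `hω`.
CLAIM: every homogeneous `p` of degree `s` lies in `A`. Then `μ α = 0` for `α` of degree `s`, and
also for other `α` since `f` is supported in degree `s + g`. So `μ = 0`.
Proof of the claim: by `hgen` the `g × g` matrix `(θ l u)`, `l < g`, `u ∈ G`, is invertible, so for
every `u ∈ G` there is a linear form `ℓ_u` in the variables `X v`, `v ∉ G`, such that `X u - ℓ_u` is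
a linear combination of `lf (θ 0), ..., lf (θ (g - 1))`. Let `φ` be the algebra map `X u ↦ ℓ_u`
(`u ∈ G`), `X v ↦ X v` (`v ∉ G`). Then `p - φ p ∈ A` by (b). `φ p` is homogeneous of degree `s`; by
`hspec` it lies in `srI k (lk K G) ⊔ ...`. Apply the algebra map `ψ` with `X u ↦ 0` (`u ∈ G`),
`X v ↦ X v` (`v ∉ G`). `ψ (φ p) = φ p`, and `ψ` maps each of the three ideals into `A`:
 * `ψ (∏ v ∈ σ, X v)` for `σ ∉ lk K G` is `0` if `σ` meets `G`; otherwise it is `∏ v ∈ σ, X v` and
   `σ ∪ G ∉ K`, use (a);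
 * `ψ (lf (fun v => if v ∈ G then a i v else c i v)) = lf (c i)` by `hc0`, and by `hc`
   `lf (c i) = C δ * lf (θ (g + i)) + ∑ l < g, C (b l) * lf (θ l)`; for `i < d - g` this is in `A`;
 * for `i = d - g`: `lf (c i) ≡ C δ * lf (θ d)` modulo the ideal generated by the `lf (θ l)`,
   `l < g`, so its `m`-th power is `≡ C (δ ^ m) * (lf (θ d)) ^ m`, in `A` by (c)
   (`sub_dvd_pow_sub_pow`).
-/

set_option autoImplicit false

namespace Pool.Agent.H861.GL

open Finset Pool.Agent.W555.KS Pool.Agent.Y131.KS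

namespace Lk2aux

open MvPolynomial LKDaux

variable {n : ℕ} {k : Type} [Field k]

/-- the substitution which eliminates the variables in `G` -/
theorem exists_phi (G : Finset (Fin n)) (β : Fin n → Fin n → k) :
    ∃ φ : MvPolynomial (Fin n) k →ₐ[k] MvPolynomial (Fin n) k,
    (∀ v, φ (X v) = if v ∈ G then -∑ w ∈ univ \ G, C (β v w) * X w else X v) ∧
    ∀ (s : ℕ) (p : MvPolynomial (Fin n) k), p.IsHomogeneous s → (φ p).IsHomogeneous s := by
  classical
  refine ⟨aeval (fun v => if v ∈ G then -∑ w ∈ univ \ G, C (β v w) * X w else X v),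
    fun v => aeval_X _ _, fun s p hp => ?_⟩
  have h2 := hp.aeval (fun v => if v ∈ G then -∑ w ∈ univ \ G, C (β v w) * X w
    else (X v : MvPolynomial (Fin n) k)) (n := 1) (fun v => by
      split_ifs
      · refine (IsHomogeneous.sum _ _ _ fun w _ => ?_).neg
        have h3 := (isHomogeneous_C (Fin n) (β v w)).mul (isHomogeneous_X k w)
        rwa [zero_add] at h3
      · exact isHomogeneous_X k v)
  rwa [one_mul] at h2

theorem exists_psi (G : Finset (Fin n)) : ∃ ψ : MvPolynomial (Fin n) k →ₐ[k] MvPolynomial (Fin n) k,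
    ∀ v, ψ (X v) = if v ∈ G then 0 else X v :=
  ⟨aeval (fun v => if v ∈ G then 0 else X v), fun v => aeval_X _ _⟩

/-- an ideal which contains all `X v - φ (X v)` contains `p - φ p` -/
theorem sub_mem (φ : MvPolynomial (Fin n) k →ₐ[k] MvPolynomial (Fin n) k)
    (I : Ideal (MvPolynomial (Fin n) k)) (hφ : ∀ v, X v - φ (X v) ∈ I)
    (p : MvPolynomial (Fin n) k) : p - φ p ∈ I := by
  induction p using MvPolynomial.induction_on with
  | C a =>
    rw [MvPolynomial.algHom_C, MvPolynomial.algebraMap_eq, sub_self]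
    exact Ideal.zero_mem _
  | add p q hp hq =>
    rw [map_add, add_sub_add_comm]
    exact Ideal.add_mem _ hp hq
  | mul_X p v hp =>
    have h2 : p * X v - φ (p * X v) = (p - φ p) * X v + φ p * (X v - φ (X v)) := by
      rw [map_mul]; ring
    rw [h2]
    exact Ideal.add_mem _ (Ideal.mul_mem_right _ _ hp) (Ideal.mul_mem_left _ _ (hφ v))

theorem psi_phi (G : Finset (Fin n)) (β : Fin n → Fin n → k)
    (φ ψ : MvPolynomial (Fin n) k →ₐ[k] MvPolynomial (Fin n) k)
    (hφX : ∀ v, φ (X v) = if v ∈ G then -∑ w ∈ univ \ G, C (β v w) * X w else X v)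
    (hψX : ∀ v, ψ (X v) = if v ∈ G then 0 else X v) (p : MvPolynomial (Fin n) k) :
    ψ (φ p) = φ p := by
  have h1 : ψ.comp φ = φ := by
    refine MvPolynomial.algHom_ext fun v => ?_
    rw [AlgHom.comp_apply, hφX]
    split_ifs with h
    · rw [map_neg, map_sum]
      congr 1
      refine sum_congr rfl fun w hw => ?_
      rw [map_mul, MvPolynomial.algHom_C, MvPolynomial.algebraMap_eq, hψX,
        if_neg (mem_sdiff.1 hw).2]
    · rw [hψX, if_neg h]
  exact DFunLike.congr_fun h1 p

/-- a left inverse of the matrix `(θ l u)`, `l < g`, `u ∈ G` -/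
theorem exists_inv (G : Finset (Fin n)) (g : ℕ) (θ : ℕ → Fin n → k)
    (hgen : ∀ a : Fin n → k, (∀ v, v ∉ G → a v = 0) →
      (∀ i < g, ∑ v, θ i v * a v = 0) → a = 0) :
    ∃ b : Fin n → ℕ → k, ∀ u ∈ G, ∀ w ∈ G,
      ∑ l ∈ range g, b u l * θ l w = if w = u then 1 else 0 := by
  classical
  -- the map from the functions on `G`
  let M : (G → k) →ₗ[k] (Fin g → k) :=
    { toFun := fun a l => ∑ v : G, θ l v * a v
      map_add' := by
        intro a b
        funext l
        simp only [Pi.add_apply, mul_add, sum_add_distrib]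
      map_smul' := by
        intro c a
        funext l
        simp only [Pi.smul_apply, smul_eq_mul, RingHom.id_apply, mul_sum]
        exact sum_congr rfl fun v _ => by ring }
  have hM : ∀ (a : G → k) (l : Fin g), M a l = ∑ v : G, θ l v * a v := fun _ _ => rfl
  have hker : LinearMap.ker M = ⊥ := by
    rw [LinearMap.ker_eq_bot']
    intro a ha
    have h1 := hgen (fun v => if h : v ∈ G then a ⟨v, h⟩ else 0) (fun v hv => dif_neg hv)
      (fun i hi => by
        have h2 := congrFun ha ⟨i, hi⟩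
        rw [hM, Pi.zero_apply] at h2
        refine Eq.trans ?_ h2
        rw [← Finset.sum_subset (Finset.subset_univ G) (fun v _ hv => by
          rw [dif_neg hv, mul_zero])]
        rw [← Finset.sum_coe_sort G]
        refine sum_congr rfl fun v _ => ?_
        rw [dif_pos v.2])
    funext v
    have h3 := congrFun h1 v.1
    simp only [dif_pos v.2, Pi.zero_apply] at h3
    exact h3
  obtain ⟨N, hN⟩ := LinearMap.exists_leftInverse_of_injective M hker
  refine ⟨fun u l => if h : u ∈ G ∧ l < g then N (Pi.single ⟨l, h.2⟩ 1) ⟨u, h.1⟩ else 0, ?_⟩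
  intro u hu w hw
  have h1 : N (M (Pi.single ⟨w, hw⟩ 1)) ⟨u, hu⟩ = if w = u then 1 else 0 := by
    have h2 := LinearMap.congr_fun hN (Pi.single ⟨w, hw⟩ 1)
    rw [LinearMap.comp_apply, LinearMap.id_apply] at h2
    rw [h2, Pi.single_apply]
    simp only [Subtype.mk.injEq, eq_comm]
  have h3 : M (Pi.single ⟨w, hw⟩ 1) = ∑ l : Fin g, θ l w • (Pi.single l 1 : Fin g → k) := by
    funext l
    rw [hM, Finset.sum_apply]
    rw [Finset.sum_eq_single (⟨w, hw⟩ : G)]
    · rw [Pi.single_eq_same, mul_one, Finset.sum_eq_single l]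
      · rw [Pi.smul_apply, Pi.single_eq_same, smul_eq_mul, mul_one]
      · intro j _ hj
        rw [Pi.smul_apply, Pi.single_eq_of_ne (Ne.symm hj), smul_zero]
      · intro h
        exact absurd (mem_univ l) h
    · intro v _ hv
      rw [Pi.single_eq_of_ne hv, mul_zero]
    · intro h
      exact absurd (mem_univ _) h
  rw [h3, map_sum, Finset.sum_apply] at h1
  rw [← h1, Finset.sum_range]
  refine sum_congr rfl fun l _ => ?_
  beta_reduce
  rw [dif_pos ⟨hu, l.2⟩, map_smul, Pi.smul_apply, smul_eq_mul, mul_comm]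

end Lk2aux

open LKDaux Lk2aux in
theorem lkd2 {n d : ℕ} {K : Finset (Finset (Fin n))} {k : Type} [Field k] (hK : IsCx K)
    (G : Finset (Fin n)) (hG : G ∈ K) (hgd : G.card ≤ d) (θ : ℕ → Fin n → k)
    (hgen : ∀ a : Fin n → k, (∀ v, v ∉ G → a v = 0) →
      (∀ i < G.card, ∑ v, θ i v * a v = 0) → a = 0)
    (c a : ℕ → Fin n → k) (hc0 : ∀ i, ∀ v ∈ G, c i v = 0)
    (hc : ∀ i ≤ d - G.card, ∃ δ : k, δ ≠ 0 ∧ ∃ b : ℕ → k, ∀ v,
      c i v = δ * θ (G.card + i) v + ∑ l ∈ range G.card, b l * θ l v)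
    (s m : ℕ)
    (hspec : ∀ p : MvPolynomial (Fin n) k, p.IsHomogeneous s →
      p ∈ srI k (lk K G) ⊔
        Ideal.span (Set.range (fun i : Fin (d - G.card) =>
          lf (fun v => if v ∈ G then a i v else c i v))) ⊔
        Ideal.span {lf (fun v => if v ∈ G then a (d - G.card) v else c (d - G.card) v) ^ m})
    (f : Fn n k) (hf : f ∈ St θ K d (s + G.card))
    (hω : ((op (θ d)) ^ m) (shF G f) = 0) : shF G f = 0 := by
  classical
  obtain ⟨μ, hμ⟩ : ∃ μ, μ = shF G f := ⟨_, rfl⟩
  rw [← hμ] at hω ⊢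
  -- members of the annihilator
  have ha : ∀ σ : Finset (Fin n), σ ∪ G ∉ K → (∏ v ∈ σ, MvPolynomial.X v) ∈ ann μ := by
    intro σ hσ
    rw [mem_ann]
    funext α
    rw [act_prod, hμ, shF_apply]
    by_contra hne
    have h1 := (hf.1 _ hne).1
    refine hσ (hK.2 _ h1 _ ?_)
    have h2 : ∀ (τ : Finset (Fin n)), ∀ v ∈ τ, 1 ≤ (∑ w ∈ τ, Finsupp.single w 1 : Fin n →₀ ℕ) v := by
      intro τ v hv
      rw [Finsupp.finsetSum_apply]
      calc 1 = Finsupp.single v 1 v := by rw [Finsupp.single_eq_same]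
        _ ≤ ∑ w ∈ τ, (Finsupp.single w 1 : Fin n →₀ ℕ) v :=
          Finset.single_le_sum (f := fun w => (Finsupp.single w 1 : Fin n →₀ ℕ) v)
            (fun _ _ => Nat.zero_le _) hv
    intro v hv
    rw [Finsupp.mem_support_iff, Finsupp.add_apply, Finsupp.add_apply]
    rcases mem_union.1 hv with hv | hv
    · have := h2 σ v hv
      omega
    · have := h2 G v hv
      omega
  have hb : ∀ l < d, lf (θ l) ∈ ann μ := by
    intro l hl
    rw [mem_ann, act_lf, hμ, ← shF_op, hf.2 l hl, map_zero]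
  have hbg : ∀ b : ℕ → k, ∑ l ∈ range G.card, MvPolynomial.C (b l) * lf (θ l) ∈ ann μ := fun b =>
    Ideal.sum_mem _ fun l hl => Ideal.mul_mem_left _ _ (hb l (by
      have := mem_range.1 hl
      omega))
  have hcm : (lf (θ d)) ^ m ∈ ann μ := by
    rw [mem_ann, map_pow, act_lf]
    exact hω
  have hlin : ∀ (e : ℕ → k), (∑ l ∈ range G.card, MvPolynomial.C (e l) * lf (θ l)) =
      ∑ v, MvPolynomial.C (∑ l ∈ range G.card, e l * θ l v) * (MvPolynomial.X v :
        MvPolynomial (Fin n) k) := by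
    intro e
    unfold lf
    simp only [mul_sum]
    rw [sum_comm]
    refine sum_congr rfl fun v _ => ?_
    rw [map_sum, sum_mul]
    refine sum_congr rfl fun l _ => ?_
    rw [map_mul, mul_assoc]
  -- the two substitutions
  obtain ⟨b0, hb0⟩ := exists_inv G G.card θ hgen
  obtain ⟨φ, hφX, hφh⟩ := Lk2aux.exists_phi G (fun u w => ∑ l ∈ range G.card, b0 u l * θ l w)
  obtain ⟨ψ, hψX⟩ := Lk2aux.exists_psi (k := k) G
  have hφm : ∀ p, p - φ p ∈ ann μ := by
    refine Lk2aux.sub_mem φ (ann μ) fun u => ?_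
    rw [hφX]
    split_ifs with hu
    · have h1 : MvPolynomial.X u - -∑ w ∈ univ \ G,
          MvPolynomial.C (∑ l ∈ range G.card, b0 u l * θ l w) * MvPolynomial.X w =
          ∑ l ∈ range G.card, MvPolynomial.C (b0 u l) * lf (θ l) := by
        rw [hlin, sub_neg_eq_add, ← Finset.sum_sdiff (Finset.subset_univ G), add_comm]
        congr 1
        rw [Finset.sum_eq_single u]
        · rw [hb0 u hu u hu, if_pos rfl, map_one, one_mul]
        · intro w hw hwu
          rw [hb0 u hu w hw, if_neg hwu, map_zero, zero_mul]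
        · intro h
          exact absurd hu h
      rw [h1]
      exact hbg _
    · rw [sub_self]
      exact Ideal.zero_mem _
  have hψφ : ∀ p, ψ (φ p) = φ p := Lk2aux.psi_phi G _ φ ψ hφX hψX
  have hψlf : ∀ i : ℕ, ψ (lf (fun v => if v ∈ G then a i v else c i v)) = lf (c i) := by
    intro i
    unfold lf
    rw [map_sum]
    refine sum_congr rfl fun v _ => ?_
    rw [map_mul, hψX, MvPolynomial.algHom_C, MvPolynomial.algebraMap_eq]
    beta_reduce
    by_cases h : v ∈ G
    · rw [if_pos h, if_pos h, hc0 i v h, map_zero, zero_mul, mul_zero]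
    · rw [if_neg h, if_neg h]
  have hci : ∀ i ≤ d - G.card, ∃ δ : k, ∃ y ∈ ann μ,
      lf (c i) = MvPolynomial.C δ * lf (θ (G.card + i)) - y := by
    intro i hi
    obtain ⟨δ, -, b, hb1⟩ := hc i hi
    refine ⟨δ, -∑ l ∈ range G.card, MvPolynomial.C (b l) * lf (θ l),
      (Ideal.neg_mem_iff _).2 (hbg b), ?_⟩
    rw [sub_neg_eq_add, hlin]
    unfold lf
    rw [mul_sum, ← sum_add_distrib]
    refine sum_congr rfl fun v _ => ?_
    rw [hb1 v, map_add, map_mul, add_mul, mul_assoc]
  have hincl : srI k (lk K G) ⊔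
        Ideal.span (Set.range (fun i : Fin (d - G.card) =>
          lf (fun v => if v ∈ G then a i v else c i v))) ⊔
        Ideal.span {lf (fun v => if v ∈ G then a (d - G.card) v else c (d - G.card) v) ^ m} ≤
      (ann μ).comap ψ := by
    refine sup_le (sup_le ?_ ?_) ?_
    · unfold srI
      rw [Ideal.span_le]
      rintro p ⟨σ, hσ, rfl⟩
      rw [SetLike.mem_coe, Ideal.mem_comap, map_prod]
      by_cases hu : Disjoint σ G
      · have h1 : ∏ v ∈ σ, ψ (MvPolynomial.X v) = ∏ v ∈ σ, MvPolynomial.X v := by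
          refine prod_congr rfl fun v hv => ?_
          rw [hψX, if_neg]
          exact Finset.disjoint_left.1 hu hv
        rw [h1]
        refine ha σ fun h2 => hσ ?_
        rw [mem_lk]
        exact ⟨hu, h2⟩
      · rw [Finset.not_disjoint_iff] at hu
        obtain ⟨u, hu1, hu2⟩ := hu
        rw [prod_eq_zero hu1 (by rw [hψX, if_pos hu2])]
        exact Ideal.zero_mem _
    · rw [Ideal.span_le]
      rintro p ⟨i, rfl⟩
      have hi := i.2
      rw [SetLike.mem_coe, Ideal.mem_comap, hψlf]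
      obtain ⟨δ, y, hy, he⟩ := hci i (by omega)
      rw [he]
      exact Ideal.sub_mem _ (Ideal.mul_mem_left _ _ (hb _ (by omega))) hy
    · rw [Ideal.span_le, Set.singleton_subset_iff]
      rw [SetLike.mem_coe, Ideal.mem_comap, map_pow, hψlf]
      obtain ⟨δ, y, hy, he⟩ := hci (d - G.card) le_rfl
      have hd : G.card + (d - G.card) = d := by omega
      rw [hd] at he
      refine pow_mem (ann μ) (MvPolynomial.C δ * lf (θ d)) y m hy ?_ _ he
      rw [mul_pow]
      exact Ideal.mul_mem_left _ _ hcm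
  -- all homogeneous polynomials of degree `s` annihilate
  have hall : ∀ p : MvPolynomial (Fin n) k, p.IsHomogeneous s → p ∈ ann μ := by
    intro p hp
    have h1 : (φ p).IsHomogeneous s := hφh s p hp
    have h2 := hincl (hspec (φ p) h1)
    rw [Ideal.mem_comap, hψφ] at h2
    have h4 := Ideal.add_mem _ (hφm p) h2
    rwa [sub_add_cancel] at h4
  funext α
  by_cases hα : α.degree = s
  · have h1 := hall (MvPolynomial.monomial α 1) (MvPolynomial.isHomogeneous_monomial 1 hα)
    rw [mem_ann, act_monomial, one_smul] at h1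
    have h2 := congrFun h1 0
    rwa [shift_apply, zero_add] at h2
  · by_contra hne
    rw [hμ, shF_apply] at hne
    have h1 := (hf.1 _ hne).2
    rw [map_add, map_sum] at h1
    simp only [Finsupp.degree_single, sum_const, smul_eq_mul, mul_one] at h1
    omega

end Pool.Agent.H861.GL
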