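import Pool.Agent.H861.GL.CohR
import Pool.Agent.H861.GL.ExB
import Pool.Agent.H861.GL.Defs2

/-!
# GL/RelB: exactness of the relative complexes `PR k K F j`

`PR` is in `GL/Defs2.lean`. This is the relative version of `GL/ExB.lean` (`map_dl_low`,
`map_dl_top`), whose proof (with auxiliary lemmas in `ExBaux`) should be adapted; the statements
`coh_low_rel`, `coh_top_rel` are in `GL/CohR.lean` (proved elsewhere).

PROOF. `dl_mem_rel`: if `dl K Λ G α ≠ 0` then `G ∈ K` and `Λ (G.erase v) α ≠ 0` for some `v ∈ G`,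
and `G ∪ F ⊇ (G.erase v) ∪ F ∉ K`.
EXACTNESS. Fix a monomial `α` with support `σ`. If `Λ G α ≠ 0` then `σ ⊆ G`, so nothing is to be
done if `σ ∉ K`. If `F ⊆ σ` then `G ∪ F = G` for `G ⊇ σ`, so `Λ G α = 0` for all `G`, and we take
`M G α = 0`. Let `σ ∈ K`, `A = F \ σ` nonempty, `L = lk K σ`, a homology sphere for `d' = d - |σ|`.
Let `f τ = Λ (τ ∪ σ) α`. For `τ ∈ L`: `τ ∪ A ∈ L` iff `τ ∪ σ ∪ F ∈ K` (if `τ` is disjoint from `σ`;
note `A` is disjoint from `σ`), so `f τ = 0` in this case. As in `ExB` the condition `dl K Λ = 0`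
(`sm Λ = 0`) gives the hypothesis of `coh_low_rel` (`coh_top_rel`) for `L`, `A`. With the `g`
obtained put `M ρ α = g (ρ \ σ)` if `σ ⊆ ρ`, `ρ ∈ K`, `ρ.card = j`, and `0` otherwise.
The inclusion `≤` uses `dl_mem_rel`, `dl_dl`, `sm_dl` (the latter for `PP k K ∅ j ⊇ PR k K F j`).
-/

set_option autoImplicit false

namespace Pool.Agent.H861.GL

open Finset Pool.Agent.W555.KS Pool.Agent.Y131.KS

variable {n d : ℕ} {K : Finset (Finset (Fin n))} {k : Type} [Field k] {F : Finset (Fin n)}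

theorem dl_mem_rel (hK : IsCx K) {j : ℕ} {Λ : Finset (Fin n) → Fn n k} (hΛ : Λ ∈ PR k K F j) :
    dl K Λ ∈ PR k K F (j + 1) := by
  intro G α h
  rw [dl_apply] at h
  by_cases hG : G ∈ K
  · rw [if_pos hG, Finset.sum_apply] at h
    obtain ⟨v, hv, h1⟩ := exists_ne_zero_of_sum_ne_zero h
    obtain ⟨_, h3, h4, h5⟩ := mem_PR.1 hΛ _ _ h1
    refine ⟨hG, fun h6 => h3 ?_, ?_, h5.trans (erase_subset _ _)⟩
    · exact hK.2 _ h6 _ (union_subset_union (erase_subset _ _) (Subset.refl _))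
    · rw [card_erase_of_mem hv] at h4
      have : 0 < G.card := card_pos.2 ⟨v, hv⟩
      omega
  · rw [if_neg hG] at h
    exact absurd rfl h

namespace RelBaux

/-- The statement for one monomial. -/
theorem point (hK : HSph K d) {s' : Finset (Fin n)} (hs : s' ∈ K) {j : ℕ}
    (H : Finset (Fin n) → k)
    (hH : ∀ G, H G ≠ 0 → G ∈ K ∧ G ∪ F ∉ K ∧ s' ⊆ G ∧ G.card = j + 1)
    (hcoh : s'.card ≤ j + 1 → ∃ g : Finset (Fin n) → k,
      (∀ ρ, g ρ ≠ 0 → ρ ∪ (F \ s') ∉ lk K s') ∧
      ∀ τ ∈ lk K s', τ.card = j + 1 - s'.card → H (τ ∪ s') = ∑ v ∈ τ, g (τ.erase v)) :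
    ∃ m : Finset (Fin n) → k, (∀ ρ, m ρ ≠ 0 → ρ ∈ K ∧ ρ ∪ F ∉ K ∧ s' ⊆ ρ ∧ ρ.card = j) ∧
      ∀ G, H G = if G ∈ K then ∑ v ∈ G, m (G.erase v) else 0 := by
  classical
  by_cases hsj : s'.card ≤ j + 1
  · obtain ⟨g, hg0, hg⟩ := hcoh hsj
    let m : Finset (Fin n) → k := fun ρ => if ρ ∈ K ∧ s' ⊆ ρ ∧ ρ.card = j then g (ρ \ s') else 0
    refine ⟨m, ?_, ?_⟩
    · intro ρ hρ
      by_cases hcon : ρ ∈ K ∧ s' ⊆ ρ ∧ ρ.card = j
      · refine ⟨hcon.1, fun h1 => ?_, hcon.2⟩
        have h2 : m ρ = g (ρ \ s') := if_pos hcon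
        rw [h2] at hρ
        refine hg0 _ hρ ?_
        have e1 : ρ \ s' ∪ F \ s' ∪ s' = ρ ∪ F := by
          ext x
          have h3 : x ∈ s' → x ∈ ρ := fun h => hcon.2.1 h
          simp only [mem_union, mem_sdiff]
          tauto
        have e2 : Disjoint (ρ \ s' ∪ F \ s') s' :=
          disjoint_union_left.2 ⟨sdiff_disjoint, sdiff_disjoint⟩
        rw [mem_lk, e1]
        exact ⟨e2, h1⟩
      · exact absurd (if_neg hcon) hρ
    · intro G
      by_cases hG : G ∈ K
      · rw [if_pos hG]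
        by_cases hsG : s' ⊆ G
        · have hun : G \ s' ∪ s' = G := sdiff_union_of_subset hsG
          have hdis : Disjoint (G \ s') s' := sdiff_disjoint
          have hcard : (G \ s').card + s'.card = G.card := by
            rw [← card_union_of_disjoint hdis, hun]
          have hlk : G \ s' ∈ lk K s' := by
            rw [mem_lk, hun]
            exact ⟨hdis, hG⟩
          have hsplit : ∑ v ∈ G, m (G.erase v) = ∑ v ∈ G \ s', m (G.erase v) := by
            symm
            refine sum_subset sdiff_subset (fun v hv hv' => ?_)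
            rw [mem_sdiff, not_and, not_not] at hv'
            refine if_neg (fun h => ?_)
            exact notMem_erase v G (h.2.1 (hv' hv))
          rw [hsplit]
          by_cases hc : G.card = j + 1
          · have h1 := hg (G \ s') hlk (by omega)
            rw [hun] at h1
            rw [h1]
            refine sum_congr rfl (fun v hv => ?_)
            rw [mem_sdiff] at hv
            have h2 : G.erase v ∈ K ∧ s' ⊆ G.erase v ∧ (G.erase v).card = j := by
              refine ⟨hK.cx.2 _ hG _ (erase_subset _ _), ?_, ?_⟩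
              · rw [subset_erase]
                exact ⟨hsG, hv.2⟩
              · rw [card_erase_of_mem hv.1, hc, Nat.add_sub_cancel]
            simp only [m]
            rw [if_pos h2]
            congr 1
            ext x
            simp only [mem_erase, mem_sdiff]
            tauto
          · have h0 : H G = 0 := by
              by_contra h
              exact hc (hH G h).2.2.2
            rw [h0]
            symm
            refine sum_eq_zero (fun v hv => ?_)
            rw [mem_sdiff] at hv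
            refine if_neg (fun h => hc ?_)
            have h3 := h.2.2
            rw [card_erase_of_mem hv.1] at h3
            have : 0 < G.card := card_pos.2 ⟨v, hv.1⟩
            omega
        · have h0 : H G = 0 := by
            by_contra h
            exact hsG (hH G h).2.2.1
          rw [h0]
          symm
          refine sum_eq_zero (fun v _ => if_neg (fun h => hsG ?_))
          exact h.2.1.trans (erase_subset _ _)
      · rw [if_neg hG]
        by_contra h
        exact hG (hH G h).1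
  · refine ⟨fun _ => 0, fun ρ h => absurd rfl h, fun G => ?_⟩
    have h0 : H G = 0 := by
      by_contra h
      obtain ⟨_, _, h2, h3⟩ := hH G h
      have := card_le_card h2
      omega
    rw [h0]
    simp

/-- Assembly over the monomials. -/
theorem assemble (hK : HSph K d) {j : ℕ} {Λ : Finset (Fin n) → Fn n k}
    (hΛ : Λ ∈ PR k K F (j + 1))
    (hcoh : ∀ α : Fin n →₀ ℕ, α.support ∈ K → (F \ α.support).Nonempty →
      α.support.card ≤ j + 1 →
      ∃ g : Finset (Fin n) → k, (∀ ρ, g ρ ≠ 0 → ρ ∪ (F \ α.support) ∉ lk K α.support) ∧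
        ∀ τ ∈ lk K α.support, τ.card = j + 1 - α.support.card →
          Λ (τ ∪ α.support) α = ∑ v ∈ τ, g (τ.erase v)) :
    ∃ M ∈ PR k K F j, dl K M = Λ := by
  classical
  have hH : ∀ α G, Λ G α ≠ 0 → G ∈ K ∧ G ∪ F ∉ K ∧ α.support ⊆ G ∧ G.card = j + 1 := by
    intro α G h
    obtain ⟨h1, h2, h3, h4⟩ := mem_PR.1 hΛ G α h
    exact ⟨h1, h2, h4, h3⟩
  have key : ∀ α : Fin n →₀ ℕ, ∃ m : Finset (Fin n) → k,
      (∀ ρ, m ρ ≠ 0 → ρ ∈ K ∧ ρ ∪ F ∉ K ∧ α.support ⊆ ρ ∧ ρ.card = j) ∧
      ∀ G, Λ G α = if G ∈ K then ∑ v ∈ G, m (G.erase v) else 0 := by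
    intro α
    by_cases hα : α.support ∈ K ∧ (F \ α.support).Nonempty
    · exact point hK hα.1 (fun G => Λ G α) (hH α) (hcoh α hα.1 hα.2)
    · refine ⟨fun _ => 0, fun ρ h => absurd rfl h, fun G => ?_⟩
      have h0 : Λ G α = 0 := by
        by_contra h
        obtain ⟨h1, h2, h3, _⟩ := hH α G h
        refine hα ⟨hK.cx.2 _ h1 _ h3, ?_⟩
        rw [nonempty_iff_ne_empty]
        intro h4
        rw [sdiff_eq_empty_iff_subset] at h4
        rw [union_eq_left.2 (h4.trans h3)] at h2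
        exact h2 h1
      rw [h0]
      simp
  choose m hm1 hm2 using key
  refine ⟨fun G α => m α G, ?_, ?_⟩
  · rw [mem_PR]
    intro G α h
    obtain ⟨h1, h2, h3, h4⟩ := hm1 α G h
    exact ⟨h1, h2, h4, h3⟩
  · funext G α
    rw [dl_apply, hm2 α G]
    split_ifs
    · rw [Finset.sum_apply]
    · rfl

/-- values at faces near `F` vanish -/
theorem vanish {j : ℕ} {Λ : Finset (Fin n) → Fn n k} (hΛ : Λ ∈ PR k K F j) (α : Fin n →₀ ℕ)
    (τ : Finset (Fin n)) (h : τ ∪ (F \ α.support) ∈ lk K α.support) :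
    Λ (τ ∪ α.support) α = 0 := by
  by_contra hne
  obtain ⟨_, h2, _, _⟩ := mem_PR.1 hΛ _ _ hne
  rw [mem_lk] at h
  refine h2 ?_
  have e : τ ∪ α.support ∪ F = τ ∪ F \ α.support ∪ α.support := by
    ext x
    simp only [mem_union, mem_sdiff]
    tauto
  rw [e]
  exact h.2

theorem low [CharP k 2] (hK : HSph K d) {j : ℕ} (hj : j + 1 < d) {Λ : Finset (Fin n) → Fn n k}
    (hΛ : Λ ∈ PR k K F (j + 1)) (hker : dl K Λ = 0) : ∃ M ∈ PR k K F j, dl K M = Λ := by
  classical
  refine assemble hK hΛ (fun α hα hA hc => ?_)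
  have hL := hsph_lk hK hα
  have hcl : ∀ σ ∈ lk K α.support, σ.card = j + 1 - α.support.card + 1 →
      ∑ v ∈ σ, (fun τ => Λ (τ ∪ α.support) α) (σ.erase v) = 0 := by
    intro σ hσ hσc
    rw [mem_lk] at hσ
    have h1 := congrFun (congrFun hker (σ ∪ α.support)) α
    rw [dl_apply, if_pos hσ.2, Finset.sum_apply, sum_union hσ.1] at h1
    have h2 : ∑ v ∈ α.support, Λ ((σ ∪ α.support).erase v) α = 0 := by
      refine sum_eq_zero (fun v hv => ?_)
      by_contra h
      obtain ⟨_, _, _, h6⟩ := mem_PR.1 hΛ _ _ h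
      exact notMem_erase v _ (h6 hv)
    rw [h2, add_zero] at h1
    rw [← show (0 : Finset (Fin n) → Fn n k) (σ ∪ α.support) α = 0 from rfl, ← h1]
    refine sum_congr rfl (fun v hv => ?_)
    have hv' : v ∉ α.support := fun h => (Finset.disjoint_left.1 hσ.1) hv h
    have e : σ.erase v ∪ α.support = (σ ∪ α.support).erase v := by
      rw [erase_union_distrib, erase_eq_of_notMem hv']
    show Λ (σ.erase v ∪ α.support) α = Λ ((σ ∪ α.support).erase v) α
    rw [e]
  obtain ⟨g, hg0, hg⟩ := coh_low_rel (k := k) hL hA (j := j + 1 - α.support.card) (by omega)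
    (fun τ => Λ (τ ∪ α.support) α) hcl (fun τ _ h => vanish hΛ α τ h)
  exact ⟨g, fun ρ h => (hg0 ρ h).2.1, hg⟩

theorem top [CharP k 2] (hK : HSph K d) {j : ℕ} (hj : j + 1 = d) {Λ : Finset (Fin n) → Fn n k}
    (hΛ : Λ ∈ PR k K F (j + 1)) (hker : sm Λ = 0) : ∃ M ∈ PR k K F j, dl K M = Λ := by
  classical
  refine assemble hK hΛ (fun α hα hA hc => ?_)
  have hL := hsph_lk hK hα
  have hdj : j + 1 - α.support.card = d - α.support.card := by rw [hj]
  have hcl : ∑ τ ∈ (lk K α.support).filter (fun τ => τ.card = d - α.support.card),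
      (fun τ => Λ (τ ∪ α.support) α) τ = 0 := by
    have h1 := congrFun hker α
    rw [sm_apply, Finset.sum_apply] at h1
    rw [← show (0 : Fn n k) α = 0 from rfl, ← h1]
    have hF : ∀ G, Λ G α ≠ 0 → G ∈ K ∧ α.support ⊆ G ∧ G.card = d := by
      intro G h
      obtain ⟨h1, _, h3, h4⟩ := mem_PR.1 hΛ G α h
      exact ⟨h1, h4, h3.trans hj⟩
    have h2 : ∑ G, Λ G α =
        ∑ G ∈ univ.filter (fun G => G ∈ K ∧ α.support ⊆ G ∧ G.card = d), Λ G α := by
      symm
      refine sum_subset (subset_univ _) (fun G _ hG => ?_)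
      by_contra h
      exact hG (mem_filter.2 ⟨mem_univ _, hF G h⟩)
    rw [h2]
    refine Finset.sum_nbij' (fun τ => τ ∪ α.support) (fun G => G \ α.support) ?_ ?_ ?_ ?_ ?_
    · intro τ hτ
      rw [mem_filter, mem_lk] at hτ
      rw [mem_filter]
      refine ⟨mem_univ _, hτ.1.2, subset_union_right, ?_⟩
      rw [card_union_of_disjoint hτ.1.1, hτ.2]
      omega
    · intro G hG
      rw [mem_filter] at hG
      obtain ⟨_, g1, g2, g3⟩ := hG
      have hun : G \ α.support ∪ α.support = G := sdiff_union_of_subset g2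
      have hdis : Disjoint (G \ α.support) α.support := sdiff_disjoint
      have hcard : (G \ α.support).card + α.support.card = G.card := by
        rw [← card_union_of_disjoint hdis, hun]
      rw [mem_filter, mem_lk, hun]
      exact ⟨⟨hdis, g1⟩, by omega⟩
    · intro τ hτ
      rw [mem_filter, mem_lk] at hτ
      exact union_sdiff_cancel_right hτ.1.1
    · intro G hG
      rw [mem_filter] at hG
      exact sdiff_union_of_subset hG.2.2.1
    · intro τ _
      rfl
  obtain ⟨g, hg0, hg⟩ := coh_top_rel (k := k) hL hA (fun τ => Λ (τ ∪ α.support) α) hcl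
    (fun τ _ h => vanish hΛ α τ h)
  rw [hdj]
  exact ⟨g, fun ρ h => (hg0 ρ h).2.1, hg⟩

theorem PR_le_PP {j : ℕ} {Λ : Finset (Fin n) → Fn n k} (hΛ : Λ ∈ PR k K F j) :
    Λ ∈ PP k K ∅ j := by
  rw [mem_PP]
  intro G α h
  obtain ⟨h1, _, h3, h4⟩ := mem_PR.1 hΛ G α h
  exact ⟨h1, empty_subset _, h3, h4⟩

end RelBaux

theorem map_dl_low_rel [CharP k 2] (hK : HSph K d) {j : ℕ} (hj : j + 1 < d) :
    (PR k K F j).map (dl K) = PR k K F (j + 1) ⊓ LinearMap.ker (dl K) := by
  apply le_antisymm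
  · rintro _ ⟨M, hM, rfl⟩
    exact ⟨dl_mem_rel hK.cx hM, LinearMap.mem_ker.2 (dl_dl hK.cx M)⟩
  · rintro Λ ⟨h1, h2⟩
    obtain ⟨M, hM, hd⟩ := RelBaux.low hK hj h1 (LinearMap.mem_ker.1 h2)
    exact ⟨M, hM, hd⟩

theorem map_dl_top_rel [CharP k 2] (hK : HSph K d) {j : ℕ} (hj : j + 1 = d) :
    (PR k K F j).map (dl K) = PR k K F (j + 1) ⊓ LinearMap.ker sm := by
  apply le_antisymm
  · rintro _ ⟨M, hM, rfl⟩
    exact ⟨dl_mem_rel hK.cx hM, LinearMap.mem_ker.2 (sm_dl hK hj (RelBaux.PR_le_PP hM))⟩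
  · rintro Λ ⟨h1, h2⟩
    obtain ⟨M, hM, hd⟩ := RelBaux.top hK hj h1 (LinearMap.mem_ker.1 h2)
    exact ⟨M, hM, hd⟩

end Pool.Agent.H861.GL
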