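import Pool.Agent.H861.GL.ExC
import Pool.Agent.H861.GL.Defs2

/-!
# GL/RelC: surjectivity of the sum map onto the functions on a deletion

`PR`, `dele` are in `GL/Defs2.lean`. Compare `GL/ExC.lean` (`map_sm`, already proved).

PROOF. If `sm Λ α ≠ 0` for `Λ ∈ PR k K F d` then some `Λ G α ≠ 0`, so `α.support ⊆ G ∈ K` and
`F ⊆ α.support` would give `G ∪ F = G ∈ K`, a contradiction. Conversely let `f ∈ DS k (dele K F)`.
For every `σ ∈ K` with `¬ F ⊆ σ` there is a face `G ∈ K` with `d` vertices containing `σ` and not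
`F`: choose `v ∈ F \ σ`; the link `L = lk K σ` is a homology sphere for `d' = d - |σ|` (`hsph_lk`)
and it has a face `τ` with `d'` vertices (`L`'s `top`) with `v ∉ τ`: if `v ∈ τ` then by
`facets_cycle` for `L` at `τ.erase v` (the number of `w` with `insert w (τ.erase v) ∈ L` is even and
`v` is one of them) there is `w ≠ v` with `insert w (τ.erase v) ∈ L`, use this face. Put
`G = τ ∪ σ`. As `F ⊄ G` and `G` has `d` vertices (the maximal number), `G ∪ F ∉ K`. Put
`Λ G α = f α` if `G` is the chosen face for `σ = α.support` and `f α ≠ 0`, and `0` otherwise.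
-/

set_option autoImplicit false

namespace Pool.Agent.H861.GL

open Finset Pool.Agent.W555.KS Pool.Agent.Y131.KS

variable {n d : ℕ} {K : Finset (Finset (Fin n))} {k : Type} [Field k] {F : Finset (Fin n)}

/-- a face which does not contain `F` is contained in a facet which does not contain `F` -/
theorem RelCaux.ex_facet_not (hK : HSph K d) {σ : Finset (Fin n)} (hσ : σ ∈ K) (hF : ¬ F ⊆ σ) :
    ∃ G ∈ K, σ ⊆ G ∧ G.card = d ∧ ¬ F ⊆ G := by
  classical
  obtain ⟨v, hvF, hvσ⟩ := not_subset.1 hF
  obtain ⟨G, hG, hσG, hGd⟩ := ExCaux.ex_facet hK hσ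
  by_cases hv : v ∈ G
  · have hc := facets_cycle hK (G.erase v)
    unfold bdr at hc
    have hv1 : v ∈ (G.erase v)ᶜ := by
      rw [mem_compl]
      exact notMem_erase v G
    obtain ⟨w, hw, hwv, hwne⟩ : ∃ w ∈ (G.erase v)ᶜ, w ≠ v ∧
        (fun σ : Finset (Fin n) => if σ ∈ K ∧ σ.card = d then (1 : ZMod 2) else 0)
          (insert w (G.erase v)) ≠ 0 := by
      by_contra hcon
      push Not at hcon
      rw [sum_eq_single_of_mem v hv1 (fun w hw hwv => hcon w hw hwv)] at hc
      have h1 : (if insert v (G.erase v) ∈ K ∧ (insert v (G.erase v)).card = d then (1 : ZMod 2)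
        else 0) = 0 := hc
      rw [insert_erase hv, if_pos ⟨hG, hGd⟩] at h1
      exact one_ne_zero h1
    have hw2 : insert w (G.erase v) ∈ K ∧ (insert w (G.erase v)).card = d := by
      by_contra hcon
      exact hwne (if_neg hcon)
    refine ⟨insert w (G.erase v), hw2.1, ?_, hw2.2, fun h => ?_⟩
    · intro x hx
      refine mem_insert_of_mem (mem_erase.2 ⟨?_, hσG hx⟩)
      rintro rfl
      exact hvσ hx
    · rcases mem_insert.1 (h hvF) with h1 | h1
      · exact hwv h1.symm
      · exact notMem_erase v G h1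
  · exact ⟨G, hG, hσG, hGd, fun h => hv (h hvF)⟩

theorem map_sm_rel [CharP k 2] (hK : HSph K d) :
    (PR k K F d).map sm = DS k (dele K F) := by
  classical
  ext f
  rw [Submodule.mem_map]
  constructor
  · rintro ⟨Λ, hΛ, rfl⟩
    rw [mem_DS]
    intro α h
    rw [sm_apply, Finset.sum_apply] at h
    obtain ⟨G, _, hG⟩ := exists_ne_zero_of_sum_ne_zero h
    obtain ⟨h1, h2, h3, h4⟩ := mem_PR.1 hΛ G α hG
    refine mem_dele.2 ⟨hK.cx.2 G h1 _ h4, fun h5 => h2 ?_⟩
    rw [union_eq_left.2 (h5.trans h4)]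
    exact h1
  · intro hf
    have key : ∀ σ : Finset (Fin n), ∃ G : Finset (Fin n),
        σ ∈ dele K F → G ∈ K ∧ σ ⊆ G ∧ G.card = d ∧ ¬ F ⊆ G := by
      intro σ
      by_cases h : σ ∈ dele K F
      · obtain ⟨G, h1, h2, h3, h4⟩ := RelCaux.ex_facet_not hK (mem_dele.1 h).1 (mem_dele.1 h).2
        exact ⟨G, fun _ => ⟨h1, h2, h3, h4⟩⟩
      · exact ⟨∅, fun h' => absurd h' h⟩
    choose g hg using key
    refine ⟨fun G α => if G = g α.support then f α else 0, ?_, ?_⟩
    · rw [mem_PR]
      intro G α h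
      by_cases he : G = g α.support
      · rw [if_pos he] at h
        obtain ⟨h1, h2, h3, h4⟩ := hg α.support (mem_DS.1 hf α h)
        rw [← he] at h1 h2 h3 h4
        refine ⟨h1, fun h5 => h4 ?_, h3, h2⟩
        have h6 : G = G ∪ F := eq_of_subset_of_card_le subset_union_left
          (by rw [h3]; exact hK.card_le _ h5)
        rw [h6]
        exact subset_union_right
      · exact absurd (if_neg he) h
    · funext α
      rw [sm_apply, Finset.sum_apply, Finset.sum_ite_eq' univ (g α.support) fun _ => f α,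
        if_pos (mem_univ _)]

end Pool.Agent.H861.GL
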