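import Pool.Agent.H861.GL.CM
import Pool.Agent.H861.GL.Defs2

/-!
# GL/Sur: contraction with a face monomial is surjective on stresses

`St`, `DS`, `Coreg`, `star` are in `GL/Defs.lean`, `shF`, `dele` in `GL/Defs2.lean`.

PROOF. (0) `lift_mod`: see the first part (`lift`) of the proof of `codepth` in `GL/CM.lean`.

(1) `shF F` maps `DS k K` onto `DS k (star K F)`: if `shF F f α ≠ 0` then the support of
`α + 1_F`, which is `α.support ∪ F`, is in `K`, so `α.support ∈ star K F`; conversely for
`h ∈ DS k (star K F)` let `f β = h (β - 1_F)` if `1_F ≤ β` (i.e. `F ⊆ β.support`) and `0`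
otherwise; then `shF F f = h` and `f ∈ DS k K`. The kernel of `shF F` on `DS k K` is
`DS k (dele K F)`: `f (α + 1_F) = 0` for all `α` means `f β = 0` whenever `F ⊆ β.support`.

(2) By `lift_mod` with `T l = T' l = op (θ l)`, `B = DS k K`, `φ = shF F` (`shF_op`, `op_op`), for
every `h ∈ DS k (star K F)` with `op (θ l) h = 0` for `l < d` there is `f ∈ DS k K` with
`op (θ l) f = 0` for `l < d` and `shF F f = h`. If `h` is supported in degree `r`, replace `f` by
its part in degree `r + |F|` (`f' β = if β.degree = r + |F| then f β else 0`; `op c f'` is the part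
of `op c f` in degree `r + |F| - 1`, and `shF F f'` the part of `shF F f` in degree `r`).
So `shF F : St θ K d (r + |F|) → St θ (star K F) d r` is surjective with kernel
`St θ (dele K F) d (r + |F|)`; rank-nullity (finite dimensions by `st_finite` in `GL/HilbA.lean`).

(3) `sur_low`: a monomial of degree `r < |F|` has a support with less than `|F|` elements.
-/

set_option autoImplicit false

namespace Pool.Agent.H861.GL

open Finset Pool.Agent.W555.KS Pool.Agent.Y131.KS

theorem lift_mod {k V V' : Type} [Field k] [AddCommGroup V] [Module k V] [AddCommGroup V']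
    [Module k V'] (T : ℕ → V →ₗ[k] V) (T' : ℕ → V' →ₗ[k] V') (φ : V →ₗ[k] V')
    (hφ : ∀ l x, φ (T l x) = T' l (φ x)) (hT : ∀ l m x, T l (T m x) = T m (T l x))
    (B : Submodule k V) (hB : ∀ l, ∀ x ∈ B, T l x ∈ B) (m : ℕ)
    (hA : Coreg (B ⊓ LinearMap.ker φ) T m) :
    ∀ c ∈ B.map φ, (∀ l < m, T' l c = 0) → ∃ b ∈ B, (∀ l < m, T l b = 0) ∧ φ b = c := by
  have lift : ∀ i ≤ m, ∀ c ∈ B.map φ, (∀ l < i, T' l c = 0) →
      ∃ b ∈ B, (∀ l < i, T l b = 0) ∧ φ b = c := by
    intro i
    induction i with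
    | zero =>
      intro _ c hc _
      obtain ⟨b, hb, rfl⟩ := Submodule.mem_map.1 hc
      exact ⟨b, hb, fun l hl => absurd hl (Nat.not_lt_zero l), rfl⟩
    | succ i ih =>
      intro hi c hc hcz
      obtain ⟨b, hb, hbz, hbc⟩ := ih (by omega) c hc (fun l hl => hcz l (by omega))
      have h1 : T i b ∈ B ⊓ LinearMap.ker φ := by
        refine Submodule.mem_inf.2 ⟨hB i b hb, ?_⟩
        rw [LinearMap.mem_ker, hφ, hbc]
        exact hcz i (by omega)
      obtain ⟨a, ha, haz, hab⟩ := hA i (by omega) (T i b) h1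
        (fun l hl => by rw [hT, hbz l hl, map_zero])
      refine ⟨b - a, B.sub_mem hb (Submodule.mem_inf.1 ha).1, ?_, ?_⟩
      · intro l hl
        rcases Nat.lt_succ_iff_lt_or_eq.1 hl with h | rfl
        · rw [map_sub, hbz l h, haz l h, sub_zero]
        · rw [map_sub, hab, sub_self]
      · rw [map_sub, hbc, (LinearMap.mem_ker.1 (Submodule.mem_inf.1 ha).2), sub_zero]
  exact lift m le_rfl

namespace Suraux

variable {n : ℕ} {k : Type} [Field k]

/-- the exponent of `∏ v ∈ F, x_v` -/
noncomputable def eF (F : Finset (Fin n)) : Fin n →₀ ℕ := ∑ v ∈ F, Finsupp.single v 1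

theorem eF_apply (F : Finset (Fin n)) (w : Fin n) : eF F w = if w ∈ F then 1 else 0 := by
  rw [eF, Finsupp.finsetSum_apply]
  simp only [Finsupp.single_apply]
  rw [Finset.sum_ite_eq']

theorem eF_degree (F : Finset (Fin n)) : (eF F).degree = F.card := by
  rw [eF, map_sum]
  simp only [Finsupp.degree_single, sum_const, smul_eq_mul, mul_one]

theorem supp_add (α : Fin n →₀ ℕ) (F : Finset (Fin n)) : (α + eF F).support = α.support ∪ F := by
  ext w
  rw [mem_union, Finsupp.mem_support_iff, Finsupp.mem_support_iff, Finsupp.add_apply, eF_apply]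
  split_ifs with h
  · simp [h]
  · simp [h]

theorem sub_add (β : Fin n →₀ ℕ) (F : Finset (Fin n)) (h : F ⊆ β.support) :
    β - eF F + eF F = β := by
  ext w
  rw [Finsupp.add_apply, Finsupp.tsub_apply, eF_apply]
  split_ifs with hw
  · have := Finsupp.mem_support_iff.1 (h hw)
    omega
  · omega

theorem shF_eq (F : Finset (Fin n)) (f : Fn n k) (α : Fin n →₀ ℕ) :
    shF F f α = f (α + eF F) := rfl

/-- kernel of the contraction -/
theorem ker_iff {F : Finset (Fin n)} {f : Fn n k} :
    shF F f = 0 ↔ ∀ β, f β ≠ 0 → ¬ F ⊆ β.support := by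
  constructor
  · intro h β hβ hF
    apply hβ
    have h1 := congrFun h (β - eF F)
    rw [shF_eq, sub_add β F hF] at h1
    exact h1
  · intro h
    funext α
    rw [shF_eq]
    by_contra h1
    apply h _ h1
    rw [supp_add]
    exact subset_union_right

theorem inf_ker {K : Finset (Finset (Fin n))} (F : Finset (Fin n)) :
    DS k K ⊓ LinearMap.ker (shF F) = DS k (dele K F) := by
  ext f
  rw [Submodule.mem_inf, LinearMap.mem_ker, ker_iff, mem_DS, mem_DS]
  constructor
  · rintro ⟨h1, h2⟩ α hα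
    exact mem_dele.2 ⟨h1 α hα, h2 α hα⟩
  · intro h
    exact ⟨fun α hα => (mem_dele.1 (h α hα)).1, fun α hα => (mem_dele.1 (h α hα)).2⟩

theorem op_DS {K : Finset (Finset (Fin n))} (hK : IsCx K) (c : Fin n → k) {f : Fn n k}
    (hf : f ∈ DS k K) : op c f ∈ DS k K := by
  intro α h
  rw [op_apply] at h
  obtain ⟨v, -, hv⟩ := exists_ne_zero_of_sum_ne_zero h
  exact hK.2 _ (hf _ (right_ne_zero_of_mul hv)) _ (HilbBaux.supp_le α v)

theorem shF_mem {K : Finset (Finset (Fin n))} (hK : IsCx K) (F : Finset (Fin n))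
    (θ : ℕ → Fin n → k) (d r : ℕ) (f : Fn n k) (hf : f ∈ St θ K d (r + F.card)) :
    shF F f ∈ St θ (star K F) d r := by
  refine ⟨fun α h => ?_, fun l hl => ?_⟩
  · rw [shF_eq] at h
    obtain ⟨h1, h2⟩ := hf.1 _ h
    rw [supp_add] at h1
    rw [map_add, eF_degree] at h2
    exact ⟨mem_star.2 ⟨hK.2 _ h1 _ subset_union_left, h1⟩, by omega⟩
  · rw [← shF_op, hf.2 l hl, map_zero]

/-- the contraction -/
noncomputable def T {K : Finset (Finset (Fin n))} (hK : IsCx K) (F : Finset (Fin n))
    (θ : ℕ → Fin n → k) (d r : ℕ) : St θ K d (r + F.card) →ₗ[k] St θ (star K F) d r :=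
  (shF F).restrict (shF_mem hK F θ d r)

theorem T_coe {K : Finset (Finset (Fin n))} (hK : IsCx K) (F : Finset (Fin n))
    (θ : ℕ → Fin n → k) (d r : ℕ) (f : St θ K d (r + F.card)) :
    ((T hK F θ d r f : St θ (star K F) d r) : Fn n k) = shF F (f : Fn n k) := rfl

theorem mem_map {K : Finset (Finset (Fin n))} (F : Finset (Fin n)) {h : Fn n k}
    (hh : ∀ α, h α ≠ 0 → α.support ∈ star K F) : h ∈ (DS k K).map (shF F) := by
  classical
  refine Submodule.mem_map.2 ⟨fun β => if F ⊆ β.support then h (β - eF F) else 0, ?_, ?_⟩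
  · intro β hβ
    change (if F ⊆ β.support then h (β - eF F) else 0) ≠ 0 at hβ
    by_cases hF : F ⊆ β.support
    · rw [if_pos hF] at hβ
      have h1 := (mem_star.1 (hh _ hβ)).2
      rw [← supp_add, sub_add β F hF] at h1
      exact h1
    · rw [if_neg hF] at hβ
      exact absurd rfl hβ
  · funext α
    rw [shF_eq]
    rw [if_pos (by rw [supp_add]; exact subset_union_right), add_tsub_cancel_right]

theorem surj {K : Finset (Finset (Fin n))} (hK : IsCx K) (F : Finset (Fin n))
    (θ : ℕ → Fin n → k) {d : ℕ} (h : Coreg (DS k (dele K F)) (fun l => op (θ l)) d) (r : ℕ) :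
    Function.Surjective (T hK F θ d r) := by
  rintro ⟨f, hf⟩
  rw [← inf_ker] at h
  obtain ⟨y, hy, hy1, hy2⟩ := lift_mod (fun l => op (θ l)) (fun l => op (θ l)) (shF F)
    (fun l x => shF_op F _ x) (fun l m x => op_op _ _ x) (DS k K) (fun l x hx => op_DS hK _ hx) d h
    f (mem_map F fun α hα => (hf.1 α hα).1) hf.2
  obtain ⟨y', hy'⟩ : ∃ y' : Fn n k, ∀ α, y' α = if α.degree = r + F.card then y α else 0 :=
    ⟨_, fun _ => rfl⟩
  have key : ∀ (c : Fin n → k) (α : Fin n →₀ ℕ),
      op c y' α = if α.degree + 1 = r + F.card then op c y α else 0 := by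
    intro c α
    rw [op_apply, op_apply]
    by_cases h1 : α.degree + 1 = r + F.card
    · rw [if_pos h1]
      refine sum_congr rfl fun v _ => ?_
      rw [hy', if_pos (by rw [HilbBaux.deg_add, h1])]
    · rw [if_neg h1]
      refine sum_eq_zero fun v _ => ?_
      rw [hy', if_neg (by rw [HilbBaux.deg_add]; exact h1), mul_zero]
  have hm : y' ∈ St θ K d (r + F.card) := by
    refine ⟨fun α hα => ?_, fun l hl => ?_⟩
    · rw [hy'] at hα
      by_cases h1 : α.degree = r + F.card
      · rw [if_pos h1] at hα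
        exact ⟨hy α hα, h1⟩
      · rw [if_neg h1] at hα
        exact absurd rfl hα
    · funext α
      have h2 : op (θ l) y = 0 := hy1 l hl
      rw [key, h2]
      simp only [Pi.zero_apply, ite_self]
  refine ⟨⟨y', hm⟩, Subtype.ext ?_⟩
  rw [T_coe]
  funext α
  show shF F y' α = f α
  rw [shF_eq, hy', map_add, eF_degree]
  have h2 : y (α + eF F) = f α := by
    rw [← shF_eq F y α, hy2]
  by_cases h1 : α.degree = r
  · rw [if_pos (by omega), h2]
  · rw [if_neg (by omega)]
    by_contra h3
    exact h1 (hf.1 α (Ne.symm h3)).2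

theorem ker_map {K : Finset (Finset (Fin n))} (hK : IsCx K) (F : Finset (Fin n))
    (θ : ℕ → Fin n → k) (d r : ℕ) :
    Submodule.map (St θ K d (r + F.card)).subtype (LinearMap.ker (T hK F θ d r)) =
      St θ (dele K F) d (r + F.card) := by
  ext f
  rw [Submodule.mem_map]
  constructor
  · rintro ⟨g, hg, rfl⟩
    rw [LinearMap.mem_ker] at hg
    have h1 : shF F (g : Fn n k) = 0 := by
      rw [← T_coe hK F θ d r g, hg]
      rfl
    rw [ker_iff] at h1
    exact ⟨fun α hα => ⟨mem_dele.2 ⟨(g.2.1 α hα).1, h1 α hα⟩, (g.2.1 α hα).2⟩, g.2.2⟩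
  · intro hf
    refine ⟨⟨f, fun α hα => ⟨(mem_dele.1 (hf.1 α hα).1).1, (hf.1 α hα).2⟩, hf.2⟩, ?_, rfl⟩
    rw [LinearMap.mem_ker]
    apply Subtype.ext
    rw [T_coe]
    exact ker_iff.2 fun β hβ => (mem_dele.1 (hf.1 β hβ).1).2

end Suraux

theorem sur_dim {n d : ℕ} {K : Finset (Finset (Fin n))} {k : Type} [Field k] (hK : IsCx K)
    (F : Finset (Fin n)) (θ : ℕ → Fin n → k)
    (h : Coreg (DS k (dele K F)) (fun l => op (θ l)) d) (r : ℕ) :
    Module.finrank k (St θ K d (r + F.card)) =
      Module.finrank k (St θ (dele K F) d (r + F.card)) +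
        Module.finrank k (St θ (star K F) d r) := by
  have := st_finite (K := K) θ d (r + F.card)
  have h1 := LinearMap.finrank_range_add_finrank_ker (Suraux.T hK F θ d r)
  rw [LinearMap.range_eq_top.2 (Suraux.surj hK F θ h r), finrank_top] at h1
  have h2 : Module.finrank k (LinearMap.ker (Suraux.T hK F θ d r)) =
      Module.finrank k (St θ (dele K F) d (r + F.card)) := by
    rw [← Suraux.ker_map hK F θ d r, Submodule.finrank_map_subtype_eq]
  rw [h2] at h1
  rw [← h1, add_comm]

theorem sur_low {n d : ℕ} {K : Finset (Finset (Fin n))} {k : Type} [Field k]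
    (F : Finset (Fin n)) (θ : ℕ → Fin n → k) {r : ℕ} (hr : r < F.card) :
    Module.finrank k (St θ K d r) = Module.finrank k (St θ (dele K F) d r) := by
  have h : St θ K d r = St θ (dele K F) d r := by
    ext f
    constructor
    · intro hf
      refine ⟨fun α hα => ⟨mem_dele.2 ⟨(hf.1 α hα).1, fun hF => ?_⟩, (hf.1 α hα).2⟩, hf.2⟩
      have h1 := card_le_card hF
      have h2 : α.support.card ≤ α.degree := by
        rw [Finsupp.degree_apply, card_eq_sum_ones]
        exact sum_le_sum fun i hi => Nat.one_le_iff_ne_zero.2 (Finsupp.mem_support_iff.1 hi)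
      rw [(hf.1 α hα).2] at h2
      omega
    · intro hf
      exact ⟨fun α hα => ⟨(mem_dele.1 (hf.1 α hα).1).1, (hf.1 α hα).2⟩, hf.2⟩
  rw [h]

end Pool.Agent.H861.GL
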