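import Pool.Agent.H861.GL.DimD
import Pool.Agent.H861.GL.Defs2

/-!
# GL/TTd: comparison of dimensions, two faces

`shF`, `dele`, `MF` are in `GL/Defs2.lean`; compare `dim_rel` in `GL/DimD.lean` (already proved,
the proof can be adapted); `st_finite` is in `GL/HilbA.lean`.

PROOF. (1) `star K E ⊆ dele K F`: if `σ ∪ E ∈ K` and `F ⊆ σ`, then `E ∪ F ⊆ σ ∪ E ∈ K`, a
contradiction. So `St θ (star K E) d r ≤ St θ (dele K F) d r`.
(2) `op ω` maps `St θ (dele K F) d (r + 1)` to `St θ (dele K F) d r` (`dele K F` is closed under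
subsets, `op_op`).
(3) If `f ∈ St θ (dele K F) d (r + 1)` and `op ω f ∈ St θ (star K E) d r` then
`f ∈ St θ (star K E) d (r + 1)`: suppose `f α ≠ 0`, `σ = α.support ∈ K`, and `σ ∪ E ∉ K`. By `hMF`
there is `ρ ⊆ σ ∪ E` with `ρ.card ≤ i + 1` and `ρ ∉ K`. `ρ ∩ E` is not empty since otherwise
`ρ ⊆ σ ∈ K`. Let `G = ρ \ E ⊆ σ`, so `G ∈ K`, `G.card ≤ i` and `G ∪ E ∉ K` as it contains `ρ`.
`shF G (op ω f) = 0`: `shF G (op ω f) β = (op ω f) (β + 1_G)` and the support of `β + 1_G` contains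
`G`; if this value were not `0` then `support ∪ E ∈ K`, so `G ∪ E ∈ K`. By `shF_op`
`op ω (shF G f) = 0`, so `shF G f = 0` by `hl` (`f ∈ St θ K d (r + 1)`). But `1_G ≤ α`, so
`f α = shF G f (α - 1_G) = 0`, a contradiction.
(4) The linear map `St θ (dele K F) d (r + 1) → St θ (dele K F) d r / St θ (star K E) d r` induced
by `op ω` has its kernel in `St θ (star K E) d (r + 1)`; rank-nullity.
-/

set_option autoImplicit false

namespace Pool.Agent.H861.GL

open Finset Pool.Agent.W555.KS Pool.Agent.Y131.KS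

namespace TTdaux

variable {n : ℕ} {k : Type} [Field k]

theorem ind_apply (G : Finset (Fin n)) (u : Fin n) :
    (∑ v ∈ G, Finsupp.single v 1 : Fin n →₀ ℕ) u = if u ∈ G then 1 else 0 := by
  rw [Finsupp.finsetSum_apply]
  simp only [Finsupp.single_apply]
  rw [Finset.sum_ite_eq' G u (fun _ => 1)]

theorem subset_supp (G : Finset (Fin n)) (β : Fin n →₀ ℕ) :
    G ⊆ (β + ∑ v ∈ G, Finsupp.single v 1).support := by
  intro u hu
  rw [Finsupp.mem_support_iff, Finsupp.add_apply, ind_apply, if_pos hu]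
  omega

theorem ind_le {G : Finset (Fin n)} {α : Fin n →₀ ℕ} (h : G ⊆ α.support) :
    (∑ v ∈ G, Finsupp.single v 1) ≤ α := by
  intro u
  rw [ind_apply]
  split_ifs with hu
  · exact Nat.one_le_iff_ne_zero.2 (Finsupp.mem_support_iff.1 (h hu))
  · exact Nat.zero_le _

theorem op_mem {D : Finset (Finset (Fin n))} (hD : ∀ σ ∈ D, ∀ τ ⊆ σ, τ ∈ D)
    {θ : ℕ → Fin n → k} {c : Fin n → k} {d r : ℕ} {f : Fn n k} (hf : f ∈ St θ D d (r + 1)) :
    op c f ∈ St θ D d r := by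
  rw [mem_St] at hf ⊢
  refine ⟨fun α h => ?_, fun l hl => ?_⟩
  · rw [op_apply] at h
    obtain ⟨v, _, hv⟩ := Finset.exists_ne_zero_of_sum_ne_zero h
    obtain ⟨h1, h2⟩ := hf.1 _ (right_ne_zero_of_mul hv)
    rw [DimDaux.deg_add] at h2
    exact ⟨hD _ h1 _ (DimDaux.supp_le α v), by omega⟩
  · rw [op_op, hf.2 l hl, map_zero]

theorem dele_down {K : Finset (Finset (Fin n))} (hK : IsCx K) (F : Finset (Fin n)) :
    ∀ σ ∈ dele K F, ∀ τ ⊆ σ, τ ∈ dele K F := by
  intro σ hσ τ hτ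
  rw [mem_dele] at hσ ⊢
  exact ⟨hK.2 _ hσ.1 _ hτ, fun h => hσ.2 (h.trans hτ)⟩

theorem star_sub_dele {K : Finset (Finset (Fin n))} (hK : IsCx K) {E F : Finset (Fin n)}
    (hEF : E ∪ F ∉ K) {σ : Finset (Fin n)} (h : σ ∈ star K E) : σ ∈ dele K F := by
  rw [mem_star] at h
  rw [mem_dele]
  refine ⟨h.1, fun hF => hEF (hK.2 _ h.2 _ ?_)⟩
  exact union_subset subset_union_right (hF.trans subset_union_left)

theorem lift {K : Finset (Finset (Fin n))} (hK : IsCx K) {E F : Finset (Fin n)} {i : ℕ}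
    (hMF : MF K i) {θ : ℕ → Fin n → k} {ω : Fin n → k} {d r : ℕ}
    (hl : ∀ G ∈ K, G.card ≤ i → ∀ f ∈ St θ K d (r + 1), op ω (shF G f) = 0 → shF G f = 0)
    {f : Fn n k} (hf : f ∈ St θ (dele K F) d (r + 1)) (hs : op ω f ∈ St θ (star K E) d r) :
    f ∈ St θ (star K E) d (r + 1) := by
  rw [mem_St] at hf hs
  have hfK : f ∈ St θ K d (r + 1) := by
    rw [mem_St]
    exact ⟨fun α hα => ⟨(mem_dele.1 (hf.1 α hα).1).1, (hf.1 α hα).2⟩, hf.2⟩
  rw [mem_St]
  refine ⟨fun α hα => ⟨?_, (hf.1 α hα).2⟩, hf.2⟩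
  have hσ : α.support ∈ K := (mem_dele.1 (hf.1 α hα).1).1
  rw [mem_star]
  refine ⟨hσ, ?_⟩
  by_contra hno
  have h1 : ∃ ρ ⊆ α.support ∪ E, ρ.card ≤ i + 1 ∧ ρ ∉ K := by
    by_contra h
    push Not at h
    exact hno (hMF _ h)
  obtain ⟨ρ, hρ, hc, hρK⟩ := h1
  have hGs : ρ \ E ⊆ α.support := by
    intro u hu
    rw [mem_sdiff] at hu
    rcases mem_union.1 (hρ hu.1) with h | h
    · exact h
    · exact absurd h hu.2
  have hGK : ρ \ E ∈ K := hK.2 _ hσ _ hGs
  have hGE : (ρ \ E) ∪ E ∉ K := by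
    intro h
    refine hρK (hK.2 _ h _ ?_)
    intro u hu
    rw [mem_union, mem_sdiff]
    by_cases hE : u ∈ E
    · exact Or.inr hE
    · exact Or.inl ⟨hu, hE⟩
  have hGc : (ρ \ E).card ≤ i := by
    have h2 : (ρ \ E).card < ρ.card := by
      refine card_lt_card ?_
      refine ⟨sdiff_subset, fun h => ?_⟩
      exact hρK (hK.2 _ hGK _ h)
    omega
  have h3 : shF (ρ \ E) (op ω f) = 0 := by
    funext β
    by_contra h
    rw [shF_apply] at h
    have h4 := (mem_star.1 (hs.1 _ h).1).2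
    exact hGE (hK.2 _ h4 _ (union_subset_union_left (subset_supp (ρ \ E) β)))
  rw [shF_op] at h3
  have h5 := hl _ hGK hGc f hfK h3
  have h6 := congrFun h5 (α - ∑ v ∈ ρ \ E, Finsupp.single v 1)
  rw [shF_apply, tsub_add_cancel_of_le (ind_le hGs)] at h6
  exact hα h6

end TTdaux

theorem tt_dim {n : ℕ} {K : Finset (Finset (Fin n))} {k : Type} [Field k] (hK : IsCx K)
    {E F : Finset (Fin n)} (hE : E ∈ K) (hF : F ∈ K) (hEF : E ∪ F ∉ K) (i : ℕ) (hMF : MF K i)
    (θ : ℕ → Fin n → k) (ω : Fin n → k) (d r : ℕ)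
    (hl : ∀ G ∈ K, G.card ≤ i → ∀ f ∈ St θ K d (r + 1), op ω (shF G f) = 0 → shF G f = 0) :
    Module.finrank k (St θ (dele K F) d (r + 1)) + Module.finrank k (St θ (star K E) d r) ≤
      Module.finrank k (St θ (dele K F) d r) + Module.finrank k (St θ (star K E) d (r + 1)) := by
  have h1 := st_finite (K := dele K F) θ d (r + 1)
  have h2 := st_finite (K := dele K F) θ d r
  have h3 := st_finite (K := star K E) θ d (r + 1)
  have h4 := st_finite (K := star K E) θ d r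
  have hle : St θ (star K E) d r ≤ St θ (dele K F) d r := fun f hf =>
    ⟨fun α hα => ⟨TTdaux.star_sub_dele hK hEF (hf.1 α hα).1, (hf.1 α hα).2⟩, hf.2⟩
  let T : St θ (dele K F) d (r + 1) →ₗ[k] St θ (dele K F) d r :=
    LinearMap.restrict (op ω) fun f hf => TTdaux.op_mem (TTdaux.dele_down hK F) hf
  let Q : St θ (dele K F) d (r + 1) →ₗ[k]
      (St θ (dele K F) d r ⧸ (St θ (star K E) d r).submoduleOf (St θ (dele K F) d r)) :=
    ((St θ (star K E) d r).submoduleOf (St θ (dele K F) d r)).mkQ ∘ₗ T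
  have e1 := LinearMap.finrank_range_add_finrank_ker Q
  have e2 := Submodule.finrank_quotient_add_finrank
    ((St θ (star K E) d r).submoduleOf (St θ (dele K F) d r))
  have e3 := (Submodule.submoduleOfEquivOfLe hle).finrank_eq
  have e4 := Submodule.finrank_le (LinearMap.range Q)
  have e5 : Module.finrank k (LinearMap.ker Q) ≤
      Module.finrank k (St θ (star K E) d (r + 1)) := by
    rw [← Submodule.finrank_map_subtype_eq]
    refine Submodule.finrank_mono ?_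
    rintro f ⟨⟨g, hg⟩, hgk, rfl⟩
    have h5 : T ⟨g, hg⟩ ∈ (St θ (star K E) d r).submoduleOf (St θ (dele K F) d r) := by
      rw [← Submodule.Quotient.mk_eq_zero]
      exact hgk
    have h6 : op ω g ∈ St θ (star K E) d r := h5
    exact TTdaux.lift hK hMF hl hg h6
  omega

end Pool.Agent.H861.GL
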