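import Pool.Agent.H861.GL.Rel
import Pool.Agent.H861.GL.RelB
import Pool.Agent.H861.GL.RelC
import Pool.Agent.H861.GL.Gen2
import Pool.Agent.H861.GL.Lk2
import Pool.Agent.H861.GL.Sur
import Pool.Agent.H861.GL.TTd

/-!
# GL/TT: the inequality for two faces
-/

set_option autoImplicit false

namespace Pool.Agent.H861.GL

open Finset Pool.Agent.W555.KS Pool.Agent.Y131.KS

section
variable {n d : ℕ} {K : Finset (Finset (Fin n))} {k : Type} [Field k] {F : Finset (Fin n)}

theorem opP_mem_rel (c : Fin n → k) {j : ℕ} {Λ : Finset (Fin n) → Fn n k}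
    (hΛ : Λ ∈ PR k K F j) : opP c Λ ∈ PR k K F j := by
  intro G α h
  rw [opP_apply] at h
  obtain ⟨v, hv⟩ := op_ne h
  obtain ⟨h1, h2, h3, h4⟩ := hΛ G _ hv
  exact ⟨h1, h2, h3, (supp_le α v).trans h4⟩

theorem coreg_PR {θ : ℕ → Fin n → k} (hg : Gen θ K) (j : ℕ) :
    Coreg (PR k K F j) (fun l => opP (θ l)) j := by
  classical
  intro i hi Λ hΛ hz
  have key : ∀ G : Finset (Fin n), ∃ y : Fn n k,
      (∀ α, y α ≠ 0 → G ∈ K ∧ G ∪ F ∉ K ∧ G.card = j ∧ α.support ⊆ G) ∧
      (∀ l < i, op (θ l) y = 0) ∧ op (θ i) y = Λ G := by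
    intro G
    by_cases hG : G ∈ K ∧ G ∪ F ∉ K ∧ G.card = j
    · obtain ⟨h1, h2, h3⟩ := hG
      have hm : Λ G ∈ DS k G.powerset := by
        intro α hα
        rw [mem_powerset]
        exact (hΛ G α hα).2.2.2
      obtain ⟨y, hy, hyz, hye⟩ := coreg_simplex θ G (hg G h1) i (by omega) (Λ G) hm
        (fun l hl => congrFun (hz l hl) G)
      refine ⟨y, fun α hα => ⟨h1, h2, h3, mem_powerset.1 (hy α hα)⟩, hyz, hye⟩
    · refine ⟨0, fun α hα => absurd rfl hα, fun l _ => map_zero _, ?_⟩
      rw [map_zero]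
      funext α
      by_contra hne
      obtain ⟨h1, h2, h3, -⟩ := hΛ G α (Ne.symm hne)
      exact hG ⟨h1, h2, h3⟩
  choose y hy1 hy2 hy3 using key
  refine ⟨y, hy1, ?_, ?_⟩
  · intro l hl
    funext G
    exact hy2 G l hl
  · funext G
    exact hy3 G

/-- deletions of faces are Cohen-Macaulay -/
theorem cm_del [CharP k 2] (hK : HSph K d) {θ : ℕ → Fin n → k} (hg : Gen θ K) :
    Coreg (DS k (dele K F)) (fun l => op (θ l)) d := by
  have hlow : ∀ j < d, Coreg (PR k K F j ⊓ LinearMap.ker (dl K)) (fun l => opP (θ l)) (j - 1) := by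
    intro j
    induction j with
    | zero =>
      intro _ i hi
      exact absurd hi (by omega)
    | succ j ih =>
      intro hj
      rw [Nat.add_sub_cancel]
      rcases Nat.eq_zero_or_pos j with rfl | hj0
      · intro i hi
        exact absurd hi (by omega)
      · obtain ⟨m, rfl⟩ : ∃ m, j = m + 1 := ⟨j - 1, by omega⟩
        rw [← map_dl_low_rel hK hj]
        exact codepth (fun l => opP (θ l)) (fun l => opP (θ l)) (dl K) (fun l x => dl_opP _ x)
          (fun l m x => opP_comm _ _ x) (PR k K F (m + 1)) (fun l x hx => opP_mem_rel _ hx) m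
          (ih (by omega)) (coreg_PR hg (m + 1))
  rcases Nat.eq_zero_or_pos d with hd | hd
  · intro i hi
    exact absurd hi (by omega)
  · obtain ⟨e, rfl⟩ : ∃ e, d = e + 1 := ⟨d - 1, by omega⟩
    have htop : Coreg (PR k K F (e + 1) ⊓ LinearMap.ker sm) (fun l => opP (θ l)) e := by
      rcases Nat.eq_zero_or_pos e with rfl | he
      · intro i hi
        exact absurd hi (by omega)
      · obtain ⟨m, rfl⟩ : ∃ m, e = m + 1 := ⟨e - 1, by omega⟩
        rw [← map_dl_top_rel hK rfl]
        exact codepth (fun l => opP (θ l)) (fun l => opP (θ l)) (dl K) (fun l x => dl_opP _ x)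
          (fun l m x => opP_comm _ _ x) (PR k K F (m + 1)) (fun l x hx => opP_mem_rel _ hx) m
          (hlow (m + 1) (by omega)) (coreg_PR hg (m + 1))
    rw [← map_sm_rel hK]
    exact codepth (fun l => opP (θ l)) (fun l => op (θ l)) sm (fun l x => sm_opP _ x)
      (fun l m x => opP_comm _ _ x) (PR k K F (e + 1)) (fun l x hx => opP_mem_rel _ hx) e
      htop (coreg_PR hg (e + 1))

end

/-- `spec'` with variables indexed by natural numbers -/
theorem spec_nat {n e : ℕ} {L : Finset (Finset (Fin n))} (hL : HSph L e) {r : ℕ}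
    (hr : e < 2 * r) : ∃ F : MvPolynomial (ℕ × Fin n) ℤ,
      MvPolynomial.map (Int.castRingHom (ZMod 2)) F ≠ 0 ∧
      (∀ p ∈ F.vars, p.1 ≤ e) ∧
      ∀ (k : Type) [Field k] (c : ℕ × Fin n → k), MvPolynomial.aeval c F ≠ 0 →
        ∀ p : MvPolynomial (Fin n) k, p.IsHomogeneous r →
          p ∈ srI k L ⊔
            Ideal.span (Set.range (fun i : Fin e => lf (fun v => c ((i : ℕ), v)))) ⊔
            Ideal.span {lf (fun v => c (e, v)) ^ (2 * r - e)} := by
  classical
  have hv : VK2 L (e + 1) :=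
    vk2_of_sphere hL (Function.Embedding.refl _) (fun σ hσ => by rwa [Finset.map_refl])
  obtain ⟨F, hF, hF2⟩ := spec' n e L hL.cx hv r hr
  have hinj : Function.Injective (fun p : Fin (e + 1) × Fin n => ((p.1 : ℕ), p.2)) := by
    rintro ⟨i, v⟩ ⟨i', v'⟩ h'
    simp only [Prod.mk.injEq] at h'
    exact Prod.ext (Fin.ext h'.1) h'.2
  refine ⟨MvPolynomial.rename (fun p : Fin (e + 1) × Fin n => ((p.1 : ℕ), p.2)) F,
    ?_, fun p hp => ?_, fun k _ c hc p hp => ?_⟩
  · rw [MvPolynomial.map_rename]
    intro h0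
    exact hF (MvPolynomial.rename_injective _ hinj (by rw [h0, map_zero]))
  · have := MvPolynomial.vars_rename _ F hp
    rw [mem_image] at this
    obtain ⟨x, -, rfl⟩ := this
    have := x.1.isLt
    simp only
    omega
  · rw [MvPolynomial.aeval_rename] at hc
    have h1 := hF2 k (fun p : Fin (e + 1) × Fin n => c ((p.1 : ℕ), p.2)) hc p hp
    simpa only [Fin.val_castSucc, Fin.val_last] using h1

/-- existence of linear forms with the Lefschetz property of all links -/
theorem exists_good {n d : ℕ} {K : Finset (Finset (Fin n))} (hK : HSph K d) :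
    ∃ θ : ℕ → Fin n → kk, Gen θ K ∧ ∀ G ∈ K, ∀ s m, s + G.card ≤ d + 1 → d - G.card < 2 * s →
      m = 2 * s - (d - G.card) → ∀ f ∈ St θ K d (s + G.card),
      ((op (θ d)) ^ m) (shF G f) = 0 → shF G f = 0 := by
  classical
  have hsp : ∀ (G : Finset (Fin n)) (r : ℕ), ∃ F : MvPolynomial (ℕ × Fin n) ℤ,
      MvPolynomial.map (Int.castRingHom (ZMod 2)) F ≠ 0 ∧
      (G ∈ K → ∀ p ∈ F.vars, p.1 ≤ d - G.card) ∧
      (G ∈ K → d - G.card < 2 * r →
        ∀ (k : Type) [Field k] (c : ℕ × Fin n → k), MvPolynomial.aeval c F ≠ 0 →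
        ∀ p : MvPolynomial (Fin n) k, p.IsHomogeneous r →
          p ∈ srI k (lk K G) ⊔
            Ideal.span (Set.range (fun i : Fin (d - G.card) => lf (fun v => c ((i : ℕ), v)))) ⊔
            Ideal.span {lf (fun v => c (d - G.card, v)) ^ (2 * r - (d - G.card))}) := by
    intro G r
    by_cases h : G ∈ K ∧ d - G.card < 2 * r
    · obtain ⟨F, h1, h2, h3⟩ := spec_nat (hsph_lk hK h.1) h.2
      exact ⟨F, h1, fun _ => h2, fun _ _ => h3⟩
    · refine ⟨1, ?_, fun _ p hp => ?_, fun h1 h2 => absurd ⟨h1, h2⟩ h⟩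
      · rw [map_one]
        exact one_ne_zero
      · rw [MvPolynomial.vars_one] at hp
        exact absurd hp (notMem_empty _)
  choose F hF hFv hF2 using hsp
  obtain ⟨θ, hg, hθ⟩ := exists_generic2 n d (d + 1) K hK.card_le kk F hF
    (fun G hG r => hFv G r hG)
  refine ⟨θ, hg, ?_⟩
  intro G hG s m hs hds hm f hf hω
  obtain ⟨c, a, hc0, hc, hne⟩ := hθ G hG s (by omega)
  have h1 := hF2 G s hG hds kk _ hne
  rw [← hm] at h1
  exact lkd2 hK.cx G hG (hK.card_le G hG) θ (hg G hG) c a hc0 hc s m h1 f hf hω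

/-- **the two-face inequality** -/
theorem two_face {n d i j : ℕ} {K : Finset (Finset (Fin n))} (hK : HSph K d) (hMF : MF K i)
    {E F : Finset (Fin n)} (hE : E ∈ K) (hF : F ∈ K) (hEF : E ∪ F ∉ K) (hj1 : 1 ≤ j)
    (hj : 2 * j + i ≤ d + 1) :
    gco (hP (lk K F) (d - F.card)) j +
      (if j < E.card then 0 else gco (hP (lk K E) (d - E.card)) (j - E.card)) ≤
      gco (hP K d) j := by
  classical
  have hi : 1 ≤ i := by
    by_contra hi0
    have hi0' : i = 0 := by omega
    subst hi0'
    apply hEF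
    apply hMF
    intro ρ hρ hρc
    rcases ρ.eq_empty_or_nonempty with rfl | ⟨v, hv⟩
    · exact hK.cx.1
    · have h1 : ρ = {v} := by
        refine (eq_of_subset_of_card_le (singleton_subset_iff.2 hv) ?_).symm
        rw [card_singleton]
        omega
      subst h1
      have h2 := hρ (mem_singleton_self v)
      rw [mem_union] at h2
      rcases h2 with h2 | h2
      · exact hK.cx.2 _ hE _ (singleton_subset_iff.2 h2)
      · exact hK.cx.2 _ hF _ (singleton_subset_iff.2 h2)
  obtain ⟨θ, hg, hθ⟩ := exists_good hK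
  have hEd := hK.card_le E hE
  have hFd := hK.card_le F hF
  have key := tt_dim (k := kk) hK.cx hE hF hEF i hMF θ (θ d) d (d - j) (by
    intro G hG hGi f hf hω
    obtain ⟨m, hm⟩ : ∃ m, m + 1 = 2 * (d - j + 1 - G.card) - (d - G.card) :=
      ⟨2 * (d - j + 1 - G.card) - (d - G.card) - 1, by omega⟩
    have hs : d - j + 1 = (d - j + 1 - G.card) + G.card := by omega
    rw [hs] at hf
    refine hθ G hG (d - j + 1 - G.card) (m + 1) (by omega) (by omega) hm f hf ?_
    rw [pow_succ, Module.End.mul_apply, hω, map_zero])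
  have hdimK : ∀ r, (Module.finrank kk (St θ K d r) : ℤ) = (hP K d).coeff r := by
    intro r
    refine stress_dim hK.cx hK.card_le θ ?_ r
    have := cm hK hK.cx.1 hg
    rwa [star_empty] at this
  have hdimS : ∀ A ∈ K, ∀ r, (Module.finrank kk (St θ (star K A) d r) : ℤ) =
      (hP (lk K A) (d - A.card)).coeff r := by
    intro A hA r
    rw [← hP_star hK.cx hK.card_le hA]
    exact stress_dim (star_cx hK.cx hA) (fun σ hσ => hK.card_le σ (mem_star.1 hσ).1) θ
      (cm hK hA hg) r
  have hdimD : ∀ r, (Module.finrank kk (St θ (dele K F) d r) : ℤ) = (hP K d).coeff r -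
      (if r < F.card then 0 else (hP (lk K F) (d - F.card)).coeff (r - F.card)) := by
    intro r
    split_ifs with hr
    · rw [← sur_low F θ hr, hdimK, sub_zero]
    · obtain ⟨s, rfl⟩ : ∃ s, r = s + F.card := ⟨r - F.card, by omega⟩
      have h1 := sur_dim hK.cx F θ (cm_del hK hg) s
      have h2 : (Module.finrank kk (St θ K d (s + F.card)) : ℤ) =
          Module.finrank kk (St θ (dele K F) d (s + F.card)) +
            Module.finrank kk (St θ (star K F) d s) := by exact_mod_cast h1
      rw [hdimK, hdimS F hF] at h2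
      rw [Nat.add_sub_cancel]
      linarith
  have key' : (Module.finrank kk (St θ (dele K F) d (d - j + 1)) : ℤ) +
      Module.finrank kk (St θ (star K E) d (d - j)) ≤
      Module.finrank kk (St θ (dele K F) d (d - j)) +
        Module.finrank kk (St θ (star K E) d (d - j + 1)) := by exact_mod_cast key
  rw [hdimD, hdimD, hdimS E hE, hdimS E hE] at key'
  have hlF : HSph (lk K F) (d - F.card) := hsph_lk hK hF
  have hlE : HSph (lk K E) (d - E.card) := hsph_lk hK hE
  -- symmetry
  have e1 : (hP K d).coeff (d - j + 1) = (hP K d).coeff (j - 1) := by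
    rw [ds hK (by omega : d - j + 1 ≤ d)]
    congr 1
    omega
  have e2 : (hP K d).coeff (d - j) = (hP K d).coeff j := (ds hK (by omega)).symm
  have e3 : (if d - j + 1 < F.card then 0 else
      (hP (lk K F) (d - F.card)).coeff (d - j + 1 - F.card)) =
      (hP (lk K F) (d - F.card)).coeff (j - 1) := by
    split_ifs with h
    · rw [hP_high hlF.card_le (by omega)]
    · rw [ds hlF (by omega : d - j + 1 - F.card ≤ d - F.card)]
      congr 1
      omega
  have e4 : (if d - j < F.card then 0 else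
      (hP (lk K F) (d - F.card)).coeff (d - j - F.card)) =
      (hP (lk K F) (d - F.card)).coeff j := by
    split_ifs with h
    · rw [hP_high hlF.card_le (by omega)]
    · rw [ds hlF (by omega : d - j - F.card ≤ d - F.card)]
      congr 1
      omega
  have e5 : (hP (lk K E) (d - E.card)).coeff (d - j) =
      if j < E.card then 0 else (hP (lk K E) (d - E.card)).coeff (j - E.card) := by
    split_ifs with h
    · rw [hP_high hlE.card_le (by omega)]
    · rw [ds hlE (by omega : d - j ≤ d - E.card)]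
      congr 1
      omega
  have e6 : (hP (lk K E) (d - E.card)).coeff (d - j + 1) =
      if j ≤ E.card then 0 else (hP (lk K E) (d - E.card)).coeff (j - E.card - 1) := by
    split_ifs with h
    · rw [hP_high hlE.card_le (by omega)]
    · rw [ds hlE (by omega : d - j + 1 ≤ d - E.card)]
      congr 1
      omega
  rw [e1, e2, e3, e4, e5, e6] at key'
  unfold gco
  rw [if_neg (by omega : ¬ j = 0), if_neg (by omega : ¬ j = 0)]
  by_cases h1 : j < E.card
  · rw [if_pos h1] at key' ⊢
    rw [if_pos (by omega : j ≤ E.card)] at key'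
    linarith
  · rw [if_neg h1] at key' ⊢
    by_cases h2 : j ≤ E.card
    · have h3 : j - E.card = 0 := by omega
      rw [if_pos h2, h3] at key'
      rw [h3, if_pos rfl]
      linarith
    · rw [if_neg h2] at key'
      rw [if_neg (by omega : ¬ j - E.card = 0)]
      linarith

theorem mf_lk {n i : ℕ} {K : Finset (Finset (Fin n))} (hK : IsCx K) (h : MF K i)
    {σ : Finset (Fin n)} (hi : 1 ≤ i + 1) : MF (lk K σ) i := by
  classical
  intro τ hτ
  have hdis : Disjoint τ σ := by
    rw [Finset.disjoint_left]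
    intro v hv hvσ
    have h1 := (mem_lk.1 (hτ {v} (singleton_subset_iff.2 hv) (by rw [card_singleton]; omega))).1
    rw [disjoint_singleton_left] at h1
    exact h1 hvσ
  refine mem_lk.2 ⟨hdis, h _ ?_⟩
  intro μ hμ hμc
  have h1 := (mem_lk.1 (hτ (μ ∩ τ) inter_subset_right
    ((card_le_card inter_subset_left).trans hμc))).2
  refine hK.2 _ h1 _ ?_
  intro v hv
  have := hμ hv
  rw [mem_union] at this
  rw [mem_union, mem_inter]
  rcases this with h2 | h2
  · exact Or.inl ⟨hv, h2⟩
  · exact Or.inr h2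

end Pool.Agent.H861.GL
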