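import Pool.Agent.H861.GL.Fac
import Pool.Agent.H861.GL.TT

/-!
# GL/Defs3: families of families (for the lemma on the stars of the vertices not adjacent to `u`)
-/

set_option autoImplicit false

namespace Pool.Agent.H861.GL

open Finset Pool.Agent.W555.KS Pool.Agent.Y131.KS

/-- the vertices of `K` not adjacent to `u` (and different from `u` if `u` is a vertex) -/
def nonadj {n : ℕ} (K : Finset (Finset (Fin n))) (u : Fin n) : Finset (Fin n) :=
  univ.filter fun w => ({w} : Finset (Fin n)) ∈ K ∧ ({u, w} : Finset (Fin n)) ∉ K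

theorem mem_nonadj {n : ℕ} {K : Finset (Finset (Fin n))} {u w : Fin n} :
    w ∈ nonadj K u ↔ ({w} : Finset (Fin n)) ∈ K ∧ ({u, w} : Finset (Fin n)) ∉ K := by
  rw [nonadj, mem_filter]
  exact ⟨fun h => h.2, fun h => ⟨mem_univ _, h⟩⟩

section
variable {n : ℕ} {k : Type} [Field k]

/-- contraction with a linear form in every component -/
noncomputable def opW (c : Fin n → k) :
    (Fin n → Finset (Fin n) → Fn n k) →ₗ[k] (Fin n → Finset (Fin n) → Fn n k) where
  toFun Λ w := opP c (Λ w)
  map_add' Λ M := by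
    funext w
    rw [Pi.add_apply, map_add, Pi.add_apply]
  map_smul' a Λ := by
    funext w
    rw [Pi.smul_apply, map_smul, Pi.smul_apply, RingHom.id_apply]

/-- the coboundary in every component -/
def dlW (K : Finset (Finset (Fin n))) :
    (Fin n → Finset (Fin n) → Fn n k) →ₗ[k] (Fin n → Finset (Fin n) → Fn n k) where
  toFun Λ w := dl K (Λ w)
  map_add' Λ M := by
    funext w
    rw [Pi.add_apply, map_add, Pi.add_apply]
  map_smul' a Λ := by
    funext w
    rw [Pi.smul_apply, map_smul, Pi.smul_apply, RingHom.id_apply]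

/-- the sum in every component -/
def smW : (Fin n → Finset (Fin n) → Fn n k) →ₗ[k] (Fin n → Fn n k) where
  toFun Λ w := sm (Λ w)
  map_add' Λ M := by
    funext w
    rw [Pi.add_apply, map_add, Pi.add_apply]
  map_smul' a Λ := by
    funext w
    rw [Pi.smul_apply, map_smul, Pi.smul_apply, RingHom.id_apply]

/-- contraction with a linear form in every component -/
noncomputable def opV (c : Fin n → k) : (Fin n → Fn n k) →ₗ[k] (Fin n → Fn n k) where
  toFun y w := op c (y w)
  map_add' y z := by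
    funext w
    rw [Pi.add_apply, map_add, Pi.add_apply]
  map_smul' a y := by
    funext w
    rw [Pi.smul_apply, map_smul, Pi.smul_apply, RingHom.id_apply]

theorem opW_apply (c : Fin n → k) (Λ : Fin n → Finset (Fin n) → Fn n k) (w : Fin n) :
    opW c Λ w = opP c (Λ w) := rfl

theorem dlW_apply (K : Finset (Finset (Fin n))) (Λ : Fin n → Finset (Fin n) → Fn n k)
    (w : Fin n) : dlW K Λ w = dl K (Λ w) := rfl

theorem smW_apply (Λ : Fin n → Finset (Fin n) → Fn n k) (w : Fin n) :
    smW Λ w = sm (Λ w) := rfl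

theorem opV_apply (c : Fin n → k) (y : Fin n → Fn n k) (w : Fin n) :
    opV c y w = op c (y w) := rfl

/-- families `Λ w`, `w ∈ W`, with `Λ w` indexed by the faces with `j` vertices containing `w`,
and with sum `0` -/
def ZZ (k : Type) [Field k] (K : Finset (Finset (Fin n))) (W : Finset (Fin n)) (j : ℕ) :
    Submodule k (Fin n → Finset (Fin n) → Fn n k) where
  carrier := {Λ | (∀ w, Λ w ∈ PP k K {w} j) ∧ (∀ w, w ∉ W → Λ w = 0) ∧ ∑ w, Λ w = 0}
  add_mem' := by
    intro f g hf hg
    refine ⟨fun w => (PP k K {w} j).add_mem (hf.1 w) (hg.1 w), fun w hw => ?_, ?_⟩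
    · rw [Pi.add_apply, hf.2.1 w hw, hg.2.1 w hw, add_zero]
    · simp only [Pi.add_apply, sum_add_distrib, hf.2.2, hg.2.2, add_zero]
  zero_mem' := ⟨fun w => (PP k K {w} j).zero_mem, fun w _ => rfl, by
    simp only [Pi.zero_apply, sum_const_zero]⟩
  smul_mem' := by
    intro c f hf
    refine ⟨fun w => (PP k K {w} j).smul_mem c (hf.1 w), fun w hw => ?_, ?_⟩
    · rw [Pi.smul_apply, hf.2.1 w hw, smul_zero]
    · simp only [Pi.smul_apply, ← smul_sum, hf.2.2, smul_zero]

theorem mem_ZZ {K : Finset (Finset (Fin n))} {W : Finset (Fin n)} {j : ℕ}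
    {Λ : Fin n → Finset (Fin n) → Fn n k} : Λ ∈ ZZ k K W j ↔
      (∀ w, Λ w ∈ PP k K {w} j) ∧ (∀ w, w ∉ W → Λ w = 0) ∧ ∑ w, Λ w = 0 := Iff.rfl

/-- families `y w`, `w ∈ W`, with `y w` supported on the star of `w`, and with sum `0` -/
def NN (k : Type) [Field k] (K : Finset (Finset (Fin n))) (W : Finset (Fin n)) :
    Submodule k (Fin n → Fn n k) where
  carrier := {y | (∀ w, y w ∈ DS k (star K {w})) ∧ (∀ w, w ∉ W → y w = 0) ∧ ∑ w, y w = 0}
  add_mem' := by
    intro f g hf hg
    refine ⟨fun w => (DS k (star K {w})).add_mem (hf.1 w) (hg.1 w), fun w hw => ?_, ?_⟩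
    · rw [Pi.add_apply, hf.2.1 w hw, hg.2.1 w hw, add_zero]
    · simp only [Pi.add_apply, sum_add_distrib, hf.2.2, hg.2.2, add_zero]
  zero_mem' := ⟨fun w => (DS k (star K {w})).zero_mem, fun w _ => rfl, by
    simp only [Pi.zero_apply, sum_const_zero]⟩
  smul_mem' := by
    intro c f hf
    refine ⟨fun w => (DS k (star K {w})).smul_mem c (hf.1 w), fun w hw => ?_, ?_⟩
    · rw [Pi.smul_apply, hf.2.1 w hw, smul_zero]
    · simp only [Pi.smul_apply, ← smul_sum, hf.2.2, smul_zero]

theorem mem_NN {K : Finset (Finset (Fin n))} {W : Finset (Fin n)} {y : Fin n → Fn n k} :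
    y ∈ NN k K W ↔
      (∀ w, y w ∈ DS k (star K {w})) ∧ (∀ w, w ∉ W → y w = 0) ∧ ∑ w, y w = 0 := Iff.rfl

end

end Pool.Agent.H861.GL
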