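import Pool.Agent.H861.GL.HilbA

/-!
# GL/DimD: comparison of dimensions

Imports `st_finite` from `GL/HilbA.lean` (proved elsewhere). Notation of `GL/Defs.lean`.

PROOF. (1) `f ∈ St θ D d r` iff `f ∈ St θ K d r` and `sh u f = 0` for all `u ∈ W`: if
`f ∈ St θ K d r`, all `sh u f = 0` and `f α ≠ 0`, then `u ∉ α.support` for `u ∈ W` (otherwise
`α = β + single u 1` and `f α = sh u f β = 0`), so `α.support ∈ D`; conversely if `f ∈ St θ D d r`
and `u ∈ W` then `sh u f β = f (β + single u 1)` and the support of `β + single u 1` contains `u`,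
so it is not in `D`.
(2) `op c` maps `St θ K d (r + 1)` to `St θ K d r` (degree, `K` closed under subsets, `op_op`), so
`(op ω) ^ m` maps `St θ K d (r + m)` to `St θ K d r`, and it commutes with `sh u` (`sh_op`).
(3) If `f ∈ St θ K d (r + m)` and `(op ω ^ m) f ∈ St θ D d r`, then for `u ∈ W`
`(op ω ^ m) (sh u f) = sh u ((op ω ^ m) f) = 0`, so `sh u f = 0` by `hl`, so `f ∈ St θ D d (r + m)`.
(4) So the linear map `St θ K d (r + m) → St θ K d r / St θ D d r` induced by `op ω ^ m` has its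
kernel in `St θ D d (r + m)` and rank-nullity gives
`finrank (St θ K d (r + m)) ≤ finrank (St θ D d (r + m)) + finrank (St θ K d r) -
finrank (St θ D d r)` (`St θ D d r ≤ St θ K d r`; all spaces are finite-dimensional by
`st_finite`).
-/

set_option autoImplicit false

namespace Pool.Agent.H861.GL

open Finset Pool.Agent.W555.KS Pool.Agent.Y131.KS

namespace DimDaux

variable {n : ℕ} {k : Type} [Field k]

theorem supp_le (α : Fin n →₀ ℕ) (v : Fin n) :
    α.support ⊆ (α + Finsupp.single v 1).support := by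
  intro u hu
  rw [Finsupp.mem_support_iff] at hu ⊢
  rw [Finsupp.add_apply]
  omega

theorem mem_supp_add (α : Fin n →₀ ℕ) (v : Fin n) : v ∈ (α + Finsupp.single v 1).support := by
  rw [Finsupp.mem_support_iff, Finsupp.add_apply, Finsupp.single_eq_same]
  omega

theorem deg_add (α : Fin n →₀ ℕ) (v : Fin n) :
    (α + Finsupp.single v 1).degree = α.degree + 1 := by
  rw [map_add, Finsupp.degree_single]

theorem op_mem {K : Finset (Finset (Fin n))} (hK : IsCx K) {θ : ℕ → Fin n → k} {c : Fin n → k}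
    {d r : ℕ} {f : Fn n k} (hf : f ∈ St θ K d (r + 1)) : op c f ∈ St θ K d r := by
  rw [mem_St] at hf ⊢
  refine ⟨fun α h => ?_, fun l hl => ?_⟩
  · rw [op_apply] at h
    obtain ⟨v, _, hv⟩ := Finset.exists_ne_zero_of_sum_ne_zero h
    obtain ⟨h1, h2⟩ := hf.1 _ (right_ne_zero_of_mul hv)
    rw [deg_add] at h2
    exact ⟨hK.2 _ h1 _ (supp_le α v), by omega⟩
  · rw [op_op, hf.2 l hl, map_zero]

theorem pow_mem {K : Finset (Finset (Fin n))} (hK : IsCx K) {θ : ℕ → Fin n → k} {c : Fin n → k}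
    {d r : ℕ} (m : ℕ) : ∀ {f : Fn n k}, f ∈ St θ K d (r + m) → ((op c) ^ m) f ∈ St θ K d r := by
  induction m with
  | zero => intro f hf; exact hf
  | succ m ih =>
    intro f hf
    rw [pow_succ, Module.End.mul_apply]
    exact ih (op_mem hK hf)

theorem sh_pow (u : Fin n) (c : Fin n → k) (m : ℕ) :
    ∀ f : Fn n k, sh u (((op c) ^ m) f) = ((op c) ^ m) (sh u f) := by
  induction m with
  | zero => intro f; rfl
  | succ m ih =>
    intro f
    rw [pow_succ, Module.End.mul_apply, Module.End.mul_apply, ih, sh_op]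

theorem mem_D {K D : Finset (Finset (Fin n))} {W : Finset (Fin n)}
    (hD : ∀ σ, σ ∈ D ↔ σ ∈ K ∧ ∀ u ∈ W, u ∉ σ) {θ : ℕ → Fin n → k} {d r : ℕ} {f : Fn n k} :
    f ∈ St θ D d r ↔ f ∈ St θ K d r ∧ ∀ u ∈ W, sh u f = 0 := by
  constructor
  · intro h
    rw [mem_St] at h
    refine ⟨⟨fun α hα => ⟨((hD _).1 (h.1 α hα).1).1, (h.1 α hα).2⟩, h.2⟩, fun u hu => ?_⟩
    funext β
    by_contra h1
    exact ((hD _).1 (h.1 _ h1).1).2 u hu (mem_supp_add β u)
  · rintro ⟨h, h0⟩
    rw [mem_St] at h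
    refine ⟨fun α hα => ⟨(hD _).2 ⟨(h.1 α hα).1, fun u hu h1 => hα ?_⟩, (h.1 α hα).2⟩, h.2⟩
    have h2 : α = (α - Finsupp.single u 1) + Finsupp.single u 1 := by
      refine (tsub_add_cancel_of_le ?_).symm
      rw [Finsupp.single_le_iff]
      exact Nat.one_le_iff_ne_zero.2 (Finsupp.mem_support_iff.1 h1)
    rw [h2]
    exact congrFun (h0 u hu) (α - Finsupp.single u 1)

end DimDaux

theorem dim_rel {n : ℕ} {K D : Finset (Finset (Fin n))} {k : Type} [Field k] (hK : IsCx K)
    (W : Finset (Fin n)) (hD : ∀ σ, σ ∈ D ↔ σ ∈ K ∧ ∀ u ∈ W, u ∉ σ)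
    (θ : ℕ → Fin n → k) (ω : Fin n → k) (d r m : ℕ)
    (hl : ∀ u ∈ W, ∀ f ∈ St θ K d (r + m), ((op ω) ^ m) (sh u f) = 0 → sh u f = 0) :
    Module.finrank k (St θ K d (r + m)) + Module.finrank k (St θ D d r) ≤
      Module.finrank k (St θ K d r) + Module.finrank k (St θ D d (r + m)) := by
  have h1 := st_finite (K := K) θ d (r + m)
  have h2 := st_finite (K := K) θ d r
  have h3 := st_finite (K := D) θ d (r + m)
  have h4 := st_finite (K := D) θ d r
  have hle : St θ D d r ≤ St θ K d r := fun f hf => ((DimDaux.mem_D hD).1 hf).1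
  let F : St θ K d (r + m) →ₗ[k] St θ K d r :=
    LinearMap.restrict ((op ω) ^ m) fun f hf => DimDaux.pow_mem hK m hf
  let Q : St θ K d (r + m) →ₗ[k] (St θ K d r ⧸ (St θ D d r).submoduleOf (St θ K d r)) :=
    ((St θ D d r).submoduleOf (St θ K d r)).mkQ ∘ₗ F
  have e1 := LinearMap.finrank_range_add_finrank_ker Q
  have e2 := Submodule.finrank_quotient_add_finrank ((St θ D d r).submoduleOf (St θ K d r))
  have e3 := (Submodule.submoduleOfEquivOfLe hle).finrank_eq
  have e4 := Submodule.finrank_le (LinearMap.range Q)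
  have e5 : Module.finrank k (LinearMap.ker Q) ≤ Module.finrank k (St θ D d (r + m)) := by
    rw [← Submodule.finrank_map_subtype_eq]
    refine Submodule.finrank_mono ?_
    rintro f ⟨⟨g, hg⟩, hgk, rfl⟩
    have h5 : F ⟨g, hg⟩ ∈ (St θ D d r).submoduleOf (St θ K d r) := by
      rw [← Submodule.Quotient.mk_eq_zero]
      exact hgk
    have h6 : ((op ω) ^ m) g ∈ St θ D d r := h5
    refine (DimDaux.mem_D hD).2 ⟨hg, fun u hu => hl u hu g hg ?_⟩
    rw [← DimDaux.sh_pow]
    exact ((DimDaux.mem_D hD).1 h6).2 u hu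
  omega

end Pool.Agent.H861.GL
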