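import Pool.Agent.H861.GL.Defs

/-!
# GL/Eul: the Euler characteristic of a mod 2 homology sphere

PROOF. Let `C_j` be the `F_2`-space of the chains `c` with `Sp K j c`; its dimension is the number
`f_j` of faces with `j` vertices. Let `Z_j = {c ∈ C_j : bdr c = 0}` and `B_j = bdr (C_(j+1))`. For
`j ≥ 1` rank-nullity gives `f_j = dim Z_j + dim B_(j-1)`, and `f_0 = dim Z_0` (the boundary of a
chain supported on `∅` is `0`). For `j ≠ d` acyclicity (`hK.ac ∅`, `lk_empty`) gives `Z_j = B_j`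
(`bdr_bdr` for the other inclusion; `bdr` maps `C_(j+1)` to `C_j` since `K` is closed under
subsets), and `dim Z_d = 1` by `hK.top ∅`, `B_d = 0` since there are no faces with more than `d`
vertices. So `∑ (-1)^j f_j = ∑ (-1)^j dim Z_j - ∑ (-1)^j dim B_j = (-1)^d`.
-/

set_option autoImplicit false

namespace Pool.Agent.H861.GL

open Finset Pool.Agent.W555.KS Pool.Agent.Y131.KS

namespace Eulaux

variable {n : ℕ}

/-- the boundary as a linear map -/
noncomputable def bd : (Finset (Fin n) → ZMod 2) →ₗ[ZMod 2] (Finset (Fin n) → ZMod 2) where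
  toFun c := bdr c
  map_add' b c := by
    funext ρ
    exact bdr_add b c ρ
  map_smul' a c := by
    funext ρ
    simp only [bdr, Pi.smul_apply, smul_eq_mul, RingHom.id_apply, mul_sum]

theorem bd_apply (c : Finset (Fin n) → ZMod 2) : bd c = bdr c := rfl

/-- the chains of degree `j` -/
def Ch (K : Finset (Finset (Fin n))) (j : ℕ) : Submodule (ZMod 2) (Finset (Fin n) → ZMod 2) where
  carrier := {c | Sp K j c}
  add_mem' := by
    intro f g hf hg α h
    by_cases h1 : f α = 0
    · refine hg α fun h2 => h ?_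
      rw [Pi.add_apply, h1, h2, add_zero]
    · exact hf α h1
  zero_mem' := fun α h => absurd rfl h
  smul_mem' := by
    intro c f hf α h
    refine hf α fun h1 => h ?_
    rw [Pi.smul_apply, h1, smul_zero]

theorem mem_Ch {K : Finset (Finset (Fin n))} {j : ℕ} {c : Finset (Fin n) → ZMod 2} :
    c ∈ Ch K j ↔ Sp K j c := Iff.rfl

/-- the chains are the functions on the faces -/
def chEquiv (K : Finset (Finset (Fin n))) (j : ℕ) :
    Ch K j ≃ₗ[ZMod 2] ({σ // σ ∈ K.filter (fun σ => σ.card = j)} → ZMod 2) where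
  toFun c := fun σ => c.1 σ.1
  map_add' _ _ := rfl
  map_smul' _ _ := rfl
  invFun f := ⟨fun σ => if h : σ ∈ K.filter (fun σ => σ.card = j) then f ⟨σ, h⟩ else 0, by
    intro σ h
    by_cases h1 : σ ∈ K.filter (fun σ => σ.card = j)
    · exact mem_filter.1 h1
    · exact absurd (dif_neg h1) h⟩
  left_inv := by
    rintro ⟨c, hc⟩
    apply Subtype.ext
    funext σ
    change (if h : σ ∈ K.filter (fun σ => σ.card = j) then c σ else 0) = c σ
    by_cases h1 : σ ∈ K.filter (fun σ => σ.card = j)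
    · rw [dif_pos h1]
    · rw [dif_neg h1]
      by_contra h2
      exact h1 (mem_filter.2 (hc σ (Ne.symm h2)))
  right_inv := by
    intro f
    funext σ
    change (if h : σ.1 ∈ K.filter (fun σ => σ.card = j) then f ⟨σ.1, h⟩ else 0) = f σ
    rw [dif_pos σ.2]

theorem finrank_Ch (K : Finset (Finset (Fin n))) (j : ℕ) :
    Module.finrank (ZMod 2) (Ch K j) = (K.filter (fun σ => σ.card = j)).card := by
  rw [(chEquiv K j).finrank_eq, Module.finrank_fintype_fun_eq_card, Fintype.card_coe]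

/-- rank-nullity -/
theorem rn (K : Finset (Finset (Fin n))) (j : ℕ) :
    Module.finrank (ZMod 2) (Submodule.map bd (Ch K j)) +
      Module.finrank (ZMod 2) (Ch K j ⊓ LinearMap.ker bd : Submodule (ZMod 2) _) =
      (K.filter (fun σ => σ.card = j)).card := by
  rw [← finrank_Ch K j]
  have h := LinearMap.finrank_range_add_finrank_ker ((bd (n := n)).domRestrict (Ch K j))
  rw [LinearMap.range_domRestrict] at h
  rw [← h]
  have e : LinearMap.ker ((bd (n := n)).domRestrict (Ch K j)) =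
      Submodule.comap (Ch K j).subtype (LinearMap.ker bd) := by
    ext x
    rfl
  rw [e, ← Submodule.map_comap_subtype, Submodule.finrank_map_subtype_eq]

theorem map_le {K : Finset (Finset (Fin n))} (hK : IsCx K) (j : ℕ) :
    Submodule.map bd (Ch K (j + 1)) ≤ Ch K j := by
  rintro x ⟨c, hc, rfl⟩
  intro ρ hρ
  rw [bd_apply] at hρ
  unfold bdr at hρ
  obtain ⟨v, hv, hv2⟩ := exists_ne_zero_of_sum_ne_zero hρ
  obtain ⟨h1, h2⟩ := hc _ hv2
  rw [mem_compl] at hv
  refine ⟨hK.2 _ h1 _ (subset_insert _ _), ?_⟩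
  rw [card_insert_of_notMem hv] at h2
  omega

theorem map_zero_eq (K : Finset (Finset (Fin n))) : Submodule.map bd (Ch K 0) = ⊥ := by
  rw [eq_bot_iff]
  rintro x ⟨c, hc, rfl⟩
  rw [Submodule.mem_bot]
  funext ρ
  rw [bd_apply]
  unfold bdr
  refine sum_eq_zero fun v _ => ?_
  by_contra h
  have := (hc _ h).2
  rw [card_eq_zero] at this
  exact insert_ne_empty _ _ this

/-- acyclicity -/
theorem ac_eq {K : Finset (Finset (Fin n))} (hK : IsCx K) {j : ℕ} (h : AcyclicAt K j) :
    (Ch K j ⊓ LinearMap.ker bd : Submodule (ZMod 2) _) = Submodule.map bd (Ch K (j + 1)) := by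
  apply le_antisymm
  · rintro x ⟨hx1, hx2⟩
    obtain ⟨b, hb1, hb2⟩ := h x hx1 (fun ρ => congrFun (LinearMap.mem_ker.1 hx2) ρ)
    refine ⟨b, hb1, ?_⟩
    funext ρ
    exact (hb2 ρ).symm
  · rintro x hx
    refine ⟨map_le hK j hx, ?_⟩
    obtain ⟨c, hc, rfl⟩ := hx
    refine LinearMap.mem_ker.2 ?_
    funext ρ
    exact bdr_bdr c ρ

/-- the top homology -/
theorem top_one {n d : ℕ} {K : Finset (Finset (Fin n))} (hK : HSph K d) :
    Module.finrank (ZMod 2) (Ch K d ⊓ LinearMap.ker bd : Submodule (ZMod 2) _) = 1 := by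
  obtain ⟨z, hz0, hz1, hz2, hz3⟩ := hK.top ∅ hK.cx.1
  rw [lk_empty, card_empty, Nat.sub_zero] at hz1 hz3
  have hz : z ∈ (Ch K d ⊓ LinearMap.ker bd : Submodule (ZMod 2) _) :=
    ⟨hz1, LinearMap.mem_ker.2 (funext hz2)⟩
  refine finrank_eq_one (⟨z, hz⟩ : (Ch K d ⊓ LinearMap.ker bd : Submodule (ZMod 2) _)) ?_ ?_
  · intro h
    exact hz0 (congrArg Subtype.val h)
  · rintro ⟨w, hw1, hw2⟩
    rcases hz3 w hw1 (fun ρ => congrFun (LinearMap.mem_ker.1 hw2) ρ) with h | h
    · refine ⟨0, ?_⟩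
      apply Subtype.ext
      change (0 : ZMod 2) • z = w
      rw [h, zero_smul]
    · refine ⟨1, ?_⟩
      apply Subtype.ext
      change (1 : ZMod 2) • z = w
      rw [h, one_smul]

/-- the partial Euler sums -/
theorem part {d : ℕ} {K : Finset (Finset (Fin n))} (hK : HSph K d) (m : ℕ) (hm : m ≤ d) :
    ∑ j ∈ range m, (-1 : ℤ) ^ j * ((K.filter (fun σ => σ.card = j)).card : ℤ) =
      - ((-1) ^ m * (Module.finrank (ZMod 2) (Submodule.map bd (Ch K m)) : ℤ)) := by
  induction m with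
  | zero =>
    rw [map_zero_eq, finrank_bot]
    simp
  | succ m ih =>
    rw [sum_range_succ, ih (by omega), ← rn K m]
    have h := hK.ac ∅ hK.cx.1 m (by rw [card_empty]; omega)
    rw [lk_empty] at h
    rw [ac_eq hK.cx h, pow_succ]
    push_cast
    ring

theorem sum_card {d : ℕ} {K : Finset (Finset (Fin n))} (hK : HSph K d) :
    ∑ σ ∈ K, (-1 : ℤ) ^ σ.card =
      ∑ j ∈ range (d + 1), (-1 : ℤ) ^ j * ((K.filter (fun σ => σ.card = j)).card : ℤ) := by
  rw [← sum_fiberwise_of_maps_to (t := range (d + 1)) (g := fun σ : Finset (Fin n) => σ.card)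
    (fun σ hσ => mem_range.2 (Nat.lt_succ_of_le (hK.card_le σ hσ)))]
  refine sum_congr rfl fun j _ => ?_
  rw [sum_congr rfl (g := fun _ => (-1 : ℤ) ^ j)
    (fun σ hσ => by rw [(mem_filter.1 hσ).2]), sum_const, nsmul_eq_mul, mul_comm]

end Eulaux

open Eulaux in
theorem euler {n d : ℕ} {K : Finset (Finset (Fin n))} (hK : HSph K d) :
    ∑ σ ∈ K, (-1 : ℤ) ^ σ.card = (-1) ^ d := by
  rw [sum_card hK, sum_range_succ, part hK d le_rfl, ← rn K d, top_one hK]
  push_cast
  ring

end Pool.Agent.H861.GL
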