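import Pool.Agent.H861.GL.Rel

/-!
# GL/Fac: links of faces, cross-polytopes, sums over vertices
-/

set_option autoImplicit false

namespace Pool.Agent.H861.GL

open Finset Pool.Agent.W555.KS Pool.Agent.Y131.KS

/-- symmetric of degree `d` -/
def Sym (P : Polynomial ℤ) (d : ℕ) : Prop :=
  (∀ r, d < r → P.coeff r = 0) ∧ ∀ r ≤ d, P.coeff r = P.coeff (d - r)

theorem coeff_one_add_X_mul (P : Polynomial ℤ) (r : ℕ) :
    ((1 + Polynomial.X) * P).coeff (r + 1) = P.coeff (r + 1) + P.coeff r := by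
  rw [add_mul, one_mul, Polynomial.coeff_add, Polynomial.coeff_X_mul]

theorem coeff_one_add_X_mul_zero (P : Polynomial ℤ) :
    ((1 + Polynomial.X) * P).coeff 0 = P.coeff 0 := by
  rw [add_mul, one_mul, Polynomial.coeff_add, Polynomial.coeff_X_mul_zero, add_zero]

theorem Sym.step {P : Polynomial ℤ} {d : ℕ} (h : Sym P d) :
    Sym ((1 + Polynomial.X) * P) (d + 1) := by
  refine ⟨?_, ?_⟩
  · intro r hr
    obtain ⟨s, rfl⟩ : ∃ s, r = s + 1 := ⟨r - 1, by omega⟩
    rw [coeff_one_add_X_mul, h.1 _ (by omega), h.1 _ (by omega), add_zero]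
  · intro r hr
    rcases Nat.eq_zero_or_pos r with rfl | h0
    · rw [Nat.sub_zero, coeff_one_add_X_mul, coeff_one_add_X_mul_zero, h.1 (d + 1) (by omega),
        zero_add, h.2 0 (by omega), Nat.sub_zero]
    · obtain ⟨s, rfl⟩ : ∃ s, r = s + 1 := ⟨r - 1, by omega⟩
      rw [coeff_one_add_X_mul]
      have e1 : d + 1 - (s + 1) = d - s := by omega
      rw [e1]
      rcases Nat.eq_zero_or_pos (d - s) with h1 | h1
      · rw [h1, coeff_one_add_X_mul_zero]
        have e2 : s = d := by omega
        subst e2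
        rw [h.1 (s + 1) (by omega), zero_add, h.2 s le_rfl, Nat.sub_self]
      · obtain ⟨t, ht⟩ : ∃ t, d - s = t + 1 := ⟨d - s - 1, by omega⟩
        rw [ht, coeff_one_add_X_mul, h.2 (s + 1) (by omega), h.2 s (by omega), ht]
        have e3 : d - (s + 1) = t := by omega
        rw [e3, add_comm]

theorem Sym.pow {P : Polynomial ℤ} {d : ℕ} (h : Sym P d) (a : ℕ) :
    Sym ((1 + Polynomial.X) ^ a * P) (d + a) := by
  induction a with
  | zero => rwa [pow_zero, one_mul, Nat.add_zero]
  | succ a ih =>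
    rw [pow_succ', mul_assoc]
    exact ih.step

theorem Sym.mid {P : Polynomial ℤ} {d : ℕ} (h : Sym P d) {j : ℕ} (hj : 2 * j = d + 1) :
    gco P j = 0 := by
  unfold gco
  rw [if_neg (by omega), h.2 j (by omega)]
  have : d - j = j - 1 := by omega
  rw [this, sub_self]

theorem sym_hP {n d : ℕ} {K : Finset (Finset (Fin n))} (hK : HSph K d) : Sym (hP K d) d :=
  ⟨fun _ hr => hP_high hK.card_le hr, fun _ hr => ds hK hr⟩

theorem hP_coeff_zero {n d : ℕ} {K : Finset (Finset (Fin n))} (hK : HSph K d) :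
    (hP K d).coeff 0 = 1 := by
  classical
  unfold hP
  rw [Polynomial.finsetSum_coeff, Finset.sum_eq_single ∅]
  · rw [card_empty, pow_zero, one_mul, Polynomial.coeff_zero_eq_eval_zero]
    simp
  · intro σ _ hσ
    have h1 : σ.card ≠ 0 := by
      rw [Ne, card_eq_zero]
      exact hσ
    rw [Polynomial.coeff_zero_eq_eval_zero]
    simp [h1]
  · intro h
    exact absurd hK.cx.1 h

theorem mem_lk_of {n : ℕ} {K : Finset (Finset (Fin n))} {w : Fin n} {F : Finset (Fin n)}
    (hw : w ∉ F) (hF : insert w F ∈ K) : F ∈ lk K {w} := by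
  refine mem_lk.2 ⟨disjoint_singleton_right.2 hw, ?_⟩
  rw [union_comm, ← insert_eq]
  exact hF

/-- **the face inequality** -/
theorem face_ineq {n : ℕ} (F : Finset (Fin n)) : ∀ (d : ℕ) (K : Finset (Finset (Fin n))),
    HSph K d → Flag K → F ∈ K → ∀ j, 2 * j ≤ d + 1 →
    gco ((1 + Polynomial.X) ^ F.card * hP (lk K F) (d - F.card)) j ≤ gco (hP K d) j := by
  classical
  induction F using Finset.induction_on with
  | empty =>
    intro d K hK _ _ j _
    rw [card_empty, pow_zero, one_mul, lk_empty, Nat.sub_zero]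
  | insert w F hw ih =>
    intro d K hK hf hF j hj
    have hwK : ({w} : Finset (Fin n)) ∈ K :=
      hK.cx.2 _ hF _ (singleton_subset_iff.2 (mem_insert_self _ _))
    have hd : 1 ≤ d := by
      have := hK.card_le _ hwK
      rwa [card_singleton] at this
    have hFd := hK.card_le _ hF
    rw [card_insert_of_notMem hw] at hFd
    have hFl : F ∈ lk K {w} := mem_lk_of hw hF
    have hsym : Sym ((1 + Polynomial.X) ^ (insert w F).card *
        hP (lk K (insert w F)) (d - (insert w F).card)) d := by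
      have h1 := (sym_hP (hsph_lk hK hF)).pow (insert w F).card
      rwa [Nat.sub_add_cancel (hK.card_le _ hF)] at h1
    rcases Nat.eq_zero_or_pos j with rfl | hj0
    · unfold gco
      rw [if_pos rfl, if_pos rfl, hP_coeff_zero hK, Polynomial.mul_coeff_zero,
        hP_coeff_zero (hsph_lk hK hF), Polynomial.coeff_zero_eq_eval_zero]
      simp
    · rcases Nat.lt_or_ge d (2 * j) with h1 | h1
      · have h2 : 2 * j = d + 1 := by omega
        rw [hsym.mid h2, (sym_hP hK).mid h2]
      · obtain ⟨i, rfl⟩ : ∃ i, j = i + 1 := ⟨j - 1, by omega⟩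
        have h2 := vertex_ineq hK hf hwK h1
        have h3 := ih (d - 1) (lk K {w}) (hK.lk hwK) (flag_lk hK.cx hf hwK) hFl (i + 1)
          (by omega)
        have h4 := ih (d - 1) (lk K {w}) (hK.lk hwK) (flag_lk hK.cx hf hwK) hFl i
          (by omega)
        rw [card_insert_of_notMem hw, pow_succ', mul_assoc, gco_one_add_X_mul]
        rw [lk_lk hw] at h3 h4
        have e : d - (F.card + 1) = d - 1 - F.card := by omega
        rw [e]
        linarith

theorem exists_facet {n d : ℕ} {K : Finset (Finset (Fin n))} (hK : HSph K d) :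
    ∃ F ∈ K, F.card = d := by
  obtain ⟨z, hz0, hzs, -, -⟩ := hK.top ∅ hK.cx.1
  rw [card_empty, Nat.sub_zero, lk_empty] at hzs
  by_contra hcon
  push Not at hcon
  apply hz0
  funext σ
  by_contra hne
  exact hcon σ (hzs σ hne).1 (hzs σ hne).2

theorem hP_facet {n d : ℕ} {K : Finset (Finset (Fin n))} (hK : HSph K d) {F : Finset (Fin n)}
    (hF : F ∈ K) (hd : F.card = d) : hP (lk K F) (d - F.card) = 1 := by
  have h : lk K F = {∅} := by
    ext τ
    rw [mem_lk, mem_singleton]
    constructor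
    · rintro ⟨h1, h2⟩
      have h3 := hK.card_le _ h2
      rw [card_union_of_disjoint h1] at h3
      exact card_eq_zero.1 (by omega)
    · rintro rfl
      exact ⟨disjoint_empty_left _, by rwa [empty_union]⟩
  rw [h, hd, Nat.sub_self]
  unfold hP
  rw [sum_singleton, card_empty, pow_zero, one_mul, Nat.sub_zero, pow_zero]

/-- **cross-polytopes minimize the `g`-numbers** -/
theorem cross_ineq {n d : ℕ} {K : Finset (Finset (Fin n))} (hK : HSph K d) (hf : Flag K)
    {j : ℕ} (hj : 2 * j ≤ d + 1) : ballot d j ≤ gco (hP K d) j := by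
  obtain ⟨F, hF, hd⟩ := exists_facet hK
  have h := face_ineq F d K hK hf hF j hj
  rwa [hP_facet hK hF hd, mul_one, hd, gco_one_add_X_pow] at h

/-- the number of vertices -/
def nv {n : ℕ} (K : Finset (Finset (Fin n))) : ℕ :=
  (univ.filter (fun v : Fin n => ({v} : Finset (Fin n)) ∈ K)).card

/-- **the sum over the vertices** -/
theorem sum_ineq {n d : ℕ} {K : Finset (Finset (Fin n))} (hK : HSph K d) (hf : Flag K)
    {j : ℕ} (hj : 2 * (j + 1) ≤ d) :
    ((j : ℤ) + 2) * gco (hP K d) (j + 2) + ((d : ℤ) + 1) * gco (hP K d) (j + 1) +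
      ((d : ℤ) + 1 - j) * gco (hP K d) j ≤ nv K * gco (hP K d) (j + 1) := by
  classical
  have hzero : ∀ v : Fin n, ({v} : Finset (Fin n)) ∉ K → hP (lk K {v}) (d - 1) = 0 := by
    intro v hv
    have : lk K {v} = ∅ := by
      rw [eq_empty_iff_forall_notMem]
      intro τ hτ
      rw [mem_lk] at hτ
      exact hv (hK.cx.2 _ hτ.2 _ subset_union_right)
    rw [this]
    unfold hP
    rw [sum_empty]
  have h1 : ∑ v : Fin n, (gco (hP (lk K {v}) (d - 1)) (j + 1) + gco (hP (lk K {v}) (d - 1)) j) ≤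
      ∑ v : Fin n, (if ({v} : Finset (Fin n)) ∈ K then gco (hP K d) (j + 1) else 0) := by
    refine sum_le_sum fun v _ => ?_
    split_ifs with hv
    · exact vertex_ineq hK hf hv hj
    · rw [hzero v hv]
      unfold gco
      simp
  rw [← sum_filter, sum_const, nsmul_eq_mul] at h1
  have h2 : ∀ v : Fin n, gco (hP (lk K {v}) (d - 1)) (j + 1) + gco (hP (lk K {v}) (d - 1)) j =
      (hP (lk K {v}) (d - 1)).coeff (j + 1) -
        (if j = 0 then 0 else (hP (lk K {v}) (d - 1)).coeff (j - 1)) := by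
    intro v
    unfold gco
    rw [if_neg (Nat.succ_ne_zero j), Nat.add_sub_cancel]
    ring
  simp only [h2, sum_sub_distrib] at h1
  rw [hP_sum_coeff hK.cx hK.card_le] at h1
  have h3 : ∑ v : Fin n, (if j = 0 then (0 : ℤ) else (hP (lk K {v}) (d - 1)).coeff (j - 1)) =
      if j = 0 then 0 else (j : ℤ) * (hP K d).coeff j + ((d : ℤ) - (j - 1)) *
        (hP K d).coeff (j - 1) := by
    split_ifs with h0
    · rw [sum_const_zero]
    · obtain ⟨i, rfl⟩ : ∃ i, j = i + 1 := ⟨j - 1, by omega⟩
      rw [Nat.add_sub_cancel, hP_sum_coeff hK.cx hK.card_le]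
      push_cast
      ring
  rw [h3] at h1
  unfold nv
  refine le_trans (le_of_eq ?_) h1
  unfold gco
  rcases Nat.eq_zero_or_pos j with rfl | hj0
  · simp only [Nat.zero_add, if_true, if_neg (Nat.succ_ne_zero _)]
    simp
    ring
  · obtain ⟨i, rfl⟩ : ∃ i, j = i + 1 := ⟨j - 1, by omega⟩
    simp only [Nat.add_sub_cancel, if_neg (Nat.succ_ne_zero _)]
    push_cast
    rw [show i + 1 + 1 + 1 = i + 3 from rfl, show i + 1 + 2 = i + 3 from rfl,
      show i + 1 + 1 = i + 2 from rfl]
    ring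

end Pool.Agent.H861.GL
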