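import Pool.Agent.H861.GL.Defs

/-!
# GL/HilbA: the Hilbert function of the space of all functions supported on a complex

PROOF. `St θ K 0 r` (no condition from `θ`) is the space of all functions supported on the finite
set of monomials `α` of degree `r` (`Finsupp.degree`) with `α.support ∈ K`; its dimension is
`∑ σ ∈ K, #{α | α.support = σ, α.degree = r}`. The generating function of
`#{α | α.support = σ, α.degree = r}` is `(X / (1 - X)) ^ σ.card` (induction on `σ`, or the explicit
number `Nat.choose (r - 1) (σ.card - 1)`), i.e.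
`PowerSeries.mk (#{...}) * (1 - X) ^ σ.card = X ^ σ.card`. Multiply by `(1 - X) ^ (d - σ.card)` and
sum over `σ ∈ K`. `St θ K i r ≤ St θ K 0 r` gives finite-dimensionality in general.
-/

set_option autoImplicit false

namespace Pool.Agent.H861.GL

open Finset Pool.Agent.W555.KS Pool.Agent.Y131.KS

variable {n : ℕ} {K : Finset (Finset (Fin n))} {k : Type} [Field k]

namespace HilbAaux

/-- the monomials of degree `r` whose support is a face of `K` -/
noncomputable def mon (K : Finset (Finset (Fin n))) (r : ℕ) : Finset (Fin n →₀ ℕ) := by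
  classical
  exact (finsuppAntidiag (univ : Finset (Fin n)) r).filter (fun α => α.support ∈ K)

theorem mem_mon {r : ℕ} {α : Fin n →₀ ℕ} : α ∈ mon K r ↔ α.support ∈ K ∧ α.degree = r := by
  classical
  rw [mon, mem_filter, mem_finsuppAntidiag, Finsupp.degree_eq_sum]
  constructor
  · rintro ⟨⟨h1, -⟩, h2⟩
    exact ⟨h2, h1⟩
  · rintro ⟨h2, h1⟩
    exact ⟨⟨h1, subset_univ _⟩, h2⟩

/-- the restriction to the finite set of monomials is a linear equivalence -/
noncomputable def eqv (θ : ℕ → Fin n → k) (K : Finset (Finset (Fin n))) (r : ℕ) :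
    St θ K 0 r ≃ₗ[k] (mon K r → k) := by
  classical
  exact
  { toFun := fun f α => f.1 α.1
    map_add' := fun f g => rfl
    map_smul' := fun a f => rfl
    invFun := fun g => ⟨fun α => if h : α ∈ mon K r then g ⟨α, h⟩ else 0, by
      refine ⟨fun α h => ?_, fun l hl => absurd hl (Nat.not_lt_zero l)⟩
      by_cases h1 : α ∈ mon K r
      · exact mem_mon.1 h1
      · exact absurd (dif_neg h1) h⟩
    left_inv := by
      intro f
      apply Subtype.ext
      funext α
      by_cases h1 : α ∈ mon K r
      · simp only [h1, dif_pos]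
      · simp only [h1, dif_neg, not_false_eq_true]
        by_contra h2
        exact h1 (mem_mon.2 (f.2.1 α (Ne.symm h2)))
    right_inv := by
      intro g
      funext α
      simp only [α.2, dif_pos, Subtype.coe_eta] }

theorem finrank_eq (θ : ℕ → Fin n → k) (K : Finset (Finset (Fin n))) (r : ℕ) :
    Module.finrank k (St θ K 0 r) = (mon K r).card := by
  rw [(eqv θ K r).finrank_eq, Module.finrank_fintype_fun_eq_card, Fintype.card_coe]

/-- the number of monomials of degree `r` with support `σ` -/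
noncomputable def cnt (σ : Finset (Fin n)) (r : ℕ) : ℕ := (mon {σ} r).card

theorem card_mon (K : Finset (Finset (Fin n))) (r : ℕ) :
    (mon K r).card = ∑ σ ∈ K, cnt σ r := by
  classical
  rw [Finset.card_eq_sum_card_fiberwise (f := fun α : Fin n →₀ ℕ => α.support) (t := K)
    (fun α hα => (mem_mon.1 hα).1)]
  refine sum_congr rfl fun σ hσ => ?_
  rw [cnt]
  congr 1
  ext α
  rw [mem_filter, mem_mon, mem_mon, mem_singleton]
  constructor
  · rintro ⟨⟨h1, h2⟩, h3⟩
    exact ⟨h3, h2⟩
  · rintro ⟨h3, h2⟩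
    exact ⟨⟨h3 ▸ hσ, h2⟩, h3⟩

/-- `X + X ^ 2 + ⋯` -/
def gs : PowerSeries ℤ := PowerSeries.mk (fun m => if m = 0 then 0 else 1)

theorem gs_mul : gs * (1 - PowerSeries.X) = PowerSeries.X := by
  ext m
  rw [mul_sub, mul_one, map_sub]
  cases m with
  | zero => simp [gs]
  | succ m =>
    rw [PowerSeries.coeff_succ_mul_X, gs, PowerSeries.coeff_mk, PowerSeries.coeff_mk,
      PowerSeries.coeff_X]
    by_cases hm : m = 0
    · simp [hm]
    · simp [hm]

theorem mk_cnt (σ : Finset (Fin n)) :
    PowerSeries.mk (fun r => (cnt σ r : ℤ)) = gs ^ σ.card := by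
  classical
  rw [← Finset.prod_const]
  ext r
  rw [PowerSeries.coeff_mk, PowerSeries.coeff_prod]
  have h1 : ∀ l ∈ finsuppAntidiag σ r, (∏ i ∈ σ, PowerSeries.coeff (l i) gs) =
      if l ∈ mon {σ} r then (1 : ℤ) else 0 := by
    intro l hl
    rw [mem_finsuppAntidiag] at hl
    split_ifs with h
    · rw [mem_mon, mem_singleton] at h
      refine prod_eq_one fun i hi => ?_
      rw [gs, PowerSeries.coeff_mk, if_neg]
      rw [← h.1] at hi
      exact Finsupp.mem_support_iff.1 hi
    · have : ∃ i ∈ σ, l i = 0 := by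
        by_contra hcon
        push Not at hcon
        apply h
        rw [mem_mon, mem_singleton]
        have hs : l.support = σ := by
          apply Subset.antisymm hl.2
          intro i hi
          exact Finsupp.mem_support_iff.2 (hcon i hi)
        refine ⟨hs, ?_⟩
        rw [Finsupp.degree_apply, hs]
        exact hl.1
      obtain ⟨i, hi, h0⟩ := this
      refine prod_eq_zero hi ?_
      rw [h0, gs, PowerSeries.coeff_mk, if_pos rfl]
  rw [sum_congr rfl h1, sum_ite_mem, sum_const, nsmul_eq_mul, mul_one, cnt]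
  congr 2
  symm
  apply inter_eq_right.2
  intro l hl
  rw [mem_mon, mem_singleton] at hl
  rw [mem_finsuppAntidiag]
  refine ⟨?_, hl.1.subset⟩
  rw [← hl.2, Finsupp.degree_apply, hl.1]

end HilbAaux

theorem st_finite (θ : ℕ → Fin n → k) (i r : ℕ) : FiniteDimensional k (St θ K i r) := by
  have h0 : FiniteDimensional k (St θ K 0 r) :=
    Module.Finite.equiv (HilbAaux.eqv θ K r).symm
  have h1 : St θ K i r ≤ St θ K 0 r := by
    intro f hf
    exact ⟨hf.1, fun l hl => absurd hl (Nat.not_lt_zero l)⟩
  exact Submodule.finiteDimensional_of_le h1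

theorem dim_zero {d : ℕ} (hd : ∀ σ ∈ K, σ.card ≤ d) (θ : ℕ → Fin n → k) :
    PowerSeries.mk (fun r => (Module.finrank k (St θ K 0 r) : ℤ)) * (1 - PowerSeries.X) ^ d =
      ((hP K d : Polynomial ℤ) : PowerSeries ℤ) := by
  have h1 : PowerSeries.mk (fun r => (Module.finrank k (St θ K 0 r) : ℤ)) =
      ∑ σ ∈ K, PowerSeries.mk (fun r => (HilbAaux.cnt σ r : ℤ)) := by
    ext r
    rw [map_sum, PowerSeries.coeff_mk, HilbAaux.finrank_eq, HilbAaux.card_mon]
    push_cast
    exact sum_congr rfl fun σ _ => by rw [PowerSeries.coeff_mk]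
  rw [h1, sum_mul, hP]
  have h2 : ((∑ σ ∈ K, (Polynomial.X : Polynomial ℤ) ^ σ.card *
      (1 - Polynomial.X) ^ (d - σ.card) : Polynomial ℤ) : PowerSeries ℤ) =
      ∑ σ ∈ K, (PowerSeries.X : PowerSeries ℤ) ^ σ.card *
        (1 - PowerSeries.X) ^ (d - σ.card) := by
    have h3 := map_sum (Polynomial.coeToPowerSeries.ringHom (R := ℤ))
      (fun σ : Finset (Fin n) => (Polynomial.X : Polynomial ℤ) ^ σ.card *
      (1 - Polynomial.X) ^ (d - σ.card)) K
    rw [Polynomial.coeToPowerSeries.ringHom_apply] at h3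
    rw [h3]
    refine sum_congr rfl fun σ _ => ?_
    rw [map_mul, map_pow, map_pow, map_sub, map_one,
      Polynomial.coeToPowerSeries.ringHom_apply, Polynomial.coe_X]
  rw [h2]
  refine sum_congr rfl fun σ hσ => ?_
  rw [HilbAaux.mk_cnt]
  have h4 : (1 - PowerSeries.X : PowerSeries ℤ) ^ d =
      (1 - PowerSeries.X) ^ σ.card * (1 - PowerSeries.X) ^ (d - σ.card) := by
    rw [← pow_add, Nat.add_sub_cancel' (hd σ hσ)]
  rw [h4, ← mul_assoc, ← mul_pow, HilbAaux.gs_mul]

end Pool.Agent.H861.GL
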