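import Pool.Agent.H861.GL.Defs2
import Pool.Agent.H861.GL.HilbA

/-!
# GL/Filt: rows

PAPER PROOF. Induction on `S.card`, removing the element `v` of `S` with the largest `σ v`. Claim
(stronger): `∑ v ∈ S, (finrank St (M v) - finrank St (dele (M v) {v})) + finrank X_S ≤ finrank St K`
where `X_S = {f ∈ St θ K m j | sh w f = 0 for all w ∈ S}`. Step: let `S = insert v S'` with
`σ w < σ v` for `w ∈ S'`. `finrank X_{S'} - finrank X_S = finrank (X_{S'}.map (sh v))` (rank-nullity
for `sh v` on `X_{S'}`, kernel `X_S`). `St θ (M v) m j ≤ X_{S'}` (as `M v ⊆ K` and the faces of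
`M v` avoid all `w ∈ S'`, so `sh w f = 0`), and rank-nullity for `sh v` on `St θ (M v) m j`, with
kernel `St θ (dele (M v) {v}) m j` (`sh v f = 0` iff `v ∉ α.support` whenever `f α ≠ 0`), gives
`finrank ((St θ (M v) m j).map (sh v)) = finrank St (M v) - finrank St (dele (M v) {v})`. Finite
dimension: `HilbAaux.st_finite` (HilbA.lean; you may import it; CM.lean or Sur.lean too).
-/

set_option autoImplicit false

namespace Pool.Agent.H861.GL

open Finset Pool.Agent.W555.KS Pool.Agent.Y131.KS

namespace Filtaux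

variable {n : ℕ} {k : Type} [Field k]

/-- rank and nullity of the restriction to a submodule -/
theorem rank_null {V : Type} [AddCommGroup V] [Module k V] (f : V →ₗ[k] V) (p : Submodule k V)
    [FiniteDimensional k p] :
    Module.finrank k (p.map f) + Module.finrank k (p ⊓ LinearMap.ker f : Submodule k V) =
      Module.finrank k p := by
  have h := LinearMap.finrank_range_add_finrank_ker (f.domRestrict p)
  rw [LinearMap.range_domRestrict] at h
  have e : LinearMap.ker (f.domRestrict p) = (p ⊓ LinearMap.ker f).comap p.subtype := by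
    ext x
    rw [LinearMap.mem_ker, LinearMap.domRestrict_apply, Submodule.mem_comap, Submodule.mem_inf,
      LinearMap.mem_ker]
    exact ⟨fun h => ⟨x.2, h⟩, fun h => h.2⟩
  rw [e, LinearEquiv.finrank_eq (Submodule.comapSubtypeEquivOfLe inf_le_left)] at h
  exact h

/-- the functions which are killed by the contractions with the variables in `S` -/
noncomputable def XS (θ : ℕ → Fin n → k) (K : Finset (Finset (Fin n))) (m j : ℕ)
    (S : Finset (Fin n)) : Submodule k (Fn n k) :=
  St θ K m j ⊓ ⨅ w ∈ S, LinearMap.ker (sh w)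

theorem mem_XS {θ : ℕ → Fin n → k} {K : Finset (Finset (Fin n))} {m j : ℕ} {S : Finset (Fin n)}
    {f : Fn n k} : f ∈ XS θ K m j S ↔ f ∈ St θ K m j ∧ ∀ w ∈ S, sh w f = 0 := by
  unfold XS
  simp only [Submodule.mem_inf, Submodule.mem_iInf, LinearMap.mem_ker]

theorem ker_row (θ : ℕ → Fin n → k) (M : Finset (Finset (Fin n))) (m j : ℕ) (v : Fin n) :
    St θ M m j ⊓ LinearMap.ker (sh v) = St θ (dele M {v}) m j := by
  ext f
  rw [Submodule.mem_inf, LinearMap.mem_ker, mem_St, mem_St]
  constructor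
  · rintro ⟨⟨h1, h2⟩, h3⟩
    refine ⟨fun α hα => ⟨mem_dele.2 ⟨(h1 α hα).1, fun hv => ?_⟩, (h1 α hα).2⟩, h2⟩
    have hv' : v ∈ α.support := hv (mem_singleton_self v)
    have h4 : α v ≠ 0 := Finsupp.mem_support_iff.1 hv'
    have h5 : (α - Finsupp.single v 1) + Finsupp.single v 1 = α := by
      ext w
      rw [Finsupp.add_apply, Finsupp.tsub_apply]
      by_cases hw : v = w
      · rw [← hw, Finsupp.single_eq_same]
        omega
      · rw [Finsupp.single_apply, if_neg hw]
        omega
    have h6 : sh v f (α - Finsupp.single v 1) = 0 := by rw [h3]; rfl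
    rw [sh_apply, h5] at h6
    exact hα h6
  · rintro ⟨h1, h2⟩
    refine ⟨⟨fun α hα => ⟨(mem_dele.1 (h1 α hα).1).1, (h1 α hα).2⟩, h2⟩, ?_⟩
    funext β
    show sh v f β = 0
    rw [sh_apply]
    by_contra hne
    refine (mem_dele.1 (h1 _ hne).1).2 ?_
    rw [singleton_subset_iff, Finsupp.mem_support_iff, Finsupp.add_apply, Finsupp.single_eq_same]
    omega

theorem row_le {θ : ℕ → Fin n → k} {K M : Finset (Finset (Fin n))} {m j : ℕ} {S : Finset (Fin n)}
    (hM : M ⊆ K) (hav : ∀ w ∈ S, ∀ F ∈ M, w ∉ F) : St θ M m j ≤ XS θ K m j S := by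
  intro f hf
  rw [mem_XS]
  refine ⟨⟨fun α hα => ⟨hM (hf.1 α hα).1, (hf.1 α hα).2⟩, hf.2⟩, fun w hw => ?_⟩
  funext β
  show sh w f β = 0
  rw [sh_apply]
  by_contra hne
  refine hav w hw _ (hf.1 _ hne).1 ?_
  rw [Finsupp.mem_support_iff, Finsupp.add_apply, Finsupp.single_eq_same]
  omega

theorem XS_insert (θ : ℕ → Fin n → k) (K : Finset (Finset (Fin n))) (m j : ℕ)
    (S : Finset (Fin n)) (v : Fin n) :
    XS θ K m j S ⊓ LinearMap.ker (sh v) = XS θ K m j (insert v S) := by
  ext f
  rw [Submodule.mem_inf, LinearMap.mem_ker, mem_XS, mem_XS]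
  constructor
  · rintro ⟨⟨h1, h2⟩, h3⟩
    refine ⟨h1, fun w hw => ?_⟩
    rcases mem_insert.1 hw with rfl | hw
    · exact h3
    · exact h2 w hw
  · rintro ⟨h1, h2⟩
    exact ⟨⟨h1, fun w hw => h2 w (mem_insert_of_mem hw)⟩, h2 v (mem_insert_self v S)⟩

theorem claim (θ : ℕ → Fin n → k) (K : Finset (Finset (Fin n)))
    (m j : ℕ) (σ : Fin n → ℕ) (M : Fin n → Finset (Finset (Fin n))) (S : Finset (Fin n)) :
    Set.InjOn σ (S : Set (Fin n)) → (∀ v ∈ S, M v ⊆ K) →
    (∀ v ∈ S, ∀ w ∈ S, σ w < σ v → ∀ F ∈ M v, w ∉ F) →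
    ∑ v ∈ S, ((Module.finrank k (St θ (M v) m j) : ℤ) -
      Module.finrank k (St θ (dele (M v) {v}) m j)) + Module.finrank k (XS θ K m j S) ≤
      Module.finrank k (St θ K m j) := by
  haveI : FiniteDimensional k (St θ K m j) := st_finite θ m j
  induction S using Finset.induction_on_max_value σ with
  | empty =>
    intro _ _ _
    rw [sum_empty, zero_add]
    exact_mod_cast Submodule.finrank_mono (inf_le_left : XS θ K m j ∅ ≤ St θ K m j)
  | insert v S' hv hmax ih =>
    intro hσ hM hav
    have hlt : ∀ w ∈ S', σ w < σ v := fun w hw => lt_of_le_of_ne (hmax w hw) fun e =>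
      hv (hσ (mem_coe.2 (mem_insert_of_mem hw)) (mem_coe.2 (mem_insert_self v S')) e ▸ hw)
    have ih' := ih (hσ.mono (coe_subset.2 (subset_insert v S')))
      (fun w hw => hM w (mem_insert_of_mem hw))
      (fun w hw u hu => hav w (mem_insert_of_mem hw) u (mem_insert_of_mem hu))
    have hMv := hM v (mem_insert_self v S')
    have hle : St θ (M v) m j ≤ XS θ K m j S' := row_le hMv fun w hw =>
      hav v (mem_insert_self v S') w (mem_insert_of_mem hw) (hlt w hw)
    haveI f1 : FiniteDimensional k (St θ (M v) m j) := st_finite θ m j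
    haveI f2 : FiniteDimensional k (XS θ K m j S') :=
      Submodule.finiteDimensional_of_le (inf_le_left : XS θ K m j S' ≤ St θ K m j)
    have r1 := rank_null (sh v) (St θ (M v) m j)
    have r2 := rank_null (sh v) (XS θ K m j S')
    rw [ker_row] at r1
    rw [XS_insert] at r2
    have r3 : Module.finrank k ((St θ (M v) m j).map (sh v)) ≤
        Module.finrank k ((XS θ K m j S').map (sh v)) :=
      Submodule.finrank_mono (Submodule.map_mono hle)
    rw [sum_insert hv]
    have r1' : ((Module.finrank k ((St θ (M v) m j).map (sh v)) : ℕ) : ℤ) +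
        Module.finrank k (St θ (dele (M v) {v}) m j) = Module.finrank k (St θ (M v) m j) := by
      exact_mod_cast r1
    have r2' : ((Module.finrank k ((XS θ K m j S').map (sh v)) : ℕ) : ℤ) +
        Module.finrank k (XS θ K m j (insert v S')) = Module.finrank k (XS θ K m j S') := by
      exact_mod_cast r2
    have r3' : ((Module.finrank k ((St θ (M v) m j).map (sh v)) : ℕ) : ℤ) ≤
        Module.finrank k ((XS θ K m j S').map (sh v)) := by
      exact_mod_cast r3
    linarith

end Filtaux

theorem filt {n : ℕ} {K : Finset (Finset (Fin n))} {k : Type} [Field k] (θ : ℕ → Fin n → k)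
    (m j : ℕ) (S : Finset (Fin n)) (σ : Fin n → ℕ) (hσ : Set.InjOn σ (S : Set (Fin n)))
    (M : Fin n → Finset (Finset (Fin n))) (hM : ∀ v ∈ S, M v ⊆ K)
    (hav : ∀ v ∈ S, ∀ w ∈ S, σ w < σ v → ∀ F ∈ M v, w ∉ F) :
    ∑ v ∈ S, ((Module.finrank k (St θ (M v) m j) : ℤ) -
      Module.finrank k (St θ (dele (M v) {v}) m j)) ≤
      Module.finrank k (St θ K m j) := by
  have h := Filtaux.claim θ K m j σ M S hσ hM hav
  have h0 : (0 : ℤ) ≤ Module.finrank k (Filtaux.XS θ K m j S) := Int.natCast_nonneg _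
  linarith

end Pool.Agent.H861.GL
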