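import Pool.Agent.H861.GL.Fac

/-!
# GL/GoodF: the number of sets of vertices that miss a small star

Let `L` be a flag homology sphere with parameter `q` (dimension `q - 1`), `D` vertices. A set `E`
of vertices is good if there is a face `F` with `|F| ≤ |E|` such that `insert w F` is no face for
every `w ∈ E`. CLAIM: the fraction of the good sets among the sets with `e` vertices is at least
`π(q, e) = q.choose e * 2^e / (2q).choose e` (the value for the cross-polytope).

PAPER PROOF (induction on `e`, for all `q` and `L`). If `e > q` the left side is `0`. `e = 0`: the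
empty set is good (`F = ∅`). Let `1 ≤ e ≤ q`.
(a) `D ≥ 2 q`: `cross_ineq` with `j = 1` (Fac.lean): `gco (hP L q) 1 = D - q - 1 ≥ ballot q 1 =
q - 1` (there may be a lemma for `(hP L q).coeff 1 = nv L - q`, see `sum_ineq` in Fac.lean; or
directly by induction: a facet `F` and for each `x ∈ F` another vertex).
(b) every vertex `w` of `L` has a vertex `x(w) ≠ w` of `L` with `{w, x(w)} ∉ L`: otherwise `L` would
be a cone with apex `w` (flag), and a cone is acyclic, contradicting `hL.top`; (see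
`vertex_ineq` in Rel.lean or the proof of `cross_ineq` / `rel_ineq` users, where such an antipode is
produced: search for ∉ K with pairs; e.g. `exists_nonadj`-like lemma in GamA/GamB/Rel).
(c) Let `w` be a vertex and `x = x(w)`, `L' = lk L {x}` (parameter `q - 1`, `D'` vertices; `w, x`
are no vertices of `L'`). If `w ∈ E`, `x ∉ E` and `E' = E ∩ vx L'` is good for `L'` with the face
`F'`, then `E` is good for `L` with `F = insert x F'`: `|F| ≤ 1 + |E'| ≤ |E|` (`w ∈ E` is not in
`E'`), and if `y ∈ E` with `insert y F ∈ L` then `y ≠ x` and `{y, x} ∈ L`, so `y ∈ E'` and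
`insert y F' ∈ L'` (if `y ∉ F'`... if `y ∈ F'` then `insert y F' = F' ∈ L'`), a contradiction.
(d) So for fixed `w` the number of good `e`-sets containing `w` is at least
`∑_{a ≤ e-1} #{good a-sets of L'} * (D - 2 - D').choose (e - 1 - a)`
`≥ ∑_a π(q-1, a) * D'.choose a * (D - 2 - D').choose (e-1-a) ≥ π(q-1, e-1) * (D-2).choose (e-1)`
by induction, as `π(q-1, ·)` is nonincreasing, and Vandermonde.
(e) Double counting the pairs `w ∈ E`: `e * #good_e ≥ D * π(q-1,e-1) * (D-2).choose (e-1)`, hence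
`#good_e / D.choose e ≥ π(q-1, e-1) * (D - e)/(D - 1) ≥ π(q-1,e-1) * (2q - e)/(2q - 1) = π(q, e)`.
(`(D-2).choose (e-1) * (D-1) = (D-1).choose (e-1) * (D-e)` and `D * (D-1).choose (e-1) = e * D.choose e`.)
-/

set_option autoImplicit false

namespace Pool.Agent.H861.GL

open Finset Pool.Agent.W555.KS Pool.Agent.Y131.KS

/-- the vertices -/
def vx {n : ℕ} (L : Finset (Finset (Fin n))) : Finset (Fin n) :=
  univ.filter (fun v : Fin n => ({v} : Finset (Fin n)) ∈ L)

theorem mem_vx {n : ℕ} {L : Finset (Finset (Fin n))} {v : Fin n} :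
    v ∈ vx L ↔ ({v} : Finset (Fin n)) ∈ L := by
  rw [vx, mem_filter]
  exact ⟨fun h => h.2, fun h => ⟨mem_univ _, h⟩⟩

/-- good sets of vertices -/
def Good {n : ℕ} (L : Finset (Finset (Fin n))) (E : Finset (Fin n)) : Prop :=
  ∃ F ∈ L, F.card ≤ E.card ∧ ∀ w ∈ E, insert w F ∉ L

namespace GoodFaux

/-- every vertex has a non-neighbour -/
theorem antipode {n q : ℕ} {L : Finset (Finset (Fin n))} (hL : HSph L q) (hf : Flag L)
    {w : Fin n} (hw : ({w} : Finset (Fin n)) ∈ L) :
    ∃ x : Fin n, ({x} : Finset (Fin n)) ∈ L ∧ ({w, x} : Finset (Fin n)) ∉ L := by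
  classical
  by_contra hcon
  push Not at hcon
  obtain ⟨z, hz0, hzs, hzb, -⟩ := hL.top ∅ hL.cx.1
  rw [card_empty, Nat.sub_zero, lk_empty] at hzs
  have hins : ∀ σ ∈ L, insert w σ ∈ L := by
    intro σ hσ
    apply hf
    intro a ha b hb
    have hv : ∀ y ∈ σ, ({w, y} : Finset (Fin n)) ∈ L := fun y hy =>
      hcon y (hL.cx.2 _ hσ _ (singleton_subset_iff.2 hy))
    rw [mem_insert] at ha hb
    rcases ha with rfl | ha <;> rcases hb with rfl | hb
    · rwa [pair_eq_singleton]
    · exact hv b hb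
    · rw [pair_comm]
      exact hv a ha
    · refine hL.cx.2 _ hσ _ ?_
      intro y hy
      rw [mem_insert, mem_singleton] at hy
      rcases hy with rfl | rfl
      · exact ha
      · exact hb
  have hzw : ∀ σ, z σ ≠ 0 → w ∈ σ := by
    intro σ hσ
    by_contra h
    have h1 := hzs σ hσ
    have h2 := hL.card_le _ (hins σ h1.1)
    rw [card_insert_of_notMem h, h1.2] at h2
    omega
  apply hz0
  funext σ
  by_contra hne
  have hwσ := hzw σ hne
  have h3 := hzb (σ.erase w)
  unfold bdr at h3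
  rw [sum_eq_single w] at h3
  · rw [insert_erase hwσ] at h3
    exact hne h3
  · intro v _ hvw
    by_contra h4
    have h5 := hzw _ h4
    rw [mem_insert] at h5
    rcases h5 with h5 | h5
    · exact hvw h5.symm
    · exact (notMem_erase w σ) h5
  · intro h
    exact absurd (mem_compl.2 (notMem_erase w σ)) h

theorem mem_vx_lk {n : ℕ} {L : Finset (Finset (Fin n))} {x y : Fin n} :
    y ∈ vx (lk L {x}) ↔ y ≠ x ∧ ({y, x} : Finset (Fin n)) ∈ L := by
  rw [mem_vx, mem_lk, disjoint_singleton_left, mem_singleton]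
  rfl

/-- a vertex `w`, its non-neighbour `x`, the vertices of the link of `x` -/
theorem vx_lk_sub {n q : ℕ} {L : Finset (Finset (Fin n))} (hL : HSph L q) {w x : Fin n}
    (hw : ({w} : Finset (Fin n)) ∈ L) (hx : ({x} : Finset (Fin n)) ∈ L)
    (hwx : ({w, x} : Finset (Fin n)) ∉ L) :
    w ≠ x ∧ vx (lk L {x}) ⊆ ((vx L).erase w).erase x := by
  have hne : w ≠ x := by
    rintro rfl
    rw [pair_eq_singleton] at hwx
    exact hwx hw
  refine ⟨hne, fun y hy => ?_⟩
  rw [mem_vx_lk] at hy
  rw [mem_erase, mem_erase, mem_vx]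
  refine ⟨hy.1, ?_, hL.cx.2 _ hy.2 _ (singleton_subset_iff.2 (mem_insert_self _ _))⟩
  rintro rfl
  exact hwx hy.2

theorem card_vx {n : ℕ} : ∀ (q : ℕ) (L : Finset (Finset (Fin n))), HSph L q → Flag L →
    2 * q ≤ (vx L).card := by
  intro q
  induction q with
  | zero => intro L _ _; omega
  | succ q ih =>
    intro L hL hf
    obtain ⟨F, hF, hc⟩ := exists_facet hL
    obtain ⟨w, hwF⟩ : F.Nonempty := card_pos.1 (by omega)
    have hw : ({w} : Finset (Fin n)) ∈ L := hL.cx.2 _ hF _ (singleton_subset_iff.2 hwF)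
    obtain ⟨x, hx, hwx⟩ := antipode hL hf hw
    obtain ⟨hne, hsub⟩ := vx_lk_sub hL hw hx hwx
    have hl : HSph (lk L {x}) q := by
      have := hL.lk hx
      rwa [Nat.add_sub_cancel] at this
    have h1 := ih _ hl (flag_lk hL.cx hf hx)
    have h2 := card_le_card hsub
    have h3 : (((vx L).erase w).erase x).card + 2 = (vx L).card := by
      rw [card_erase_of_mem (mem_erase.2 ⟨hne.symm, mem_vx.2 hx⟩),
        card_erase_of_mem (mem_vx.2 hw)]
      have : 2 ≤ (vx L).card := by
        have h4 : ({w, x} : Finset (Fin n)) ⊆ vx L := by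
          intro y hy
          rw [mem_insert, mem_singleton] at hy
          rcases hy with rfl | rfl
          · exact mem_vx.2 hw
          · exact mem_vx.2 hx
        have := card_le_card h4
        rwa [card_pair hne] at this
      omega
    omega

/-- gluing -/
theorem good_glue {n : ℕ} {L : Finset (Finset (Fin n))} (hc : IsCx L) {w x : Fin n}
    (hwx : ({w, x} : Finset (Fin n)) ∉ L) {E E' : Finset (Fin n)} (hwE : w ∈ E)
    (hxE : x ∉ E) (hE' : E' ⊆ E) (hwE' : w ∉ E')
    (hEE : ∀ y ∈ E, y ∈ vx (lk L {x}) → y ∈ E') (hg : Good (lk L {x}) E') : Good L E := by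
  classical
  obtain ⟨F', hF', hcard, hno⟩ := hg
  have hF := mem_lk.1 hF'
  have hxF : x ∉ F' := disjoint_singleton_right.1 hF.1
  have hins : F' ∪ {x} = insert x F' := by rw [union_comm, ← insert_eq]
  rw [hins] at hF
  refine ⟨insert x F', hF.2, ?_, ?_⟩
  · rw [card_insert_of_notMem hxF]
    have : E' ⊂ E := (ssubset_iff_of_subset hE').2 ⟨w, hwE, hwE'⟩
    have := card_lt_card this
    omega
  · intro y hy hyL
    have hyx : y ≠ x := fun h => hxE (h ▸ hy)
    have h1 : ({y, x} : Finset (Fin n)) ∈ L := hc.2 _ hyL _ (by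
      intro u hu
      rw [mem_insert, mem_singleton] at hu
      rcases hu with rfl | rfl
      · exact mem_insert_self _ _
      · exact mem_insert_of_mem (mem_insert_self _ _))
    have h2 : y ∈ E' := hEE y hy (mem_vx_lk.2 ⟨hyx, h1⟩)
    apply hno y h2
    rw [mem_lk]
    refine ⟨?_, ?_⟩
    · rw [disjoint_singleton_right, mem_insert, not_or]
      exact ⟨hyx.symm, hxF⟩
    · have : insert y F' ∪ {x} = insert y (insert x F') := by
        rw [insert_union, hins]
      rw [this]
      exact hyL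

open Classical in
/-- the number of good sets with `e` elements -/
noncomputable def gn {n : ℕ} (L : Finset (Finset (Fin n))) (e : ℕ) : ℕ :=
  (((vx L).powersetCard e).filter (fun E => Good L E)).card

open Classical in
/-- the number of good sets with `e` elements containing `w` -/
noncomputable def gw {n : ℕ} (L : Finset (Finset (Fin n))) (e : ℕ) (w : Fin n) : ℕ :=
  ((((vx L).powersetCard e).filter (fun E => Good L E)).filter (fun E => w ∈ E)).card

theorem sum_gw {n : ℕ} (L : Finset (Finset (Fin n))) (e : ℕ) :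
    ∑ w ∈ vx L, gw L e w = e * gn L e := by
  classical
  unfold gw gn
  simp only [card_filter (fun E => _ ∈ E)]
  rw [sum_comm]
  have : ∀ E ∈ ((vx L).powersetCard e).filter (fun E => Good L E),
      ∑ w ∈ vx L, (if w ∈ E then 1 else 0) = e := by
    intro E hE
    rw [mem_filter, mem_powersetCard] at hE
    rw [← card_filter, filter_mem_eq_inter, inter_eq_right.2 hE.1.1, hE.1.2]
  rw [sum_congr rfl this, sum_const, smul_eq_mul, mul_comm]

theorem gw_ge {n q : ℕ} {L : Finset (Finset (Fin n))} (hL : HSph L q)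
    {w x : Fin n} (hw : ({w} : Finset (Fin n)) ∈ L) (hx : ({x} : Finset (Fin n)) ∈ L)
    (hwx : ({w, x} : Finset (Fin n)) ∉ L) (f : ℕ) :
    ∑ a ∈ range (f + 1), gn (lk L {x}) a *
      ((vx L).card - 2 - (vx (lk L {x})).card).choose (f - a) ≤ gw L (f + 1) w := by
  classical
  obtain ⟨hne, hsub⟩ := vx_lk_sub hL hw hx hwx
  set V' := vx (lk L {x}) with hV'
  set R := (((vx L).erase w).erase x) \ V' with hR
  have hRc : R.card = (vx L).card - 2 - V'.card := by
    rw [hR, card_sdiff_of_subset hsub,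
      card_erase_of_mem (mem_erase.2 ⟨hne.symm, mem_vx.2 hx⟩), card_erase_of_mem (mem_vx.2 hw)]
    omega
  have hwV : w ∉ V' := fun h => by
    have := hsub h
    simp at this
  have hxV : x ∉ V' := fun h => by
    have := hsub h
    simp at this
  have hwR : w ∉ R := fun h => by
    rw [hR, mem_sdiff] at h
    simp at h
  have hxR : x ∉ R := fun h => by
    rw [hR, mem_sdiff] at h
    simp at h
  have hRV : ∀ y ∈ R, y ∉ V' := fun y hy => (mem_sdiff.1 hy).2
  have hRL : ∀ y ∈ R, y ∈ vx L := fun y hy => by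
    have := (mem_sdiff.1 hy).1
    rw [mem_erase, mem_erase] at this
    exact this.2.2
  have hVL : ∀ y ∈ V', y ∈ vx L := fun y hy => by
    have := hsub hy
    rw [mem_erase, mem_erase] at this
    exact this.2.2
  let S : Finset (Σ _ : ℕ, Finset (Fin n) × Finset (Fin n)) :=
    (range (f + 1)).sigma fun a =>
      ((V'.powersetCard a).filter (fun E => Good (lk L {x}) E)) ×ˢ (R.powersetCard (f - a))
  have hS : S.card = ∑ a ∈ range (f + 1), gn (lk L {x}) a *
      ((vx L).card - 2 - V'.card).choose (f - a) := by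
    rw [card_sigma]
    refine sum_congr rfl fun a _ => ?_
    rw [card_product, card_powersetCard, hRc]
    rfl
  rw [← hS]
  unfold gw
  refine card_le_card_of_injOn (fun s => insert w (s.2.1 ∪ s.2.2)) ?_ ?_
  · rintro ⟨a, E', E''⟩ hs
    rw [mem_coe, mem_sigma] at hs
    simp only [mem_product, mem_filter, mem_powersetCard, mem_range] at hs
    obtain ⟨ha, ⟨⟨h1, h2⟩, h3⟩, h4, h5⟩ := hs
    have hdis : Disjoint E' E'' := by
      rw [Finset.disjoint_left]
      intro y hy hy'
      exact hRV y (h4 hy') (h1 hy)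
    have hwu : w ∉ E' ∪ E'' := by
      rw [mem_union, not_or]
      exact ⟨fun h => hwV (h1 h), fun h => hwR (h4 h)⟩
    rw [mem_coe, mem_filter, mem_filter, mem_powersetCard]
    refine ⟨⟨⟨?_, ?_⟩, ?_⟩, mem_insert_self _ _⟩
    · intro y hy
      rw [mem_insert, mem_union] at hy
      rcases hy with rfl | hy | hy
      · exact mem_vx.2 hw
      · exact hVL y (h1 hy)
      · exact hRL y (h4 hy)
    · rw [card_insert_of_notMem hwu, card_union_of_disjoint hdis, h2, h5]
      omega
    · refine good_glue hL.cx hwx (mem_insert_self _ _) ?_ ?_ (fun h => hwV (h1 h)) ?_ h3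
      · rw [mem_insert, mem_union]
        rintro (h | h | h)
        · exact hne h.symm
        · exact hxV (h1 h)
        · exact hxR (h4 h)
      · exact subset_union_left.trans (subset_insert _ _)
      · intro y hy hyV
        rw [mem_insert, mem_union] at hy
        rcases hy with rfl | hy | hy
        · exact absurd hyV hwV
        · exact hy
        · exact absurd hyV (hRV y (h4 hy))
  · rintro ⟨a, E', E''⟩ hs ⟨b, G', G''⟩ ht heq
    rw [mem_coe, mem_sigma] at hs ht
    simp only [mem_product, mem_filter, mem_powersetCard, mem_range] at hs ht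
    obtain ⟨ha, ⟨⟨h1, h2⟩, h3⟩, h4, h5⟩ := hs
    obtain ⟨hb, ⟨⟨k1, k2⟩, k3⟩, k4, k5⟩ := ht
    have e1 : E' = G' := by
      have : ∀ (A B : Finset (Fin n)), A ⊆ V' → B ⊆ R → (insert w (A ∪ B)) ∩ V' = A := by
        intro A B hA hB
        ext y
        rw [mem_inter, mem_insert, mem_union]
        constructor
        · rintro ⟨rfl | h | h, hy⟩
          · exact absurd hy hwV
          · exact h
          · exact absurd hy (hRV y (hB h))
        · exact fun h => ⟨Or.inr (Or.inl h), hA h⟩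
      rw [← this E' E'' h1 h4, ← this G' G'' k1 k4]
      simp only at heq
      rw [heq]
    have e2 : E'' = G'' := by
      have : ∀ (A B : Finset (Fin n)), A ⊆ V' → B ⊆ R → (insert w (A ∪ B)) ∩ R = B := by
        intro A B hA hB
        ext y
        rw [mem_inter, mem_insert, mem_union]
        constructor
        · rintro ⟨rfl | h | h, hy⟩
          · exact absurd hy hwR
          · exact absurd (hA h) (hRV y hy)
          · exact h
        · exact fun h => ⟨Or.inr (Or.inr h), hB h⟩
      rw [← this E' E'' h1 h4, ← this G' G'' k1 k4]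
      simp only at heq
      rw [heq]
    subst e1 e2
    have : a = b := by rw [← h2, ← k2]
    subst this
    rfl
end GoodFaux

namespace GoodFaux

/-- the fraction for the cross-polytope -/
def pr (p a : ℕ) : ℚ := (p.choose a : ℚ) * 2 ^ a / ((2 * p).choose a : ℚ)

theorem pr_step {p a : ℕ} (h : a + 1 ≤ p) : pr p (a + 1) ≤ pr p a := by
  unfold pr
  have h1 : (p.choose (a + 1) : ℚ) * ((a : ℚ) + 1) = p.choose a * ((p : ℚ) - a) := by
    have := Nat.choose_succ_right_eq p a
    have h2 : ((p - a : ℕ) : ℚ) = (p : ℚ) - a := by rw [Nat.cast_sub (by omega)]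
    rw [← h2]
    exact_mod_cast this
  have h2 : ((2 * p).choose (a + 1) : ℚ) * ((a : ℚ) + 1) = (2 * p).choose a * (2 * (p : ℚ) - a) := by
    have := Nat.choose_succ_right_eq (2 * p) a
    have h2 : ((2 * p - a : ℕ) : ℚ) = 2 * (p : ℚ) - a := by
      rw [Nat.cast_sub (by omega)]; push_cast; ring
    rw [← h2]
    exact_mod_cast this
  have hpos1 : (0 : ℚ) < (2 * p).choose a := by
    exact_mod_cast Nat.choose_pos (by omega)
  have hpos2 : (0 : ℚ) < (2 * p).choose (a + 1) := by
    exact_mod_cast Nat.choose_pos (by omega)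
  have hpos3 : (0 : ℚ) ≤ p.choose a := by positivity
  rw [div_le_div_iff₀ hpos2 hpos1]
  have ha : (0 : ℚ) < (a : ℚ) + 1 := by positivity
  have hap : (a : ℚ) + 1 ≤ p := by exact_mod_cast h
  have h3 : (p.choose (a + 1) : ℚ) * 2 ^ (a + 1) * (2 * p).choose a * ((a : ℚ) + 1) ≤
      (p.choose a : ℚ) * 2 ^ a * (2 * p).choose (a + 1) * ((a : ℚ) + 1) := by
    have e1 : (p.choose (a + 1) : ℚ) * 2 ^ (a + 1) * (2 * p).choose a * ((a : ℚ) + 1) =
        (p.choose a * 2 ^ a * (2 * p).choose a) * (2 * ((p : ℚ) - a)) := by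
      rw [pow_succ]
      linear_combination (2 ^ a * 2 * ((2 * p).choose a : ℚ)) * h1
    have e2 : (p.choose a : ℚ) * 2 ^ a * (2 * p).choose (a + 1) * ((a : ℚ) + 1) =
        (p.choose a * 2 ^ a * (2 * p).choose a) * (2 * (p : ℚ) - a) := by
      linear_combination ((p.choose a : ℚ) * 2 ^ a) * h2
    rw [e1, e2]
    refine mul_le_mul_of_nonneg_left ?_ (by positivity)
    have : (0 : ℚ) ≤ a := Nat.cast_nonneg a
    linarith
  exact le_of_mul_le_mul_right h3 ha

theorem pr_anti {p b : ℕ} (hb : b ≤ p) : ∀ a ≤ b, pr p b ≤ pr p a := by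
  intro a hab
  obtain ⟨c, rfl⟩ : ∃ c, b = a + c := ⟨b - a, by omega⟩
  clear hab
  induction c with
  | zero => exact le_rfl
  | succ c ih => exact (pr_step (by omega)).trans (ih (by omega))

theorem pr_nonneg (p a : ℕ) : 0 ≤ pr p a := by unfold pr; positivity

theorem fin_arith (p f D : ℕ) (hf : f ≤ p) (hD : 2 * (p + 1) ≤ D) (g : ℚ)
    (hg : (D : ℚ) * (pr p f * ((D - 2).choose f : ℚ)) ≤ ((f : ℚ) + 1) * g) :
    (D.choose (f + 1) : ℚ) * (((p + 1).choose (f + 1) : ℚ) * 2 ^ (f + 1)) ≤
      g * ((2 * (p + 1)).choose (f + 1) : ℚ) := by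
  obtain ⟨E, rfl⟩ : ∃ E, D = E + 2 := ⟨D - 2, by omega⟩
  rw [Nat.add_sub_cancel] at hg
  have a1 : ((E : ℚ) + 2) * ((E + 1).choose f : ℚ) = ((E + 2).choose (f + 1) : ℚ) * ((f : ℚ) + 1) := by
    have := Nat.add_one_mul_choose_eq (E + 1) f
    have h2 : ((E + 2 : ℕ) : ℚ) = (E : ℚ) + 2 := by push_cast; ring
    rw [← h2]
    exact_mod_cast this
  have a2 : (E.choose f : ℚ) * ((E : ℚ) + 1) = ((E + 1).choose f : ℚ) * ((E : ℚ) + 1 - f) := by
    have := Nat.choose_mul_succ_eq E f
    have h2 : ((E + 1 - f : ℕ) : ℚ) = (E : ℚ) + 1 - f := by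
      rw [Nat.cast_sub (by omega)]; push_cast; ring
    rw [← h2]
    exact_mod_cast this
  have a3 : ((p : ℚ) + 1) * (p.choose f : ℚ) = ((p + 1).choose (f + 1) : ℚ) * ((f : ℚ) + 1) := by
    have := Nat.add_one_mul_choose_eq p f
    exact_mod_cast this
  have a4 : (2 * (p : ℚ) + 2) * ((2 * p + 1).choose f : ℚ) =
      ((2 * (p + 1)).choose (f + 1) : ℚ) * ((f : ℚ) + 1) := by
    have := Nat.add_one_mul_choose_eq (2 * p + 1) f
    have h2 : ((2 * p + 1 + 1 : ℕ) : ℚ) = 2 * (p : ℚ) + 2 := by push_cast; ring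
    rw [← h2]
    have h3 : 2 * (p + 1) = 2 * p + 1 + 1 := by ring
    rw [h3]
    exact_mod_cast this
  have a5 : ((2 * p).choose f : ℚ) * (2 * (p : ℚ) + 1) =
      ((2 * p + 1).choose f : ℚ) * (2 * (p : ℚ) + 1 - f) := by
    have := Nat.choose_mul_succ_eq (2 * p) f
    have h2 : ((2 * p + 1 - f : ℕ) : ℚ) = 2 * (p : ℚ) + 1 - f := by
      rw [Nat.cast_sub (by omega)]; push_cast; ring
    rw [← h2]
    exact_mod_cast this
  have hQ0 : (0 : ℚ) < (2 * p).choose f := by exact_mod_cast Nat.choose_pos (by omega)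
  have hQ2 : (0 : ℚ) < (2 * p + 1).choose f := by exact_mod_cast Nat.choose_pos (by omega)
  have hB : (0 : ℚ) < (E + 1).choose f := by exact_mod_cast Nat.choose_pos (by omega)
  have hfp : (f : ℚ) ≤ p := by exact_mod_cast hf
  have hDp : 2 * ((p : ℚ) + 1) ≤ (E : ℚ) + 2 := by exact_mod_cast hD
  have hf0 : (0 : ℚ) ≤ f := Nat.cast_nonneg f
  have hp0 : (0 : ℚ) ≤ p := Nat.cast_nonneg p
  have hE0 : (0 : ℚ) ≤ E := Nat.cast_nonneg E
  set A : ℚ := ((E + 2).choose (f + 1) : ℚ)
  set B : ℚ := ((E + 1).choose f : ℚ)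
  set Cc : ℚ := (E.choose f : ℚ)
  set P1 : ℚ := ((p + 1).choose (f + 1) : ℚ)
  set P0 : ℚ := (p.choose f : ℚ) with hP0
  set Q1 : ℚ := ((2 * (p + 1)).choose (f + 1) : ℚ)
  set Q2 : ℚ := ((2 * p + 1).choose f : ℚ)
  set Q0 : ℚ := ((2 * p).choose f : ℚ)
  have hP0n : 0 ≤ P0 := by rw [hP0]; positivity
  -- `B * Q0 ≤ Cc * Q2`
  have key : B * Q0 ≤ Cc * Q2 := by
    have h1 : 0 < ((E : ℚ) + 1) * (2 * (p : ℚ) + 1) := by positivity
    have h2 : B * Q0 * (((E : ℚ) + 1) * (2 * (p : ℚ) + 1)) ≤
        Cc * Q2 * (((E : ℚ) + 1) * (2 * (p : ℚ) + 1)) := by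
      have e1 : B * Q0 * (((E : ℚ) + 1) * (2 * (p : ℚ) + 1)) =
          (B * Q2) * (((E : ℚ) + 1) * (2 * (p : ℚ) + 1 - f)) := by
        linear_combination (B * ((E : ℚ) + 1)) * a5
      have e2 : Cc * Q2 * (((E : ℚ) + 1) * (2 * (p : ℚ) + 1)) =
          (B * Q2) * (((E : ℚ) + 1 - f) * (2 * (p : ℚ) + 1)) := by
        linear_combination (Q2 * (2 * (p : ℚ) + 1)) * a2
      rw [e1, e2]
      refine mul_le_mul_of_nonneg_left ?_ (by positivity)
      nlinarith
    exact le_of_mul_le_mul_right h2 h1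
  have hT : (0 : ℚ) < (f : ℚ) + 1 := by positivity
  have hg2 : ((E : ℚ) + 2) * (P0 * 2 ^ f * Cc) ≤ ((f : ℚ) + 1) * g * Q0 := by
    have h1 : ((E + 2 : ℕ) : ℚ) = (E : ℚ) + 2 := by push_cast; ring
    rw [h1] at hg
    have h2 := mul_le_mul_of_nonneg_right hg hQ0.le
    have h3 : ((E : ℚ) + 2) * (pr p f * Cc) * Q0 = ((E : ℚ) + 2) * (P0 * 2 ^ f * Cc) := by
      have h4 : pr p f = P0 * 2 ^ f / Q0 := rfl
      rw [h4]
      field_simp
    rwa [h3] at h2
  have h4 : ((E : ℚ) + 2) * (P0 * 2 ^ f * B) ≤ ((f : ℚ) + 1) * g * Q2 := by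
    have h5 : ((E : ℚ) + 2) * (P0 * 2 ^ f * B) * Q0 ≤ ((f : ℚ) + 1) * g * Q2 * Q0 := by
      calc ((E : ℚ) + 2) * (P0 * 2 ^ f * B) * Q0 = ((E : ℚ) + 2) * P0 * 2 ^ f * (B * Q0) := by ring
        _ ≤ ((E : ℚ) + 2) * P0 * 2 ^ f * (Cc * Q2) := by gcongr
        _ = ((E : ℚ) + 2) * (P0 * 2 ^ f * Cc) * Q2 := by ring
        _ ≤ ((f : ℚ) + 1) * g * Q0 * Q2 := by gcongr
        _ = _ := by ring
    exact le_of_mul_le_mul_right h5 hQ0
  have h6 : A * (P1 * 2 ^ (f + 1)) * (((f : ℚ) + 1) * ((f : ℚ) + 1)) ≤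
      g * Q1 * (((f : ℚ) + 1) * ((f : ℚ) + 1)) := by
    have e1 : A * (P1 * 2 ^ (f + 1)) * (((f : ℚ) + 1) * ((f : ℚ) + 1)) =
        (2 * ((p : ℚ) + 1)) * (((E : ℚ) + 2) * (P0 * 2 ^ f * B)) := by
      rw [pow_succ]
      have : A * (P1 * (2 ^ f * 2)) * (((f : ℚ) + 1) * ((f : ℚ) + 1)) =
          (A * ((f : ℚ) + 1)) * (P1 * ((f : ℚ) + 1)) * (2 ^ f * 2) := by ring
      rw [this, ← a1, ← a3]
      ring
    have e2 : g * Q1 * (((f : ℚ) + 1) * ((f : ℚ) + 1)) =
        (2 * ((p : ℚ) + 1)) * (((f : ℚ) + 1) * g * Q2) := by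
      have : g * Q1 * (((f : ℚ) + 1) * ((f : ℚ) + 1)) =
          g * (Q1 * ((f : ℚ) + 1)) * ((f : ℚ) + 1) := by ring
      rw [this, ← a4]
      ring
    rw [e1, e2]
    exact mul_le_mul_of_nonneg_left h4 (by positivity)
  exact le_of_mul_le_mul_right h6 (by positivity)

theorem vand (D' R f : ℕ) : ∑ a ∈ range (f + 1), D'.choose a * R.choose (f - a) =
    (D' + R).choose f := by
  rw [Nat.add_choose_eq, Finset.Nat.sum_antidiagonal_eq_sum_range_succ_mk]

theorem main {n : ℕ} : ∀ (q : ℕ) (L : Finset (Finset (Fin n))), HSph L q → Flag L → ∀ e : ℕ,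
    ((vx L).card.choose e : ℚ) * ((q.choose e : ℚ) * 2 ^ e) ≤
      (gn L e : ℚ) * ((2 * q).choose e : ℚ) := by
  classical
  intro q
  induction q with
  | zero =>
    intro L hL hf e
    cases e with
    | zero =>
      have : 1 ≤ gn L 0 := by
        unfold gn
        refine card_pos.2 ⟨∅, ?_⟩
        rw [mem_filter, mem_powersetCard]
        exact ⟨⟨empty_subset _, rfl⟩, ∅, hL.cx.1, le_rfl, fun w hw => absurd hw (notMem_empty w)⟩
      have h1 : (1 : ℚ) ≤ gn L 0 := by exact_mod_cast this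
      simpa using h1
    | succ f =>
      rw [Nat.choose_zero_succ]
      simp
  | succ p ih =>
    intro L hL hf e
    cases e with
    | zero =>
      have : 1 ≤ gn L 0 := by
        unfold gn
        refine card_pos.2 ⟨∅, ?_⟩
        rw [mem_filter, mem_powersetCard]
        exact ⟨⟨empty_subset _, rfl⟩, ∅, hL.cx.1, le_rfl, fun w hw => absurd hw (notMem_empty w)⟩
      have h1 : (1 : ℚ) ≤ gn L 0 := by exact_mod_cast this
      simpa using h1
    | succ f =>
      rcases Nat.lt_or_ge p f with hpf | hpf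
      · rw [Nat.choose_eq_zero_of_lt (show p + 1 < f + 1 by omega)]
        have : (0 : ℚ) ≤ (gn L (f + 1) : ℚ) * ((2 * (p + 1)).choose (f + 1) : ℚ) := by positivity
        simpa using this
      · refine fin_arith p f _ hpf (card_vx (p + 1) L hL hf) _ ?_
        have hD := card_vx (p + 1) L hL hf
        have hone : ∀ w ∈ vx L, pr p f * (((vx L).card - 2).choose f : ℚ) ≤ (gw L (f + 1) w : ℚ) := by
          intro w hw
          rw [mem_vx] at hw
          obtain ⟨x, hx, hwx⟩ := antipode hL hf hw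
          obtain ⟨hne, hsub⟩ := vx_lk_sub hL hw hx hwx
          have hl : HSph (lk L {x}) p := by
            have := hL.lk hx
            rwa [Nat.add_sub_cancel] at this
          have hD' : (vx (lk L {x})).card + ((vx L).card - 2 - (vx (lk L {x})).card) =
              (vx L).card - 2 := by
            have h2 := card_le_card hsub
            rw [card_erase_of_mem (mem_erase.2 ⟨hne.symm, mem_vx.2 hx⟩),
              card_erase_of_mem (mem_vx.2 hw)] at h2
            omega
          have h1 := gw_ge hL hw hx hwx f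
          have h2 : ((∑ a ∈ range (f + 1), gn (lk L {x}) a *
              ((vx L).card - 2 - (vx (lk L {x})).card).choose (f - a) : ℕ) : ℚ) ≤
              (gw L (f + 1) w : ℚ) := by exact_mod_cast h1
          refine le_trans ?_ h2
          have hv := vand (vx (lk L {x})).card ((vx L).card - 2 - (vx (lk L {x})).card) f
          rw [hD'] at hv
          rw [← hv]
          push_cast
          rw [mul_sum]
          refine sum_le_sum fun a ha => ?_
          rw [mem_range] at ha
          rw [← mul_assoc]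
          refine mul_le_mul_of_nonneg_right ?_ (Nat.cast_nonneg _)
          have h3 := ih _ hl (flag_lk hL.cx hf hx) a
          have hpos : (0 : ℚ) < ((2 * p).choose a : ℚ) := by
            exact_mod_cast Nat.choose_pos (by omega)
          have h4 : ((vx (lk L {x})).card.choose a : ℚ) * pr p a ≤ (gn (lk L {x}) a : ℚ) := by
            unfold pr
            rw [← mul_div_assoc, div_le_iff₀ hpos]
            exact h3
          refine le_trans ?_ h4
          rw [mul_comm]
          exact mul_le_mul_of_nonneg_left (pr_anti hpf a (by omega)) (Nat.cast_nonneg _)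
        have hsum : ((vx L).card : ℚ) * (pr p f * (((vx L).card - 2).choose f : ℚ)) ≤
            ((∑ w ∈ vx L, gw L (f + 1) w : ℕ) : ℚ) := by
          push_cast
          have := Finset.card_nsmul_le_sum (vx L) (fun w => (gw L (f + 1) w : ℚ)) _ hone
          rwa [nsmul_eq_mul] at this
        rw [sum_gw] at hsum
        push_cast at hsum
        exact hsum

end GoodFaux

open Classical in
theorem good_frac {n q : ℕ} {L : Finset (Finset (Fin n))} (hL : HSph L q) (hf : Flag L)
    (e : ℕ) : ((vx L).card.choose e : ℚ) * ((q.choose e : ℚ) * 2 ^ e) ≤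
      ((((vx L).powersetCard e).filter (fun E => Good L E)).card : ℚ) * ((2 * q).choose e : ℚ) :=
  GoodFaux.main q L hL hf e

end Pool.Agent.H861.GL
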