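import Pool.Agent.H861.GL.Sys
import Pool.Agent.H861.GL.Avg
import Pool.Agent.H861.GL.GoodF
import Pool.Agent.H861.GL.Cnt

/-!
# GL/Fin3: `g`-numbers of flag homology spheres grow linearly with the number of vertices
-/

set_option autoImplicit false

namespace Pool.Agent.H861.GL

open Finset Pool.Agent.W555.KS Pool.Agent.Y131.KS

theorem ballot_nonneg {m j : ℕ} (hj : 2 * j ≤ m + 1) : 0 ≤ ballot m j := by
  unfold ballot
  rcases Nat.eq_zero_or_pos j with rfl | h0
  · simp
  · obtain ⟨i, rfl⟩ : ∃ i, j = i + 1 := ⟨j - 1, by omega⟩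
    rw [if_neg (by omega), Nat.add_sub_cancel]
    have h1 := Nat.choose_succ_right_eq m i
    have h2 : i + 1 ≤ m - i := by omega
    have h3 : m.choose i * (i + 1) ≤ m.choose (i + 1) * (i + 1) := by
      rw [h1]
      exact Nat.mul_le_mul_left _ h2
    have h4 : m.choose i ≤ m.choose (i + 1) := Nat.le_of_mul_le_mul_right h3 (by omega)
    have h5 : (m.choose i : ℤ) ≤ m.choose (i + 1) := by exact_mod_cast h4
    linarith

theorem ballot_step {m j : ℕ} (hj : 2 * j ≤ m + 1) : ballot m j ≤ ballot (m + 1) j := by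
  rcases Nat.eq_zero_or_pos j with rfl | h0
  · unfold ballot
    simp
  · obtain ⟨i, rfl⟩ : ∃ i, j = i + 1 := ⟨j - 1, by omega⟩
    have h1 := gco_one_add_X_mul ((1 + Polynomial.X) ^ m) i
    rw [← pow_succ', gco_one_add_X_pow, gco_one_add_X_pow, gco_one_add_X_pow] at h1
    have h2 := ballot_nonneg (m := m) (j := i) (by omega)
    linarith

theorem ballot_mono {m m' j : ℕ} (h : m ≤ m') (hj : 2 * j ≤ m + 1) :
    ballot m j ≤ ballot m' j := by
  induction m', h using Nat.le_induction with
  | base => exact le_rfl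
  | succ p hp ih => exact ih.trans (ballot_step (by omega))

/-- the lower bound for a vertex with `e` earlier neighbours -/
def phi (d j e : ℕ) : ℤ := if e + 2 * j + 1 ≤ d then ballot (d - 2 - e) (j - 1) else 0

theorem phi_nonneg (d j e : ℕ) : 0 ≤ phi d j e := by
  unfold phi
  split_ifs with h
  · exact ballot_nonneg (by omega)
  · exact le_rfl

theorem exists_vertex {n q : ℕ} {L : Finset (Finset (Fin n))} (hL : HSph L q) (hq : 1 ≤ q) :
    ∃ u : Fin n, ({u} : Finset (Fin n)) ∈ L := by
  obtain ⟨F, hF, hc⟩ := exists_facet hL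
  obtain ⟨u, hu⟩ := card_pos.1 (by omega : 0 < F.card)
  exact ⟨u, hL.cx.2 _ hF _ (singleton_subset_iff.2 hu)⟩

open Classical in
/-- the inequality for one order of the vertices -/
theorem order_ineq {n d j : ℕ} {K : Finset (Finset (Fin n))} (hK : HSph K d) (hf : Flag K)
    (h1 : 1 ≤ j) (hjd : 2 * j + 1 ≤ d) (σ : Equiv.Perm (Fin n)) :
    ∑ v ∈ vx K, (if Good (lk K {v}) ((vx (lk K {v})).filter fun w => σ w < σ v) then
      phi d j ((vx (lk K {v})).filter fun w => σ w < σ v).card else 0) ≤ gco (hP K d) j := by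
  set E : Fin n → Finset (Fin n) := fun v => (vx (lk K {v})).filter fun w => σ w < σ v with hE
  have hg0 : 0 ≤ gco (hP K d) j :=
    (ballot_nonneg (by omega)).trans (cross_ineq hK hf (by omega : 2 * j ≤ d + 1))
  set S : Finset (Fin n) := (vx K).filter fun v => Good (lk K {v}) (E v) ∧
    (E v).card + 2 * j + 1 ≤ d with hS
  have hsum : ∑ v ∈ vx K, (if Good (lk K {v}) (E v) then phi d j (E v).card else 0) =
      ∑ v ∈ S, phi d j (E v).card := by
    rw [hS, sum_filter]
    refine sum_congr rfl fun v _ => ?_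
    by_cases hgd : Good (lk K {v}) (E v)
    · rw [if_pos hgd]
      by_cases hc : (E v).card + 2 * j + 1 ≤ d
      · rw [if_pos ⟨hgd, hc⟩]
      · rw [if_neg (fun h => hc h.2)]
        unfold phi
        rw [if_neg hc]
    · rw [if_neg hgd, if_neg (fun h => hgd h.1)]
  rw [hsum]
  rcases S.eq_empty_or_nonempty with h0 | hne
  · rw [h0, sum_empty]
    exact hg0
  have hdat : ∀ v, ∃ (G : Finset (Fin n)) (u : Fin n), v ∈ S → (G ∈ K ∧ v ∈ G ∧
      ({u} : Finset (Fin n)) ∈ lk K G ∧ G.card ≤ (E v).card + 1 ∧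
      ∀ w, σ w < σ v → insert w G ∉ K) := by
    intro v
    by_cases hv : v ∈ S
    · rw [hS, mem_filter] at hv
      obtain ⟨hv1, ⟨F, hF, hFc, hFE⟩, hc⟩ := hv
      obtain ⟨hF1, hF2⟩ := mem_lk.1 hF
      have hvF : v ∉ F := by
        rw [disjoint_singleton_right] at hF1
        exact hF1
      have hG : insert v F ∈ K := by
        rw [insert_eq, union_comm]
        exact hF2
      have hGc : (insert v F).card = F.card + 1 := card_insert_of_notMem hvF
      obtain ⟨u, hu⟩ := exists_vertex (hsph_lk hK hG) (by omega)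
      refine ⟨insert v F, u, fun _ => ⟨hG, mem_insert_self _ _, hu, by omega, ?_⟩⟩
      intro w hw hcon
      have hwv : w ≠ v := by
        rintro rfl
        exact lt_irrefl _ hw
      have hwF : w ∉ F → insert w F ∈ lk K {v} := by
        intro _
        rw [mem_lk]
        refine ⟨?_, ?_⟩
        · rw [disjoint_singleton_right, mem_insert]
          rintro (h | h)
          · exact hwv h.symm
          · exact hvF h
        · have : insert w F ∪ {v} = insert w (insert v F) := by
            ext x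
            simp only [mem_union, mem_insert, mem_singleton]
            tauto
          rw [this]
          exact hcon
      have hw2 : w ∈ E v := by
        rw [hE]
        simp only [mem_filter]
        refine ⟨mem_vx.2 ?_, hw⟩
        rw [mem_lk]
        refine ⟨?_, ?_⟩
        · rw [disjoint_singleton_right, mem_singleton]
          exact fun h => hwv h.symm
        · refine hK.cx.2 _ hcon _ ?_
          intro x hx
          simp only [mem_union, mem_singleton, mem_insert] at hx ⊢
          tauto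
      have h5 := hFE w hw2
      by_cases hwF' : w ∈ F
      · rw [insert_eq_of_mem hwF'] at h5
        exact h5 hF
      · exact h5 (hwF hwF')
    · exact ⟨∅, v, fun h => absurd h hv⟩
  choose G u hGu using hdat
  have hScard : ∀ v ∈ S, (E v).card + 2 * j + 1 ≤ d := fun v hv => by
    rw [hS, mem_filter] at hv
    exact hv.2.2
  have key := chain hK hf h1 S (fun v => (σ v : ℕ)) (by
      intro a _ b _ hab
      exact σ.injective (Fin.ext hab)) G u (fun v hv => (hGu v hv).1)
    (fun v hv => (hGu v hv).2.1) (fun v hv => (hGu v hv).2.2.1)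
    (fun v hv => by
      have h2 := (hGu v hv).2.2.2.1
      have h3 := hScard v hv
      omega)
    (fun v hv w _ hlt => (hGu v hv).2.2.2.2 w (by exact_mod_cast hlt)) hne
  refine le_trans (sum_le_sum fun v hv => ?_) key
  obtain ⟨h2, h3, h4, h5, -⟩ := hGu v hv
  have h6 := hScard v hv
  unfold phi
  rw [if_pos h6]
  have hL : HSph (lk K (G v)) (d - (G v).card) := hsph_lk hK h2
  have hL' : HSph (lk (lk K (G v)) {u v}) (d - (G v).card - 1) := by
    have := hsph_lk hL h4
    rwa [card_singleton] at this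
  have hf' : Flag (lk (lk K (G v)) {u v}) := flag_lk hL.cx (flag_lk hK.cx hf h2) h4
  refine le_trans ?_ (cross_ineq hL' hf' (by omega : 2 * (j - 1) ≤ d - (G v).card - 1 + 1))
  exact ballot_mono (by omega) (by omega)

/-- the constant -/
noncomputable def kappa (d j : ℕ) : ℚ :=
  ∑ e ∈ range (d - 2 * j), (ballot (d - 2 - e) (j - 1) : ℚ) *
    (((d - 1).choose e : ℚ) * 2 ^ e / ((2 * (d - 1)).choose e : ℚ))

theorem kappa_ineq {n d j : ℕ} {K : Finset (Finset (Fin n))} (hK : HSph K d) (hf : Flag K)
    (h1 : 1 ≤ j) (hjd : 2 * j + 1 ≤ d) :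
    kappa d j * ∑ v ∈ vx K, (1 : ℚ) / ((vx (lk K {v})).card + 1) ≤ (gco (hP K d) j : ℚ) := by
  classical
  have key := avg (vx K) (fun v => vx (lk K {v})) (by
      intro v _ hv
      rw [mem_vx, mem_lk] at hv
      simp at hv)
    (fun v E => if Good (lk K {v}) E then (phi d j E.card : ℚ) else 0) (gco (hP K d) j : ℚ) (by
      intro σ
      have h := order_ineq hK hf h1 hjd σ
      have h' : (((∑ v ∈ vx K, (if Good (lk K {v}) ((vx (lk K {v})).filter fun w => σ w < σ v) then
        phi d j ((vx (lk K {v})).filter fun w => σ w < σ v).card else 0) : ℤ)) : ℚ) ≤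
          (gco (hP K d) j : ℚ) := by exact_mod_cast h
      refine le_trans (le_of_eq ?_) h'
      push_cast
      refine sum_congr rfl fun v _ => ?_
      split_ifs <;> simp)
  refine le_trans ?_ key
  rw [mul_sum]
  refine sum_le_sum fun v hv => ?_
  have hv' := mem_vx.1 hv
  have hL : HSph (lk K {v}) (d - 1) := by
    have := hsph_lk hK hv'
    rwa [card_singleton] at this
  have hfL : Flag (lk K {v}) := flag_lk hK.cx hf hv'
  set D := (vx (lk K {v})).card with hD
  rw [mul_one_div]
  refine div_le_div_of_nonneg_right ?_ (by positivity)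
  rw [sum_powerset]
  rw [← hD]
  -- number of vertices of the link
  have hDd : 2 * (d - 1) ≤ D := GoodFaux.card_vx (d - 1) _ hL hfL
  calc kappa d j = ∑ e ∈ range (d - 2 * j), (phi d j e : ℚ) *
        (((d - 1).choose e : ℚ) * 2 ^ e / ((2 * (d - 1)).choose e : ℚ)) := by
        unfold kappa
        refine sum_congr rfl fun e he => ?_
        rw [mem_range] at he
        unfold phi
        rw [if_pos (by omega)]
    _ ≤ ∑ e ∈ range (d - 2 * j), ∑ E ∈ powersetCard e (vx (lk K {v})),
          (if Good (lk K {v}) E then (phi d j E.card : ℚ) else 0) / (D.choose E.card : ℚ) := by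
        refine sum_le_sum fun e he => ?_
        rw [mem_range] at he
        have h3 := good_frac hL hfL e
        have hDe : (0 : ℚ) < D.choose e := by
          have : 0 < D.choose e := Nat.choose_pos (by omega)
          exact_mod_cast this
        have hqe : (0 : ℚ) < (2 * (d - 1)).choose e := by
          have : 0 < (2 * (d - 1)).choose e := Nat.choose_pos (by omega)
          exact_mod_cast this
        have e1 : ∑ E ∈ powersetCard e (vx (lk K {v})),
          (if Good (lk K {v}) E then (phi d j E.card : ℚ) else 0) / (D.choose E.card : ℚ) =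
            (phi d j e : ℚ) * (((((vx (lk K {v})).powersetCard e).filter
              (fun E => Good (lk K {v}) E)).card : ℚ) / (D.choose e : ℚ)) := by
          have : ∀ E ∈ powersetCard e (vx (lk K {v})),
              (if Good (lk K {v}) E then (phi d j E.card : ℚ) else 0) / (D.choose E.card : ℚ) =
              if Good (lk K {v}) E then (phi d j e : ℚ) / (D.choose e : ℚ) else 0 := by
            intro E hE
            rw [(mem_powersetCard.1 hE).2]
            split_ifs
            · rfl
            · rw [zero_div]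
          rw [sum_congr rfl this, ← sum_filter, sum_const, nsmul_eq_mul]
          ring
        rw [e1]
        refine mul_le_mul_of_nonneg_left ?_ (by exact_mod_cast phi_nonneg d j e)
        rw [div_le_div_iff₀ hqe hDe]
        linarith
    _ ≤ ∑ e ∈ range (D + 1), ∑ E ∈ powersetCard e (vx (lk K {v})),
          (if Good (lk K {v}) E then (phi d j E.card : ℚ) else 0) / (D.choose E.card : ℚ) := by
        refine sum_le_sum_of_subset_of_nonneg ?_ ?_
        · intro e he
          rw [mem_range] at he ⊢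
          omega
        · intro e _ _
          refine sum_nonneg fun E _ => ?_
          refine div_nonneg ?_ (by positivity)
          split_ifs
          · exact_mod_cast phi_nonneg d j E.card
          · exact le_rfl

theorem kappa_nonneg {d j : ℕ} (h1 : 1 ≤ j) : 0 ≤ kappa d j := by
  unfold kappa
  refine sum_nonneg fun e he => ?_
  rw [mem_range] at he
  refine mul_nonneg ?_ (by positivity)
  have : 0 ≤ ballot (d - 2 - e) (j - 1) := ballot_nonneg (by omega)
  exact_mod_cast this

theorem ballot_pos {m j : ℕ} (hj : 2 * j ≤ m) : 0 < ballot m j := by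
  unfold ballot
  rcases Nat.eq_zero_or_pos j with rfl | h0
  · simp
  · obtain ⟨i, rfl⟩ : ∃ i, j = i + 1 := ⟨j - 1, by omega⟩
    rw [if_neg (by omega), Nat.add_sub_cancel]
    have h1 := Nat.choose_succ_right_eq m i
    have h2 : i + 1 < m - i := by omega
    have h3 : m.choose i * (i + 1) < m.choose (i + 1) * (i + 1) := by
      rw [h1]
      exact Nat.mul_lt_mul_of_pos_left h2 (Nat.choose_pos (by omega))
    have h4 : m.choose i < m.choose (i + 1) := Nat.lt_of_mul_lt_mul_right h3
    have h5 : (m.choose i : ℤ) < m.choose (i + 1) := by exact_mod_cast h4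
    linarith

theorem kappa_pos {d j : ℕ} (h1 : 1 ≤ j) (hjd : 2 * j + 1 ≤ d) : 0 < kappa d j := by
  unfold kappa
  have h0 : (0 : ℕ) ∈ range (d - 2 * j) := mem_range.2 (by omega)
  refine sum_pos' (fun e he => ?_) ⟨0, h0, ?_⟩
  · rw [mem_range] at he
    refine mul_nonneg ?_ (by positivity)
    have : 0 ≤ ballot (d - 2 - e) (j - 1) := ballot_nonneg (by omega)
    exact_mod_cast this
  · have h2 : 0 < ballot (d - 2 - 0) (j - 1) := ballot_pos (by omega)
    have h3 : (0 : ℚ) < (ballot (d - 2 - 0) (j - 1) : ℚ) := by exact_mod_cast h2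
    refine mul_pos h3 ?_
    simp

theorem lk_mem_single {n : ℕ} {K : Finset (Finset (Fin n))} {u : Fin n} {G : Finset (Fin n)} :
    ({u} : Finset (Fin n)) ∈ lk K G ↔ u ∉ G ∧ insert u G ∈ K := by
  rw [mem_lk, disjoint_singleton_left, ← insert_eq]

theorem weight_le_one (q e : ℕ) :
    ((q.choose e : ℚ) * 2 ^ e / ((2 * q).choose e : ℚ)) ≤ 1 := by
  have h : q.choose e * 2 ^ e ≤ (2 * q).choose e := by
    induction e with
    | zero => simp
    | succ e ih =>
      have h1 := Nat.choose_succ_right_eq q e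
      have h2 := Nat.choose_succ_right_eq (2 * q) e
      have h3 : q.choose (e + 1) * 2 ^ (e + 1) * (e + 1) ≤ (2 * q).choose (e + 1) * (e + 1) := by
        rw [h2]
        calc q.choose (e + 1) * 2 ^ (e + 1) * (e + 1) =
              (q.choose (e + 1) * (e + 1)) * 2 ^ (e + 1) := by ring
          _ = (q.choose e * 2 ^ e) * (2 * (q - e)) := by rw [h1]; ring
          _ ≤ (2 * q).choose e * (2 * q - e) := Nat.mul_le_mul ih (by omega)
      exact Nat.le_of_mul_le_mul_right h3 (by omega)
  have h' : (q.choose e : ℚ) * 2 ^ e ≤ ((2 * q).choose e : ℚ) := by exact_mod_cast h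
  rcases Nat.eq_zero_or_pos ((2 * q).choose e) with h0 | h0
  · rw [h0]
    simp
  · rw [div_le_one (by exact_mod_cast h0)]
    exact h'

theorem kappa_two_le {d : ℕ} (hd : 5 ≤ d) : kappa d 2 ≤ ((d : ℚ) - 3) * (d - 4) := by
  unfold kappa
  have h1 : ∀ e ∈ range (d - 2 * 2), (ballot (d - 2 - e) (2 - 1) : ℚ) *
      (((d - 1).choose e : ℚ) * 2 ^ e / ((2 * (d - 1)).choose e : ℚ)) ≤ (d : ℚ) - 3 := by
    intro e he
    rw [mem_range] at he
    have h2 : (ballot (d - 2 - e) (2 - 1) : ℚ) = (d : ℚ) - 3 - e := by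
      unfold ballot
      rw [if_neg (by omega)]
      simp only [Nat.choose_one_right, Nat.sub_self, Nat.choose_zero_right, Nat.add_one_sub_one]
      have : ((d - 2 - e : ℕ) : ℤ) = (d : ℤ) - 2 - e := by omega
      rw [this]
      push_cast
      ring
    have h3 := weight_le_one (d - 1) e
    have h4 : (0 : ℚ) ≤ (ballot (d - 2 - e) (2 - 1) : ℚ) := by
      have : 0 ≤ ballot (d - 2 - e) (2 - 1) := ballot_nonneg (by omega)
      exact_mod_cast this
    have h5 : (0 : ℚ) ≤ e := by positivity
    calc _ ≤ (ballot (d - 2 - e) (2 - 1) : ℚ) * 1 := mul_le_mul_of_nonneg_left h3 h4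
      _ ≤ _ := by rw [mul_one, h2]; linarith
  refine (sum_le_sum h1).trans ?_
  rw [sum_const, card_range, nsmul_eq_mul]
  have h6 : ((d - 2 * 2 : ℕ) : ℚ) = (d : ℚ) - 4 := by
    rw [Nat.cast_sub (by omega)]
    norm_num
  rw [h6]
  linarith

theorem lin_two {d a b : ℕ} (h5 : 5 ≤ d)
    (h : kappa d 2 * (a : ℚ) ^ 2 ≤ ((b : ℚ) - d * a + (d + 1).choose 2) * (a + 2 * b))
    (ha : 2 * d ≤ a) :
    kappa d 2 * (a : ℚ) ≤ (4 * d - 5) * ((b : ℚ) - d * a + (d + 1).choose 2) := by
  have h6 : (5 : ℚ) ≤ d := by exact_mod_cast h5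
  have ha' : (2 : ℚ) * d ≤ a := by exact_mod_cast ha
  have ha0 : (0 : ℚ) < a := by linarith
  have hk0 := kappa_pos (d := d) (j := 2) (by omega) (by omega)
  have hb0 : (0 : ℚ) ≤ b := by positivity
  have hc0 : (0 : ℚ) ≤ ((d + 1).choose 2 : ℚ) := by positivity
  by_cases hb : (b : ℚ) ≤ (2 * d - 3) * a
  · have h7 : (a : ℚ) + 2 * b ≤ (4 * d - 5) * a := by linarith
    have h8 : (0 : ℚ) < a + 2 * b := by linarith
    have h9 : 0 < ((b : ℚ) - d * a + (d + 1).choose 2) := by
      by_contra hneg
      push Not at hneg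
      have : 0 < kappa d 2 * (a : ℚ) ^ 2 := by positivity
      nlinarith
    have h10 : kappa d 2 * (a : ℚ) ^ 2 ≤
        ((b : ℚ) - d * a + (d + 1).choose 2) * ((4 * d - 5) * a) :=
      h.trans (mul_le_mul_of_nonneg_left h7 h9.le)
    have h11 : (kappa d 2 * (a : ℚ)) * a ≤
        ((4 * d - 5) * ((b : ℚ) - d * a + (d + 1).choose 2)) * a := by
      calc (kappa d 2 * (a : ℚ)) * a = kappa d 2 * (a : ℚ) ^ 2 := by ring
        _ ≤ _ := h10
        _ = _ := by ring
    exact le_of_mul_le_mul_right h11 ha0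
  · push Not at hb
    have h7 := kappa_two_le h5
    have h8 : ((d : ℚ) - 3) * (d - 4) * a ≤ (4 * d - 5) * (((d : ℚ) - 3) * a) := by
      have : ((d : ℚ) - 4) ≤ 4 * d - 5 := by linarith
      have h9 : (0 : ℚ) ≤ ((d : ℚ) - 3) * a := mul_nonneg (by linarith) ha0.le
      nlinarith
    have h9 : kappa d 2 * (a : ℚ) ≤ ((d : ℚ) - 3) * (d - 4) * a :=
      mul_le_mul_of_nonneg_right h7 ha0.le
    refine h9.trans (h8.trans ?_)
    refine mul_le_mul_of_nonneg_left ?_ (by linarith)
    linarith

theorem kappa_sq {n d j : ℕ} {K : Finset (Finset (Fin n))} (hK : HSph K d) (hf : Flag K)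
    (h1 : 1 ≤ j) (hjd : 2 * j + 1 ≤ d) :
    kappa d j * ((vx K).card : ℚ) ^ 2 ≤ (gco (hP K d) j : ℚ) *
      ((vx K).card + 2 * (K.filter (fun F => F.card = 2)).card) := by
  have h2 := kappa_ineq hK hf h1 hjd
  have h3 : (∑ v ∈ vx K, (1 : ℚ)) ^ 2 ≤ (∑ v ∈ vx K, (1 : ℚ) / ((vx (lk K {v})).card + 1)) *
      ∑ v ∈ vx K, (((vx (lk K {v})).card : ℚ) + 1) := by
    refine Finset.sum_sq_le_sum_mul_sum_of_sq_eq_mul _ (fun v _ => by positivity)
      (fun v _ => by positivity) (fun v _ => ?_)
    have : ((vx (lk K {v})).card : ℚ) + 1 ≠ 0 := by positivity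
    field_simp
  have h4 : ∑ v ∈ vx K, (((vx (lk K {v})).card : ℚ) + 1) =
      (vx K).card + 2 * (K.filter (fun F => F.card = 2)).card := by
    rw [sum_add_distrib, sum_const, nsmul_eq_mul, mul_one]
    have := handshake hK.cx
    have h5 : (∑ v ∈ vx K, ((vx (lk K {v})).card : ℚ)) =
        2 * (K.filter (fun F => F.card = 2)).card := by exact_mod_cast this
    rw [h5]
    ring
  rw [sum_const, nsmul_eq_mul, mul_one, h4] at h3
  have h6 : (0 : ℚ) ≤ (vx K).card + 2 * (K.filter (fun F => F.card = 2)).card := by positivity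
  calc kappa d j * ((vx K).card : ℚ) ^ 2 ≤ kappa d j *
        ((∑ v ∈ vx K, (1 : ℚ) / ((vx (lk K {v})).card + 1)) *
          ((vx K).card + 2 * (K.filter (fun F => F.card = 2)).card)) :=
        mul_le_mul_of_nonneg_left h3 (kappa_nonneg h1)
    _ = (kappa d j * ∑ v ∈ vx K, (1 : ℚ) / ((vx (lk K {v})).card + 1)) *
          ((vx K).card + 2 * (K.filter (fun F => F.card = 2)).card) := by ring
    _ ≤ _ := mul_le_mul_of_nonneg_right h2 h6

end Pool.Agent.H861.GL
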