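import Pool.Agent.H861.GL.Defs

/-!
# GL/GamA: `g`-numbers in terms of `γ`-numbers

PROOFS. `ballot_form`: the coefficient of `X ^ j` of `C (γ i) * X ^ i * (1 + X) ^ (d - 2 i)` is
`γ i * (d - 2 i).choose (j - i)` if `i ≤ j` and `0` otherwise; subtract the same for `j - 1`.
`ballot_central`: `(2 m).choose m - (2 m).choose (m - 1)` is the Catalan number (`catalan` of
Mathlib, `catalan_eq_centralBinom_div`, `Nat.succ_mul_catalan_eq_centralBinom`).
-/

set_option autoImplicit false

namespace Pool.Agent.H861.GL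

open Finset

/-- ballot number: the `j`-th `g`-number of the boundary of the `d`-dimensional cross-polytope -/
def ballot (d j : ℕ) : ℤ := (d.choose j : ℤ) - (if j = 0 then 0 else (d.choose (j - 1) : ℤ))

/-- difference of consecutive coefficients -/
noncomputable def gco (P : Polynomial ℤ) (j : ℕ) : ℤ :=
  P.coeff j - (if j = 0 then 0 else P.coeff (j - 1))

theorem gco_one_add_X_mul (P : Polynomial ℤ) (j : ℕ) :
    gco ((1 + Polynomial.X) * P) (j + 1) = gco P (j + 1) + gco P j := by
  have h1 : ∀ r, ((1 + Polynomial.X) * P).coeff (r + 1) = P.coeff (r + 1) + P.coeff r := by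
    intro r
    rw [add_mul, one_mul, Polynomial.coeff_add, Polynomial.coeff_X_mul]
  unfold gco
  rw [if_neg (Nat.succ_ne_zero j), if_neg (Nat.succ_ne_zero j), Nat.add_sub_cancel, h1]
  cases j with
  | zero =>
    have h0 : ((1 + Polynomial.X) * P).coeff 0 = P.coeff 0 := by
      rw [add_mul, one_mul, Polynomial.coeff_add, Polynomial.coeff_X_mul_zero, add_zero]
    rw [h0]
    simp
  | succ r =>
    rw [h1, if_neg (Nat.succ_ne_zero r), Nat.add_sub_cancel]
    ring

theorem gco_one_add_X_pow (d j : ℕ) : gco ((1 + Polynomial.X) ^ d) j = ballot d j := by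
  unfold gco ballot
  rw [Polynomial.coeff_one_add_X_pow, Polynomial.coeff_one_add_X_pow]

namespace GamAaux

theorem coeffA (c : ℤ) (d i r : ℕ) : (Polynomial.C c * (Polynomial.X : Polynomial ℤ) ^ i *
    (1 + Polynomial.X) ^ (d - 2 * i)).coeff r =
      c * (if i ≤ r then ((d - 2 * i).choose (r - i) : ℤ) else 0) := by
  rw [mul_assoc, Polynomial.coeff_C_mul, Polynomial.coeff_X_pow_mul']
  split_ifs with h
  · rw [Polynomial.coeff_one_add_X_pow]
  · rfl

theorem gco_term (c : ℤ) (d i j : ℕ) : gco (Polynomial.C c * (Polynomial.X : Polynomial ℤ) ^ i *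
    (1 + Polynomial.X) ^ (d - 2 * i)) j = if i ≤ j then c * ballot (d - 2 * i) (j - i) else 0 := by
  unfold gco ballot
  rw [coeffA, coeffA]
  by_cases hj : j = 0
  · subst hj
    by_cases hi : i ≤ 0
    · simp [hi]
    · simp [hi]
  · rw [if_neg hj]
    by_cases hi : i ≤ j
    · by_cases hi2 : i ≤ j - 1
      · rw [if_pos hi, if_pos hi2, if_pos hi, if_neg (by omega)]
        have : j - i - 1 = j - 1 - i := by omega
        rw [this]; ring
      · have : j - i = 0 := by omega
        rw [if_pos hi, if_neg hi2, if_pos hi, this]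
        simp
    · rw [if_neg hi, if_neg (by omega), if_neg hi]
      simp

theorem gco_sum (s : Finset ℕ) (f : ℕ → Polynomial ℤ) (j : ℕ) :
    gco (∑ i ∈ s, f i) j = ∑ i ∈ s, gco (f i) j := by
  unfold gco
  rw [Polynomial.finsetSum_coeff, Polynomial.finsetSum_coeff]
  by_cases hj : j = 0
  · simp [hj]
  · simp only [if_neg hj]
    rw [sum_sub_distrib]

end GamAaux

theorem ballot_form (γ : ℕ → ℤ) (d j : ℕ) (hj : j ≤ d / 2) :
    gco (∑ i ∈ range (d / 2 + 1),
        Polynomial.C (γ i) * Polynomial.X ^ i * (1 + Polynomial.X) ^ (d - 2 * i)) j =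
      ∑ i ∈ range (j + 1), γ i * ballot (d - 2 * i) (j - i) := by
  rw [GamAaux.gco_sum]
  simp only [GamAaux.gco_term]
  rw [← sum_filter]
  apply sum_congr
  · ext i
    rw [mem_filter, mem_range, mem_range]
    omega
  · intro i _; rfl

theorem ballot_central (m : ℕ) : ballot (2 * m) m = catalan m := by
  have h1 : ((m : ℤ) + 1) * catalan m = m.centralBinom := by
    exact_mod_cast succ_mul_catalan_eq_centralBinom m
  unfold ballot
  cases m with
  | zero => simp
  | succ k =>
    rw [if_neg (Nat.succ_ne_zero k), Nat.add_sub_cancel]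
    have h2 := Nat.choose_succ_right_eq (2 * (k + 1)) k
    have h3 : 2 * (k + 1) - k = k + 2 := by omega
    rw [h3] at h2
    have h2' : ((2 * (k + 1)).choose (k + 1) : ℤ) * (k + 1) = ((2 * (k + 1)).choose k : ℤ) * (k + 2) := by
      exact_mod_cast h2
    have h4 : ((k + 1 : ℕ).centralBinom : ℤ) = ((2 * (k + 1)).choose (k + 1) : ℤ) := by
      rw [Nat.centralBinom_eq_two_mul_choose]
    rw [h4] at h1
    have h5 : ((k : ℤ) + 2) ≠ 0 := by positivity
    apply mul_left_cancel₀ h5
    push_cast at h1 ⊢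
    linarith

end Pool.Agent.H861.GL
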