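import Mathlib

/-!
# GL/GamB: existence of the γ-expansion
-/

set_option autoImplicit false

namespace Pool.Agent.H861.GL

open Finset

namespace GamBaux

theorem coeffB (d i r : ℕ) : ((Polynomial.X : Polynomial ℤ) ^ i *
    (1 + Polynomial.X) ^ (d - 2 * i)).coeff r =
      if i ≤ r then ((d - 2 * i).choose (r - i) : ℤ) else 0 := by
  rw [Polynomial.coeff_X_pow_mul']
  split_ifs with h
  · rw [Polynomial.coeff_one_add_X_pow]
  · rfl

theorem symB (d i r : ℕ) (hi : i ≤ d / 2) (hr : r ≤ d) :
    (if i ≤ r then ((d - 2 * i).choose (r - i) : ℤ) else 0) =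
      if i ≤ d - r then ((d - 2 * i).choose (d - r - i) : ℤ) else 0 := by
  by_cases h1 : i ≤ r
  · by_cases h2 : i ≤ d - r
    · rw [if_pos h1, if_pos h2]
      have h3 : d - r - i = (d - 2 * i) - (r - i) := by omega
      rw [h3, Nat.choose_symm (by omega)]
    · rw [if_pos h1, if_neg h2, Nat.choose_eq_zero_of_lt (by omega)]
      rfl
  · by_cases h2 : i ≤ d - r
    · rw [if_neg h1, if_pos h2, Nat.choose_eq_zero_of_lt (by omega)]
      rfl
    · rw [if_neg h1, if_neg h2]

theorem main_aux (d : ℕ) : ∀ (k i : ℕ), i + k = d / 2 + 1 → ∀ (P : Polynomial ℤ),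
    (∀ r, d < r → P.coeff r = 0) → (∀ r ≤ d, P.coeff r = P.coeff (d - r)) →
    (∀ r < i, P.coeff r = 0) →
    ∃ γ : ℕ → ℤ, P = ∑ i ∈ range (d / 2 + 1),
      Polynomial.C (γ i) * Polynomial.X ^ i * (1 + Polynomial.X) ^ (d - 2 * i) := by
  intro k
  induction k with
  | zero =>
    intro i hi P h1 h2 h3
    refine ⟨fun _ => 0, ?_⟩
    have hP : P = 0 := by
      ext r
      rw [Polynomial.coeff_zero]
      by_cases hr : d < r
      · exact h1 r hr
      · by_cases hr2 : r < i
        · exact h3 r hr2
        · rw [h2 r (by omega)]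
          exact h3 _ (by omega)
    rw [hP]
    simp
  | succ k ih =>
    intro i hi P h1 h2 h3
    have hid : i ≤ d / 2 := by omega
    set B : Polynomial ℤ := (Polynomial.X : Polynomial ℤ) ^ i *
      (1 + Polynomial.X) ^ (d - 2 * i) with hB
    set Q : Polynomial ℤ := P - Polynomial.C (P.coeff i) * B with hQ
    have hQc : ∀ r, Q.coeff r = P.coeff r - P.coeff i *
        (if i ≤ r then ((d - 2 * i).choose (r - i) : ℤ) else 0) := by
      intro r
      rw [hQ, Polynomial.coeff_sub, Polynomial.coeff_C_mul, hB, coeffB]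
    obtain ⟨γ, hγ⟩ := ih (i + 1) (by omega) Q
      (by
        intro r hr
        rw [hQc, h1 r hr, if_pos (by omega), Nat.choose_eq_zero_of_lt (by omega)]
        simp)
      (by
        intro r hr
        rw [hQc, hQc, h2 r hr, symB d i r hid hr])
      (by
        intro r hr
        rw [hQc]
        by_cases hri : r < i
        · rw [h3 r hri, if_neg (by omega)]
          simp
        · have : r = i := by omega
          subst this
          simp)
    refine ⟨fun j => if j = i then γ j + P.coeff i else γ j, ?_⟩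
    have hmem : i ∈ range (d / 2 + 1) := by
      rw [mem_range]; omega
    have hPQ : P = Q + Polynomial.C (P.coeff i) * B := by
      rw [hQ]; ring
    have hsum : ∑ j ∈ range (d / 2 + 1),
        Polynomial.C (if j = i then γ j + P.coeff i else γ j) * Polynomial.X ^ j *
          (1 + Polynomial.X) ^ (d - 2 * j) =
        ∑ j ∈ range (d / 2 + 1),
          (Polynomial.C (γ j) * Polynomial.X ^ j * (1 + Polynomial.X) ^ (d - 2 * j) +
            if j = i then Polynomial.C (P.coeff i) * B else 0) := by
      apply sum_congr rfl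
      intro j _
      by_cases hji : j = i
      · rw [if_pos hji, if_pos hji, hji, hB, Polynomial.C_add]
        ring
      · rw [if_neg hji, if_neg hji, add_zero]
    rw [hsum, sum_add_distrib, sum_ite_eq' (range (d / 2 + 1)) i, if_pos hmem, ← hγ]
    exact hPQ

end GamBaux

/-- the `γ`-expansion exists for symmetric polynomials: every polynomial `P` of degree `≤ d` with
`P.coeff r = P.coeff (d - r)` has an expansion in the basis `X ^ i (1 + X) ^ (d - 2 i)`, `i ≤ d/2`.
PROOF: induction on the number of `i ≤ d/2` such that ... : if the first `i` coefficients of `P`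
vanish (so also the last `i`), then `P - C (P.coeff i) * X ^ i * (1 + X) ^ (d - 2 i)` has the first
`i + 1` coefficients zero, is again symmetric of degree `≤ d`; after `d/2 + 1` steps all
coefficients are zero. -/
theorem gamma_exists (P : Polynomial ℤ) (d : ℕ) (h1 : ∀ r, d < r → P.coeff r = 0)
    (h2 : ∀ r ≤ d, P.coeff r = P.coeff (d - r)) :
    ∃ γ : ℕ → ℤ, P = ∑ i ∈ range (d / 2 + 1),
      Polynomial.C (γ i) * Polynomial.X ^ i * (1 + Polynomial.X) ^ (d - 2 * i) := by
  exact GamBaux.main_aux d (d / 2 + 1) 0 (by omega) P h1 h2 (by intro r hr; omega)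

end Pool.Agent.H861.GL
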