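import Pool.Agent.H861.GL.Defs

/-!
# GL/GenEx: existence of generic coefficients

PROOF. All conditions are of the form `P (x) ≠ 0` for finitely many nonzero polynomials `P` over
the infinite field `k` in the variables `ι = (Fin m × Fin n) ⊕ (Fin n × Fin m)`: the unknowns are
`x (inl (i, v)) = θ (i + 1) v` (`i < m`) and `x (inr (u, i)) = a u i`; `θ 0 v = 1`, and `θ l = 0`
for `l > m`. A product of nonzero polynomials is nonzero and a nonzero polynomial over an infinite
field has a nonzero value (`MvPolynomial.funext` or `MvPolynomial.exists_eval_ne_zero`...).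

(1) `Gen θ K`: for `G ∈ K` with `j = G.card ≤ m` elements the determinant of the `j × j` matrix
with rows `θ 0 = 1, θ 1, ..., θ (j - 1)` and columns `v ∈ G` (use `G.orderEmbOfFin rfl`) is a
polynomial in the unknowns; it is not the zero polynomial because for `θ i v = t_v ^ i` with
distinct `t_v ∈ k` (there is an injection `Fin n → k`) it is a Vandermonde determinant
(`Matrix.det_vandermonde_ne_zero_iff`). If the determinant is nonzero then `a = 0` follows
(`Matrix.eq_zero_of_mulVec_eq_zero`).

(2) For `u` and `r ≤ N`: the polynomial `Q` obtained from `F u r` (coefficients mapped to `k`) by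
the substitution of `X (inl (i, v)) - X (inl (i, u))` (`v ≠ u`), `X (inr (u, i))` (`v = u`) for the
variable `(i, v)`. It is nonzero: the substitution `X (inl (i, v)) ↦ X (i, v)` for `v ≠ u`,
`X (inl (i, u)) ↦ 0`, `X (inr (u, i)) ↦ X (i, u)`, (others ↦ `0`) maps `Q` to the image of `F u r`
in `MvPolynomial (Fin m × Fin n) k`, which is not zero since `ℤ → k` factors through the injective
map `ZMod 2 → k`.
-/

set_option autoImplicit false

namespace Pool.Agent.H861.GL

open Finset Pool.Agent.W555.KS Pool.Agent.Y131.KS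

namespace GenExaux

variable {n m : ℕ}

/-- the unknowns -/
abbrev Ix (n m : ℕ) : Type := (Fin m × Fin n) ⊕ (Fin n × Fin m)

/-- the linear forms with given values of the unknowns -/
def tht {A : Type} [CommRing A] (x : Ix n m → A) : ℕ → Fin n → A
  | 0, _ => 1
  | l + 1, v => if h : l < m then x (Sum.inl (⟨l, h⟩, v)) else 0

theorem tht_zero {A : Type} [CommRing A] (x : Ix n m → A) (v : Fin n) : tht x 0 v = 1 := rfl

theorem tht_succ {A : Type} [CommRing A] (x : Ix n m → A) (i : Fin m) (v : Fin n) :
    tht x ((i : ℕ) + 1) v = x (Sum.inl (i, v)) := by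
  show (if h : (i : ℕ) < m then x (Sum.inl (⟨i, h⟩, v)) else 0) = _
  rw [dif_pos i.2]

theorem map_tht {A B : Type} [CommRing A] [CommRing B] (g : A →+* B) (x : Ix n m → A) (l : ℕ)
    (v : Fin n) : g (tht x l v) = tht (fun i => g (x i)) l v := by
  cases l with
  | zero => exact map_one g
  | succ l =>
    show g (if h : l < m then x (Sum.inl (⟨l, h⟩, v)) else 0) =
      if h : l < m then g (x (Sum.inl (⟨l, h⟩, v))) else 0
    split_ifs
    · rfl
    · exact map_zero g

theorem hom_aeval {σ A B : Type} [CommRing A] [CommRing B] [Algebra ℤ A] [Algebra ℤ B]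
    (g : A →+* B) (x : σ → A)
    (p : MvPolynomial σ ℤ) : g (MvPolynomial.aeval x p) = MvPolynomial.aeval (fun i => g (x i)) p := by
  induction p using MvPolynomial.induction_on with
  | C a =>
    rw [MvPolynomial.aeval_C, MvPolynomial.aeval_C, eq_intCast, eq_intCast, map_intCast]
  | add p q hp hq => rw [map_add, map_add, map_add, hp, hq]
  | mul_X p v hp => rw [map_mul, map_mul, map_mul, hp, MvPolynomial.aeval_X, MvPolynomial.aeval_X]

/-- the substitution for the link of `u` -/
def sub {A : Type} [CommRing A] (x : Ix n m → A) (u : Fin n) (p : Fin m × Fin n) : A :=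
  if p.2 = u then x (Sum.inr (u, p.1)) else tht x ((p.1 : ℕ) + 1) p.2 - tht x ((p.1 : ℕ) + 1) u

theorem map_sub' {A B : Type} [CommRing A] [CommRing B] (g : A →+* B) (x : Ix n m → A) (u : Fin n)
    (p : Fin m × Fin n) : g (sub x u p) = sub (fun i => g (x i)) u p := by
  unfold sub
  split_ifs
  · rfl
  · rw [map_sub, map_tht, map_tht]

variable {k : Type} [Field k]

/-- the determinant for a face -/
noncomputable def PG (k : Type) [Field k] (m : ℕ) (G : Finset (Fin n)) :
    MvPolynomial (Ix n m) k :=
  Matrix.det (Matrix.of fun i j : Fin G.card =>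
    tht (fun y : Ix n m => (MvPolynomial.X y : MvPolynomial (Ix n m) k)) i (G.orderEmbOfFin rfl j))

theorem eval_PG (G : Finset (Fin n)) (x : Ix n m → k) :
    MvPolynomial.eval x (PG k m G) = Matrix.det (Matrix.of fun i j : Fin G.card =>
      tht x i (G.orderEmbOfFin rfl j)) := by
  unfold PG
  rw [RingHom.map_det]
  congr 1
  ext i j
  rw [RingHom.mapMatrix_apply, Matrix.map_apply, Matrix.of_apply, Matrix.of_apply, map_tht]
  simp only [MvPolynomial.eval_X]

theorem PG_ne [Infinite k] (G : Finset (Fin n)) (hG : G.card ≤ m) : PG k m G ≠ 0 := by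
  intro h
  let t : Fin n → k := fun v => Infinite.natEmbedding k v
  have ht : Function.Injective t := fun v w hvw =>
    Fin.ext ((Infinite.natEmbedding k).injective hvw)
  let x : Ix n m → k := fun y => match y with
    | Sum.inl (i, v) => t v ^ ((i : ℕ) + 1)
    | Sum.inr _ => 0
  have h1 := eval_PG (k := k) G x
  rw [h, map_zero] at h1
  have h2 : (Matrix.of fun i j : Fin G.card => tht x i (G.orderEmbOfFin rfl j)) =
      (Matrix.vandermonde (fun j : Fin G.card => t (G.orderEmbOfFin rfl j))).transpose := by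
    ext i j
    rw [Matrix.of_apply, Matrix.transpose_apply, Matrix.vandermonde_apply]
    obtain ⟨i, hi⟩ := i
    cases i with
    | zero => rw [tht_zero, pow_zero]
    | succ l =>
      have h3 := tht_succ x ⟨l, by omega⟩ (G.orderEmbOfFin rfl j)
      exact h3
  rw [h2, Matrix.det_transpose] at h1
  refine (Matrix.det_vandermonde_ne_zero_iff.2 ?_) h1.symm
  exact ht.comp (G.orderEmbOfFin rfl).injective

theorem gen_of (K : Finset (Finset (Fin n))) (x : Ix n m → k)
    (h : ∀ G ∈ K, MvPolynomial.eval x (PG k m G) ≠ 0) : Gen (tht x) K := by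
  intro G hG a ha hs
  have h1 := h G hG
  rw [eval_PG] at h1
  have h2 : (Matrix.of fun i j : Fin G.card => tht x i (G.orderEmbOfFin rfl j)).mulVec
      (fun j => a (G.orderEmbOfFin rfl j)) = 0 := by
    funext i
    rw [Pi.zero_apply, ← hs i i.2]
    show ∑ j, tht x i (G.orderEmbOfFin rfl j) * a (G.orderEmbOfFin rfl j) = _
    have h3 : ∑ v, tht x i v * a v = ∑ v ∈ G, tht x i v * a v := by
      symm
      refine Finset.sum_subset (subset_univ G) fun v _ hv => ?_
      rw [ha v hv, mul_zero]
    rw [h3, ← Finset.sum_coe_sort G, ← Equiv.sum_comp (G.orderIsoOfFin rfl).toEquiv]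
    rfl
  have h3 := Matrix.eq_zero_of_mulVec_eq_zero h1 h2
  funext v
  rw [Pi.zero_apply]
  by_cases hv : v ∈ G
  · have h4 := congrFun h3 ((G.orderIsoOfFin rfl).symm ⟨v, hv⟩)
    rw [Pi.zero_apply] at h4
    have h5 : G.orderEmbOfFin rfl ((G.orderIsoOfFin rfl).symm ⟨v, hv⟩) = v := by
      rw [← Finset.coe_orderIsoOfFin_apply, OrderIso.apply_symm_apply]
    rwa [h5] at h4
  · exact ha v hv

/-- the polynomial of the link of `u` -/
noncomputable def QF (k : Type) [Field k] (u : Fin n) (f : MvPolynomial (Fin m × Fin n) ℤ) :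
    MvPolynomial (Ix n m) k :=
  MvPolynomial.aeval (sub (fun y : Ix n m => (MvPolynomial.X y : MvPolynomial (Ix n m) k)) u) f

theorem eval_QF (u : Fin n) (f : MvPolynomial (Fin m × Fin n) ℤ) (x : Ix n m → k) :
    MvPolynomial.eval x (QF k u f) = MvPolynomial.aeval (sub x u) f := by
  unfold QF
  rw [hom_aeval]
  congr 2
  funext p
  rw [map_sub']
  simp only [MvPolynomial.eval_X]

theorem QF_ne [CharP k 2] (u : Fin n) (f : MvPolynomial (Fin m × Fin n) ℤ)
    (hf : MvPolynomial.map (Int.castRingHom (ZMod 2)) f ≠ 0) : QF k u f ≠ 0 := by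
  intro h
  let y : Ix n m → MvPolynomial (Fin m × Fin n) k := fun z => match z with
    | Sum.inl (i, v) => if v = u then 0 else MvPolynomial.X (i, v)
    | Sum.inr (_, i) => MvPolynomial.X (i, u)
  have h1 := congrArg (MvPolynomial.aeval (R := k) y).toRingHom h
  rw [map_zero] at h1
  unfold QF at h1
  rw [hom_aeval] at h1
  have h2 : (fun p => (MvPolynomial.aeval (R := k) y).toRingHom
      (sub (fun z : Ix n m => (MvPolynomial.X z : MvPolynomial (Ix n m) k)) u p)) =
      fun p : Fin m × Fin n => (MvPolynomial.X p : MvPolynomial (Fin m × Fin n) k) := by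
    funext p
    rw [map_sub']
    have h3 : (fun i => (MvPolynomial.aeval (R := k) y).toRingHom
        (MvPolynomial.X i : MvPolynomial (Ix n m) k)) = y := by
      funext i
      exact MvPolynomial.aeval_X _ _
    rw [h3]
    unfold sub
    split_ifs with h4
    · show MvPolynomial.X (p.1, u) = _
      rw [← h4]
    · rw [tht_succ, tht_succ]
      show (if p.2 = u then 0 else MvPolynomial.X (p.1, p.2)) - (if u = u then 0 else _) = _
      rw [if_neg h4, if_pos rfl, sub_zero]
  rw [h2] at h1
  have h3 : MvPolynomial.aeval (fun p : Fin m × Fin n =>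
      (MvPolynomial.X p : MvPolynomial (Fin m × Fin n) k)) f =
      MvPolynomial.map (ZMod.castHom (dvd_refl 2) k)
        (MvPolynomial.map (Int.castRingHom (ZMod 2)) f) := by
    rw [MvPolynomial.map_map]
    clear h h1 hf
    induction f using MvPolynomial.induction_on with
    | C a =>
      rw [MvPolynomial.aeval_C, MvPolynomial.map_C, eq_intCast, eq_intCast, map_intCast]
    | add p q hp hq => rw [map_add, map_add, hp, hq]
    | mul_X p v hp => rw [map_mul, map_mul, hp, MvPolynomial.aeval_X, MvPolynomial.map_X]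
  rw [h3] at h1
  apply hf
  refine MvPolynomial.map_injective (ZMod.castHom (dvd_refl 2) k)
    (ZMod.castHom (dvd_refl 2) k).injective ?_
  rw [h1, map_zero]

end GenExaux

open GenExaux in
theorem exists_generic (n m N : ℕ) (K : Finset (Finset (Fin n))) (hd : ∀ σ ∈ K, σ.card ≤ m)
    (k : Type) [Field k] [Infinite k] [CharP k 2]
    (F : Fin n → ℕ → MvPolynomial (Fin m × Fin n) ℤ)
    (hF : ∀ u r, MvPolynomial.map (Int.castRingHom (ZMod 2)) (F u r) ≠ 0) :
    ∃ (θ : ℕ → Fin n → k) (a : Fin n → Fin m → k), (∀ v, θ 0 v = 1) ∧ Gen θ K ∧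
      ∀ u, ∀ r ≤ N, MvPolynomial.aeval (fun p : Fin m × Fin n =>
        if p.2 = u then a u p.1 else θ ((p.1 : ℕ) + 1) p.2 - θ ((p.1 : ℕ) + 1) u) (F u r) ≠ 0 := by
  classical
  have hP : (∏ G ∈ K, PG k m G) * ∏ u : Fin n, ∏ r ∈ range (N + 1), QF k u (F u r) ≠ 0 := by
    refine mul_ne_zero (prod_ne_zero_iff.2 fun G hG => PG_ne G (hd G hG)) ?_
    exact prod_ne_zero_iff.2 fun u _ => prod_ne_zero_iff.2 fun r _ => QF_ne u _ (hF u r)
  obtain ⟨x, hx⟩ : ∃ x : Ix n m → k, MvPolynomial.eval x
      ((∏ G ∈ K, PG k m G) * ∏ u : Fin n, ∏ r ∈ range (N + 1), QF k u (F u r)) ≠ 0 := by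
    by_contra hc
    push Not at hc
    refine hP (MvPolynomial.funext fun x => ?_)
    rw [hc x, map_zero]
  rw [map_mul, map_prod, map_prod] at hx
  have h1 := left_ne_zero_of_mul hx
  have h2 := right_ne_zero_of_mul hx
  rw [prod_ne_zero_iff] at h1 h2
  refine ⟨tht x, fun u i => x (Sum.inr (u, i)), fun v => rfl, gen_of K x h1, fun u r hr => ?_⟩
  have h3 := h2 u (mem_univ u)
  rw [map_prod, prod_ne_zero_iff] at h3
  have h4 := h3 r (mem_range.2 (Nat.lt_succ_of_le hr))
  rw [eval_QF] at h4
  exact h4

end Pool.Agent.H861.GL
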