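import Pool.Agent.H861.GL.Fac

/-!
# GL/Kap: the numbers `g_j(K(2, d-1))`

`gco`, `ballot` are in `GL/GamA.lean`; `Sym` with `Sym.step` etc. in `GL/Fac.lean`
(`Sym P d`: `P` has degree `≤ d` and is symmetric).

`kap d = (1 + X + X^2)^(d/2) * (1 + X)^(d%2)` is the `h`-polynomial of the join of `d/2` copies of
the boundary of a triangle (and two points if `d` is odd).

PROOFS. `gco_three*`: coefficients. `kap_sym`: products of symmetric polynomials.
`kap_le_ballot`: let `Uni P D` mean `Sym P D` and `0 ≤ gco P j` for `2 * j ≤ D + 1`. If `Uni P D` then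
`Uni ((1 + X) * P) (D + 1)`, `Uni ((1 + X + X^2) * P) (D + 2)`, `Uni (X * P) (D + 2)` (for
`2 j > D + 1` use `gco P j = - gco P (D + 1 - j)`, which follows from the symmetry; e.g. for
`2 j = D + 2`: `gco P j + gco P (j - 1) = 0`; for `2 j = D + 3`: `gco P (j - 1) = 0` and
`gco P j + gco P (j - 2) = 0`). Now `(1 + X)^(2 m) - (1 + X + X^2)^m =
∑_{a < m} X * (1 + X)^(2 a) * (1 + X + X^2)^(m - 1 - a)` (as `(1 + X)^2 = (1 + X + X^2) + X`), a sum
of polynomials satisfying `Uni _ (2 m)`; multiply by `1 + X` for odd `d`. Easier by induction in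
steps of 2: `(1 + X)^(d + 2) - kap (d + 2) = (1 + X)^2 * ((1 + X)^d - kap d) + X * kap d`, so by
induction `(1 + X)^d - kap d` satisfies `Uni _ d`.
-/

set_option autoImplicit false

namespace Pool.Agent.H861.GL

open Finset

/-- the `h`-polynomial of `K(2, d-1)` -/
noncomputable def kap (d : ℕ) : Polynomial ℤ :=
  (1 + Polynomial.X + Polynomial.X ^ 2) ^ (d / 2) * (1 + Polynomial.X) ^ (d % 2)

namespace Kapaux

open Polynomial

theorem coeff_three (P : Polynomial ℤ) (r : ℕ) :
    ((1 + Polynomial.X + Polynomial.X ^ 2) * P).coeff (r + 2) =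
      P.coeff (r + 2) + P.coeff (r + 1) + P.coeff r := by
  have h : (1 + Polynomial.X + Polynomial.X ^ 2) * P =
      P + Polynomial.X * P + Polynomial.X * (Polynomial.X * P) := by ring
  rw [h, Polynomial.coeff_add, Polynomial.coeff_add, Polynomial.coeff_X_mul,
    Polynomial.coeff_X_mul, Polynomial.coeff_X_mul]

theorem coeff_three_one (P : Polynomial ℤ) :
    ((1 + Polynomial.X + Polynomial.X ^ 2) * P).coeff 1 = P.coeff 1 + P.coeff 0 := by
  have h : (1 + Polynomial.X + Polynomial.X ^ 2) * P =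
      P + Polynomial.X * P + Polynomial.X * (Polynomial.X * P) := by ring
  rw [h, Polynomial.coeff_add, Polynomial.coeff_add]
  have h1 : (Polynomial.X * P).coeff 1 = P.coeff 0 := Polynomial.coeff_X_mul P 0
  have h2 : (Polynomial.X * (Polynomial.X * P)).coeff 1 = (Polynomial.X * P).coeff 0 :=
    Polynomial.coeff_X_mul (Polynomial.X * P) 0
  rw [h1, h2, Polynomial.coeff_X_mul_zero, add_zero]

theorem coeff_three_zero (P : Polynomial ℤ) :
    ((1 + Polynomial.X + Polynomial.X ^ 2) * P).coeff 0 = P.coeff 0 := by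
  have h : (1 + Polynomial.X + Polynomial.X ^ 2) * P =
      P + Polynomial.X * P + Polynomial.X * (Polynomial.X * P) := by ring
  rw [h, Polynomial.coeff_add, Polynomial.coeff_add, Polynomial.coeff_X_mul_zero,
    Polynomial.coeff_X_mul_zero, add_zero, add_zero]

theorem gco_zero (P : Polynomial ℤ) : gco P 0 = P.coeff 0 := by
  unfold gco
  rw [if_pos rfl, sub_zero]

theorem gco_succ (P : Polynomial ℤ) (j : ℕ) : gco P (j + 1) = P.coeff (j + 1) - P.coeff j := by
  unfold gco
  rw [if_neg (Nat.succ_ne_zero j), Nat.add_sub_cancel]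

theorem gco_X_mul (P : Polynomial ℤ) (j : ℕ) : gco (Polynomial.X * P) (j + 1) = gco P j := by
  rw [gco_succ, Polynomial.coeff_X_mul]
  cases j with
  | zero => rw [Polynomial.coeff_X_mul_zero, gco_zero, sub_zero]
  | succ i => rw [Polynomial.coeff_X_mul, gco_succ]

theorem gco_add (P Q : Polynomial ℤ) (j : ℕ) : gco (P + Q) j = gco P j + gco Q j := by
  unfold gco
  rw [Polynomial.coeff_add, Polynomial.coeff_add]
  split_ifs <;> ring

theorem gco_sub (P Q : Polynomial ℤ) (j : ℕ) : gco (P - Q) j = gco P j - gco Q j := by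
  unfold gco
  rw [Polynomial.coeff_sub, Polynomial.coeff_sub]
  split_ifs <;> ring

theorem sym_add {P Q : Polynomial ℤ} {d : ℕ} (hP : Sym P d) (hQ : Sym Q d) :
    Sym (P + Q) d := by
  refine ⟨fun r hr => ?_, fun r hr => ?_⟩
  · rw [Polynomial.coeff_add, hP.1 r hr, hQ.1 r hr, add_zero]
  · rw [Polynomial.coeff_add, Polynomial.coeff_add, hP.2 r hr, hQ.2 r hr]

theorem sym_sub {P Q : Polynomial ℤ} {d : ℕ} (hP : Sym P d) (hQ : Sym Q d) :
    Sym (P - Q) d := by
  refine ⟨fun r hr => ?_, fun r hr => ?_⟩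
  · rw [Polynomial.coeff_sub, hP.1 r hr, hQ.1 r hr, sub_zero]
  · rw [Polynomial.coeff_sub, Polynomial.coeff_sub, hP.2 r hr, hQ.2 r hr]

theorem sym_X_mul {P : Polynomial ℤ} {d : ℕ} (h : Sym P d) : Sym (Polynomial.X * P) (d + 2) := by
  refine ⟨fun r hr => ?_, fun r hr => ?_⟩
  · obtain ⟨s, rfl⟩ : ∃ s, r = s + 1 := ⟨r - 1, by omega⟩
    rw [Polynomial.coeff_X_mul, h.1 s (by omega)]
  · rcases Nat.eq_zero_or_pos r with rfl | h0
    · rw [Nat.sub_zero, Polynomial.coeff_X_mul_zero, Polynomial.coeff_X_mul, h.1 (d + 1) (by omega)]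
    · obtain ⟨s, rfl⟩ : ∃ s, r = s + 1 := ⟨r - 1, by omega⟩
      rw [Polynomial.coeff_X_mul]
      rcases Nat.lt_or_ge d s with h1 | h1
      · have e : d + 2 - (s + 1) = 0 := by omega
        rw [e, Polynomial.coeff_X_mul_zero, h.1 s h1]
      · obtain ⟨t, ht⟩ : ∃ t, d + 2 - (s + 1) = t + 1 := ⟨d - s, by omega⟩
        have e : t = d - s := by omega
        rw [ht, Polynomial.coeff_X_mul, h.2 s h1, e]

theorem sym_three {P : Polynomial ℤ} {d : ℕ} (h : Sym P d) :
    Sym ((1 + Polynomial.X + Polynomial.X ^ 2) * P) (d + 2) := by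
  have e : (1 + Polynomial.X + Polynomial.X ^ 2) * P =
      (1 + Polynomial.X) * ((1 + Polynomial.X) * P) - Polynomial.X * P := by ring
  rw [e]
  exact sym_sub h.step.step (sym_X_mul h)

theorem sym_anti {P : Polynomial ℤ} {d : ℕ} (h : Sym P d) {j : ℕ} (hj : j ≤ d + 1) :
    gco P j = - gco P (d + 1 - j) := by
  rcases Nat.eq_zero_or_pos j with rfl | h0
  · rw [Nat.sub_zero, gco_zero, gco_succ, h.1 (d + 1) (by omega), h.2 0 (by omega), Nat.sub_zero]
    ring
  · obtain ⟨i, rfl⟩ : ∃ i, j = i + 1 := ⟨j - 1, by omega⟩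
    have e : d + 1 - (i + 1) = d - i := by omega
    rw [e, gco_succ]
    rcases Nat.eq_zero_or_pos (d - i) with h1 | h1
    · have e2 : i = d := by omega
      subst e2
      rw [Nat.sub_self, gco_zero, h.1 (i + 1) (by omega), h.2 i le_rfl, Nat.sub_self]
      ring
    · obtain ⟨t, ht⟩ : ∃ t, d - i = t + 1 := ⟨d - i - 1, by omega⟩
      rw [ht, gco_succ, h.2 (i + 1) (by omega), h.2 i (by omega), ht]
      have e3 : d - (i + 1) = t := by omega
      rw [e3]
      ring

/-- symmetric with nonnegative `g`-numbers -/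
def Uni (P : Polynomial ℤ) (D : ℕ) : Prop := Sym P D ∧ ∀ j, 2 * j ≤ D + 1 → 0 ≤ gco P j

theorem gco_three' (P : Polynomial ℤ) (j : ℕ) :
    gco ((1 + Polynomial.X + Polynomial.X ^ 2) * P) (j + 2) =
      gco P (j + 2) + gco P (j + 1) + gco P j := by
  rw [gco_succ, gco_succ, gco_succ, coeff_three]
  cases j with
  | zero => 
    rw [coeff_three_one, gco_zero]
    ring
  | succ i =>
    rw [coeff_three, gco_succ]
    ring

theorem gco_three_one' (P : Polynomial ℤ) :
    gco ((1 + Polynomial.X + Polynomial.X ^ 2) * P) 1 = gco P 1 + gco P 0 := by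
  have h1 : gco ((1 + Polynomial.X + Polynomial.X ^ 2) * P) 1 =
      ((1 + Polynomial.X + Polynomial.X ^ 2) * P).coeff 1 -
        ((1 + Polynomial.X + Polynomial.X ^ 2) * P).coeff 0 := gco_succ _ 0
  have h2 : gco P 1 = P.coeff 1 - P.coeff 0 := gco_succ _ 0
  rw [h1, h2, coeff_three_one, coeff_three_zero, gco_zero]
  ring

theorem uni_add {P Q : Polynomial ℤ} {D : ℕ} (hP : Uni P D) (hQ : Uni Q D) : Uni (P + Q) D := by
  refine ⟨sym_add hP.1 hQ.1, fun j hj => ?_⟩
  rw [gco_add]
  exact add_nonneg (hP.2 j hj) (hQ.2 j hj)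

theorem uni_X_mul {P : Polynomial ℤ} {D : ℕ} (h : Uni P D) : Uni (Polynomial.X * P) (D + 2) := by
  refine ⟨sym_X_mul h.1, fun j hj => ?_⟩
  cases j with
  | zero => rw [gco_zero, Polynomial.coeff_X_mul_zero]
  | succ i =>
    rw [gco_X_mul]
    exact h.2 i (by omega)

theorem uni_step {P : Polynomial ℤ} {D : ℕ} (h : Uni P D) :
    Uni ((1 + Polynomial.X) * P) (D + 1) := by
  refine ⟨h.1.step, fun j hj => ?_⟩
  cases j with
  | zero =>
    rw [gco_zero, coeff_one_add_X_mul_zero, ← gco_zero]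
    exact h.2 0 (by omega)
  | succ i =>
    rw [gco_one_add_X_mul]
    rcases Nat.lt_or_ge (D + 1) (2 * (i + 1)) with h1 | h1
    · have h2 := sym_anti h.1 (j := i + 1) (by omega)
      have e : D + 1 - (i + 1) = i := by omega
      rw [e] at h2
      rw [h2, neg_add_cancel]
    · exact add_nonneg (h.2 _ (by omega)) (h.2 _ (by omega))

theorem uni_three {P : Polynomial ℤ} {D : ℕ} (h : Uni P D) :
    Uni ((1 + Polynomial.X + Polynomial.X ^ 2) * P) (D + 2) := by
  refine ⟨sym_three h.1, fun j hj => ?_⟩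
  rcases j with _ | _ | i
  · rw [gco_zero, coeff_three_zero, ← gco_zero]
    exact h.2 0 (by omega)
  · rw [Nat.zero_add, gco_three_one']
    rcases Nat.eq_zero_or_pos D with h1 | h1
    · subst h1
      have h2 := sym_anti h.1 (j := 1) (by omega)
      have e : 0 + 1 - 1 = 0 := by omega
      rw [e] at h2
      rw [h2, neg_add_cancel]
    · exact add_nonneg (h.2 _ (by omega)) (h.2 _ (by omega))
  · rw [show i + 1 + 1 = i + 2 from rfl, gco_three']
    rcases Nat.lt_or_ge (D + 1) (2 * (i + 2)) with h1 | h1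
    · rcases Nat.lt_or_ge (D + 2) (2 * (i + 2)) with h3 | h3
      · have h2 := sym_anti h.1 (j := i + 2) (by omega)
        have e : D + 1 - (i + 2) = i := by omega
        rw [e] at h2
        have h4 := sym_anti h.1 (j := i + 1) (by omega)
        have e4 : D + 1 - (i + 1) = i + 1 := by omega
        rw [e4] at h4
        linarith
      · have h2 := sym_anti h.1 (j := i + 2) (by omega)
        have e : D + 1 - (i + 2) = i + 1 := by omega
        rw [e] at h2
        have h4 := h.2 i (by omega)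
        linarith
    · have a1 := h.2 i (by omega)
      have a2 := h.2 (i + 1) (by omega)
      have a3 := h.2 (i + 2) (by omega)
      linarith

theorem uni_zero (D : ℕ) : Uni 0 D := by
  refine ⟨⟨fun r _ => Polynomial.coeff_zero r, fun r _ => by
    rw [Polynomial.coeff_zero, Polynomial.coeff_zero]⟩, fun j _ => ?_⟩
  unfold gco
  rw [Polynomial.coeff_zero, Polynomial.coeff_zero]
  split_ifs <;> simp

theorem uni_one : Uni 1 0 := by
  refine ⟨⟨fun r hr => ?_, fun r hr => ?_⟩, fun j hj => ?_⟩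
  · rw [Polynomial.coeff_one, if_neg (by omega)]
  · have : r = 0 := by omega
    subst this
    rfl
  · have : j = 0 := by omega
    subst this
    rw [gco_zero, Polynomial.coeff_one_zero]
    exact zero_le_one

end Kapaux

theorem kap_add_two (d : ℕ) :
    kap (d + 2) = (1 + Polynomial.X + Polynomial.X ^ 2) * kap d := by
  unfold kap
  have e1 : (d + 2) / 2 = d / 2 + 1 := by omega
  have e2 : (d + 2) % 2 = d % 2 := by omega
  rw [e1, e2, pow_succ']
  ring

theorem kap_odd (q : ℕ) : kap (2 * q + 1) = (1 + Polynomial.X) * kap (2 * q) := by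
  unfold kap
  have e1 : (2 * q + 1) / 2 = q := by omega
  have e2 : (2 * q + 1) % 2 = 1 := by omega
  have e3 : (2 * q) / 2 = q := by omega
  have e4 : (2 * q) % 2 = 0 := by omega
  rw [e1, e2, e3, e4, pow_one, pow_zero, mul_one, mul_comm]

theorem gco_three (P : Polynomial ℤ) (j : ℕ) :
    gco ((1 + Polynomial.X + Polynomial.X ^ 2) * P) (j + 2) =
      gco P (j + 2) + gco P (j + 1) + gco P j := Kapaux.gco_three' P j

theorem gco_three_one (P : Polynomial ℤ) :
    gco ((1 + Polynomial.X + Polynomial.X ^ 2) * P) 1 = gco P 1 + gco P 0 :=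
  Kapaux.gco_three_one' P

theorem gco_kap_zero (d : ℕ) : gco (kap d) 0 = 1 := by
  rw [Kapaux.gco_zero, Polynomial.coeff_zero_eq_eval_zero]
  unfold kap
  simp

namespace Kapaux

theorem kap_zero : kap 0 = 1 := by
  unfold kap
  simp

theorem kap_one : kap 1 = 1 + Polynomial.X := by
  unfold kap
  simp

theorem uni_kap (d : ℕ) : Uni (kap d) d := by
  induction d using Nat.twoStepInduction with
  | zero => rw [kap_zero]; exact uni_one
  | one =>
    rw [kap_one]
    have := uni_step uni_one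
    rwa [mul_one] at this
  | more d ih _ => rw [kap_add_two]; exact uni_three ih

theorem uni_diff (d : ℕ) : Uni ((1 + Polynomial.X) ^ d - kap d) d := by
  induction d using Nat.twoStepInduction with
  | zero => rw [kap_zero, pow_zero, sub_self]; exact uni_zero 0
  | one => rw [kap_one, pow_one, sub_self]; exact uni_zero 1
  | more d ih _ =>
    have e : (1 + Polynomial.X) ^ (d + 2) - kap (d + 2) =
        (1 + Polynomial.X) * ((1 + Polynomial.X) * ((1 + Polynomial.X) ^ d - kap d)) +
          Polynomial.X * kap d := by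
      rw [kap_add_two]
      ring
    rw [e]
    exact uni_add (uni_step (uni_step ih)) (uni_X_mul (uni_kap d))

end Kapaux

theorem kap_sym (d : ℕ) : Sym (kap d) d := (Kapaux.uni_kap d).1

theorem kap_le_ballot {d j : ℕ} (hj : 2 * j ≤ d + 1) : gco (kap d) j ≤ ballot d j := by
  have h := (Kapaux.uni_diff d).2 j hj
  rw [Kapaux.gco_sub, gco_one_add_X_pow] at h
  linarith

end Pool.Agent.H861.GL
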