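import Pool.Agent.H861.GL.Defs

/-!
# GL/Kcx: the `h`-polynomial of the sphere `K(i, d-1)`

`minSphere i q r` is the join of `q` copies of the boundary of the `i`-simplex and of the boundary
of the `r`-simplex; the vertices are `0, ..., q (i+1) + r`, the vertex `v` belongs to the block
`v / (i + 1)` (blocks `0, ..., q`; the last block has `r + 1` elements, `r ≤ i`), and a set is a face
if it contains no block.

PROOF. A face is given by proper subsets `σ_a` of the blocks. So
`hP (minSphere i q r) (q * i + r) = ∏_a (∑ over proper subsets σ_a of the block a of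
X ^ |σ_a| (1 - X) ^ (|block| - 1 - |σ_a|))` (note `q * i + r - |σ| = ∑_a (|block a| - 1 - |σ_a|)`),
and for a block with `m + 1` elements
`∑_{s ≤ m} (m + 1).choose s * X ^ s * (1 - X) ^ (m - s) = 1 + X + ... + X ^ m`: multiply by `1 - X`:
`∑_{s ≤ m} (m + 1).choose s X ^ s (1 - X) ^ (m + 1 - s) = (X + (1 - X)) ^ (m + 1) - X ^ (m + 1) =
1 - X ^ (m + 1)` and cancel `1 - X`. (One may use induction on `q`, or
`Finset.prod_univ_sum`/`Fintype.piFinset`, or an equivalence with functions; any proof is fine.)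
-/

set_option autoImplicit false

namespace Pool.Agent.H861.GL

open Finset

/-- the join of `q` copies of the boundary of the `i`-simplex and the boundary of the
`r`-simplex -/
def minSphere (i q r : ℕ) : Finset (Finset (Fin (q * (i + 1) + (r + 1)))) :=
  univ.filter (fun σ => ∀ a ≤ q, ∃ v : Fin (q * (i + 1) + (r + 1)),
    (v : ℕ) / (i + 1) = a ∧ v ∉ σ)

namespace Kcxaux

/-- one block -/
theorem block {W : Type} [Fintype W] [DecidableEq W] (m : ℕ) (hW : Fintype.card W = m + 1) :
    ∑ τ ∈ (univ : Finset (Finset W)).filter (fun τ => ∃ w, w ∉ τ),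
      (Polynomial.X : Polynomial ℤ) ^ τ.card * (1 - Polynomial.X) ^ (m - τ.card) =
    ∑ s ∈ range (m + 1), (Polynomial.X : Polynomial ℤ) ^ s := by
  have hne : (1 - Polynomial.X : Polynomial ℤ) ≠ 0 := by
    intro h
    have h1 := congrArg (Polynomial.eval 0) h
    simp at h1
  apply mul_right_cancel₀ hne
  rw [geom_sum_mul_neg, Finset.sum_mul]
  have h1 := Fintype.sum_pow_mul_eq_add_pow W (Polynomial.X : Polynomial ℤ) (1 - Polynomial.X)
  rw [hW, add_sub_cancel, one_pow, ← Finset.add_sum_erase _ _ (mem_univ (univ : Finset W)),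
    Finset.card_univ, hW, Nat.sub_self, pow_zero, mul_one] at h1
  have h2 : (univ : Finset (Finset W)).filter (fun τ => ∃ w, w ∉ τ) = univ.erase univ := by
    ext τ
    rw [mem_filter, mem_erase, and_comm]
    refine and_congr_left fun _ => ?_
    rw [Ne, Finset.eq_univ_iff_forall, not_forall]
  rw [h2, eq_sub_iff_add_eq, add_comm]
  refine Eq.trans ?_ h1
  congr 1
  refine sum_congr rfl fun τ hτ => ?_
  have h3 : τ.card ≤ m := by
    rw [mem_erase] at hτ
    have h4 := Finset.card_lt_univ_of_notMem (s := τ) (x := (not_forall.1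
      (fun h => hτ.1 (Finset.eq_univ_iff_forall.2 h))).choose) (not_forall.1
      (fun h => hτ.1 (Finset.eq_univ_iff_forall.2 h))).choose_spec
    omega
  rw [mul_assoc, ← pow_succ, Nat.sub_add_comm h3]

/-- the join of boundaries of simplices -/
theorem gen {V B : Type} [Fintype V] [DecidableEq V] [Fintype B] [DecidableEq B] (b : V → B)
    (m : B → ℕ) (hm : ∀ a, Fintype.card {v // b v = a} = m a + 1)
    [DecidablePred (fun σ : Finset V => ∀ a, ∃ v, b v = a ∧ v ∉ σ)] :
    ∑ σ ∈ (univ : Finset (Finset V)).filter (fun σ => ∀ a, ∃ v, b v = a ∧ v ∉ σ),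
      (Polynomial.X : Polynomial ℤ) ^ σ.card * (1 - Polynomial.X) ^ ((∑ a, m a) - σ.card) =
    ∏ a, ∑ s ∈ range (m a + 1), (Polynomial.X : Polynomial ℤ) ^ s := by
  rw [Finset.prod_congr rfl fun a _ => (block (m a) (hm a)).symm, Finset.prod_univ_sum]
  refine Finset.sum_nbij' (fun σ a => σ.subtype (fun v => b v = a))
    (fun p => univ.filter (fun v => (⟨v, rfl⟩ : {w // b w = b v}) ∈ p (b v))) ?_ ?_ ?_ ?_ ?_
  · intro σ hσ
    rw [mem_filter] at hσ
    rw [Fintype.mem_piFinset]
    intro a
    rw [mem_filter]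
    obtain ⟨v, hv, hv'⟩ := hσ.2 a
    refine ⟨mem_univ _, ⟨v, hv⟩, ?_⟩
    rw [Finset.mem_subtype]
    exact hv'
  · intro p hp
    rw [Fintype.mem_piFinset] at hp
    rw [mem_filter]
    refine ⟨mem_univ _, fun a => ?_⟩
    have h1 := hp a
    rw [mem_filter] at h1
    obtain ⟨⟨v, hv⟩, h2⟩ := h1.2
    subst hv
    refine ⟨v, rfl, ?_⟩
    rw [mem_filter, not_and]
    exact fun _ => h2
  · intro σ _
    ext v
    rw [mem_filter, Finset.mem_subtype]
    exact ⟨fun h => h.2, fun h => ⟨mem_univ _, h⟩⟩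
  · intro p _
    funext a
    ext ⟨v, hv⟩
    subst hv
    rw [Finset.mem_subtype, mem_filter]
    exact ⟨fun h => h.2, fun h => ⟨mem_univ _, h⟩⟩
  · intro σ hσ
    rw [mem_filter] at hσ
    have hc : σ.card = ∑ a, (σ.subtype (fun v => b v = a)).card := by
      rw [Finset.card_eq_sum_card_fiberwise (f := b) (t := univ) (fun _ _ => mem_univ _)]
      exact sum_congr rfl fun a _ => (Finset.card_subtype _ _).symm
    have hl : ∀ a, (σ.subtype (fun v => b v = a)).card ≤ m a := by
      intro a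
      obtain ⟨v, hv, hv'⟩ := hσ.2 a
      have h4 := Finset.card_lt_univ_of_notMem (s := σ.subtype (fun v => b v = a))
        (x := ⟨v, hv⟩) (by
          rw [Finset.mem_subtype]
          exact hv')
      rw [hm a] at h4
      omega
    rw [Finset.prod_mul_distrib, Finset.prod_pow_eq_pow_sum, Finset.prod_pow_eq_pow_sum, ← hc]
    congr 2
    have h5 : ∑ a, (m a - (σ.subtype (fun v => b v = a)).card) + σ.card = ∑ a, m a := by
      rw [hc, ← sum_add_distrib]
      exact sum_congr rfl fun a _ => Nat.sub_add_cancel (hl a)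
    exact (Nat.eq_sub_of_add_eq h5).symm

end Kcxaux

theorem hP_minSphere (i q r : ℕ) (hr : r ≤ i) :
    hP (minSphere i q r) (q * i + r) =
      (∑ s ∈ range (i + 1), (Polynomial.X : Polynomial ℤ) ^ s) ^ q *
        ∑ s ∈ range (r + 1), (Polynomial.X : Polynomial ℤ) ^ s := by
  have hlt : ∀ v : Fin (q * (i + 1) + (r + 1)), (v : ℕ) / (i + 1) < q + 1 := by
    intro v
    rw [Nat.div_lt_iff_lt_mul (by omega : 0 < i + 1)]
    have h1 := v.2
    have h2 : (q + 1) * (i + 1) = q * (i + 1) + (i + 1) := by ring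
    omega
  have hfib : ∀ a : Fin (q + 1), Fintype.card {v : Fin (q * (i + 1) + (r + 1)) //
      (⟨(v : ℕ) / (i + 1), hlt v⟩ : Fin (q + 1)) = a} =
      (if (a : ℕ) < q then i else r) + 1 := by
    intro a
    rw [Fintype.card_subtype, ← Finset.card_map Fin.valEmbedding]
    have h1 : ((univ : Finset (Fin (q * (i + 1) + (r + 1)))).filter
        (fun v : Fin (q * (i + 1) + (r + 1)) =>
          (⟨(v : ℕ) / (i + 1), hlt v⟩ : Fin (q + 1)) = a)).map Fin.valEmbedding =
        Finset.Ico ((a : ℕ) * (i + 1))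
          ((a : ℕ) * (i + 1) + ((if (a : ℕ) < q then i else r) + 1)) := by
      ext x
      rw [mem_map, mem_Ico]
      have key : ∀ y : ℕ, y / (i + 1) = (a : ℕ) ↔
          (a : ℕ) * (i + 1) ≤ y ∧ y ≤ (a : ℕ) * (i + 1) + (i + 1) - 1 :=
        fun y => Nat.div_eq_iff (Nat.succ_pos i)
      constructor
      · rintro ⟨v, hv, rfl⟩
        rw [mem_filter] at hv
        have h2 : (v : ℕ) / (i + 1) = (a : ℕ) := congrArg Fin.val hv.2
        have h3 := (key v).1 h2
        have h4 := v.2
        change (a : ℕ) * (i + 1) ≤ (v : ℕ) ∧ (v : ℕ) < _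
        split_ifs with h5
        · omega
        · have h6 : (a : ℕ) = q := by
            have := a.2
            omega
          rw [h6] at h3 ⊢
          omega
      · rintro ⟨h2, h3⟩
        have h4 : x < q * (i + 1) + (r + 1) ∧ x / (i + 1) = (a : ℕ) := by
          split_ifs at h3 with h5
          · have h6 : ((a : ℕ) + 1) * (i + 1) ≤ q * (i + 1) := Nat.mul_le_mul_right _ h5
            have h7 : ((a : ℕ) + 1) * (i + 1) = (a : ℕ) * (i + 1) + (i + 1) := by ring
            exact ⟨by omega, (key x).2 ⟨h2, by omega⟩⟩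
          · have h6 : (a : ℕ) = q := by
              have := a.2
              omega
            refine ⟨?_, (key x).2 ⟨h2, by omega⟩⟩
            rw [h6] at h3
            omega
        refine ⟨⟨x, h4.1⟩, ?_, rfl⟩
        rw [mem_filter]
        exact ⟨mem_univ _, Fin.ext h4.2⟩
    rw [h1, Nat.card_Ico]
    omega
  have h := Kcxaux.gen (fun v : Fin (q * (i + 1) + (r + 1)) =>
    (⟨(v : ℕ) / (i + 1), hlt v⟩ : Fin (q + 1))) (fun a => if (a : ℕ) < q then i else r) hfib
  have e1 : ∑ a : Fin (q + 1), (if (a : ℕ) < q then i else r) = q * i + r := by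
    rw [Fin.sum_univ_castSucc]
    simp
  have e2 : ∏ a : Fin (q + 1), ∑ s ∈ range ((if (a : ℕ) < q then i else r) + 1),
      (Polynomial.X : Polynomial ℤ) ^ s =
      (∑ s ∈ range (i + 1), (Polynomial.X : Polynomial ℤ) ^ s) ^ q *
        ∑ s ∈ range (r + 1), (Polynomial.X : Polynomial ℤ) ^ s := by
    rw [Fin.prod_univ_castSucc]
    simp
  rw [e1, e2] at h
  rw [← h]
  unfold hP minSphere
  refine sum_congr ?_ fun _ _ => rfl
  ext σ
  rw [mem_filter, mem_filter]
  refine and_congr_right fun _ => ?_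
  constructor
  · intro h1 a
    obtain ⟨v, hv, hv'⟩ := h1 a (Nat.lt_succ_iff.1 a.2)
    exact ⟨v, Fin.ext hv, hv'⟩
  · intro h1 a ha
    obtain ⟨v, hv, hv'⟩ := h1 ⟨a, Nat.lt_succ_iff.2 ha⟩
    exact ⟨v, congrArg Fin.val hv, hv'⟩

end Pool.Agent.H861.GL
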