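import Pool.Agent.H861.GL.Defs3

/-!
# GL/LB: lower bound for the stresses on a star

PAPER PROOF. `cm hK hG hg` and `stress_dim` (with `star_cx`, `hP_star`; see `hdimS` in the proof of
`two_face` in TT.lean) give `finrank (St θ (star K G) d r) = (hP (lk K G) (d - G.card)).coeff r`.
`St θ (star K G) (d+1) j` is the kernel of `op (θ d) : St θ (star K G) d j → St θ (star K G) d (j-1)`
(see `HilbBaux.T`, `HilbBaux.ker_map` in HilbB.lean, with `i = d`, `r = j - 1`; finite
dimension: `HilbAaux.st_finite`), so its dimension is at least the difference.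
-/

set_option autoImplicit false

namespace Pool.Agent.H861.GL

open Finset Pool.Agent.W555.KS Pool.Agent.Y131.KS

theorem star_lower {n d j : ℕ} {K : Finset (Finset (Fin n))} {k : Type} [Field k] [CharP k 2]
    (hK : HSph K d) {G : Finset (Fin n)} (hG : G ∈ K) {θ : ℕ → Fin n → k} (hg : Gen θ K)
    (hj : 1 ≤ j) : gco (hP (lk K G) (d - G.card)) j ≤
      (Module.finrank k (St θ (star K G) (d + 1) j) : ℤ) := by
  have hdimS : ∀ r, (Module.finrank k (St θ (star K G) d r) : ℤ) =
      (hP (lk K G) (d - G.card)).coeff r := by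
    intro r
    rw [← hP_star hK.cx hK.card_le hG]
    exact stress_dim (star_cx hK.cx hG) (fun σ hσ => hK.card_le σ (mem_star.1 hσ).1) θ
      (cm hK hG hg) r
  obtain ⟨r, rfl⟩ : ∃ r, j = r + 1 := ⟨j - 1, by omega⟩
  have hcx : IsCx (star K G) := star_cx hK.cx hG
  have hf1 := st_finite (K := star K G) θ d (r + 1)
  have hf2 := st_finite (K := star K G) θ d r
  have h1 := LinearMap.finrank_range_add_finrank_ker (HilbBaux.T hcx θ d r)
  have h2 : Module.finrank k (LinearMap.ker (HilbBaux.T hcx θ d r)) =
      Module.finrank k (St θ (star K G) (d + 1) (r + 1)) := by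
    rw [← HilbBaux.ker_map hcx θ d r, Submodule.finrank_map_subtype_eq]
  have h3 := Submodule.finrank_le (LinearMap.range (HilbBaux.T hcx θ d r))
  have h4 : (Module.finrank k (St θ (star K G) d (r + 1)) : ℤ) ≤
      Module.finrank k (St θ (star K G) d r) +
        Module.finrank k (St θ (star K G) (d + 1) (r + 1)) := by
    exact_mod_cast (by omega : Module.finrank k (St θ (star K G) d (r + 1)) ≤
      Module.finrank k (St θ (star K G) d r) +
        Module.finrank k (St θ (star K G) (d + 1) (r + 1)))
  rw [hdimS, hdimS] at h4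
  unfold gco
  rw [if_neg (Nat.succ_ne_zero r), Nat.add_sub_cancel]
  linarith

end Pool.Agent.H861.GL
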