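import Pool.Agent.H861.GL.Defs

/-!
# GL/LKD: the Lefschetz property of the link of a vertex, in dual form

`srI`, `lf` are in `Pool.Graph.R_seed8.W555.KS.Defs`: `lf c = ∑ v, C (c v) * X v`, `srI k L` is
generated by the `∏ v ∈ σ, X v` with `σ ∉ L`.

PROOF. Let `R = MvPolynomial (Fin n) k` act on `Fn n k` by contraction,
`(act p f) α = ∑ β in p.support, p.coeff β * f (α + β)`; this is a ring action (`act (p * q) f =
act p (act q f)`, additive in `p`; check on monomials; or define it as `MvPolynomial.aeval` of the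
commuting endomorphisms `sh v`), `act (X v) = sh v`, `act (lf c) = op c`. Let `μ = sh u f`. The set
`A = {p | act p μ = 0}` is an ideal of `R`. It contains
 (a) `∏ v ∈ σ, X v` for every `σ` with `σ ∪ {u} ∉ K`: `(act (∏ v ∈ σ, X v) μ) α =
     f (α + (sum of e_v, v ∈ σ) + e_u)`, the support of this monomial contains `σ ∪ {u} ∉ K`;
 (b) `lf (θ l)` for `l < e + 1` (`sh_op`), in particular `∑ v, X v = lf (θ 0)`;
 (c) `(lf (θ (e + 1))) ^ m` by `hω`.
CLAIM: every homogeneous `p` of degree `s` lies in `A`. Then `μ α = (act (monomial α 1) μ) 0 = 0`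
for `α` of degree `s`, and `μ α = f (α + e_u) = 0` for other `α` since `f` is supported in degree
`s + 1`. So `μ = 0`.
Proof of the claim: let `φ : R → R` be the algebra map with `X u ↦ - ∑_{v ≠ u} X v`, `X v ↦ X v`
for `v ≠ u`. Then `p - φ p` lies in the ideal generated by `lf (θ 0) = ∑ v, X v` (it is enough to
check it for variables), so in `A` by (b). `φ p` is homogeneous of degree `s`, so by `hspec`
`φ p ∈ srI k (lk K {u}) ⊔ ...`. Apply the algebra map `ψ` with `X u ↦ 0`, `X v ↦ X v` (`v ≠ u`).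
`ψ (φ p) = φ p` as `φ p` does not involve `X u` (`ψ ∘ φ = φ` on variables). And `ψ` maps each of
the three ideals into `A`:
 * `ψ (∏ v ∈ σ, X v)` for `σ ∉ lk K {u}` is `0` if `u ∈ σ`; otherwise it is `∏ v ∈ σ, X v` and
   `σ ∪ {u} ∉ K` (as `σ` and `{u}` are disjoint), use (a);
 * `ψ (lf (c (i, ·))) = ∑_{v ≠ u} (θ (i+1) v - θ (i+1) u) X v = lf (θ (i + 1)) - C (θ (i+1) u) *
   lf (θ 0)`, for `i < e` this is in `A` by (b);
 * for `i = e` the difference of `ψ (lf (c (e, ·))) ^ m` and `(lf (θ (e + 1))) ^ m` is divisible by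
   `lf (θ 0)` (`sub_dvd_pow_sub_pow`), use (b), (c).
(An ideal generated by a set is mapped into `A` if the generators are, as `ψ` is a ring map:
`Ideal.span_le`, `Ideal.comap`.)
-/

set_option autoImplicit false

namespace Pool.Agent.H861.GL

open Finset Pool.Agent.W555.KS Pool.Agent.Y131.KS

namespace LKDaux

open MvPolynomial

variable {n : ℕ} {k : Type} [Field k]

/-- contraction with a monomial -/
noncomputable def shift (β : Fin n →₀ ℕ) : Fn n k →ₗ[k] Fn n k where
  toFun f α := f (α + β)
  map_add' _ _ := rfl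
  map_smul' _ _ := rfl

theorem shift_apply (β : Fin n →₀ ℕ) (f : Fn n k) (α : Fin n →₀ ℕ) :
    shift β f α = f (α + β) := rfl

/-- the contraction action of the polynomial ring -/
noncomputable def act : MvPolynomial (Fin n) k →ₐ[k] Module.End k (Fn n k) :=
  AddMonoidAlgebra.lift k (Module.End k (Fn n k)) (Fin n →₀ ℕ)
    { toFun := fun β => shift (Multiplicative.toAdd β)
      map_one' := by
        ext f α
        show f (α + 0) = f α
        rw [add_zero]
      map_mul' := by
        intro β γ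
        ext f α
        show f (α + (Multiplicative.toAdd β + Multiplicative.toAdd γ)) =
          f (α + Multiplicative.toAdd β + Multiplicative.toAdd γ)
        rw [add_assoc] }

theorem act_monomial (β : Fin n →₀ ℕ) (c : k) : act (monomial β c) = c • shift β := by
  rw [← MvPolynomial.single_eq_monomial]
  exact AddMonoidAlgebra.lift_single _ _ _

theorem act_X (v : Fin n) : act (k := k) (X v) = sh v := by
  show act (monomial (Finsupp.single v 1) 1) = sh v
  rw [act_monomial, one_smul]
  rfl

theorem act_C (c : k) : act (n := n) (C c) = c • (1 : Module.End k (Fn n k)) := by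
  rw [← MvPolynomial.algebraMap_eq, AlgHom.commutes, Algebra.algebraMap_eq_smul_one]

theorem act_lf (c : Fin n → k) : act (lf c) = op c := by
  unfold lf
  rw [map_sum]
  ext f α
  rw [op_apply, LinearMap.sum_apply, Finset.sum_apply]
  refine sum_congr rfl fun v _ => ?_
  rw [map_mul, act_C, act_X]
  rfl

theorem act_prod (σ : Finset (Fin n)) (f : Fn n k) (α : Fin n →₀ ℕ) :
    act (∏ v ∈ σ, X v) f α = f (α + ∑ v ∈ σ, Finsupp.single v 1) := by
  classical
  induction σ using Finset.induction_on generalizing α with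
  | empty => rw [prod_empty, map_one, sum_empty, add_zero]; rfl
  | insert v σ hv ih =>
    rw [prod_insert hv, map_mul, act_X, sum_insert hv]
    show act (∏ v ∈ σ, X v) f (α + Finsupp.single v 1) = _
    rw [ih, add_assoc]

/-- the annihilator of a function -/
def ann (μ : Fn n k) : Ideal (MvPolynomial (Fin n) k) where
  carrier := {p | act p μ = 0}
  add_mem' := by
    intro p q hp hq
    show act (p + q) μ = 0
    rw [map_add, LinearMap.add_apply, show act p μ = 0 from hp, show act q μ = 0 from hq, add_zero]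
  zero_mem' := by
    show act 0 μ = 0
    rw [map_zero]; rfl
  smul_mem' := by
    intro p q hq
    show act (p * q) μ = 0
    rw [map_mul, Module.End.mul_apply, show act q μ = 0 from hq, map_zero]

theorem mem_ann {μ : Fn n k} {p : MvPolynomial (Fin n) k} : p ∈ ann μ ↔ act p μ = 0 := Iff.rfl

theorem exists_phi (u : Fin n) : ∃ φ : MvPolynomial (Fin n) k →ₐ[k] MvPolynomial (Fin n) k,
    (∀ v, φ (X v) = if v = u then -∑ w ∈ univ.erase u, X w else X v) ∧
    ∀ (s : ℕ) (p : MvPolynomial (Fin n) k), p.IsHomogeneous s → (φ p).IsHomogeneous s := by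
  refine ⟨aeval (fun v => if v = u then -∑ w ∈ univ.erase u, X w else X v),
    fun v => aeval_X _ _, fun s p hp => ?_⟩
  have h2 := hp.aeval (fun v => if v = u then -∑ w ∈ univ.erase u, X w
    else (X v : MvPolynomial (Fin n) k)) (n := 1) (fun v => by
      split_ifs
      · exact (IsHomogeneous.sum _ _ _ fun w _ => isHomogeneous_X k w).neg
      · exact isHomogeneous_X k v)
  rwa [one_mul] at h2

theorem exists_psi (u : Fin n) : ∃ ψ : MvPolynomial (Fin n) k →ₐ[k] MvPolynomial (Fin n) k,
    ∀ v, ψ (X v) = if v = u then 0 else X v :=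
  ⟨aeval (fun v => if v = u then 0 else X v), fun v => aeval_X _ _⟩

/-- the annihilator contains `p - φ p` -/
theorem sub_mem (u : Fin n) (φ : MvPolynomial (Fin n) k →ₐ[k] MvPolynomial (Fin n) k)
    (hφX : ∀ v, φ (X v) = if v = u then -∑ w ∈ univ.erase u, X w else X v)
    (I : Ideal (MvPolynomial (Fin n) k)) (hb0 : ∑ v, X v ∈ I) (p : MvPolynomial (Fin n) k) :
    p - φ p ∈ I := by
  induction p using MvPolynomial.induction_on with
  | C a =>
    rw [MvPolynomial.algHom_C, MvPolynomial.algebraMap_eq, sub_self]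
    exact Ideal.zero_mem _
  | add p q hp hq =>
    rw [map_add, add_sub_add_comm]
    exact Ideal.add_mem _ hp hq
  | mul_X p v hp =>
    have h1 : (X v : MvPolynomial (Fin n) k) - φ (X v) ∈ I := by
      rw [hφX]
      split_ifs with h
      · rw [h, sub_neg_eq_add, Finset.add_sum_erase univ _ (mem_univ u)]
        exact hb0
      · rw [sub_self]
        exact Ideal.zero_mem _
    have h2 : p * X v - φ (p * X v) = (p - φ p) * X v + φ p * (X v - φ (X v)) := by
      rw [map_mul]; ring
    rw [h2]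
    exact Ideal.add_mem _ (Ideal.mul_mem_right _ _ hp) (Ideal.mul_mem_left _ _ h1)

theorem psi_phi (u : Fin n) (φ ψ : MvPolynomial (Fin n) k →ₐ[k] MvPolynomial (Fin n) k)
    (hφX : ∀ v, φ (X v) = if v = u then -∑ w ∈ univ.erase u, X w else X v)
    (hψX : ∀ v, ψ (X v) = if v = u then 0 else X v) (p : MvPolynomial (Fin n) k) :
    ψ (φ p) = φ p := by
  have h1 : ψ.comp φ = φ := by
    refine MvPolynomial.algHom_ext fun v => ?_
    rw [AlgHom.comp_apply, hφX]
    split_ifs with h
    · rw [map_neg, map_sum]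
      congr 1
      refine sum_congr rfl fun w hw => ?_
      rw [hψX, if_neg (mem_erase.1 hw).1]
    · rw [hψX, if_neg h]
  exact DFunLike.congr_fun h1 p

theorem pow_mem (I : Ideal (MvPolynomial (Fin n) k)) (x y : MvPolynomial (Fin n) k) (m : ℕ)
    (h1 : y ∈ I) (h2 : x ^ m ∈ I) (z : MvPolynomial (Fin n) k) (hz : z = x - y) : z ^ m ∈ I := by
  subst hz
  have h3 := Ideal.mem_of_dvd _ (sub_dvd_pow_sub_pow (x - y) x m)
    (show x - y - x ∈ I by
      rw [show x - y - x = -y by ring]
      exact (Ideal.neg_mem_iff _).2 h1)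
  have h4 := Ideal.add_mem _ h3 h2
  rwa [sub_add_cancel] at h4

end LKDaux

open LKDaux in
theorem lkd {n e : ℕ} {K : Finset (Finset (Fin n))} {k : Type} [Field k] (hK : IsCx K) (u : Fin n)
    (θ : ℕ → Fin n → k) (h0 : ∀ v, θ 0 v = 1) (a : Fin (e + 1) → k) (s m : ℕ)
    (c : Fin (e + 1) × Fin n → k)
    (hc : c = fun p : Fin (e + 1) × Fin n =>
      if p.2 = u then a p.1 else θ ((p.1 : ℕ) + 1) p.2 - θ ((p.1 : ℕ) + 1) u)
    (hspec : ∀ p : MvPolynomial (Fin n) k, p.IsHomogeneous s →
      p ∈ srI k (lk K {u}) ⊔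
        Ideal.span (Set.range (fun i : Fin e => lf (fun v => c (i.castSucc, v)))) ⊔
        Ideal.span {lf (fun v => c (Fin.last e, v)) ^ m})
    (f : Fn n k) (hf : f ∈ St θ K (e + 1) (s + 1))
    (hω : ((op (θ (e + 1))) ^ m) (sh u f) = 0) : sh u f = 0 := by
  classical
  obtain ⟨μ, hμ⟩ : ∃ μ, μ = sh u f := ⟨_, rfl⟩
  rw [← hμ] at hω ⊢
  -- members of the annihilator
  have ha : ∀ σ : Finset (Fin n), insert u σ ∉ K → (∏ v ∈ σ, MvPolynomial.X v) ∈ ann μ := by
    intro σ hσ
    rw [mem_ann]
    funext α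
    rw [act_prod, hμ, sh_apply]
    by_contra hne
    have h1 := (hf.1 _ hne).1
    refine hσ (hK.2 _ h1 _ ?_)
    intro v hv
    rw [Finsupp.mem_support_iff, Finsupp.add_apply, Finsupp.add_apply]
    rcases mem_insert.1 hv with rfl | hv
    · rw [Finsupp.single_eq_same]
      omega
    · have h2 : 1 ≤ (∑ w ∈ σ, Finsupp.single w 1 : Fin n →₀ ℕ) v := by
        rw [Finsupp.finsetSum_apply]
        calc 1 = Finsupp.single v 1 v := by rw [Finsupp.single_eq_same]
          _ ≤ ∑ w ∈ σ, (Finsupp.single w 1 : Fin n →₀ ℕ) v :=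
            Finset.single_le_sum (f := fun w => (Finsupp.single w 1 : Fin n →₀ ℕ) v)
              (fun _ _ => Nat.zero_le _) hv
      omega
  have hb : ∀ l < e + 1, lf (θ l) ∈ ann μ := by
    intro l hl
    rw [mem_ann, act_lf, hμ, ← sh_op, hf.2 l hl, map_zero]
  have hcm : (lf (θ (e + 1))) ^ m ∈ ann μ := by
    rw [mem_ann, map_pow, act_lf]
    exact hω
  have h0l : lf (θ 0) = ∑ v, (MvPolynomial.X v : MvPolynomial (Fin n) k) := by
    unfold lf
    refine sum_congr rfl fun v _ => ?_
    rw [h0, map_one, one_mul]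
  have hb0 := hb 0 (Nat.succ_pos e)
  -- the two substitutions
  obtain ⟨φ, hφX, hφh⟩ := exists_phi (k := k) u
  obtain ⟨ψ, hψX⟩ := exists_psi (k := k) u
  have hφm : ∀ p, p - φ p ∈ ann μ := sub_mem u φ hφX (ann μ) (h0l ▸ hb0)
  have hψφ : ∀ p, ψ (φ p) = φ p := psi_phi u φ ψ hφX hψX
  have hψlf : ∀ i : Fin (e + 1), ψ (lf (fun v => c (i, v))) =
      lf (θ ((i : ℕ) + 1)) - MvPolynomial.C (θ ((i : ℕ) + 1) u) * lf (θ 0) := by
    intro i
    rw [h0l]
    unfold lf
    rw [map_sum, mul_sum, ← sum_sub_distrib]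
    refine sum_congr rfl fun v _ => ?_
    rw [map_mul, hψX, MvPolynomial.algHom_C, hc]
    dsimp only
    split_ifs with h
    · rw [h, mul_zero, sub_self]
    · rw [MvPolynomial.algebraMap_eq, map_sub, sub_mul]
  have hincl : srI k (lk K {u}) ⊔
        Ideal.span (Set.range (fun i : Fin e => lf (fun v => c (i.castSucc, v)))) ⊔
        Ideal.span {lf (fun v => c (Fin.last e, v)) ^ m} ≤ (ann μ).comap ψ := by
    refine sup_le (sup_le ?_ ?_) ?_
    · unfold srI
      rw [Ideal.span_le]
      rintro p ⟨σ, hσ, rfl⟩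
      rw [SetLike.mem_coe, Ideal.mem_comap, map_prod]
      by_cases hu : u ∈ σ
      · rw [prod_eq_zero hu (by rw [hψX, if_pos rfl])]
        exact Ideal.zero_mem _
      · have h1 : ∏ v ∈ σ, ψ (MvPolynomial.X v) = ∏ v ∈ σ, MvPolynomial.X v := by
          refine prod_congr rfl fun v hv => ?_
          rw [hψX, if_neg]
          rintro rfl
          exact hu hv
        rw [h1]
        refine ha σ fun h2 => hσ ?_
        rw [mem_lk]
        refine ⟨disjoint_singleton_right.2 hu, ?_⟩
        rwa [union_comm, ← insert_eq]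
    · rw [Ideal.span_le]
      rintro p ⟨i, rfl⟩
      rw [SetLike.mem_coe, Ideal.mem_comap, hψlf]
      refine Ideal.sub_mem _ (hb _ ?_) (Ideal.mul_mem_left _ _ hb0)
      have := i.2
      simp only [Fin.val_castSucc]
      omega
    · rw [Ideal.span_le, Set.singleton_subset_iff]
      rw [SetLike.mem_coe, Ideal.mem_comap, map_pow]
      exact pow_mem (ann μ) (lf (θ (e + 1))) _ m (Ideal.mul_mem_left _ _ hb0) hcm _
        (hψlf (Fin.last e))
  -- all homogeneous polynomials of degree `s` annihilate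
  have hall : ∀ p : MvPolynomial (Fin n) k, p.IsHomogeneous s → p ∈ ann μ := by
    intro p hp
    have h1 : (φ p).IsHomogeneous s := hφh s p hp
    have h2 := hincl (hspec (φ p) h1)
    rw [Ideal.mem_comap, hψφ] at h2
    have h4 := Ideal.add_mem _ (hφm p) h2
    rwa [sub_add_cancel] at h4
  funext α
  by_cases hα : α.degree = s
  · have h1 := hall (MvPolynomial.monomial α 1) (MvPolynomial.isHomogeneous_monomial 1 hα)
    rw [mem_ann, act_monomial, one_smul] at h1
    have h2 := congrFun h1 0
    rwa [shift_apply, zero_add] at h2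
  · by_contra hne
    rw [hμ, sh_apply] at hne
    have h1 := (hf.1 _ hne).2
    rw [map_add, Finsupp.degree_single] at h1
    omega

end Pool.Agent.H861.GL
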