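import Pool.Agent.H861.GL.CM
import Pool.Agent.H861.GL.GenEx
import Pool.Agent.H861.GL.LKD
import Pool.Agent.H861.GL.DimD
import Pool.Agent.H861.GL.Eul
import Pool.Agent.H861.GL.DSrA
import Pool.Agent.H861.GL.DSrB
import Pool.Agent.H861.GL.DSrC
import Pool.Agent.H861.GL.GamA
import Pool.Agent.H861.GL.GamB
import Pool.Graph.R_seed8.Y131.KS.Chain
import Pool.Graph.R_seed8.Y131.KS.Sub

/-!
# GL/Rel: the relative inequality for the h-numbers
-/

set_option autoImplicit false

namespace Pool.Agent.H861.GL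

open Finset Pool.Agent.W555.KS Pool.Agent.Y131.KS

theorem spec' : Spec' :=
  spec span2 (t2 (t1e' halg') (t1o' halg') Pool.Agent.W646.KS.ind
    (t2c (t1e' halg') Pool.Agent.W646.KS.ind))

abbrev kk : Type := AlgebraicClosure (ZMod 2)

instance : CharP kk 2 := by
  unfold kk
  infer_instance

instance : Infinite kk := by
  unfold kk
  infer_instance

theorem star_empty {n : ℕ} (K : Finset (Finset (Fin n))) : star K ∅ = K := by
  ext σ
  rw [mem_star, union_empty]
  exact and_self_iff

theorem star_cx {n : ℕ} {K : Finset (Finset (Fin n))} (hK : IsCx K) {E : Finset (Fin n)}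
    (hE : E ∈ K) : IsCx (star K E) := by
  refine ⟨mem_star.2 ⟨hK.1, by rwa [empty_union]⟩, ?_⟩
  intro σ hσ τ hτ
  rw [mem_star] at hσ ⊢
  exact ⟨hK.2 _ hσ.1 _ hτ, hK.2 _ hσ.2 _ (union_subset_union_left hτ)⟩

/-- the relative inequality -/
theorem rel_ineq {n e : ℕ} {K D : Finset (Finset (Fin n))} (hK : HSph K (e + 1))
    (W : Finset (Fin n)) (hD : ∀ σ, σ ∈ D ↔ σ ∈ K ∧ ∀ u ∈ W, u ∉ σ) {E : Finset (Fin n)}
    (hE : E ∈ K) (hDE : D = star K E) {j : ℕ} (hj : 2 * j ≤ e + 1) :
    (hP K (e + 1)).coeff (e + 2 - j) + (hP D (e + 1)).coeff j ≤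
      (hP K (e + 1)).coeff j + (hP D (e + 1)).coeff (e + 2 - j) := by
  classical
  have hsp : ∀ (u : Fin n) (r : ℕ), ∃ F : MvPolynomial (Fin (e + 1) × Fin n) ℤ,
      MvPolynomial.map (Int.castRingHom (ZMod 2)) F ≠ 0 ∧
      (({u} : Finset (Fin n)) ∈ K → e < 2 * r →
        ∀ (k : Type) [Field k] (c : Fin (e + 1) × Fin n → k), MvPolynomial.aeval c F ≠ 0 →
        ∀ p : MvPolynomial (Fin n) k, p.IsHomogeneous r →
          p ∈ srI k (lk K {u}) ⊔
            Ideal.span (Set.range (fun i : Fin e => lf (fun v => c (i.castSucc, v)))) ⊔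
            Ideal.span {lf (fun v => c (Fin.last e, v)) ^ (2 * r - e)}) := by
    intro u r
    by_cases h : ({u} : Finset (Fin n)) ∈ K ∧ e < 2 * r
    · have hl : HSph (lk K {u}) e := by
        have := hK.lk h.1
        rwa [Nat.add_sub_cancel] at this
      have hv : VK2 (lk K {u}) (e + 1) :=
        vk2_of_sphere hl (Function.Embedding.refl _) (fun σ hσ => by
          rwa [Finset.map_refl])
      obtain ⟨F, hF, hF2⟩ := spec' n e (lk K {u}) hl.cx hv r h.2
      exact ⟨F, hF, fun _ _ => hF2⟩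
    · refine ⟨1, ?_, fun h1 h2 => absurd ⟨h1, h2⟩ h⟩
      rw [map_one]
      exact one_ne_zero
  choose F hF hF2 using hsp
  obtain ⟨θ, a, h0, hg, ha⟩ := exists_generic n (e + 1) (e + 1) K hK.card_le kk F hF
  have hdimK : ∀ r, (Module.finrank kk (St θ K (e + 1) r) : ℤ) = (hP K (e + 1)).coeff r := by
    intro r
    refine stress_dim hK.cx hK.card_le θ ?_ r
    have := cm hK hK.cx.1 hg
    rwa [star_empty] at this
  have hdimD : ∀ r, (Module.finrank kk (St θ D (e + 1) r) : ℤ) = (hP D (e + 1)).coeff r := by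
    intro r
    subst hDE
    exact stress_dim (star_cx hK.cx hE) (fun σ hσ => hK.card_le σ (mem_star.1 hσ).1) θ
      (cm hK hE hg) r
  have hm : j + (e + 2 - 2 * j) = e + 2 - j := by omega
  have key := dim_rel (k := kk) hK.cx W hD θ (θ (e + 1)) (e + 1) j (e + 2 - 2 * j) (by
    intro u _ f hf hω
    by_cases hu : ({u} : Finset (Fin n)) ∈ K
    · have hs : j + (e + 2 - 2 * j) = (e + 1 - j) + 1 := by omega
      rw [hs] at hf
      have he : 2 * (e + 1 - j) - e = e + 2 - 2 * j := by omega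
      have h1 := hF2 u (e + 1 - j) hu (by omega) kk _ (ha u (e + 1 - j) (by omega))
      rw [he] at h1
      exact lkd hK.cx u θ h0 (a u) (e + 1 - j) (e + 2 - 2 * j) _ rfl h1 f hf hω
    · funext α
      by_contra hne
      have h1 := (hf.1 _ hne).1
      apply hu
      refine hK.cx.2 _ h1 _ ?_
      rw [singleton_subset_iff, Finsupp.mem_support_iff, Finsupp.add_apply,
        Finsupp.single_eq_same]
      omega)
  rw [hm] at key
  have key' : (Module.finrank kk (St θ K (e + 1) (e + 2 - j)) : ℤ) +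
      Module.finrank kk (St θ D (e + 1) j) ≤
      Module.finrank kk (St θ K (e + 1) j) + Module.finrank kk (St θ D (e + 1) (e + 2 - j)) := by
    exact_mod_cast key
  rwa [hdimK, hdimK, hdimD, hdimD] at key'

/-- Dehn-Sommerville -/
theorem ds {n d : ℕ} {K : Finset (Finset (Fin n))} (hK : HSph K d) {r : ℕ} (hr : r ≤ d) :
    (hP K d).coeff r = (hP K d).coeff (d - r) :=
  ds_symm hK.cx hK.card_le (fun _ hσ => euler (hsph_lk hK hσ)) hr

/-- flag complexes -/
def Flag {n : ℕ} (K : Finset (Finset (Fin n))) : Prop :=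
  ∀ F : Finset (Fin n), (∀ a ∈ F, ∀ b ∈ F, ({a, b} : Finset (Fin n)) ∈ K) → F ∈ K

theorem flag_lk {n : ℕ} {K : Finset (Finset (Fin n))} (hK : IsCx K) (h : Flag K)
    {σ : Finset (Fin n)} (hσ : σ ∈ K) : Flag (lk K σ) := by
  intro F hF
  have hmem : ∀ a ∈ F, ∀ b ∈ F, Disjoint ({a, b} : Finset (Fin n)) σ ∧ {a, b} ∪ σ ∈ K :=
    fun a ha b hb => mem_lk.1 (hF a ha b hb)
  have hdis : Disjoint F σ := by
    rw [Finset.disjoint_left]
    intro a ha haσ
    have := (hmem a ha a ha).1
    rw [Finset.disjoint_left] at this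
    exact this (mem_insert_self _ _) haσ
  refine mem_lk.2 ⟨hdis, h _ ?_⟩
  intro a ha b hb
  rw [mem_union] at ha hb
  rcases ha with ha | ha <;> rcases hb with hb | hb
  · exact hK.2 _ (hmem a ha b hb).2 _ subset_union_left
  · refine hK.2 _ (hmem a ha a ha).2 _ ?_
    intro x hx
    rw [mem_insert, mem_singleton] at hx
    rw [mem_union]
    rcases hx with rfl | rfl
    · exact Or.inl (mem_insert_self _ _)
    · exact Or.inr hb
  · refine hK.2 _ (hmem b hb b hb).2 _ ?_
    intro x hx
    rw [mem_insert, mem_singleton] at hx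
    rw [mem_union]
    rcases hx with rfl | rfl
    · exact Or.inr ha
    · exact Or.inl (mem_insert_self _ _)
  · refine hK.2 _ hσ _ ?_
    intro x hx
    rw [mem_insert, mem_singleton] at hx
    rcases hx with rfl | rfl
    · exact ha
    · exact hb

/-- **the vertex inequality** -/
theorem vertex_ineq {n d : ℕ} {K : Finset (Finset (Fin n))} (hK : HSph K d) (hf : Flag K)
    {w : Fin n} (hw : ({w} : Finset (Fin n)) ∈ K) {j : ℕ} (hj : 2 * (j + 1) ≤ d) :
    gco (hP (lk K {w}) (d - 1)) (j + 1) + gco (hP (lk K {w}) (d - 1)) j ≤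
      gco (hP K d) (j + 1) := by
  classical
  obtain ⟨e, rfl⟩ : ∃ e, d = e + 1 := ⟨d - 1, by omega⟩
  have hl : HSph (lk K {w}) e := by
    have := hK.lk hw
    rwa [Nat.add_sub_cancel] at this
  have hW : ∀ σ, σ ∈ star K {w} ↔ σ ∈ K ∧
      ∀ u ∈ (univ.filter (fun u : Fin n => ({u, w} : Finset (Fin n)) ∉ K)), u ∉ σ := by
    intro σ
    rw [mem_star]
    constructor
    · rintro ⟨h1, h2⟩
      refine ⟨h1, fun u hu huσ => ?_⟩
      rw [mem_filter] at hu
      apply hu.2
      refine hK.cx.2 _ h2 _ ?_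
      intro x hx
      rw [mem_insert, mem_singleton] at hx
      rw [mem_union, mem_singleton]
      rcases hx with rfl | rfl
      · exact Or.inl huσ
      · exact Or.inr rfl
    · rintro ⟨h1, h2⟩
      have h3 : ∀ u ∈ σ, ({u, w} : Finset (Fin n)) ∈ K := by
        intro u hu
        by_contra hcon
        exact h2 u (mem_filter.2 ⟨mem_univ _, hcon⟩) hu
      refine ⟨h1, hf _ ?_⟩
      intro a ha b hb
      rw [mem_union, mem_singleton] at ha hb
      rcases ha with ha | rfl <;> rcases hb with hb | rfl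
      · refine hK.cx.2 _ h1 _ ?_
        intro x hx
        rw [mem_insert, mem_singleton] at hx
        rcases hx with rfl | rfl
        · exact ha
        · exact hb
      · exact h3 a ha
      · have := h3 b hb
        rwa [pair_comm] at this
      · rw [pair_eq_singleton]
        exact hw
  have h1 := rel_ineq hK _ hW hw rfl (j := j + 1) (by omega)
  rw [hP_star hK.cx hK.card_le hw, card_singleton, Nat.add_sub_cancel] at h1
  rw [Nat.add_sub_cancel]
  have e1 : e + 2 - (j + 1) = e + 1 - j := by omega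
  rw [e1, ← ds hK (by omega : j ≤ e + 1)] at h1
  have e2 : (hP (lk K {w}) e).coeff (e + 1 - j) = if j = 0 then 0 else
      (hP (lk K {w}) e).coeff (j - 1) := by
    split_ifs with h0
    · subst h0
      exact hP_high hl.card_le (by omega)
    · have e3 : e + 1 - j = e - (j - 1) := by omega
      rw [e3, ← ds hl (by omega : j - 1 ≤ e)]
  rw [e2] at h1
  unfold gco
  rw [if_neg (Nat.succ_ne_zero j), if_neg (Nat.succ_ne_zero j), Nat.add_sub_cancel]
  linarith

end Pool.Agent.H861.GL
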