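import Pool.Agent.H861.GL.Defs
import Pool.Agent.H861.GL.HilbA

/-!
# GL/Semi: the dimension of the space of stresses is upper semicontinuous in the linear forms

PAPER PROOF. `V` = functions supported on the finitely many monomials of degree `j` with support in
`N` (finite-dimensional; see `mon`, `eqv`, `st_finite` in HilbA.lean, which you may import). `A c`
= the linear map `f ↦ (l < m ↦ op (c l) f restricted to the finitely many monomials of degree
j-1)` (if `j = 0` then `op` kills everything of degree 0: all the `St c N m 0` are equal to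
`St c₀ N m 0`, take `F = 1`). Its kernel is `St c N m j`, and its matrix in the monomial bases has
entries which are polynomials (in fact variables or zero, with coefficient 1) in the `c p.1 p.2`.
Let `r` be the rank of `A c₀`. Choose `r` columns/a linear map `P : k^r → V` and
`Q : target → k^r` with `Q ∘ A c₀ ∘ P = id` (constant matrices over `k`). Put
`F = det (Q A(X) P)` where `A(X)` is the matrix of variables. Then `F(c₀) = 1`, and if `F(c) ≠ 0`
then `A c` has rank `≥ r`, so its kernel has dimension `≤ dim V - r`.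
-/

set_option autoImplicit false

namespace Pool.Agent.H861.GL

open Finset Pool.Agent.W555.KS Pool.Agent.Y131.KS

namespace Semiaux

open HilbAaux (mon mem_mon)

theorem exists_pq {k : Type} [Field k] {R D : Type} [Fintype R] [Fintype D] [DecidableEq R]
    [DecidableEq D] (A : Matrix R D k) :
    ∃ (Q : Matrix (Fin A.rank) R k) (P : Matrix D (Fin A.rank) k), Q * A * P = 1 := by
  let f : (D → k) →ₗ[k] (R → k) := Matrix.toLin' A
  have hr : Module.finrank k (LinearMap.range f) = Module.finrank k (Fin A.rank → k) := by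
    rw [Module.finrank_fin_fun]
    rfl
  let e : LinearMap.range f ≃ₗ[k] (Fin A.rank → k) := LinearEquiv.ofFinrankEq _ _ hr
  obtain ⟨s, hs⟩ := LinearMap.exists_rightInverse_of_surjective f.rangeRestrict
    (LinearMap.range_rangeRestrict f)
  obtain ⟨t, ht⟩ := LinearMap.exists_leftInverse_of_injective (LinearMap.range f).subtype
    (Submodule.ker_subtype _)
  have key : (e.toLinearMap ∘ₗ t) ∘ₗ f ∘ₗ (s ∘ₗ e.symm.toLinearMap) = LinearMap.id := by
    apply LinearMap.ext
    intro x
    have h1 : f.rangeRestrict (s (e.symm x)) = e.symm x := LinearMap.congr_fun hs (e.symm x)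
    have h2 : f (s (e.symm x)) = (e.symm x : R → k) := congrArg Subtype.val h1
    have h3 : t ((e.symm x : LinearMap.range f) : R → k) = e.symm x :=
      LinearMap.congr_fun ht (e.symm x)
    show e (t (f (s (e.symm x)))) = x
    rw [h2, h3, LinearEquiv.apply_symm_apply]
  refine ⟨LinearMap.toMatrix' (e.toLinearMap ∘ₗ t),
    LinearMap.toMatrix' (s ∘ₗ e.symm.toLinearMap), ?_⟩
  have h4 : A = LinearMap.toMatrix' f := (LinearMap.toMatrix'_toLin' A).symm
  have h5 := congrArg LinearMap.toMatrix' key
  rw [LinearMap.toMatrix'_comp, LinearMap.toMatrix'_comp, LinearMap.toMatrix'_id,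
    ← Matrix.mul_assoc, ← h4] at h5
  exact h5

theorem rank_ge {k : Type} [Field k] {R D : Type} [Fintype R] [Fintype D] [DecidableEq R]
    [DecidableEq D] {r : ℕ} (A : Matrix R D k) (Q : Matrix (Fin r) R k) (P : Matrix D (Fin r) k)
    (h : (Q * A * P).det ≠ 0) : r ≤ A.rank := by
  have h1 : (Q * A * P).rank = r := by
    rw [Matrix.rank_of_isUnit _ ((Matrix.isUnit_iff_isUnit_det _).2 (isUnit_iff_ne_zero.2 h)),
      Fintype.card_fin]
  have h2 := Matrix.rank_mul_le_left (Q * A) P
  have h3 := Matrix.rank_mul_le_right Q A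
  omega

variable {n : ℕ} {k : Type} [Field k]

/-- the monomials of degree `j - 1` (none for `j = 0`) -/
noncomputable def tg (n j : ℕ) : Finset (Fin n →₀ ℕ) :=
  (mon (univ : Finset (Finset (Fin n))) (j - 1)).filter (fun β => β.degree + 1 = j)

theorem mem_tg {j : ℕ} {β : Fin n →₀ ℕ} : β ∈ tg n j ↔ β.degree + 1 = j := by
  rw [tg, mem_filter, mem_mon]
  exact ⟨fun h => h.2, fun h => ⟨⟨mem_univ _, by omega⟩, h⟩⟩

open Classical in
/-- the matrix of variables -/
noncomputable def mv (k : Type) [Field k] (N : Finset (Finset (Fin n))) (m j : ℕ) :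
    Matrix (Fin m × tg n j) (mon N j) (MvPolynomial (ℕ × Fin n) k) :=
  Matrix.of fun p α => ∑ v, if p.2.1 + Finsupp.single v 1 = α.1 then
    MvPolynomial.X ((p.1 : ℕ), v) else 0

/-- the matrix for `c` -/
noncomputable def mc (N : Finset (Finset (Fin n))) (m j : ℕ) (c : ℕ → Fin n → k) :
    Matrix (Fin m × tg n j) (mon N j) k :=
  (mv k N m j).map (MvPolynomial.eval (fun p : ℕ × Fin n => c p.1 p.2))

open Classical in
theorem mc_apply (N : Finset (Finset (Fin n))) (m j : ℕ) (c : ℕ → Fin n → k)
    (p : Fin m × tg n j) (α : mon N j) :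
    mc N m j c p α = ∑ v, if p.2.1 + Finsupp.single v 1 = α.1 then c p.1 v else 0 := by
  unfold mc mv
  rw [Matrix.map_apply, Matrix.of_apply, map_sum]
  refine sum_congr rfl fun v _ => ?_
  split_ifs
  · rw [MvPolynomial.eval_X]
  · rw [map_zero]

open Classical in
/-- extension by zero -/
noncomputable def ext0 (k : Type) [Field k] (N : Finset (Finset (Fin n))) (j : ℕ) :
    (mon N j → k) →ₗ[k] Fn n k where
  toFun x := fun α => if h : α ∈ mon N j then x ⟨α, h⟩ else 0
  map_add' x y := by
    funext α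
    by_cases h : α ∈ mon N j
    · simp [h]
    · simp [h]
  map_smul' a x := by
    funext α
    by_cases h : α ∈ mon N j
    · simp [h]
    · simp [h]

theorem ext0_mem {N : Finset (Finset (Fin n))} {j : ℕ} (x : mon N j → k) {α : Fin n →₀ ℕ}
    (h : α ∈ mon N j) : ext0 k N j x α = x ⟨α, h⟩ := by
  show (if h : α ∈ mon N j then x ⟨α, h⟩ else 0) = _
  rw [dif_pos h]

theorem ext0_not {N : Finset (Finset (Fin n))} {j : ℕ} (x : mon N j → k) {α : Fin n →₀ ℕ}
    (h : α ∉ mon N j) : ext0 k N j x α = 0 := by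
  show (if h : α ∈ mon N j then x ⟨α, h⟩ else 0) = _
  rw [dif_neg h]

theorem ext0_inj (N : Finset (Finset (Fin n))) (j : ℕ) : Function.Injective (ext0 k N j) := by
  intro x y h
  funext α
  have h1 := congrFun h α.1
  rwa [ext0_mem x α.2, ext0_mem y α.2] at h1

theorem mulVec_eq (N : Finset (Finset (Fin n))) (m j : ℕ) (c : ℕ → Fin n → k) (x : mon N j → k)
    (p : Fin m × tg n j) :
    (mc N m j c).mulVec x p = op (c p.1) (ext0 k N j x) p.2.1 := by
  classical
  rw [op_apply]
  show ∑ α, mc N m j c p α * x α = _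
  have h1 : ∀ α : mon N j, mc N m j c p α * x α =
      ∑ v, if p.2.1 + Finsupp.single v 1 = α.1 then c p.1 v * x α else 0 := by
    intro α
    rw [mc_apply, sum_mul]
    refine sum_congr rfl fun v _ => ?_
    split_ifs
    · rfl
    · rw [zero_mul]
  rw [sum_congr rfl fun α _ => h1 α, sum_comm]
  refine sum_congr rfl fun v _ => ?_
  by_cases h : p.2.1 + Finsupp.single v 1 ∈ mon N j
  · rw [ext0_mem x h, sum_eq_single (⟨_, h⟩ : mon N j)]
    · rw [if_pos rfl]
    · intro α _ hα
      rw [if_neg]
      intro h2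
      exact hα (Subtype.ext h2.symm)
    · intro h2
      exact absurd (mem_univ _) h2
  · rw [ext0_not x h, mul_zero]
    refine sum_eq_zero fun α _ => ?_
    rw [if_neg]
    intro h2
    exact h (h2 ▸ α.2)

theorem st_eq (N : Finset (Finset (Fin n))) (m j : ℕ) (c : ℕ → Fin n → k) :
    St c N m j = (LinearMap.ker (mc N m j c).mulVecLin).map (ext0 k N j) := by
  ext f
  rw [mem_St, Submodule.mem_map]
  constructor
  · rintro ⟨h1, h2⟩
    have he : ext0 k N j (fun α => f α.1) = f := by
      funext α
      by_cases h : α ∈ mon N j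
      · rw [ext0_mem _ h]
      · rw [ext0_not _ h]
        by_contra h3
        exact h (mem_mon.2 (h1 α (Ne.symm h3)))
    refine ⟨fun α => f α.1, ?_, he⟩
    rw [LinearMap.mem_ker]
    funext p
    rw [Matrix.mulVecLin_apply, mulVec_eq, he, h2 _ p.1.2]
    rfl
  · rintro ⟨x, hx, rfl⟩
    rw [LinearMap.mem_ker] at hx
    have h1 : ∀ α, ext0 k N j x α ≠ 0 → α.support ∈ N ∧ α.degree = j := by
      intro α h
      by_cases h3 : α ∈ mon N j
      · exact mem_mon.1 h3
      · exact absurd (ext0_not x h3) h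
    refine ⟨h1, fun l hl => ?_⟩
    funext β
    by_cases hβ : β ∈ tg n j
    · have h2 := congrFun hx (⟨l, hl⟩, ⟨β, hβ⟩)
      rw [Matrix.mulVecLin_apply, mulVec_eq] at h2
      exact h2
    · rw [op_apply]
      refine sum_eq_zero fun v _ => ?_
      have h3 : ext0 k N j x (β + Finsupp.single v 1) = 0 := by
        by_contra h4
        have h5 := (h1 _ h4).2
        rw [map_add, Finsupp.degree_single] at h5
        exact hβ (mem_tg.2 h5)
      rw [h3, mul_zero]

theorem finrank_st (N : Finset (Finset (Fin n))) (m j : ℕ) (c : ℕ → Fin n → k) :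
    (mc N m j c).rank + Module.finrank k (St c N m j) = (mon N j).card := by
  rw [st_eq, LinearEquiv.finrank_eq (Submodule.equivMapOfInjective (ext0 k N j) (ext0_inj N j)
    (LinearMap.ker (mc N m j c).mulVecLin)).symm]
  have h := LinearMap.finrank_range_add_finrank_ker (mc N m j c).mulVecLin
  rw [Module.finrank_fintype_fun_eq_card, Fintype.card_coe] at h
  exact h

end Semiaux

open Semiaux HilbAaux in
theorem semi {n : ℕ} {k : Type} [Field k] (N : Finset (Finset (Fin n))) (m j : ℕ)
    (c₀ : ℕ → Fin n → k) : ∃ F : MvPolynomial (ℕ × Fin n) k,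
      MvPolynomial.eval (fun p => c₀ p.1 p.2) F ≠ 0 ∧
      ∀ c : ℕ → Fin n → k, MvPolynomial.eval (fun p => c p.1 p.2) F ≠ 0 →
        Module.finrank k (St c N m j) ≤ Module.finrank k (St c₀ N m j) := by
  classical
  obtain ⟨Q, P, hQP⟩ := exists_pq (mc N m j c₀)
  let Q' : Matrix (Fin (mc N m j c₀).rank) (Fin m × tg n j) (MvPolynomial (ℕ × Fin n) k) :=
    Q.map (MvPolynomial.C : k →+* MvPolynomial (ℕ × Fin n) k)
  let P' : Matrix (mon N j) (Fin (mc N m j c₀).rank) (MvPolynomial (ℕ × Fin n) k) :=
    P.map (MvPolynomial.C : k →+* MvPolynomial (ℕ × Fin n) k)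
  have hev : ∀ c : ℕ → Fin n → k, MvPolynomial.eval (fun p : ℕ × Fin n => c p.1 p.2)
      (Matrix.det (Q' * mv k N m j * P')) = (Q * mc N m j c * P).det := by
    intro c
    rw [RingHom.map_det, RingHom.mapMatrix_apply, Matrix.map_mul, Matrix.map_mul]
    have h1 : Q'.map (MvPolynomial.eval (fun p : ℕ × Fin n => c p.1 p.2)) = Q := by
      ext a b
      show MvPolynomial.eval _ (MvPolynomial.C (Q a b)) = Q a b
      rw [MvPolynomial.eval_C]
    have h2 : P'.map (MvPolynomial.eval (fun p : ℕ × Fin n => c p.1 p.2)) = P := by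
      ext a b
      show MvPolynomial.eval _ (MvPolynomial.C (P a b)) = P a b
      rw [MvPolynomial.eval_C]
    rw [h1, h2]
    rfl
  refine ⟨Matrix.det (Q' * mv k N m j * P'), ?_, fun c hc => ?_⟩
  · rw [hev, hQP, Matrix.det_one]
    exact one_ne_zero
  · rw [hev] at hc
    have h1 := rank_ge (mc N m j c) Q P hc
    have h2 := finrank_st N m j c
    have h3 := finrank_st N m j c₀
    omega

end Pool.Agent.H861.GL
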