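import Pool.Agent.H861.GL.Defs2
import Pool.Agent.H861.GL.CG

/-!
# GL/Spc: special forms on the deletion of a vertex in a star

PAPER PROOF. Let `t = d - G.card + 1` forms be given by `θ`. Order the vertices of `G.erase v` as
`x_0, ..., x_{g-2}` (`g = G.card`) and put `c l = Pi.single x_l 1` for `l < g - 1`,
`c (g - 1) = Pi.single u 1` and `c (g + i) = θ i` for `i ≤ d - g`. In total `g + (d - g + 1) = d + 1`
forms. `op (Pi.single x 1) f = sh x f` (`CGaux.op_single` in CG.lean; you may import CG), and
`sh x f = 0` iff `x ∉ α.support` whenever `f α ≠ 0`. Faces of `dele (star K G) {v}` are the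
`σ ∈ K` with `σ ∪ G ∈ K`, `v ∉ σ`. Those that are disjoint from `G.erase v` are disjoint from `G`,
that is they are the faces of `lk K G` (`mem_lk`: `σ` disjoint from `G` and `σ ∪ G ∈ K`), and those
that avoid `u` in addition are the faces of `dele (lk K G) {u}`. So both sides consist of the
functions supported on the monomials of degree `j` with support in `dele (lk K G) {u}` that are
killed by `op (θ i)`, `i ≤ d - g`.
-/

set_option autoImplicit false

namespace Pool.Agent.H861.GL

open Finset Pool.Agent.W555.KS Pool.Agent.Y131.KS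

namespace Spcaux

theorem kill_iff {n : ℕ} {k : Type} [Field k] (x : Fin n) (f : Fn n k) :
    op (Pi.single x 1) f = 0 ↔ ∀ α, f α ≠ 0 → x ∉ α.support := by
  rw [CGaux.op_single]
  constructor
  · intro h α hα hx
    have h2 := congrFun h (α - Finsupp.single x 1)
    rw [sh_apply, tsub_add_cancel_of_le] at h2
    · exact hα h2
    · rw [Finsupp.single_le_iff]
      exact Nat.one_le_iff_ne_zero.2 (Finsupp.mem_support_iff.1 hx)
  · intro h
    funext α
    rw [sh_apply]
    by_contra h1
    apply h _ h1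
    rw [Finsupp.mem_support_iff, Finsupp.add_apply, Finsupp.single_eq_same]
    omega

end Spcaux

theorem special {n d : ℕ} {K : Finset (Finset (Fin n))} {k : Type} [Field k] (hK : IsCx K)
    {G : Finset (Fin n)} (hG : G ∈ K) (hgd : G.card ≤ d) {v : Fin n} (hv : v ∈ G) (u : Fin n)
    (θ : ℕ → Fin n → k) : ∃ c : ℕ → Fin n → k, ∀ j,
      St c (dele (star K G) {v}) (d + 1) j = St θ (dele (lk K G) {u}) (d - G.card + 1) j := by
  classical
  have hg1 : (G.erase v).card + 1 = G.card := card_erase_add_one hv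
  obtain ⟨m, hm⟩ : ∃ m, m = (G.erase v).card := ⟨_, rfl⟩
  obtain ⟨e, he⟩ : ∃ e : ℕ → Fin n, (∀ l < m, e l ∈ G.erase v) ∧ ∀ x ∈ G.erase v, ∃ l < m, e l = x := by
    refine ⟨fun l => if h : l < (G.erase v).card then ((G.erase v).equivFin.symm ⟨l, h⟩ : Fin n)
      else v, ?_, ?_⟩
    · intro l hl
      rw [hm] at hl
      simp only [dif_pos hl]
      exact ((G.erase v).equivFin.symm ⟨l, hl⟩).2
    · intro x hx
      refine ⟨(G.erase v).equivFin ⟨x, hx⟩, ?_, ?_⟩
      · rw [hm]
        exact Fin.is_lt _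
      · simp
  obtain ⟨c, hc⟩ : ∃ c : ℕ → Fin n → k, c = fun l => if l < m then Pi.single (e l) 1 else
      if l = m then Pi.single u 1 else θ (l - G.card) := ⟨_, rfl⟩
  have hc1 : ∀ l < m, c l = Pi.single (e l) 1 := fun l hl => by
    rw [hc]
    simp only [if_pos hl]
  have hc2 : c m = Pi.single u 1 := by
    rw [hc]
    simp
  have hc3 : ∀ l, m < l → c l = θ (l - G.card) := fun l hl => by
    rw [hc]
    simp only [if_neg (by omega : ¬ l < m), if_neg (by omega : ¬ l = m)]
  refine ⟨c, fun j => ?_⟩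
  ext f
  rw [mem_St, mem_St]
  constructor
  · rintro ⟨h1, h2⟩
    refine ⟨fun α hα => ⟨?_, (h1 α hα).2⟩, fun l hl => ?_⟩
    · have h3 := (h1 α hα).1
      rw [mem_dele, mem_star, singleton_subset_iff] at h3
      rw [mem_dele, mem_lk, singleton_subset_iff]
      refine ⟨⟨?_, h3.1.2⟩, ?_⟩
      · rw [disjoint_right]
        intro x hx
        by_cases hxv : x = v
        · rw [hxv]
          exact h3.2
        · obtain ⟨l, hl, hlx⟩ := he.2 x (mem_erase.2 ⟨hxv, hx⟩)
          have h4 := h2 l (by omega)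
          rw [hc1 l hl, hlx, Spcaux.kill_iff] at h4
          exact h4 α hα
      · have h4 := h2 m (by omega)
        rw [hc2, Spcaux.kill_iff] at h4
        exact h4 α hα
    · have h4 := h2 (G.card + l) (by omega)
      rw [hc3 _ (by omega), Nat.add_sub_cancel_left] at h4
      exact h4
  · rintro ⟨h1, h2⟩
    have h3 : ∀ α, f α ≠ 0 → (Disjoint α.support G ∧ α.support ∪ G ∈ K) ∧ u ∉ α.support := by
      intro α hα
      have h3 := (h1 α hα).1
      rw [mem_dele, mem_lk, singleton_subset_iff] at h3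
      exact h3
    refine ⟨fun α hα => ⟨?_, (h1 α hα).2⟩, fun l hl => ?_⟩
    · obtain ⟨⟨h4, h5⟩, h6⟩ := h3 α hα
      rw [mem_dele, mem_star, singleton_subset_iff]
      exact ⟨⟨hK.2 _ h5 _ subset_union_left, h5⟩, disjoint_right.1 h4 hv⟩
    · rcases lt_trichotomy l m with h | h | h
      · rw [hc1 l h, Spcaux.kill_iff]
        exact fun α hα => disjoint_right.1 (h3 α hα).1.1 (mem_of_mem_erase (he.1 l h))
      · rw [h, hc2, Spcaux.kill_iff]
        exact fun α hα => (h3 α hα).2
      · rw [hc3 l h]
        exact h2 _ (by omega)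

end Pool.Agent.H861.GL
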