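import Pool.Agent.H861.GL.DB
import Pool.Agent.H861.GL.LB
import Pool.Agent.H861.GL.Semi
import Pool.Agent.H861.GL.Spc
import Pool.Agent.H861.GL.Filt

/-!
# GL/Sys: generic linear forms, and the inequality for sequences of vertices
-/

set_option autoImplicit false

namespace Pool.Agent.H861.GL

open Finset Pool.Agent.W555.KS Pool.Agent.Y131.KS

theorem generic_poly {n : ℕ} {k : Type} [Field k] [Infinite k] (K : Finset (Finset (Fin n)))
    {ι : Type} (T : Finset ι) (F : ι → MvPolynomial (ℕ × Fin n) k) (hF : ∀ t ∈ T, F t ≠ 0) :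
    ∃ θ : ℕ → Fin n → k, Gen θ K ∧
      ∀ t ∈ T, MvPolynomial.eval (fun p : ℕ × Fin n => θ p.1 p.2) (F t) ≠ 0 := by
  classical
  have hinj : Function.Injective (Sum.inl : ℕ × Fin n → Gen2aux.Iy n) := Sum.inl_injective
  have hP : (∏ G ∈ K, Gen2aux.PG k G) *
      ∏ t ∈ T, MvPolynomial.rename (Sum.inl : ℕ × Fin n → Gen2aux.Iy n) (F t) ≠ 0 := by
    refine mul_ne_zero (prod_ne_zero_iff.2 fun G _ => Gen2aux.PG_ne G) ?_
    refine prod_ne_zero_iff.2 fun t ht h => hF t ht ?_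
    exact MvPolynomial.rename_injective _ hinj (by rw [h, map_zero])
  obtain ⟨x, hx⟩ : ∃ x : Gen2aux.Iy n → k, MvPolynomial.eval x
      ((∏ G ∈ K, Gen2aux.PG k G) *
        ∏ t ∈ T, MvPolynomial.rename (Sum.inl : ℕ × Fin n → Gen2aux.Iy n) (F t)) ≠ 0 := by
    by_contra hc
    push Not at hc
    refine hP (MvPolynomial.funext fun x => ?_)
    rw [hc x, map_zero]
  rw [map_mul, map_prod, map_prod] at hx
  have h1 := left_ne_zero_of_mul hx
  have h2 := right_ne_zero_of_mul hx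
  rw [prod_ne_zero_iff] at h1 h2
  refine ⟨fun l v => x (Sum.inl (l, v)), Gen2aux.gen_of K _ fun G hG => ?_, fun t ht => ?_⟩
  · rw [← Gen2aux.eval_PG]
    exact h1 G hG
  · have h3 := h2 t ht
    rw [MvPolynomial.eval_rename] at h3
    exact h3

theorem exists_sys {n d j : ℕ} {K : Finset (Finset (Fin n))} (hK : HSph K d) (hf : Flag K)
    (h1 : 1 ≤ j) : ∃ θ : ℕ → Fin n → kk, Gen θ K ∧
      (2 * j ≤ d + 1 → (Module.finrank kk (St θ K (d + 1) j) : ℤ) ≤ gco (hP K d) j) ∧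
      ∀ G ∈ K, ∀ v ∈ G, ∀ u, ({u} : Finset (Fin n)) ∈ lk K G → 2 * j ≤ d - G.card →
        (Module.finrank kk (St θ (dele (star K G) {v}) (d + 1) j) : ℤ) ≤
          gco (hP (lk K G) (d - G.card)) j -
            gco (hP (lk (lk K G) {u}) (d - G.card - 1)) (j - 1) := by
  classical
  have hA : ∃ F : MvPolynomial (ℕ × Fin n) kk, F ≠ 0 ∧ (2 * j ≤ d + 1 →
      ∀ c : ℕ → Fin n → kk, MvPolynomial.eval (fun p : ℕ × Fin n => c p.1 p.2) F ≠ 0 →
        (Module.finrank kk (St c K (d + 1) j) : ℤ) ≤ gco (hP K d) j) := by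
    by_cases h : 2 * j ≤ d + 1
    · obtain ⟨θ, hθ⟩ := top_bound hK h1 h
      obtain ⟨F, hF1, hF2⟩ := semi K (d + 1) j θ
      refine ⟨F, fun h0 => hF1 (by rw [h0, map_zero]), fun _ c hc => ?_⟩
      exact le_trans (by exact_mod_cast hF2 c hc) hθ
    · exact ⟨1, one_ne_zero, fun h' => absurd h' h⟩
  have hB : ∀ t : Finset (Fin n) × Fin n × Fin n, ∃ F : MvPolynomial (ℕ × Fin n) kk, F ≠ 0 ∧
      (t.1 ∈ K → t.2.1 ∈ t.1 → ({t.2.2} : Finset (Fin n)) ∈ lk K t.1 → 2 * j ≤ d - t.1.card →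
      ∀ c : ℕ → Fin n → kk, MvPolynomial.eval (fun p : ℕ × Fin n => c p.1 p.2) F ≠ 0 →
        (Module.finrank kk (St c (dele (star K t.1) {t.2.1}) (d + 1) j) : ℤ) ≤
          gco (hP (lk K t.1) (d - t.1.card)) j -
            gco (hP (lk (lk K t.1) {t.2.2}) (d - t.1.card - 1)) (j - 1)) := by
    rintro ⟨G, v, u⟩
    by_cases h : G ∈ K ∧ v ∈ G ∧ ({u} : Finset (Fin n)) ∈ lk K G ∧ 2 * j ≤ d - G.card
    · obtain ⟨hG, hv, hu, hj⟩ := h
      obtain ⟨θ, hθ⟩ := dele_bound (hsph_lk hK hG) (flag_lk hK.cx hf hG) hu h1 hj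
      obtain ⟨c₀, hc₀⟩ := special (k := kk) (d := d) hK.cx hG (hK.card_le G hG) hv u θ
      obtain ⟨F, hF1, hF2⟩ := semi (dele (star K G) {v}) (d + 1) j c₀
      refine ⟨F, fun h0 => hF1 (by rw [h0, map_zero]), fun _ _ _ _ c hc => ?_⟩
      refine le_trans ?_ hθ
      rw [← hc₀ j]
      exact_mod_cast hF2 c hc
    · exact ⟨1, one_ne_zero, fun h1' h2' h3' h4' => absurd ⟨h1', h2', h3', h4'⟩ h⟩
  obtain ⟨FA, hFA0, hFA⟩ := hA
  choose FB hFB0 hFB using hB
  obtain ⟨θ, hg, hθ⟩ := generic_poly (k := kk) K (univ : Finset (Option (Finset (Fin n) × Fin n × Fin n)))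
    (fun o => o.elim FA FB) (by
      rintro (_ | t) _
      · exact hFA0
      · exact hFB0 t)
  refine ⟨θ, hg, fun h => hFA h θ (hθ none (mem_univ _)), fun G hG v hv u hu hj => ?_⟩
  exact hFB (G, v, u) hG hv hu hj θ (hθ (some (G, v, u)) (mem_univ _))

/-- **the inequality for sequences of vertices** -/
theorem chain {n d j : ℕ} {K : Finset (Finset (Fin n))} (hK : HSph K d) (hf : Flag K)
    (h1 : 1 ≤ j) (S : Finset (Fin n)) (σ : Fin n → ℕ) (hσ : Set.InjOn σ (S : Set (Fin n)))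
    (G : Fin n → Finset (Fin n)) (u : Fin n → Fin n) (hG : ∀ v ∈ S, G v ∈ K)
    (hv : ∀ v ∈ S, v ∈ G v) (hu : ∀ v ∈ S, ({u v} : Finset (Fin n)) ∈ lk K (G v))
    (hj : ∀ v ∈ S, 2 * j ≤ d - (G v).card)
    (hav : ∀ v ∈ S, ∀ w ∈ S, σ w < σ v → insert w (G v) ∉ K) (hne : S.Nonempty) :
    ∑ v ∈ S, gco (hP (lk (lk K (G v)) {u v}) (d - (G v).card - 1)) (j - 1) ≤
      gco (hP K d) j := by
  classical
  obtain ⟨θ, hg, hA, hB⟩ := exists_sys hK hf h1
  obtain ⟨v₀, hv₀⟩ := hne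
  have h2 : 2 * j ≤ d + 1 := by
    have := hj v₀ hv₀
    omega
  have key := filt (K := K) (k := kk) θ (d + 1) j S σ hσ (fun v => star K (G v))
    (fun v _ => filter_subset _ _) (by
      intro v hvS w hwS hlt F hF hwF
      refine hav v hvS w hwS hlt ?_
      refine hK.cx.2 _ (mem_star.1 hF).2 _ ?_
      exact insert_subset (mem_union_left _ hwF) subset_union_right)
  refine le_trans (le_trans (sum_le_sum fun v hvS => ?_) key) (hA h2)
  have h3 := star_lower (j := j) hK (hG v hvS) hg h1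
  have h4 := hB (G v) (hG v hvS) v (hv v hvS) (u v) (hu v hvS) (hj v hvS)
  linarith

/-- the inequality for sequences of vertices, with the term of a star that avoids them -/
theorem chain_star {n d j : ℕ} {K : Finset (Finset (Fin n))} (hK : HSph K d) (hf : Flag K)
    (h1 : 1 ≤ j) (hjd : 2 * j ≤ d + 1) (S : Finset (Fin n)) (σ : Fin n → ℕ)
    (hσ : Set.InjOn σ (S : Set (Fin n)))
    (G : Fin n → Finset (Fin n)) (u : Fin n → Fin n) (hG : ∀ v ∈ S, G v ∈ K)
    (hv : ∀ v ∈ S, v ∈ G v) (hu : ∀ v ∈ S, ({u v} : Finset (Fin n)) ∈ lk K (G v))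
    (hj : ∀ v ∈ S, 2 * j ≤ d - (G v).card)
    (hav : ∀ v ∈ S, ∀ w ∈ S, σ w < σ v → insert w (G v) ∉ K)
    (F₀ : Finset (Fin n)) (hF₀ : F₀ ∈ K) (hF₀S : ∀ w ∈ S, insert w F₀ ∉ K) :
    ∑ v ∈ S, gco (hP (lk (lk K (G v)) {u v}) (d - (G v).card - 1)) (j - 1) +
      gco (hP (lk K F₀) (d - F₀.card)) j ≤ gco (hP K d) j := by
  classical
  obtain ⟨θ, hg, hA, hB⟩ := exists_sys hK hf h1
  have key := Filtaux.claim (k := kk) θ K (d + 1) j σ (fun v => star K (G v)) S hσ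
    (fun v _ => filter_subset _ _) (by
      intro v hvS w hwS hlt F hF hwF
      refine hav v hvS w hwS hlt ?_
      refine hK.cx.2 _ (mem_star.1 hF).2 _ ?_
      exact insert_subset (mem_union_left _ hwF) subset_union_right)
  have hle : St θ (star K F₀) (d + 1) j ≤ Filtaux.XS θ K (d + 1) j S :=
    Filtaux.row_le (filter_subset _ _) (by
      intro w hwS F hF hwF
      refine hF₀S w hwS (hK.cx.2 _ (mem_star.1 hF).2 _ ?_)
      exact insert_subset (mem_union_left _ hwF) subset_union_right)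
  have : FiniteDimensional kk (St θ K (d + 1) j) := st_finite θ (d + 1) j
  have : FiniteDimensional kk (Filtaux.XS θ K (d + 1) j S) :=
    Submodule.finiteDimensional_of_le
      (inf_le_left : Filtaux.XS θ K (d + 1) j S ≤ St θ K (d + 1) j)
  have h5 : (Module.finrank kk (St θ (star K F₀) (d + 1) j) : ℤ) ≤
      Module.finrank kk (Filtaux.XS θ K (d + 1) j S) := by
    exact_mod_cast Submodule.finrank_mono hle
  have h6 := star_lower (j := j) hK hF₀ hg h1
  have h7 : ∑ v ∈ S, gco (hP (lk (lk K (G v)) {u v}) (d - (G v).card - 1)) (j - 1) ≤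
      ∑ v ∈ S, ((Module.finrank kk (St θ (star K (G v)) (d + 1) j) : ℤ) -
        Module.finrank kk (St θ (dele (star K (G v)) {v}) (d + 1) j)) := by
    refine sum_le_sum fun v hvS => ?_
    have h3 := star_lower (j := j) hK (hG v hvS) hg h1
    have h4 := hB (G v) (hG v hvS) v (hv v hvS) (u v) (hu v hvS) (hj v hvS)
    linarith
  have h8 := hA hjd
  linarith

end Pool.Agent.H861.GL
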