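import Pool.Agent.H861.GL.TT
import Pool.Agent.H861.GL.Fac
import Pool.Agent.H861.GL.Kap

/-!
# GL/Two: spheres without missing faces of dimension larger than 2
-/

set_option autoImplicit false

namespace Pool.Agent.H861.GL

open Finset Pool.Agent.W555.KS Pool.Agent.Y131.KS

/-- a complex with missing faces of dimension at most two which is not flag has a missing
triangle -/
theorem exists_triangle {n : ℕ} {K : Finset (Finset (Fin n))} (hK : IsCx K) (hMF : MF K 2)
    (hf : ¬ Flag K) : ∃ a b c : Fin n, a ≠ b ∧ a ≠ c ∧ b ≠ c ∧ ({a, b, c} : Finset (Fin n)) ∉ K ∧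
      ({a, b} : Finset (Fin n)) ∈ K ∧ ({a, c} : Finset (Fin n)) ∈ K ∧
      ({b, c} : Finset (Fin n)) ∈ K := by
  classical
  unfold Flag at hf
  push Not at hf
  obtain ⟨F, hF, hFK⟩ := hf
  have h1 : ∃ ρ ⊆ F, ρ.card ≤ 2 + 1 ∧ ρ ∉ K := by
    by_contra hcon
    push Not at hcon
    exact hFK (hMF F hcon)
  obtain ⟨ρ, hρF, hρc, hρK⟩ := h1
  have h3 : ρ.card = 3 := by
    by_contra hne
    have h2 : ρ.card ≤ 2 := by omega
    apply hρK
    rcases Nat.lt_or_ge ρ.card 1 with h | h
    · have : ρ = ∅ := card_eq_zero.1 (by omega)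
      rw [this]
      exact hK.1
    · rcases Nat.lt_or_ge ρ.card 2 with h' | h'
      · obtain ⟨a, rfl⟩ := card_eq_one.1 (by omega : ρ.card = 1)
        have := hF a (hρF (mem_singleton_self a)) a (hρF (mem_singleton_self a))
        rwa [pair_eq_singleton] at this
      · obtain ⟨a, b, _, rfl⟩ := card_eq_two.1 (by omega : ρ.card = 2)
        exact hF a (hρF (mem_insert_self _ _)) b (hρF (mem_insert_of_mem (mem_singleton_self _)))
  obtain ⟨a, b, c, hab, hac, hbc, rfl⟩ := card_eq_three.1 h3
  have ha : a ∈ F := hρF (by simp)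
  have hb : b ∈ F := hρF (by simp)
  have hc : c ∈ F := hρF (by simp)
  exact ⟨a, b, c, hab, hac, hbc, hρK, hF a ha b hb, hF a ha c hc, hF b hb c hc⟩

theorem lk_pair {n : ℕ} (K : Finset (Finset (Fin n))) {a b : Fin n} (hab : a ≠ b) :
    lk (lk K {a}) {b} = lk K {a, b} := by
  rw [lk_lk (by rw [mem_singleton]; exact hab)]

theorem mem_lk_pair {n : ℕ} {K : Finset (Finset (Fin n))} {a b : Fin n} (hab : a ≠ b)
    (h : ({a, b} : Finset (Fin n)) ∈ K) : ({b} : Finset (Fin n)) ∈ lk K {a} :=
  mem_lk_of (by rw [mem_singleton]; exact hab) h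

/-- **Q1 for `i = 2`, all `j` except the middle one for even `d`** -/
theorem two_main : ∀ (d n : ℕ) (K : Finset (Finset (Fin n))), HSph K d → MF K 2 →
    ∀ j, (2 * j < d ∨ 2 * j = d + 1) → gco (kap d) j ≤ gco (hP K d) j := by
  classical
  intro d
  induction d using Nat.strong_induction_on with
  | _ d ih =>
  intro n K hK hMF j hj
  rcases Nat.eq_zero_or_pos j with rfl | hj0
  · rw [gco_kap_zero]
    unfold gco
    rw [if_pos rfl, hP_coeff_zero hK, sub_zero]
  rcases hj with hj | hj
  swap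
  · rw [(kap_sym d).mid hj, (sym_hP hK).mid hj]
  by_cases hf : Flag K
  · exact (kap_le_ballot (by omega)).trans (cross_ineq hK hf (by omega))
  obtain ⟨a, b, c, hab, hac, hbc, habc, hKab, hKac, hKbc⟩ := exists_triangle hK.cx hMF hf
  have hKa : ({a} : Finset (Fin n)) ∈ K := hK.cx.2 _ hKab _ (by simp)
  have hE1 : ({a} : Finset (Fin n)) ∪ {b, c} ∉ K := by
    intro h
    exact habc (by rwa [← insert_eq] at h)
  have hE2 : ({b, c} : Finset (Fin n)) ∪ {a} ∉ K := by
    rw [union_comm]
    exact hE1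
  have hcbc : ({b, c} : Finset (Fin n)).card = 2 := card_pair hbc
  have hcab : ({a, b} : Finset (Fin n)).card = 2 := card_pair hab
  have hcac : ({a, c} : Finset (Fin n)).card = 2 := card_pair hac
  have hLa : HSph (lk K {a}) (d - 1) := hK.lk hKa
  have hMa : MF (lk K {a}) 2 := mf_lk hK.cx hMF (by omega)
  have hLbc : HSph (lk K {b, c}) (d - 2) := by
    have := hsph_lk hK hKbc
    rwa [hcbc] at this
  have hMbc : MF (lk K {b, c}) 2 := mf_lk hK.cx hMF (by omega)
  rcases Nat.even_or_odd' d with ⟨q, hq | hq⟩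
  · -- `d` even
    obtain ⟨p, rfl⟩ : ∃ p, q = p + 1 := ⟨q - 1, by omega⟩
    have h1 := two_face hK hMF hKbc hKa hE2 hj0 (by omega)
    rw [card_singleton, hcbc] at h1
    have h2 := ih (d - 1) (by omega) n (lk K {a}) hLa hMa j (Or.inl (by omega))
    have e1 : d - 1 = 2 * p + 1 := by omega
    have e2 : d = 2 * p + 2 := by omega
    rw [e1, kap_odd] at h2
    rw [e1] at h1
    obtain ⟨t, rfl⟩ : ∃ t, j = t + 1 := ⟨j - 1, by omega⟩
    rw [gco_one_add_X_mul] at h2
    rw [e2, kap_add_two]
    rw [e2] at h1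
    rcases Nat.eq_zero_or_pos t with rfl | ht
    · rw [gco_three_one]
      rw [if_pos (by omega)] at h1
      rw [Nat.zero_add] at h1 h2
      linarith
    · obtain ⟨u, rfl⟩ : ∃ u, t = u + 1 := ⟨t - 1, by omega⟩
      have h3 := ih (2 * p) (by omega) n (lk K {b, c}) (by
        have e3 : d - 2 = 2 * p := by omega
        rwa [e3] at hLbc) hMbc u (Or.inl (by omega))
      rw [if_neg (by omega)] at h1
      have e4 : u + 1 + 1 - 2 = u := by omega
      have e5 : 2 * p + 2 - 2 = 2 * p := by omega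
      rw [e4, e5] at h1
      rw [gco_three]
      rw [show u + 1 + 1 = u + 2 from rfl] at h1 h2
      linarith
  · -- `d` odd
    obtain ⟨p, rfl⟩ : ∃ p, q = p + 1 := ⟨q - 1, by omega⟩
    have e2 : d = 2 * p + 1 + 2 := by omega
    have h1 := two_face hK hMF hKa hKbc hE1 hj0 (by omega)
    rw [card_singleton, hcbc, if_neg (by omega : ¬ j < 1)] at h1
    have h2 := ih (d - 2) (by omega) n (lk K {b, c}) hLbc hMbc j (by omega)
    obtain ⟨t, rfl⟩ : ∃ t, j = t + 1 := ⟨j - 1, by omega⟩
    rw [Nat.add_sub_cancel] at h1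
    have e3 : d - 2 = 2 * p + 1 := by omega
    rw [e3] at h1 h2
    rcases Nat.eq_zero_or_pos t with rfl | ht
    · have h4 : gco (hP (lk K {a}) (d - 1)) 0 = 1 := by
        unfold gco
        rw [if_pos rfl, hP_coeff_zero hLa, sub_zero]
      rw [e2, kap_add_two, Nat.zero_add, gco_three_one, gco_kap_zero, ← e2]
      rw [Nat.zero_add] at h1 h2
      rw [h4] at h1
      linarith
    · obtain ⟨u, rfl⟩ : ∃ u, t = u + 1 := ⟨t - 1, by omega⟩
      -- the link of `a` has the missing edge `{b, c}`
      have hb : ({b} : Finset (Fin n)) ∈ lk K {a} := mem_lk_pair hab hKab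
      have hc : ({c} : Finset (Fin n)) ∈ lk K {a} := mem_lk_pair hac hKac
      have hbc' : ({c} : Finset (Fin n)) ∪ {b} ∉ lk K {a} := by
        intro h
        have h5 := (mem_lk.1 h).2
        apply habc
        have e5 : ({c} : Finset (Fin n)) ∪ {b} ∪ {a} = {a, b, c} := by
          ext x
          simp only [mem_union, mem_singleton, mem_insert]
          tauto
        rwa [e5] at h5
      have h5 := two_face hLa hMa hc hb hbc' (j := u + 1) (by omega) (by omega)
      rw [card_singleton, card_singleton, lk_pair K hab, lk_pair K hac,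
        if_neg (by omega : ¬ u + 1 < 1), Nat.add_sub_cancel] at h5
      have e6 : d - 1 - 1 = 2 * p + 1 := by omega
      rw [e6] at h5
      have hLab : HSph (lk K {a, b}) (2 * p + 1) := by
        have := hsph_lk hK hKab
        rwa [hcab, e3] at this
      have hLac : HSph (lk K {a, c}) (2 * p + 1) := by
        have := hsph_lk hK hKac
        rwa [hcac, e3] at this
      have h6 := ih (2 * p + 1) (by omega) n (lk K {a, b}) hLab (mf_lk hK.cx hMF (by omega))
        (u + 1) (Or.inl (by omega))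
      have h7 := ih (2 * p + 1) (by omega) n (lk K {a, c}) hLac (mf_lk hK.cx hMF (by omega))
        u (Or.inl (by omega))
      rw [e2, kap_add_two, show u + 1 + 1 = u + 2 from rfl, gco_three, ← e2]
      rw [show u + 1 + 1 = u + 2 from rfl] at h1 h2
      linarith

end Pool.Agent.H861.GL
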