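import Pool.Agent.H861.GL.Fac
import Pool.Agent.H861.GL.Kcx

/-!
# GL/UqA: equal g-numbers give equal f-numbers

`hP_eq_of_g`: `Sym P d` (Fac.lean) says that the coefficients vanish above `d` and are symmetric.
`gco P j = P.coeff j - P.coeff (j-1)` (`P.coeff 0` for `j = 0`), so the coefficients up to `d / 2`
are equal by induction, the others by symmetry.

`card_eq_of_hP`: `hP K d = ∑ m ∈ range (d + 1), f_m X ^ m * (1 - X) ^ (d - m)`, `f_m` the number of
faces with `m` vertices; the coefficient of `X ^ m` is `f_m` plus a combination of the `f_l`, `l < m`,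
with universal coefficients; strong induction on `m` (for `m > d` both sides are `0`).

`sym_min`: `hP_minSphere` (Kcx.lean) gives the polynomial as a product; a geometric sum
`∑ s ∈ range (m + 1), X ^ s` is symmetric of degree `m`, and the product of `P` symmetric of degree
`a` and of the geometric sum (or any symmetric polynomial of degree `b`) is symmetric of degree
`a + b` (for instance because `X ^ d * P (1 / X) = P`, or with `Polynomial.reflect`, or directly with
coefficients).
-/

set_option autoImplicit false

namespace Pool.Agent.H861.GL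

open Finset Pool.Agent.W555.KS Pool.Agent.Y131.KS

namespace UqAaux

theorem hP_coeff {n d : ℕ} {K : Finset (Finset (Fin n))} (hK : ∀ σ ∈ K, σ.card ≤ d) (m : ℕ) :
    (hP K d).coeff m = ∑ l ∈ range (d + 1), ((K.filter (fun σ => σ.card = l)).card : ℤ) *
      (Polynomial.X ^ l * (1 - Polynomial.X) ^ (d - l) : Polynomial ℤ).coeff m := by
  unfold hP
  rw [Polynomial.finsetSum_coeff]
  rw [← Finset.sum_fiberwise_of_maps_to (s := K) (t := range (d + 1)) (g := fun σ => σ.card)
    (fun σ hσ => Finset.mem_range.2 (Nat.lt_succ_of_le (hK σ hσ)))]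
  refine Finset.sum_congr rfl fun l _ => ?_
  rw [Finset.sum_congr rfl (g := fun _ =>
    (Polynomial.X ^ l * (1 - Polynomial.X) ^ (d - l) : Polynomial ℤ).coeff m)]
  · rw [Finset.sum_const, nsmul_eq_mul]
  · intro σ hσ
    rw [(Finset.mem_filter.1 hσ).2]

theorem coeff_gt (d l m : ℕ) (h : m < l) :
    (Polynomial.X ^ l * (1 - Polynomial.X) ^ (d - l) : Polynomial ℤ).coeff m = 0 := by
  rw [Polynomial.coeff_X_pow_mul', if_neg (not_le.2 h)]

theorem coeff_self (d m : ℕ) :
    (Polynomial.X ^ m * (1 - Polynomial.X) ^ (d - m) : Polynomial ℤ).coeff m = 1 := by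
  rw [Polynomial.coeff_X_pow_mul', if_pos le_rfl, Nat.sub_self, Polynomial.coeff_zero_eq_eval_zero]
  simp

end UqAaux

theorem hP_eq_of_g {n n' d : ℕ} {K : Finset (Finset (Fin n))} {L : Finset (Finset (Fin n'))}
    (hK : Sym (hP K d) d) (hL : Sym (hP L d) d)
    (hg : ∀ j, 2 * j ≤ d → gco (hP K d) j = gco (hP L d) j) : hP K d = hP L d := by
  have h1 : ∀ j, 2 * j ≤ d → (hP K d).coeff j = (hP L d).coeff j := by
    intro j
    induction j with
    | zero =>
      intro h
      have h2 := hg 0 h
      simpa [gco] using h2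
    | succ j ih =>
      intro h
      have h2 := hg (j + 1) h
      have h3 := ih (by omega)
      unfold gco at h2
      rw [if_neg (Nat.succ_ne_zero j), if_neg (Nat.succ_ne_zero j)] at h2
      simp only [Nat.add_sub_cancel] at h2
      linarith
  ext j
  by_cases hj : d < j
  · rw [hK.1 j hj, hL.1 j hj]
  · have hj' : j ≤ d := not_lt.1 hj
    by_cases h2 : 2 * j ≤ d
    · exact h1 j h2
    · rw [hK.2 j hj', hL.2 j hj']
      exact h1 _ (by omega)

theorem card_eq_of_hP {n n' d : ℕ} {K : Finset (Finset (Fin n))}
    {L : Finset (Finset (Fin n'))} (hK : ∀ σ ∈ K, σ.card ≤ d) (hL : ∀ σ ∈ L, σ.card ≤ d)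
    (h : hP K d = hP L d) (m : ℕ) :
    (K.filter (fun σ => σ.card = m)).card = (L.filter (fun σ => σ.card = m)).card := by
  induction m using Nat.strong_induction_on with
  | _ m ih =>
    by_cases hm : d < m
    · rw [Finset.filter_false_of_mem fun σ hσ h1 => absurd (hK σ hσ) (by omega),
        Finset.filter_false_of_mem fun σ hσ h1 => absurd (hL σ hσ) (by omega),
        Finset.card_empty, Finset.card_empty]
    · have h1 := UqAaux.hP_coeff hK m
      have h2 := UqAaux.hP_coeff hL m
      rw [h, h2] at h1
      have h3 : ∑ l ∈ range (d + 1), (((K.filter (fun σ => σ.card = l)).card : ℤ) -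
          ((L.filter (fun σ => σ.card = l)).card : ℤ)) *
          (Polynomial.X ^ l * (1 - Polynomial.X) ^ (d - l) : Polynomial ℤ).coeff m = 0 := by
        simp only [sub_mul]
        rw [Finset.sum_sub_distrib, ← h1, sub_self]
      rw [Finset.sum_eq_single m] at h3
      · rw [UqAaux.coeff_self, mul_one, sub_eq_zero] at h3
        exact_mod_cast h3
      · intro l _ hl
        rcases lt_or_gt_of_ne hl with h4 | h4
        · rw [ih l h4, sub_self, zero_mul]
        · rw [UqAaux.coeff_gt d l m h4, mul_zero]
      · intro h4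
        exact absurd (Finset.mem_range.2 (by omega)) h4

end Pool.Agent.H861.GL
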