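import Pool.Agent.H861.GL.GoodF
import Pool.Agent.H861.GL.Kcx
import Pool.Agent.H861.GL.Defs2

/-!
# GL/UqB: the missing faces from the f-numbers

PAPER PROOF. `N = q (i+1) + (r+1)`. `vx K` (GoodF.lean) is the set of the vertices of `K`. By `hf` with
`m = 1`, `|vx K| = N` (all `{v}` are in `minSphere` as all blocks have at least two elements,
`1 ≤ r ≤ i`). All faces of `K` are subsets of `vx K`, so the number of the non-faces of `K` with
`m` elements that are contained in `vx K` is `N.choose m - f_m(K) = N.choose m - f_m(minSphere)` =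
the number of the `m`-element subsets of `Fin N` that are not in `minSphere`, i.e. contain a block
`B_a = {v | v / (i+1) = a}`, `a ≤ q`; `|B_a| = i + 1` for `a < q`, `|B_q| = r + 1`. (*)
(1) For `m ≤ r`: this number is `0`. For `m = r + 1` it is at least `1`: so there is a non-face
`T₀ ⊆ vx K` of `K` with `r + 1` elements.
(2) For `r + 1 ≤ m ≤ i`: the `m`-sets containing a block are those containing `B_q` (the others have
`i + 1 > m` elements); their number is `(N - r - 1).choose (m - r - 1)`, which is also the number of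
the `m`-subsets of `vx K` containing `T₀`; these are non-faces of `K`. So by (*) all non-faces of
`K` with `m` elements in `vx K` contain `T₀`.
(3) `m = i + 1`: the `(i+1)`-sets containing a block are those containing `B_q`, and the `q` sets
`B_a`, `a < q` (they do not contain `B_q`, since blocks are disjoint and nonempty). So by (*) the
number of non-faces of `K` with `i + 1` elements in `vx K` that do not contain `T₀` is `q`. Let
`𝓝` be the set of them.
(4) Let `σ ⊆ vx K` be a non-face. By `MF K i` (Defs2.lean; contrapositive) it contains a non-face `ρ`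
with at most `i + 1` elements. If `|ρ| ≤ r` this contradicts (1); if `|ρ| ≤ i` then `T₀ ⊆ ρ ⊆ σ` by
(2); if `|ρ| = i + 1` then `T₀ ⊆ ρ` or `ρ ∈ 𝓝`. `T₀ ∉ 𝓝` as the elements of `𝓝` do not contain `T₀`.
(For `r = i` everything works as well: (2) is empty.)
-/

set_option autoImplicit false

namespace Pool.Agent.H861.GL

open Finset Pool.Agent.W555.KS Pool.Agent.Y131.KS

namespace UqBaux

theorem cnt {α : Type} [DecidableEq α] {V T : Finset α} (hT : T ⊆ V) {m : ℕ} (hm : T.card ≤ m) :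
    ((V.powersetCard m).filter (fun σ => T ⊆ σ)).card = (V.card - T.card).choose (m - T.card) := by
  rw [← card_sdiff_of_subset hT, ← card_powersetCard]
  refine card_bij' (fun σ _ => σ \ T) (fun ρ _ => ρ ∪ T) ?_ ?_ ?_ ?_
  · intro σ hσ
    rw [mem_filter, mem_powersetCard] at hσ
    rw [mem_powersetCard]
    exact ⟨sdiff_subset_sdiff hσ.1.1 subset_rfl, by rw [card_sdiff_of_subset hσ.2, hσ.1.2]⟩
  · intro ρ hρ
    rw [mem_powersetCard] at hρ
    rw [mem_filter, mem_powersetCard]
    have hd : Disjoint ρ T := disjoint_of_subset_left hρ.1 sdiff_disjoint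
    refine ⟨⟨union_subset (hρ.1.trans sdiff_subset) hT, ?_⟩, subset_union_right⟩
    rw [card_union_of_disjoint hd, hρ.2]
    omega
  · intro σ hσ
    exact sdiff_union_of_subset (mem_filter.1 hσ).2
  · intro ρ hρ
    rw [mem_powersetCard] at hρ
    have hd : Disjoint ρ T := disjoint_of_subset_left hρ.1 sdiff_disjoint
    exact union_sdiff_cancel_right hd

theorem compl_count {α : Type} [DecidableEq α] {L : Finset (Finset α)} {V : Finset α}
    (h : ∀ σ ∈ L, σ ⊆ V) (m : ℕ) :
    (L.filter (fun σ => σ.card = m)).card + ((V.powersetCard m).filter (fun σ => σ ∉ L)).card =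
      V.card.choose m := by
  have h1 : L.filter (fun σ => σ.card = m) = (V.powersetCard m).filter (fun σ => σ ∈ L) := by
    ext σ
    rw [mem_filter, mem_filter, mem_powersetCard]
    exact ⟨fun ⟨a, b⟩ => ⟨⟨h σ a, b⟩, a⟩, fun ⟨⟨_, b⟩, a⟩ => ⟨a, b⟩⟩
  rw [h1, ← card_powersetCard]
  exact card_filter_add_card_filter_not (fun σ => σ ∈ L)

/-- the blocks -/
def Bl (i q r a : ℕ) : Finset (Fin (q * (i + 1) + (r + 1))) :=
  univ.filter (fun v => (v : ℕ) / (i + 1) = a)

theorem mem_Bl' {i q r a : ℕ} {v : Fin (q * (i + 1) + (r + 1))} :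
    v ∈ Bl i q r a ↔ (v : ℕ) / (i + 1) = a := by
  rw [Bl, mem_filter]
  simp only [mem_univ, true_and]

theorem mem_Bl {i q r a : ℕ} {v : Fin (q * (i + 1) + (r + 1))} :
    v ∈ Bl i q r a ↔ a * (i + 1) ≤ (v : ℕ) ∧ (v : ℕ) < (a + 1) * (i + 1) := by
  have hi : 0 < i + 1 := Nat.succ_pos i
  rw [mem_Bl', ← Nat.le_div_iff_mul_le hi, ← Nat.div_lt_iff_lt_mul hi]
  omega

theorem card_Bl_lt {i q r a : ℕ} (ha : a < q) : (Bl i q r a).card = i + 1 := by
  have h : (Bl i q r a).card = (Finset.Ico (a * (i + 1)) ((a + 1) * (i + 1))).card := by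
    refine card_bij (fun v _ => (v : ℕ)) ?_ ?_ ?_
    · intro v hv
      rw [mem_Bl] at hv
      exact mem_Ico.2 hv
    · intro v _ w _ h
      exact Fin.ext h
    · intro t ht
      rw [mem_Ico] at ht
      have hle : (a + 1) * (i + 1) ≤ q * (i + 1) := Nat.mul_le_mul_right _ ha
      exact ⟨⟨t, by omega⟩, mem_Bl.2 ht, rfl⟩
  rw [h, Nat.card_Ico, add_mul a 1, one_mul]
  omega

theorem card_Bl_q {i q r : ℕ} (hri : r ≤ i) : (Bl i q r q).card = r + 1 := by
  have h : (Bl i q r q).card = (Finset.Ico (q * (i + 1)) (q * (i + 1) + (r + 1))).card := by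
    refine card_bij (fun v _ => (v : ℕ)) ?_ ?_ ?_
    · intro v hv
      rw [mem_Bl] at hv
      exact mem_Ico.2 ⟨hv.1, v.2⟩
    · intro v _ w _ h
      exact Fin.ext h
    · intro t ht
      rw [mem_Ico] at ht
      refine ⟨⟨t, ht.2⟩, mem_Bl.2 ⟨ht.1, ?_⟩, rfl⟩
      rw [add_mul, one_mul]
      show t < _
      omega
  rw [h, Nat.card_Ico]
  omega

theorem card_Bl_ge {i q r a : ℕ} (hri : r ≤ i) (ha : a ≤ q) : r + 1 ≤ (Bl i q r a).card := by
  rcases ha.lt_or_eq with h | rfl
  · rw [card_Bl_lt h]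
    omega
  · rw [card_Bl_q hri]

theorem notMem_ms {i q r : ℕ} {σ : Finset (Fin (q * (i + 1) + (r + 1)))} :
    σ ∉ minSphere i q r ↔ ∃ a ≤ q, Bl i q r a ⊆ σ := by
  rw [minSphere, mem_filter]
  simp only [mem_univ, true_and]
  constructor
  · intro h
    by_contra h2
    apply h
    intro a ha
    by_contra h3
    apply h2
    refine ⟨a, ha, fun v hv => ?_⟩
    by_contra h4
    exact h3 ⟨v, mem_Bl'.1 hv, h4⟩
  · rintro ⟨a, ha, h⟩ h2
    obtain ⟨v, hv, hv2⟩ := h2 a ha
    exact hv2 (h (mem_Bl'.2 hv))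

theorem Bl_q_sub {i q r a : ℕ} (ha : a < q) : ¬ Bl i q r q ⊆ Bl i q r a := by
  intro h
  have h1 : (⟨q * (i + 1), by omega⟩ : Fin (q * (i + 1) + (r + 1))) ∈ Bl i q r q := by
    rw [mem_Bl']
    exact Nat.mul_div_cancel _ (Nat.succ_pos i)
  have h2 := mem_Bl'.1 (h h1)
  rw [mem_Bl'] at h1
  omega

theorem extra_card {i q r : ℕ} :
    ((((univ : Finset (Fin (q * (i + 1) + (r + 1)))).powersetCard (i + 1)).filter
      (fun σ => σ ∉ minSphere i q r)).filter (fun σ => ¬ Bl i q r q ⊆ σ)).card = q := by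
  have h : (((univ : Finset (Fin (q * (i + 1) + (r + 1)))).powersetCard (i + 1)).filter
      (fun σ => σ ∉ minSphere i q r)).filter (fun σ => ¬ Bl i q r q ⊆ σ) =
      (range q).image (fun a => Bl i q r a) := by
    ext σ
    rw [mem_filter, mem_filter, mem_powersetCard, mem_image, notMem_ms]
    constructor
    · rintro ⟨⟨⟨_, hc⟩, a, ha, hs⟩, hn⟩
      have haq : a < q := by
        rcases ha.lt_or_eq with h | rfl
        · exact h
        · exact absurd hs hn
      exact ⟨a, mem_range.2 haq, eq_of_subset_of_card_le hs (by rw [hc, card_Bl_lt haq])⟩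
    · rintro ⟨a, ha, rfl⟩
      have haq := mem_range.1 ha
      exact ⟨⟨⟨subset_univ _, card_Bl_lt haq⟩, a, haq.le, subset_rfl⟩, Bl_q_sub haq⟩
  rw [h, card_image_of_injOn, card_range]
  intro a ha b hb hab
  have haq : a < q := by simpa using ha
  have hne : (Bl i q r a).Nonempty := by
    rw [← card_pos, card_Bl_lt haq]
    omega
  obtain ⟨v, hv⟩ := hne
  have hv2 : v ∈ Bl i q r b := by
    have : Bl i q r a = Bl i q r b := hab
    rwa [← this]
  exact (mem_Bl'.1 hv).symm.trans (mem_Bl'.1 hv2)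

end UqBaux

open UqBaux in
theorem missing_of_f {n i q r : ℕ} (hr : 1 ≤ r) (hri : r ≤ i) {K : Finset (Finset (Fin n))}
    (hK : IsCx K) (hmf : MF K i)
    (hf : ∀ m, (K.filter (fun σ => σ.card = m)).card =
      ((minSphere i q r).filter (fun σ => σ.card = m)).card) :
    (vx K).card = q * (i + 1) + (r + 1) ∧
    ∃ (T₀ : Finset (Fin n)) (N : Finset (Finset (Fin n))), T₀.card = r + 1 ∧
      (∀ T ∈ N, T.card = i + 1) ∧ N.card = q ∧ T₀ ∉ N ∧
      (∀ T ∈ insert T₀ N, T ⊆ vx K ∧ T ∉ K) ∧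
      ∀ σ ⊆ vx K, σ ∉ K → ∃ T ∈ insert T₀ N, T ⊆ σ := by
  have hKv : ∀ σ ∈ K, σ ⊆ vx K := by
    intro σ hσ v hv
    rw [mem_vx]
    exact hK.2 σ hσ {v} (singleton_subset_iff.2 hv)
  have hsup : ∀ {T σ : Finset (Fin n)}, T ∉ K → T ⊆ σ → σ ∉ K := fun hT hs h =>
    hT (hK.2 _ h _ hs)
  have hA := fun m => compl_count (L := minSphere i q r)
    (V := (univ : Finset (Fin (q * (i + 1) + (r + 1))))) (fun σ _ => subset_univ σ) m
  have hB := fun m => compl_count (L := K) (V := vx K) hKv m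
  simp only [card_univ, Fintype.card_fin] at hA
  -- small sets
  have hA0 : ∀ m ≤ r, ((((univ : Finset (Fin (q * (i + 1) + (r + 1)))).powersetCard m).filter
      (fun σ => σ ∉ minSphere i q r)).card = 0) := by
    intro m hm
    rw [card_eq_zero, filter_eq_empty_iff]
    intro σ hσ h
    obtain ⟨a, ha, hs⟩ := notMem_ms.1 h
    have h1 := card_le_card hs
    have h2 := card_Bl_ge hri ha
    rw [(mem_powersetCard.1 hσ).2] at h1
    omega
  have hcard : (vx K).card = q * (i + 1) + (r + 1) := by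
    have h1 := hA 1
    rw [hA0 1 hr, Nat.choose_one_right, ← hf 1] at h1
    have h2 : (K.filter (fun σ => σ.card = 1)).card = (vx K).card := by
      symm
      refine card_bij (fun v _ => ({v} : Finset (Fin n))) ?_ ?_ ?_
      · intro v hv
        exact mem_filter.2 ⟨mem_vx.1 hv, card_singleton v⟩
      · intro v _ w _ h
        exact singleton_injective h
      · intro σ hσ
        obtain ⟨h3, h4⟩ := mem_filter.1 hσ
        obtain ⟨v, rfl⟩ := card_eq_one.1 h4
        exact ⟨v, mem_vx.2 h3, rfl⟩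
    omega
  have hν : ∀ m, (((vx K).powersetCard m).filter (fun σ => σ ∉ K)).card =
      (((univ : Finset (Fin (q * (i + 1) + (r + 1)))).powersetCard m).filter
        (fun σ => σ ∉ minSphere i q r)).card := by
    intro m
    have h1 := hA m
    have h2 := hB m
    rw [hcard, hf m] at h2
    omega
  refine ⟨hcard, ?_⟩
  have hsmall : ∀ σ ⊆ vx K, σ.card ≤ r → σ ∈ K := by
    intro σ hσ hc
    by_contra h
    have h1 := hν σ.card
    rw [hA0 _ hc, card_eq_zero, filter_eq_empty_iff] at h1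
    exact h1 (mem_powersetCard.2 ⟨hσ, rfl⟩) h
  obtain ⟨T₀, hT₀⟩ : (((vx K).powersetCard (r + 1)).filter (fun σ => σ ∉ K)).Nonempty := by
    rw [← card_pos, hν, card_pos]
    exact ⟨Bl i q r q, mem_filter.2 ⟨mem_powersetCard.2 ⟨subset_univ _, card_Bl_q hri⟩,
      notMem_ms.2 ⟨q, le_rfl, subset_rfl⟩⟩⟩
  obtain ⟨hT1, hT3⟩ := mem_filter.1 hT₀
  obtain ⟨hT1, hT2⟩ := mem_powersetCard.1 hT1
  -- the sets with a middle number of elements
  have hmid : ∀ σ ⊆ vx K, σ ∉ K → r + 1 ≤ σ.card → σ.card ≤ i → T₀ ⊆ σ := by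
    intro σ hσ hσK h1 h2
    have e1 : ((vx K).powersetCard σ.card).filter (fun ρ => T₀ ⊆ ρ) =
        ((vx K).powersetCard σ.card).filter (fun ρ => ρ ∉ K) := by
      refine eq_of_subset_of_card_le ?_ ?_
      · intro ρ hρ
        obtain ⟨h3, h4⟩ := mem_filter.1 hρ
        exact mem_filter.2 ⟨h3, hsup hT3 h4⟩
      · rw [hν, cnt hT1 (by omega), hcard, hT2]
        have e2 : ((univ : Finset (Fin (q * (i + 1) + (r + 1)))).powersetCard σ.card).filter
            (fun ρ => ρ ∉ minSphere i q r) ⊆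
            ((univ : Finset (Fin (q * (i + 1) + (r + 1)))).powersetCard σ.card).filter
            (fun ρ => Bl i q r q ⊆ ρ) := by
          intro ρ hρ
          obtain ⟨h3, h4⟩ := mem_filter.1 hρ
          obtain ⟨a, ha, hs⟩ := notMem_ms.1 h4
          refine mem_filter.2 ⟨h3, ?_⟩
          rcases ha.lt_or_eq with h5 | rfl
          · have h6 := card_le_card hs
            rw [card_Bl_lt h5, (mem_powersetCard.1 h3).2] at h6
            omega
          · exact hs
        refine (card_le_card e2).trans ?_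
        rw [cnt (subset_univ _) (by rw [card_Bl_q hri]; omega), card_Bl_q hri, card_univ,
          Fintype.card_fin]
    have h3 : σ ∈ ((vx K).powersetCard σ.card).filter (fun ρ => ρ ∉ K) :=
      mem_filter.2 ⟨mem_powersetCard.2 ⟨hσ, rfl⟩, hσK⟩
    rw [← e1] at h3
    exact (mem_filter.1 h3).2
  -- the sets with `i + 1` elements
  have hNcard : ((((vx K).powersetCard (i + 1)).filter (fun σ => σ ∉ K)).filter
      (fun σ => ¬ T₀ ⊆ σ)).card = q := by
    have h1 := card_filter_add_card_filter_not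
      (s := ((vx K).powersetCard (i + 1)).filter (fun σ => σ ∉ K)) (fun σ => T₀ ⊆ σ)
    have h2 := card_filter_add_card_filter_not
      (s := ((univ : Finset (Fin (q * (i + 1) + (r + 1)))).powersetCard (i + 1)).filter
        (fun σ => σ ∉ minSphere i q r)) (fun σ => Bl i q r q ⊆ σ)
    rw [extra_card] at h2
    have e1 : (((vx K).powersetCard (i + 1)).filter (fun σ => σ ∉ K)).filter
        (fun σ => T₀ ⊆ σ) = ((vx K).powersetCard (i + 1)).filter (fun σ => T₀ ⊆ σ) := by
      ext σ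
      rw [mem_filter, mem_filter, mem_filter]
      exact ⟨fun ⟨⟨a, _⟩, b⟩ => ⟨a, b⟩, fun ⟨a, b⟩ => ⟨⟨a, hsup hT3 b⟩, b⟩⟩
    have e2 : (((univ : Finset (Fin (q * (i + 1) + (r + 1)))).powersetCard (i + 1)).filter
        (fun σ => σ ∉ minSphere i q r)).filter (fun σ => Bl i q r q ⊆ σ) =
        ((univ : Finset (Fin (q * (i + 1) + (r + 1)))).powersetCard (i + 1)).filter
        (fun σ => Bl i q r q ⊆ σ) := by
      ext σ
      rw [mem_filter, mem_filter, mem_filter]
      exact ⟨fun ⟨⟨a, _⟩, b⟩ => ⟨a, b⟩,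
        fun ⟨a, b⟩ => ⟨⟨a, notMem_ms.2 ⟨q, le_rfl, b⟩⟩, b⟩⟩
    rw [e1, cnt hT1 (by omega), hcard, hT2, hν] at h1
    rw [e2, cnt (subset_univ _) (by rw [card_Bl_q hri]; omega), card_Bl_q hri, card_univ,
      Fintype.card_fin] at h2
    omega
  refine ⟨T₀, (((vx K).powersetCard (i + 1)).filter (fun σ => σ ∉ K)).filter
      (fun σ => ¬ T₀ ⊆ σ), hT2, ?_, hNcard, ?_, ?_, ?_⟩
  · intro T hT
    exact (mem_powersetCard.1 (mem_filter.1 (mem_filter.1 hT).1).1).2
  · intro h
    exact (mem_filter.1 h).2 subset_rfl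
  · intro T hT
    rcases mem_insert.1 hT with rfl | hT
    · exact ⟨hT1, hT3⟩
    · obtain ⟨h1, h2⟩ := mem_filter.1 (mem_filter.1 hT).1
      exact ⟨(mem_powersetCard.1 h1).1, h2⟩
  · intro σ hσ hσK
    have h1 : ∃ ρ ⊆ σ, ρ.card ≤ i + 1 ∧ ρ ∉ K := by
      by_contra h
      apply hσK
      refine hmf σ fun ρ hρ hc => ?_
      by_contra h2
      exact h ⟨ρ, hρ, hc, h2⟩
    obtain ⟨ρ, hρ, hc, hρK⟩ := h1
    by_cases hT : T₀ ⊆ ρ
    · exact ⟨T₀, mem_insert_self _ _, hT.trans hρ⟩
    have h2 : r + 1 ≤ ρ.card := by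
      by_contra h3
      exact hρK (hsmall ρ (hρ.trans hσ) (by omega))
    have h3 : ρ.card = i + 1 := by
      by_contra h4
      exact hT (hmid ρ (hρ.trans hσ) hρK h2 (by omega))
    exact ⟨ρ, mem_insert_of_mem (mem_filter.2 ⟨mem_filter.2
      ⟨mem_powersetCard.2 ⟨hρ.trans hσ, h3⟩, hρK⟩, hT⟩), hρ⟩

end Pool.Agent.H861.GL
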