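import Pool.Agent.H861.GL.GoodF

/-!
# GL/UqC: the missing faces are disjoint

PAPER PROOF. Let `F ∈ K` with `|F| = d` be a facet, `C = vx K \ F`, `|C| = c`. For `y ∈ C` the set
`insert y F` is no face (it has `d + 1` elements), so it contains some `T ∈ M`, and `y ∈ T` (else
`T ⊆ F` would be a face). So there is a map `y ↦ T_y` from `C` to `M` with `T_y ∩ C = {y}`; it is
injective, and `|C| = c = |M|`, so it is bijective: (1) for every facet `F` with `d` elements and every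
`T ∈ M` the set `T ∩ C` has exactly one element, and different `T` have different elements.
(2) Let `T ∈ M`, `x ∈ T`. Then `T.erase x ∈ K`: otherwise (it is contained in `vx K`) it contains some
`T' ∈ M`, `T' ⊆ T.erase x`, so `T' ≠ T`; for a facet `F` (exists: `hpure` for `∅`) the element of
`T' ∩ C` is also the element of `T ∩ C`, a contradiction to (1).
(3) Let `T ≠ T'` in `M` and `x ∈ T ∩ T'`. Let `F ⊇ T.erase x` be a facet with `d` elements
(`hpure`). `x ∉ F` since `T` is no face. So `x ∈ T ∩ C` and `x ∈ T' ∩ C` (`x ∈ T ⊆ vx K`), a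
contradiction to (1).
-/

set_option autoImplicit false

namespace Pool.Agent.H861.GL

open Finset Pool.Agent.W555.KS Pool.Agent.Y131.KS

namespace UqCaux

/-- the map from the complement of a facet to the missing faces -/
theorem one {n d c : ℕ} {K : Finset (Finset (Fin n))} (hK : IsCx K) (hcard : ∀ σ ∈ K, σ.card ≤ d)
    (hv : (vx K).card = d + c) (M : Finset (Finset (Fin n))) (hM : M.card = c)
    (hM1 : ∀ T ∈ M, T ⊆ vx K ∧ T ∉ K) (hM2 : ∀ σ ⊆ vx K, σ ∉ K → ∃ T ∈ M, T ⊆ σ)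
    (F : Finset (Fin n)) (hF : F ∈ K) (hFd : F.card = d) :
    (∀ T ∈ M, ∃ y, T \ F = {y}) ∧
      ∀ T ∈ M, ∀ T' ∈ M, ∀ y, T \ F = {y} → T' \ F = {y} → T = T' := by
  classical
  have hFv : F ⊆ vx K := by
    intro x hx
    rw [mem_vx]
    exact hK.2 F hF _ (singleton_subset_iff.2 hx)
  set C := vx K \ F with hC
  have hCc : C.card = c := by
    rw [hC, card_sdiff_of_subset hFv, hv, hFd]
    omega
  have hex : ∀ y ∈ C, ∃ T ∈ M, T ⊆ insert y F ∧ y ∈ T := by
    intro y hy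
    obtain ⟨hy1, hy2⟩ := mem_sdiff.1 hy
    have h1 : insert y F ∉ K := by
      intro h
      have h2 := hcard _ h
      rw [card_insert_of_notMem hy2] at h2
      omega
    obtain ⟨T, hT, hTs⟩ := hM2 (insert y F) (insert_subset hy1 hFv) h1
    refine ⟨T, hT, hTs, ?_⟩
    by_contra hyT
    refine (hM1 T hT).2 (hK.2 F hF T ?_)
    intro x hx
    rcases mem_insert.1 (hTs hx) with h3 | h3
    · exact absurd (h3 ▸ hx) hyT
    · exact h3
  choose! g hgM hgs hgy using hex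
  have hinj : ∀ y ∈ C, ∀ y' ∈ C, g y = g y' → y = y' := by
    intro y hy y' hy' h
    have h1 : y ∈ insert y' F := by
      have h2 := hgs y' hy'
      rw [← h] at h2
      exact h2 (hgy y hy)
    rcases mem_insert.1 h1 with h3 | h3
    · exact h3
    · exact absurd h3 (mem_sdiff.1 hy).2
  have himg : C.image g = M := by
    refine eq_of_subset_of_card_le ?_ ?_
    · intro T hT
      obtain ⟨y, hy, rfl⟩ := mem_image.1 hT
      exact hgM y hy
    · rw [card_image_of_injOn (fun y hy y' hy' h => hinj y (mem_coe.1 hy) y' (mem_coe.1 hy') h), hCc, hM]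
  have hsurj : ∀ T ∈ M, ∃ y ∈ C, g y = T := by
    intro T hT
    rw [← himg] at hT
    obtain ⟨y, hy, h⟩ := mem_image.1 hT
    exact ⟨y, hy, h⟩
  have hsd : ∀ y ∈ C, g y \ F = {y} := by
    intro y hy
    ext x
    rw [mem_sdiff, mem_singleton]
    constructor
    · rintro ⟨h1, h2⟩
      rcases mem_insert.1 (hgs y hy h1) with h3 | h3
      · exact h3
      · exact absurd h3 h2
    · rintro rfl
      exact ⟨hgy x hy, (mem_sdiff.1 hy).2⟩
  constructor
  · intro T hT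
    obtain ⟨y, hy, rfl⟩ := hsurj T hT
    exact ⟨y, hsd y hy⟩
  · intro T hT T' hT' y h h'
    obtain ⟨y1, hy1, rfl⟩ := hsurj T hT
    obtain ⟨y2, hy2, rfl⟩ := hsurj T' hT'
    rw [hsd y1 hy1, singleton_inj] at h
    rw [hsd y2 hy2, singleton_inj] at h'
    rw [h, h']

end UqCaux

theorem disj_missing {n d c : ℕ} {K : Finset (Finset (Fin n))} (hK : IsCx K)
    (hpure : ∀ σ ∈ K, ∃ τ ∈ K, σ ⊆ τ ∧ τ.card = d) (hcard : ∀ σ ∈ K, σ.card ≤ d)
    (hv : (vx K).card = d + c) (M : Finset (Finset (Fin n))) (hM : M.card = c)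
    (hM1 : ∀ T ∈ M, T ⊆ vx K ∧ T ∉ K) (hM2 : ∀ σ ⊆ vx K, σ ∉ K → ∃ T ∈ M, T ⊆ σ) :
    ∀ T ∈ M, ∀ T' ∈ M, T ≠ T' → Disjoint T T' := by
  classical
  have h2 : ∀ T ∈ M, ∀ x ∈ T, T.erase x ∈ K := by
    intro T hT x hx
    by_contra hno
    obtain ⟨T', hT', hTs⟩ := hM2 (T.erase x) ((erase_subset _ _).trans (hM1 T hT).1) hno
    obtain ⟨F, hF, -, hFd⟩ := hpure ∅ hK.1
    obtain ⟨g1, g2⟩ := UqCaux.one hK hcard hv M hM hM1 hM2 F hF hFd
    obtain ⟨y, hy⟩ := g1 T hT
    obtain ⟨y', hy'⟩ := g1 T' hT'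
    have h3 : y' ∈ T' \ F := by
      rw [hy']
      exact mem_singleton_self _
    have h4 : y' ∈ T \ F :=
      mem_sdiff.2 ⟨mem_of_mem_erase (hTs (mem_sdiff.1 h3).1), (mem_sdiff.1 h3).2⟩
    rw [hy, mem_singleton] at h4
    rw [h4] at hy'
    have h5 := g2 T hT T' hT' y hy hy'
    rw [← h5] at hTs
    exact (mem_erase.1 (hTs hx)).1 rfl
  intro T hT T' hT' hne
  rw [disjoint_left]
  intro x hx hx'
  obtain ⟨F, hF, hTF, hFd⟩ := hpure _ (h2 T hT x hx)
  obtain ⟨g1, g2⟩ := UqCaux.one hK hcard hv M hM hM1 hM2 F hF hFd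
  have hxF : x ∉ F := by
    intro hxF
    refine (hM1 T hT).2 (hK.2 F hF T ?_)
    intro z hz
    by_cases hzx : z = x
    · rw [hzx]
      exact hxF
    · exact hTF (mem_erase.2 ⟨hzx, hz⟩)
  obtain ⟨y, hy⟩ := g1 T hT
  obtain ⟨y', hy'⟩ := g1 T' hT'
  have e1 : x ∈ T \ F := mem_sdiff.2 ⟨hx, hxF⟩
  have e2 : x ∈ T' \ F := mem_sdiff.2 ⟨hx', hxF⟩
  rw [hy, mem_singleton] at e1
  rw [hy', mem_singleton] at e2
  rw [← e1] at hy
  rw [← e2] at hy'
  exact hne (g2 T hT T' hT' x hy hy')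

end Pool.Agent.H861.GL
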