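import Pool.Agent.H861.GL.Kcx

/-!
# GL/UqD: complexes whose missing faces are disjoint

PAPER PROOF. Let `N = q (i+1) + (r+1)`, blocks `B_a = {v : Fin N | v / (i+1) = a}`, `a ≤ q`,
`|B_a| = i + 1` for `a < q`, `|B_q| = r + 1` (as `r ≤ i`). Number the elements of `M` as
`T_0, ..., T_(q-1)` and put `T_q = T₀`. Choose bijections `B_a → T_a`. As the `B_a` partition `Fin N`
and the `T_a` are disjoint, they define an injective map `e : Fin N → Fin n` with `e (B_a) = T_a` and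
image `V`. (For instance: `e v = (T_a).orderEmbOfFin _ ⟨v % (i+1), _⟩` with `a = v / (i+1)`, where
`T_a` comes from `M.equivFin` or `M.toList` or `Finset.equivFinOfCardEq`; note that `v % (i+1) < r + 1` if
`v / (i+1) = q`.) `σ ∈ K` iff `σ ⊆ V` and `σ` contains no `T_a`; iff `σ` is the image of
`ρ = {v | e v ∈ σ}` and `ρ` contains no `B_a`; iff `σ = ρ.map e` with `ρ ∈ minSphere i q r`
(membership: for all `a ≤ q` some `v` with `v / (i+1) = a` is not in `ρ`).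
-/

set_option autoImplicit false

namespace Pool.Agent.H861.GL

open Finset

namespace UqDaux

theorem blocks {n i q r : ℕ} {T₀ : Finset (Fin n)} {M : Finset (Finset (Fin n))}
    (h0 : T₀.card = r + 1) (hM : ∀ T ∈ M, T.card = i + 1) (hMc : M.card = q) (hT₀ : T₀ ∉ M) :
    ∃ T : ℕ → Finset (Fin n), (∀ a, T a ∈ insert T₀ M) ∧
      (∀ a ≤ q, ∀ b ≤ q, T a = T b → a = b) ∧ (∀ a < q, (T a).card = i + 1) ∧
      (T q).card = r + 1 ∧ ∀ S ∈ insert T₀ M, ∃ a ≤ q, T a = S := by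
  classical
  let eM : Fin q ≃ M := (Finset.equivFinOfCardEq hMc).symm
  let T : ℕ → Finset (Fin n) := fun a => if h : a < q then (eM ⟨a, h⟩).1 else T₀
  have hT : ∀ a (h : a < q), T a = (eM ⟨a, h⟩).1 := fun a h => dif_pos h
  have hTq : T q = T₀ := dif_neg (lt_irrefl q)
  refine ⟨T, fun a => ?_, fun a ha b hb hab => ?_, fun a ha => ?_, ?_, fun S hS => ?_⟩
  · by_cases h : a < q
    · rw [hT a h]
      exact mem_insert_of_mem (eM ⟨a, h⟩).2
    · have h1 : T a = T₀ := dif_neg h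
      rw [h1]
      exact mem_insert_self _ _
  · rcases lt_or_eq_of_le ha with ha | rfl
    · rcases lt_or_eq_of_le hb with hb | rfl
      · rw [hT a ha, hT b hb] at hab
        have h1 := eM.injective (Subtype.ext hab)
        exact congrArg Fin.val h1
      · rw [hT a ha, hTq] at hab
        exact absurd (hab ▸ (eM ⟨a, ha⟩).2) hT₀
    · rcases lt_or_eq_of_le hb with hb | hb
      · rw [hT b hb, hTq] at hab
        exact absurd (hab ▸ (eM ⟨b, hb⟩).2) hT₀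
      · exact hb.symm
  · rw [hT a ha]
    exact hM _ (eM ⟨a, ha⟩).2
  · rw [hTq, h0]
  · rcases mem_insert.1 hS with rfl | hS
    · exact ⟨q, le_rfl, hTq⟩
    · refine ⟨(eM.symm ⟨S, hS⟩).1, (eM.symm ⟨S, hS⟩).2.le, ?_⟩
      rw [hT _ (eM.symm ⟨S, hS⟩).2]
      show (eM (eM.symm ⟨S, hS⟩)).1 = S
      rw [Equiv.apply_symm_apply]

end UqDaux

open UqDaux in
theorem iso_of_disj {n i q r : ℕ} (hri : r ≤ i) {K : Finset (Finset (Fin n))}
    (V T₀ : Finset (Fin n)) (M : Finset (Finset (Fin n))) (h0 : T₀.card = r + 1)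
    (hM : ∀ T ∈ M, T.card = i + 1) (hMc : M.card = q) (hT₀ : T₀ ∉ M)
    (hd : ∀ T ∈ insert T₀ M, ∀ T' ∈ insert T₀ M, T ≠ T' → Disjoint T T')
    (hV : ∀ T ∈ insert T₀ M, T ⊆ V) (hVc : V.card = q * (i + 1) + (r + 1))
    (hK : ∀ σ, σ ∈ K ↔ σ ⊆ V ∧ ∀ T ∈ insert T₀ M, ¬ T ⊆ σ) :
    ∃ e : Fin (q * (i + 1) + (r + 1)) ↪ Fin n, ∀ σ, σ ∈ K ↔
      ∃ ρ ∈ minSphere i q r, ρ.map e = σ := by
  classical
  obtain ⟨T, hTm, hTi, hTc, hTq, hTs⟩ := blocks (i := i) (r := r) h0 hM hMc hT₀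
  have hdiv : ∀ v : Fin (q * (i + 1) + (r + 1)), (v : ℕ) / (i + 1) ≤ q := by
    intro v
    have h1 : (v : ℕ) < (q + 1) * (i + 1) := by
      have := v.2
      have h2 : (q + 1) * (i + 1) = q * (i + 1) + (i + 1) := by ring
      omega
    exact Nat.lt_succ_iff.1 ((Nat.div_lt_iff_lt_mul (Nat.succ_pos i)).2 h1)
  have hlt : ∀ v : Fin (q * (i + 1) + (r + 1)), (v : ℕ) % (i + 1) < (T ((v : ℕ) / (i + 1))).card := by
    intro v
    rcases lt_or_eq_of_le (hdiv v) with h | h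
    · rw [hTc _ h]
      exact Nat.mod_lt _ (Nat.succ_pos i)
    · rw [h, hTq]
      have h1 := Nat.div_add_mod (v : ℕ) (i + 1)
      rw [h, mul_comm] at h1
      have := v.2
      omega
  have hdisj : ∀ a ≤ q, ∀ b ≤ q, ∀ x, x ∈ T a → x ∈ T b → a = b := by
    intro a ha b hb x hxa hxb
    by_contra hne
    exact Finset.disjoint_left.1 (hd _ (hTm a) _ (hTm b) fun h => hne (hTi a ha b hb h)) hxa hxb
  have hinj : ∀ (a t : ℕ) (h : t < (T a).card) (b s : ℕ) (h' : s < (T b).card), a ≤ q → b ≤ q →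
      (T a).orderEmbOfFin rfl ⟨t, h⟩ = (T b).orderEmbOfFin rfl ⟨s, h'⟩ → a = b ∧ t = s := by
    intro a t h b s h' ha hb heq
    have k1 : (T a).orderEmbOfFin rfl ⟨t, h⟩ ∈ T a := Finset.orderEmbOfFin_mem _ _ _
    have k2 : (T b).orderEmbOfFin rfl ⟨s, h'⟩ ∈ T b := Finset.orderEmbOfFin_mem _ _ _
    rw [← heq] at k2
    have h1 : a = b := hdisj a ha b hb _ k1 k2
    subst h1
    exact ⟨rfl, congrArg Fin.val (((T a).orderEmbOfFin rfl).injective heq)⟩
  let e : Fin (q * (i + 1) + (r + 1)) ↪ Fin n :=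
    ⟨fun v => (T ((v : ℕ) / (i + 1))).orderEmbOfFin rfl ⟨(v : ℕ) % (i + 1), hlt v⟩, by
      intro v w hvw
      obtain ⟨h1, h2⟩ := hinj _ _ (hlt v) _ _ (hlt w) (hdiv v) (hdiv w) hvw
      refine Fin.ext ?_
      rw [← Nat.div_add_mod (v : ℕ) (i + 1), ← Nat.div_add_mod (w : ℕ) (i + 1), h1, h2]⟩
  have hemem : ∀ v : Fin (q * (i + 1) + (r + 1)), e v ∈ T ((v : ℕ) / (i + 1)) := fun v =>
    Finset.orderEmbOfFin_mem (T ((v : ℕ) / (i + 1))) rfl ⟨(v : ℕ) % (i + 1), hlt v⟩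
  have himg : (univ : Finset (Fin (q * (i + 1) + (r + 1)))).map e = V := by
    refine Finset.eq_of_subset_of_card_le ?_ ?_
    · intro x hx
      obtain ⟨v, -, rfl⟩ := Finset.mem_map.1 hx
      exact hV _ (hTm _) (hemem v)
    · rw [hVc, Finset.card_map, Finset.card_univ, Fintype.card_fin]
  have hsurj : ∀ x ∈ V, ∃ v, e v = x := by
    intro x hx
    rw [← himg] at hx
    obtain ⟨v, -, hv⟩ := Finset.mem_map.1 hx
    exact ⟨v, hv⟩
  have hblk : ∀ a ≤ q, ∀ x ∈ T a, ∃ v : Fin (q * (i + 1) + (r + 1)), (v : ℕ) / (i + 1) = a ∧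
      e v = x := by
    intro a ha x hx
    obtain ⟨v, hv⟩ := hsurj x (hV _ (hTm a) hx)
    exact ⟨v, hdisj _ (hdiv v) a ha x (hv ▸ hemem v) hx, hv⟩
  refine ⟨e, fun σ => ?_⟩
  rw [hK σ]
  constructor
  · rintro ⟨hσV, hσ⟩
    refine ⟨univ.filter fun v => e v ∈ σ, ?_, ?_⟩
    · unfold minSphere
      rw [Finset.mem_filter]
      refine ⟨Finset.mem_univ _, fun a ha => ?_⟩
      obtain ⟨x, hx, hxσ⟩ := Finset.not_subset.1 (hσ _ (hTm a))
      obtain ⟨v, hv, hvx⟩ := hblk a ha x hx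
      refine ⟨v, hv, fun hmem => hxσ ?_⟩
      rw [← hvx]
      exact (Finset.mem_filter.1 hmem).2
    · ext x
      rw [Finset.mem_map]
      constructor
      · rintro ⟨v, hv, rfl⟩
        exact (Finset.mem_filter.1 hv).2
      · intro hx
        obtain ⟨v, hv⟩ := hsurj x (hσV hx)
        exact ⟨v, Finset.mem_filter.2 ⟨Finset.mem_univ _, hv ▸ hx⟩, hv⟩
  · rintro ⟨ρ, hρ, rfl⟩
    unfold minSphere at hρ
    rw [Finset.mem_filter] at hρ
    refine ⟨?_, fun S hS hsub => ?_⟩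
    · rw [← himg]
      exact Finset.map_subset_map.2 (Finset.subset_univ ρ)
    · obtain ⟨a, ha, rfl⟩ := hTs S hS
      obtain ⟨v, hv, hvρ⟩ := hρ.2 a ha
      have h1 := hsub (hv ▸ hemem v)
      obtain ⟨w, hw, hwv⟩ := Finset.mem_map.1 h1
      exact hvρ (e.injective hwv ▸ hw)

end Pool.Agent.H861.GL
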