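import Pool.Agent.H861.GL.Fac
import Pool.Agent.H861.GL.Kcx

/-!
# GL/UqS: symmetry of the h-polynomial of minSphere (helper972 for helper861)

`hP_minSphere` (Kcx.lean) gives the polynomial as a product; a geometric sum
`∑ s ∈ range (m + 1), X ^ s` is symmetric of degree `m`, and the product of `P` symmetric of degree
`a` and of a symmetric polynomial of degree `b` is symmetric of degree `a + b`.
-/

set_option autoImplicit false

namespace Pool.Agent.H861.GL

open Finset Pool.Agent.W555.KS Pool.Agent.Y131.KS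

namespace UqSaux

theorem sym_iff (P : Polynomial ℤ) (d : ℕ) :
    Sym P d ↔ P.natDegree ≤ d ∧ Polynomial.reflect d P = P := by
  rw [Polynomial.natDegree_le_iff_coeff_eq_zero]
  constructor
  · rintro ⟨h1, h2⟩
    refine ⟨fun r hr => h1 r hr, ?_⟩
    ext r
    rw [Polynomial.coeff_reflect]
    by_cases hr : r ≤ d
    · rw [Polynomial.revAt_le hr]
      exact (h2 r hr).symm
    · rw [Polynomial.revAt_eq_self_of_lt (not_le.1 hr)]
  · rintro ⟨h1, h2⟩
    refine ⟨fun r hr => h1 r hr, fun r hr => ?_⟩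
    have h3 := congrArg (fun Q : Polynomial ℤ => Q.coeff r) h2
    simp only [Polynomial.coeff_reflect] at h3
    rw [Polynomial.revAt_le hr] at h3
    exact h3.symm

theorem sym_mul {P Q : Polynomial ℤ} {a b : ℕ} (hP : Sym P a) (hQ : Sym Q b) :
    Sym (P * Q) (a + b) := by
  rw [sym_iff] at hP hQ ⊢
  refine ⟨Polynomial.natDegree_mul_le_of_le hP.1 hQ.1, ?_⟩
  rw [Polynomial.reflect_mul P Q hP.1 hQ.1, hP.2, hQ.2]

theorem sym_one : Sym (1 : Polynomial ℤ) 0 := by
  refine ⟨fun r hr => ?_, fun r hr => ?_⟩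
  · rw [Polynomial.coeff_one, if_neg (by omega)]
  · have h : r = 0 := by omega
    rw [h]

theorem sym_pow {P : Polynomial ℤ} {a : ℕ} (hP : Sym P a) (q : ℕ) : Sym (P ^ q) (q * a) := by
  induction q with
  | zero =>
    rw [pow_zero, Nat.zero_mul]
    exact sym_one
  | succ q ih =>
    rw [pow_succ, Nat.succ_mul]
    exact sym_mul ih hP

theorem coeff_geom (m r : ℕ) : (∑ s ∈ range (m + 1), (Polynomial.X : Polynomial ℤ) ^ s).coeff r =
    if r < m + 1 then 1 else 0 := by
  rw [Polynomial.finsetSum_coeff]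
  simp only [Polynomial.coeff_X_pow]
  rw [Finset.sum_ite_eq]
  simp only [mem_range]

theorem sym_geom (m : ℕ) : Sym (∑ s ∈ range (m + 1), (Polynomial.X : Polynomial ℤ) ^ s) m := by
  refine ⟨fun r hr => ?_, fun r hr => ?_⟩
  · rw [coeff_geom, if_neg (by omega)]
  · rw [coeff_geom, coeff_geom, if_pos (by omega), if_pos (by omega)]

end UqSaux

theorem sym_min (i q r : ℕ) (hri : r ≤ i) :
    Sym (hP (minSphere i q r) (q * i + r)) (q * i + r) := by
  rw [hP_minSphere i q r hri]
  exact UqSaux.sym_mul (UqSaux.sym_pow (UqSaux.sym_geom i) q) (UqSaux.sym_geom r)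

theorem card_min (i q r : ℕ) (hri : r ≤ i) : ∀ σ ∈ minSphere i q r, σ.card ≤ q * i + r := by
  classical
  have _ := hri
  intro σ hσ
  rw [minSphere, mem_filter] at hσ
  have h := hσ.2
  have h1 : ∀ a : Fin (q + 1), ∃ v : Fin (q * (i + 1) + (r + 1)),
      (v : ℕ) / (i + 1) = (a : ℕ) ∧ v ∉ σ := fun a => h a (Nat.lt_succ_iff.1 a.2)
  choose f hf1 hf2 using h1
  have hinj : Function.Injective f := by
    intro a b hab
    apply Fin.ext
    rw [← hf1 a, ← hf1 b, hab]
  have h2 : (univ.image f).card ≤ σᶜ.card := by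
    refine card_le_card fun v hv => ?_
    rw [mem_image] at hv
    obtain ⟨a, -, rfl⟩ := hv
    rw [mem_compl]
    exact hf2 a
  rw [card_image_of_injective _ hinj, card_univ, Fintype.card_fin, card_compl,
    Fintype.card_fin] at h2
  have h3 : q * (i + 1) = q * i + q := by ring
  omega

end Pool.Agent.H861.GL
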