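import Pool.Agent.H861.GL.ExC
import Pool.Agent.H861.GL.UqA
import Pool.Agent.H861.GL.UqS
import Pool.Agent.H861.GL.UqB
import Pool.Agent.H861.GL.UqC
import Pool.Agent.H861.GL.UqD

/-!
# GL/Uq: uniqueness of the sphere with the minimal g-numbers
-/

set_option autoImplicit false

namespace Pool.Agent.H861.GL

open Finset Pool.Agent.W555.KS Pool.Agent.Y131.KS

theorem iso_of_f {n i q r : ℕ} (hr : 1 ≤ r) (hri : r ≤ i) {K : Finset (Finset (Fin n))}
    (hK : HSph K (q * i + r)) (hmf : MF K i)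
    (hf : ∀ m, (K.filter (fun σ => σ.card = m)).card =
      ((minSphere i q r).filter (fun σ => σ.card = m)).card) :
    ∃ e : Fin (q * (i + 1) + (r + 1)) ↪ Fin n, ∀ σ, σ ∈ K ↔
      ∃ ρ ∈ minSphere i q r, ρ.map e = σ := by
  classical
  obtain ⟨hv, T₀, N, h1, h2, h3, h4, h5, h6⟩ := missing_of_f hr hri hK.cx hmf hf
  have hMc : (insert T₀ N).card = q + 1 := by rw [card_insert_of_notMem h4, h3]
  have hvx : ∀ σ ∈ K, σ ⊆ vx K := fun σ hσ v hvσ =>
    mem_vx.2 (hK.cx.2 _ hσ _ (singleton_subset_iff.2 hvσ))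
  have hd := disj_missing hK.cx (d := q * i + r) (c := q + 1)
    (fun σ hσ => ExCaux.ex_facet hK hσ) hK.card_le (by rw [hv]; ring) (insert T₀ N) hMc h5 h6
  refine iso_of_disj hri (vx K) T₀ N h1 h2 h3 h4 hd (fun T hT => (h5 T hT).1) hv fun σ => ?_
  constructor
  · intro hσ
    exact ⟨hvx σ hσ, fun T hT hTσ => (h5 T hT).2 (hK.cx.2 _ hσ _ hTσ)⟩
  · rintro ⟨hσ, hT⟩
    by_contra hσK
    obtain ⟨T, hTM, hTσ⟩ := h6 σ hσ hσK
    exact hT T hTM hTσ

theorem unique_min {n i q r : ℕ} (hr : 1 ≤ r) (hri : r ≤ i) {K : Finset (Finset (Fin n))}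
    (hK : HSph K (q * i + r)) (hmf : MF K i)
    (hg : ∀ j, 2 * j ≤ q * i + r →
      gco (hP K (q * i + r)) j = gco (hP (minSphere i q r) (q * i + r)) j) :
    ∃ e : Fin (q * (i + 1) + (r + 1)) ↪ Fin n, ∀ σ, σ ∈ K ↔
      ∃ ρ ∈ minSphere i q r, ρ.map e = σ :=
  iso_of_f hr hri hK hmf fun m => card_eq_of_hP hK.card_le (card_min i q r hri)
    (hP_eq_of_g (sym_hP hK) (sym_min i q r hri) hg) m

end Pool.Agent.H861.GL
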