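import Pool.Agent.H861.GL.Defs3
import Pool.Agent.H861.GL.ExA
import Pool.Agent.H861.GL.ExB
import Pool.Agent.H861.GL.ExC
import Pool.Agent.H861.GL.RelB
import Pool.Agent.H861.GL.RelC

/-!
# GL/ZZe: exactness

`W = nonadj K u`, the set of the vertices `w` of `K` with `{u, w} ∉ K` (so `u ∉ W` as `{u} ∈ K`).
Proofs by helper972 following the proof of helper861.
-/

set_option autoImplicit false

namespace Pool.Agent.H861.GL

open Finset Pool.Agent.W555.KS Pool.Agent.Y131.KS

namespace ZZeaux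

section
variable {n d : ℕ} {K : Finset (Finset (Fin n))} {k : Type} [Field k]

/-- (0) faces not in the star of `u` contain a vertex not adjacent to `u` -/
theorem exists_nonadj (hK : IsCx K) (hf : Flag K) {u : Fin n}
    (hu : ({u} : Finset (Fin n)) ∈ K) {G : Finset (Fin n)} (hG : G ∈ K) (h : G ∪ {u} ∉ K) :
    ∃ w ∈ G, w ∈ nonadj K u := by
  by_contra hcon
  push Not at hcon
  have hv : ∀ w ∈ G, ({w} : Finset (Fin n)) ∈ K := fun w hw =>
    hK.2 G hG _ (singleton_subset_iff.2 hw)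
  have hadj : ∀ w ∈ G, ({u, w} : Finset (Fin n)) ∈ K := by
    intro w hw
    by_contra h1
    exact hcon w hw (mem_nonadj.2 ⟨hv w hw, h1⟩)
  apply h
  apply hf
  intro a ha b hb
  rw [mem_union, mem_singleton] at ha hb
  rcases ha with ha | rfl
  · rcases hb with hb | rfl
    · refine hK.2 G hG _ ?_
      intro x hx
      rw [mem_insert, mem_singleton] at hx
      rcases hx with rfl | rfl
      · exact ha
      · exact hb
    · rw [pair_comm]
      exact hadj a ha
  · rcases hb with hb | rfl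
    · exact hadj b hb
    · rw [pair_eq_singleton]
      exact hu

theorem not_mem_of_nonadj (hK : IsCx K) {u w : Fin n} (hw : w ∈ nonadj K u)
    {G : Finset (Fin n)} (hG : {w} ⊆ G) : G ∪ {u} ∉ K := by
  intro h
  refine (mem_nonadj.1 hw).2 (hK.2 _ h _ ?_)
  intro x hx
  rw [mem_insert, mem_singleton] at hx
  rw [mem_union, mem_singleton]
  rcases hx with rfl | rfl
  · exact Or.inr rfl
  · exact Or.inl (hG (mem_singleton_self _))

/-- (1) the sum is in `PR` -/
theorem sum_mem (hK : IsCx K) {u : Fin n} {j : ℕ} {Λ : Fin n → Finset (Fin n) → Fn n k}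
    (h1 : ∀ w, Λ w ∈ PP k K {w} j) (h2 : ∀ w, w ∉ nonadj K u → Λ w = 0) :
    ∑ w, Λ w ∈ PR k K {u} j := by
  refine Submodule.sum_mem _ fun w _ => ?_
  by_cases hw : w ∈ nonadj K u
  · intro G α h
    obtain ⟨a1, a2, a3, a4⟩ := mem_PP.1 (h1 w) G α h
    exact ⟨a1, not_mem_of_nonadj hK hw a2, a3, a4⟩
  · rw [h2 w hw]
    exact Submodule.zero_mem _

/-- (1) the sum map is onto -/
theorem sum_onto (hK : IsCx K) (hf : Flag K) {u : Fin n} (hu : ({u} : Finset (Fin n)) ∈ K)
    {j : ℕ} {p : Finset (Fin n) → Fn n k} (hp : p ∈ PR k K {u} j) :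
    ∃ q : Fin n → Finset (Fin n) → Fn n k, (∀ w, q w ∈ PP k K {w} j) ∧
      (∀ w, w ∉ nonadj K u → q w = 0) ∧ ∑ w, q w = p := by
  classical
  have hex : ∀ G : Finset (Fin n), ∃ w : Option (Fin n), (∀ v, w = some v → v ∈ G ∧
      v ∈ nonadj K u) ∧ (w = none → p G = 0) := by
    intro G
    by_cases h0 : p G = 0
    · exact ⟨none, fun v hv => (by simp at hv), fun _ => h0⟩
    · obtain ⟨α, hα⟩ : ∃ α, p G α ≠ 0 := by
        by_contra hcon
        push Not at hcon
        exact h0 (funext hcon)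
      obtain ⟨a1, a2, -, -⟩ := mem_PR.1 hp G α hα
      obtain ⟨w, hw1, hw2⟩ := exists_nonadj hK hf hu a1 a2
      refine ⟨some w, fun v hv => ?_, fun h => (by simp at h)⟩
      rw [Option.some.injEq] at hv
      subst hv
      exact ⟨hw1, hw2⟩
  choose W hW1 hW2 using hex
  refine ⟨fun w G => if W G = some w then p G else 0, ?_, ?_, ?_⟩
  · intro w G α h
    simp only at h
    split_ifs at h with hw
    · obtain ⟨a1, -, a3, a4⟩ := mem_PR.1 hp G α h
      exact ⟨a1, singleton_subset_iff.2 (hW1 G w hw).1, a3, a4⟩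
    · exact absurd rfl h
  · intro w hw
    funext G
    show (if W G = some w then p G else 0) = 0
    rw [if_neg]
    intro h
    exact hw (hW1 G w h).2
  · funext G
    rw [Finset.sum_apply]
    show ∑ w, (if W G = some w then p G else 0) = p G
    rcases hW : W G with _ | v
    · rw [hW2 G hW]
      simp
    · rw [Finset.sum_eq_single v]
      · simp
      · intro b _ hb
        rw [if_neg]
        intro h
        exact hb (Option.some.inj h).symm
      · intro h
        exact absurd (mem_univ v) h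

/-- the vertices in `nonadj` are faces -/
theorem face_of {u w : Fin n} (hw : w ∈ nonadj K u) : ({w} : Finset (Fin n)) ∈ K :=
  (mem_nonadj.1 hw).1

/-- `PP` in degree zero -/
theorem PP_zero {w : Fin n} {Λ : Finset (Fin n) → Fn n k} (h : Λ ∈ PP k K {w} 0) : Λ = 0 := by
  funext G α
  by_contra hne
  obtain ⟨-, a2, a3, -⟩ := mem_PP.1 h G α hne
  rw [card_eq_zero] at a3
  rw [a3, singleton_subset_iff] at a2
  exact absurd a2 (notMem_empty w)

/-- correction of a family of preimages -/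
theorem correct [CharP k 2] (hK : HSph K d) (hf : Flag K) {u : Fin n}
    (hu : ({u} : Finset (Fin n)) ∈ K) {j : ℕ} (hj : j ≤ d)
    {y : Fin n → Finset (Fin n) → Fn n k} (h1 : ∀ w, y w ∈ PP k K {w} j)
    (h2 : ∀ w, w ∉ nonadj K u → y w = 0)
    (h3 : (j < d → dl K (∑ w, y w) = 0) ∧ (j = d → sm (∑ w, y w) = 0)) :
    ∃ y' ∈ ZZ k K (nonadj K u) j, (∀ w, dl K (y' w) = dl K (y w)) ∧
      (j = d → ∀ w, sm (y' w) = sm (y w)) := by
  rcases j with _ | j
  · have h0 : ∀ w, y w = 0 := fun w => PP_zero (h1 w)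
    refine ⟨y, mem_ZZ.2 ⟨h1, h2, ?_⟩, fun w => rfl, fun _ w => rfl⟩
    exact sum_eq_zero fun w _ => h0 w
  · have hP := sum_mem hK.cx h1 h2
    have hex : ∃ p ∈ PR k K {u} j, dl K p = ∑ w, y w := by
      by_cases hjd : j + 1 < d
      · have h4 : ∑ w, y w ∈ (PR k K {u} j).map (dl K) := by
          rw [map_dl_low_rel hK hjd]
          exact ⟨hP, LinearMap.mem_ker.2 (h3.1 hjd)⟩
        exact Submodule.mem_map.1 h4
      · have hjd' : j + 1 = d := by omega
        have h4 : ∑ w, y w ∈ (PR k K {u} j).map (dl K) := by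
          rw [map_dl_top_rel hK hjd']
          exact ⟨hP, LinearMap.mem_ker.2 (h3.2 hjd')⟩
        exact Submodule.mem_map.1 h4
    obtain ⟨p, hp, hpd⟩ := hex
    obtain ⟨q, hq1, hq2, hq3⟩ := sum_onto hK.cx hf hu hp
    refine ⟨fun w => y w - dl K (q w), mem_ZZ.2 ⟨?_, ?_, ?_⟩, ?_, ?_⟩
    · intro w
      exact Submodule.sub_mem _ (h1 w) (dl_mem (hq1 w))
    · intro w hw
      show y w - dl K (q w) = 0
      rw [h2 w hw, hq2 w hw, map_zero, sub_zero]
    · rw [sum_sub_distrib, ← map_sum, hq3, hpd, sub_self]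
    · intro w
      show dl K (y w - dl K (q w)) = dl K (y w)
      rw [map_sub, dl_dl hK.cx, sub_zero]
    · intro hjd w
      show sm (y w - dl K (q w)) = sm (y w)
      rw [map_sub, sm_dl hK hjd (hq1 w), sub_zero]

end

end ZZeaux

section
variable {n d : ℕ} {K : Finset (Finset (Fin n))} {k : Type} [Field k]

open ZZeaux

theorem ZZ_low [CharP k 2] (hK : HSph K d) (hf : Flag K) {u : Fin n}
    (hu : ({u} : Finset (Fin n)) ∈ K) {j : ℕ} (hj : j + 1 < d) :
    (ZZ k K (nonadj K u) j).map (dlW K) =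
      ZZ k K (nonadj K u) (j + 1) ⊓ LinearMap.ker (dlW K) := by
  classical
  apply le_antisymm
  · rintro _ ⟨Λ, hΛ, rfl⟩
    obtain ⟨a1, a2, a3⟩ := mem_ZZ.1 hΛ
    refine ⟨mem_ZZ.2 ⟨fun w => dl_mem (a1 w), fun w hw => ?_, ?_⟩, ?_⟩
    · rw [dlW_apply, a2 w hw, map_zero]
    · have h1 : ∑ w, dlW K Λ w = dl K (∑ w, Λ w) := by
        rw [map_sum]
        rfl
      rw [h1, a3, map_zero]
    · refine LinearMap.mem_ker.2 ?_
      funext w
      rw [dlW_apply, dlW_apply, dl_dl hK.cx]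
      rfl
  · rintro Λ ⟨h1, h2⟩
    obtain ⟨a1, a2, a3⟩ := mem_ZZ.1 h1
    have hker : ∀ w, dl K (Λ w) = 0 := fun w => congrFun (LinearMap.mem_ker.1 h2) w
    have hex : ∀ w, ∃ y ∈ PP k K {w} j, dl K y = Λ w ∧ (w ∉ nonadj K u → y = 0) := by
      intro w
      by_cases hw : w ∈ nonadj K u
      · have h4 : Λ w ∈ (PP k K {w} j).map (dl K) := by
          rw [map_dl_low hK (face_of hw) hj]
          exact ⟨a1 w, LinearMap.mem_ker.2 (hker w)⟩
        obtain ⟨y, hy, hyd⟩ := Submodule.mem_map.1 h4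
        exact ⟨y, hy, hyd, fun h => absurd hw h⟩
      · exact ⟨0, Submodule.zero_mem _, by rw [map_zero, a2 w hw], fun _ => rfl⟩
    choose y hy1 hy2 hy3 using hex
    obtain ⟨y', hy'1, hy'2, -⟩ := correct hK hf hu (by omega : j ≤ d) hy1 hy3
      ⟨fun _ => by rw [map_sum, sum_congr rfl fun w _ => hy2 w, a3], fun h => by omega⟩
    refine ⟨y', hy'1, ?_⟩
    funext w
    rw [dlW_apply, hy'2, hy2]

theorem ZZ_top [CharP k 2] (hK : HSph K d) (hf : Flag K) {u : Fin n}
    (hu : ({u} : Finset (Fin n)) ∈ K) {j : ℕ} (hj : j + 1 = d) :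
    (ZZ k K (nonadj K u) j).map (dlW K) =
      ZZ k K (nonadj K u) (j + 1) ⊓ LinearMap.ker smW := by
  classical
  apply le_antisymm
  · rintro _ ⟨Λ, hΛ, rfl⟩
    obtain ⟨a1, a2, a3⟩ := mem_ZZ.1 hΛ
    refine ⟨mem_ZZ.2 ⟨fun w => dl_mem (a1 w), fun w hw => ?_, ?_⟩, ?_⟩
    · rw [dlW_apply, a2 w hw, map_zero]
    · have h1 : ∑ w, dlW K Λ w = dl K (∑ w, Λ w) := by
        rw [map_sum]
        rfl
      rw [h1, a3, map_zero]
    · refine LinearMap.mem_ker.2 ?_
      funext w
      rw [smW_apply, dlW_apply, sm_dl hK hj (a1 w)]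
      rfl
  · rintro Λ ⟨h1, h2⟩
    obtain ⟨a1, a2, a3⟩ := mem_ZZ.1 h1
    have hker : ∀ w, sm (Λ w) = 0 := fun w => congrFun (LinearMap.mem_ker.1 h2) w
    have hex : ∀ w, ∃ y ∈ PP k K {w} j, dl K y = Λ w ∧ (w ∉ nonadj K u → y = 0) := by
      intro w
      by_cases hw : w ∈ nonadj K u
      · have h4 : Λ w ∈ (PP k K {w} j).map (dl K) := by
          rw [map_dl_top hK (face_of hw) hj]
          exact ⟨a1 w, LinearMap.mem_ker.2 (hker w)⟩
        obtain ⟨y, hy, hyd⟩ := Submodule.mem_map.1 h4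
        exact ⟨y, hy, hyd, fun h => absurd hw h⟩
      · exact ⟨0, Submodule.zero_mem _, by rw [map_zero, a2 w hw], fun _ => rfl⟩
    choose y hy1 hy2 hy3 using hex
    obtain ⟨y', hy'1, hy'2, -⟩ := correct hK hf hu (by omega : j ≤ d) hy1 hy3
      ⟨fun _ => by rw [map_sum, sum_congr rfl fun w _ => hy2 w, a3], fun h => by omega⟩
    refine ⟨y', hy'1, ?_⟩
    funext w
    rw [dlW_apply, hy'2, hy2]

theorem ZZ_sm [CharP k 2] (hK : HSph K d) (hf : Flag K) {u : Fin n}
    (hu : ({u} : Finset (Fin n)) ∈ K) :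
    (ZZ k K (nonadj K u) d).map smW = NN k K (nonadj K u) := by
  classical
  apply le_antisymm
  · rintro _ ⟨Λ, hΛ, rfl⟩
    obtain ⟨a1, a2, a3⟩ := mem_ZZ.1 hΛ
    refine mem_NN.2 ⟨fun w => ?_, fun w hw => ?_, ?_⟩
    · rw [smW_apply]
      by_cases hw : w ∈ nonadj K u
      · rw [← map_sm hK (face_of hw)]
        exact Submodule.mem_map_of_mem (a1 w)
      · rw [a2 w hw, map_zero]
        exact Submodule.zero_mem _
    · rw [smW_apply, a2 w hw, map_zero]
    · have h1 : ∑ w, smW Λ w = sm (∑ w, Λ w) := by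
        rw [map_sum]
        rfl
      rw [h1, a3, map_zero]
  · intro x hx
    obtain ⟨a1, a2, a3⟩ := mem_NN.1 hx
    have hex : ∀ w, ∃ y ∈ PP k K {w} d, sm y = x w ∧ (w ∉ nonadj K u → y = 0) := by
      intro w
      by_cases hw : w ∈ nonadj K u
      · have h4 : x w ∈ (PP k K {w} d).map sm := by
          rw [map_sm hK (face_of hw)]
          exact a1 w
        obtain ⟨y, hy, hyd⟩ := Submodule.mem_map.1 h4
        exact ⟨y, hy, hyd, fun h => absurd hw h⟩
      · exact ⟨0, Submodule.zero_mem _, by rw [map_zero, a2 w hw], fun _ => rfl⟩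
    choose y hy1 hy2 hy3 using hex
    obtain ⟨y', hy'1, -, hy'2⟩ := correct hK hf hu le_rfl hy1 hy3
      ⟨fun h => absurd h (lt_irrefl d), fun _ => by
        rw [map_sum, sum_congr rfl fun w _ => hy2 w, a3]⟩
    refine ⟨y', hy'1, ?_⟩
    funext w
    rw [smW_apply, hy'2 rfl, hy2]

end

end Pool.Agent.H861.GL
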